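import Pool.Agent.H17.CF.F.Cdf

/-!
# CF-F13: the interface
-/

set_option autoImplicit false
set_option linter.unusedVariables false
set_option linter.unusedSectionVars false
set_option linter.unusedSimpArgs false
set_option linter.unusedTactic false
set_option linter.unreachableTactic false

open Pool.Agent.H17.Omega Pool.Agent.H17.Omega.CTM Pool.Agent.H52.GC Pool.Agent.H7.IG

namespace Pool.Agent.H17.CF

variable {M : Set ZFSet.{0}} {κ Ω lam : Ordinal.{0}} {s : ZFSet.{0}} {G : Set ZFSet.{0}}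

theorem exists_cd (h : St M κ Ω lam s G) : Nonempty (Cd (ExtZ M G) κ) := by
  obtain ⟨e, he⟩ := exists_en h.bk.cv.hM h.bk.cv.hΩ
  have hcv := st_cv h
  refine ⟨{
    hN := h.fr.ctm
    hκN := hcv.hκN
    hκω := hcv.hκω
    hκ := hcv.hκ
    Ω := Ω
    hΩ := hcv.hΩ
    hΩκ := hcv.hΩκ
    lam := lam
    hlamN := hcv.hlamN
    hlamκ := hcv.hlamκ
    hlam := hcv.hlam
    hcov := hcv.hcov
    Act := AcR lam G
    act_lt := fun x hx => ⟨hx.1, hx.2.1⟩
    act3 := fun μ hμ r hr => ⟨hμ, by omega, st_act3 h hμ hr⟩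
    xr := xrR lam s
    xr_uni := fun μ y z h1 h2 => xrR_uni h h1 h2
    xr_lt := fun μ y h1 => xrR_lt h h1
    mr := mrR lam s
    mr_uni := fun μ θ F θ' F' h1 h2 => mrR_uni h h1 h2
    mr_lt := fun μ θ F h1 => mrR_lt h h1
    mr_act := fun μ h1 => mrR_act h h1
    Ed := EdR lam s G
    ed_iff := fun x y => Iff.rfl
    Cl := ClR lam s G
    cl_iff := fun c => Iff.rfl
    A := fun X => AR M Ω lam s G X
    A_sub := fun X c hc => hc.1
    A_up := fun X hX hXN c hc c' hc' hcc => ar_up h hX hXN hc hc' hcc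
    A_R := fun X Y hX hXN hY hYN => ar_R h hX hXN hY hYN
    A_mul := fun X Y hX hXN hY hYN => ar_mul h hX hXN hY hYN
    T := fun x => TT κ Ω G e x.1.toZFSet x.2
    T_tree := fun x hx => tt_tree h he hx.1 hx.2.1 hx.2.2
    A_T := fun x hx c => ar_T h he hx c
    T_mem := ?_
    act_mem := ?_
    bdd := fun S hS => ar_bdd h hS
    bk2 := ?_
    bk3 := ?_ }⟩
  · obtain ⟨z, hz, hz'⟩ := tt_mem h he
    exact ⟨z, hz, fun μ r w hμ => hz' μ r hμ.1 hμ.2.1 w⟩
  · obtain ⟨z, hz, hz'⟩ := act_set h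
    exact ⟨z, hz, fun μ r => hz' μ r⟩
  · intro x hx α hα
    obtain ⟨μ, h1, h2, h3⟩ := st_bk2 h hx.1 hx.2.1 hα
    exact ⟨μ, h1, h2, h2, h3⟩
  · intro Y hY
    obtain ⟨θ, h1, h2, h3⟩ := st_bk3 h hY
    refine ⟨θ, h1, h2, fun F hF hFs => ?_⟩
    rw [← h3 F hF hFs]
    constructor
    · rintro ⟨μ, h4, h5, h6⟩
      exact ⟨μ, h4.1, h4.2.2, h6⟩
    · rintro ⟨μ, h4, h5, h6⟩
      exact ⟨μ, ⟨h4, by norm_num, h5⟩, h4, h6⟩

end Pool.Agent.H17.CF
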