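import Pool.Agent.H17.CF.F.Defs

/-!
# CF-F1: good filters

`S = Sn Ω s lam`, `G` generic for `(S, ≤_∅)` over `M`. All preorders belong to `M` (`Sn_mem`, `Ln_mem`), `Ln_pre`.

PROOFS.
`exists_good`. Claim: if `q ∈ G` and `D ∈ M` is dense in `(S, ≤_c)` then there is `q' ∈ G ∩ D`, `q' ≤_c q`. Proof: the set
`W = {r ∈ S : ∃ q' ∈ D, q' ≤_c q ∧ r ≤_∅ q'}` is definable and dense below `q` in `(S, ≤_∅)`: let `r ≤_∅ q`; by `LE.transl`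
(`trp_mem_Sn`; the translation `K` is finite with rows of `q`) there is `r' = trp K r ⊇ q`, `r' ≤_∅ r`, so `r' ≤_c q`; let
`q' ∈ D`, `q' ≤_c r'`; then `q' ≤_c q`, `q' ≤_∅ r` and `q' ∈ W`. So (`Fr.gen_dfn`) some `r ∈ G ∩ W`, and its `q' ∈ G`
(`gen.up`).
`M` is countable: enumerate the dense sets of `(S, ≤_c)` in `M`: `D_0, D_1, ...` and choose `q = q_0 ≥_c q_1 ≥_c ...` in `G`, `q_{n+1} ∈ D_n`.
`H = {p ∈ S : ∃ n, q_n ≤_c p}` (as in `exists_genF` of FX/Ev.lean).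

`good_up0`: `q ∈ S`: `q ∈ G ↔ ∃ p ∈ H, p ≤_∅ q`. `←`: `H ⊆ G`. `→`: the set `{p : p ≤_∅ q or p is ≤_∅-incompatible with q}` is dense
in `(S, ≤_c)`: let `r ∈ S`; if `r` is not incompatible with `q` let `u ≤_∅ r, q`; by `LE.transl` `u' = trp K u ⊇ r`, `u' ≤_c r`,
`u' ≤_∅ u ≤_∅ q`. So some `p ∈ H` is in it; `p, q ∈ G` are compatible (`fr.gen.dir`), so `p ≤_∅ q`.

`good_ext`: `M[G] ⊆ M[H]` by `Fr.min`: `{q ∈ S : ∃ p ∈ H, p ≤_∅ q} ∈ M[H]` (`h.mem_g`, `PD.sep`, `Df.LE` in `M[H]`).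
-/

set_option autoImplicit false
set_option linter.unusedVariables false
set_option linter.unusedSectionVars false
set_option linter.unusedSimpArgs false
set_option linter.unusedTactic false
set_option linter.unreachableTactic false

open Pool.Agent.H17.Omega Pool.Agent.H17.Omega.CTM Pool.Agent.H52.GC Pool.Agent.H7.IG

namespace Pool.Agent.H17.CF

variable {M : Set ZFSet.{0}} {κ Ω lam : Ordinal.{0}} {s : ZFSet.{0}} {G : Set ZFSet.{0}}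

theorem goodA_step (h : St M κ Ω lam s G) {c : ZFSet.{0}} (hc : c ∈ M) {D : ZFSet.{0}} (hD : D ∈ M)
    (hd : ∀ p ∈ Sn Ω s lam.toZFSet, ∃ q' ∈ D, ZFSet.pair q' p ∈ Ln Ω s lam.toZFSet c) {q : ZFSet.{0}} (hq : q ∈ G) :
    ∃ q' ∈ G, q' ∈ D ∧ ZFSet.pair q' q ∈ Ln Ω s lam.toZFSet c := by
  have hM := h.fr.hM
  have hω : Ordinal.omega0 ≤ Ω := om_le h.bk.cv.hM h.bk.cv.hΩ
  have hlam : lam.toZFSet.IsOrdinal := ZFSet.isOrdinal_toZFSet _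
  have hRc : Ln Ω s lam.toZFSet c ∈ M := Ln_mem hM h.bk.cv.hΩ.mem h.bk.hs h.bk.cv.hlamN hc
  have hqS := h.fr.gen.sub q hq
  have hqM := hM.mem_of_mem h.fr.hP hqS
  have hE : ∀ p ∈ Sn Ω s lam.toZFSet, IsE p := fun p hp => ((mem_Sn hω).1 hp).1.isE
  obtain ⟨q₁, hq₁, q', hq'D, h1, h2⟩ := h.fr.gen_dfn (D := fun r : M => ∃ q' ∈ D,
      ZFSet.pair q' q ∈ Ln Ω s lam.toZFSet c ∧ ZFSet.pair r.1 q' ∈ Ln Ω s lam.toZFSet ∅)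
    (Df.bex (P := fun v q' => ZFSet.pair q' q ∈ Ln Ω s lam.toZFSet c ∧
        ZFSet.pair (v 0).1 q' ∈ Ln Ω s lam.toZFSet ∅) (PD.const hD)
      (Dfn.and (Df.mem (PD.pair (PD.var 1) (PD.const hqM)) (PD.const hRc))
        (Df.mem (PD.pair (PD.var 0) (PD.var 1)) (PD.const h.fr.hR)))) hq (by
    intro r hr
    obtain ⟨hrS, -, hrq⟩ := mem_Ln.1 hr
    obtain ⟨K, hK, hsub, hle, -⟩ := LE.transl (hE q hqS) (hE r.1 hrS) hrq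
    have hr'S : trp K r.1 ∈ Sn Ω s lam.toZFSet := trp_mem_Sn hω hlam hK hrS
    obtain ⟨q', hq'D, hq'⟩ := hd _ hr'S
    obtain ⟨hq'S, -, hq'le⟩ := mem_Ln.1 hq'
    refine ⟨⟨q', hM.mem_of_mem hD hq'D⟩, mem_Ln.2 ⟨hq'S, hrS, hq'le.to0.trans hle⟩, q', hq'D,
      mem_Ln.2 ⟨hq'S, hqS, hq'le.trans (LE.of_sub hsub)⟩, mem_Ln.2 ⟨hq'S, hq'S, LE.refl _ _ _⟩⟩)
  exact ⟨q', h.fr.gen.up _ hq₁ _ h2, hq'D, h1⟩

theorem exists_good (h : St M κ Ω lam s G) {c q : ZFSet.{0}} (hc : c ∈ M) (hq : q ∈ G) :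
    ∃ H, Gd M Ω lam s G c H ∧ q ∈ H := by
  have hM := h.fr.hM
  have hRc : Ln Ω s lam.toZFSet c ∈ M := Ln_mem hM h.bk.cv.hΩ.mem h.bk.hs h.bk.cv.hlamN hc
  have po : Pre (Sn Ω s lam.toZFSet) (Ln Ω s lam.toZFSet c) := Ln_pre _ _
  obtain ⟨e, he⟩ := hM.countable.exists_eq_range ⟨∅, hM.empty_mem⟩
  have step : ∀ (n : ℕ) (x : {x : ZFSet.{0} // x ∈ G}), ∃ y : {x : ZFSet.{0} // x ∈ G},
      ZFSet.pair y.1 x.1 ∈ Ln Ω s lam.toZFSet c ∧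
      ((∀ p ∈ Sn Ω s lam.toZFSet, ∃ b ∈ e n, ZFSet.pair b p ∈ Ln Ω s lam.toZFSet c) → y.1 ∈ e n) := by
    intro n x
    by_cases hd : ∀ p ∈ Sn Ω s lam.toZFSet, ∃ b ∈ e n, ZFSet.pair b p ∈ Ln Ω s lam.toZFSet c
    · have hen : e n ∈ M := by rw [he]; exact ⟨n, rfl⟩
      obtain ⟨q', h1, h2, h3⟩ := goodA_step h hc hen hd x.2
      exact ⟨⟨q', h1⟩, h3, fun _ => h2⟩
    · exact ⟨x, po.refl _ (h.fr.gen.sub _ x.2), fun h' => (hd h').elim⟩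
  choose t ht1 ht2 using step
  let qs : ℕ → {x : ZFSet.{0} // x ∈ G} := fun n => Nat.rec ⟨q, hq⟩ (fun n x => t n x) n
  have hqs : ∀ n, ZFSet.pair (qs (n + 1)).1 (qs n).1 ∈ Ln Ω s lam.toZFSet c := fun n => ht1 n (qs n)
  have hmono : ∀ m n, m ≤ n → ZFSet.pair (qs n).1 (qs m).1 ∈ Ln Ω s lam.toZFSet c := by
    intro m n hmn
    induction n, hmn using Nat.le_induction with
    | base => exact po.refl _ (h.fr.gen.sub _ (qs m).2)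
    | succ n _ ih => exact po.trans _ _ _ (hqs n) ih
  have hself : ∀ n, ∃ m, ZFSet.pair (qs m).1 (qs n).1 ∈ Ln Ω s lam.toZFSet c :=
    fun n => ⟨n, po.refl _ (h.fr.gen.sub _ (qs n).2)⟩
  refine ⟨{p | ∃ n, ZFSet.pair (qs n).1 p ∈ Ln Ω s lam.toZFSet c}, ⟨⟨hM, h.fr.hP, hRc, po,
    ⟨?_, ⟨_, hself 0⟩, ?_, ?_, ?_⟩⟩, ?_⟩, hself 0⟩
  · rintro p ⟨n, hn⟩
    exact (mem_Ln.1 hn).2.1
  · rintro p ⟨n, hn⟩ r hr
    exact ⟨n, po.trans _ _ _ hn hr⟩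
  · rintro p ⟨n, hn⟩ r ⟨m, hm⟩
    exact ⟨(qs (max n m)).1, hself (max n m), po.trans _ _ _ (hmono _ _ (le_max_left _ _)) hn,
      po.trans _ _ _ (hmono _ _ (le_max_right _ _)) hm⟩
  · intro D hD hd
    rw [he] at hD
    obtain ⟨n, rfl⟩ := hD
    exact ⟨(qs (n + 1)).1, hself (n + 1), ht2 n (qs n) hd⟩
  · rintro p ⟨n, hn⟩
    obtain ⟨h1, h2, h3⟩ := mem_Ln.1 hn
    exact h.fr.gen.up _ (qs n).2 _ (mem_Ln.2 ⟨h1, h2, h3.to0⟩)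

theorem good_up0 (h : St M κ Ω lam s G) {c : ZFSet.{0}} (hc : c ∈ M) {H : Set ZFSet.{0}} (hH : Gd M Ω lam s G c H)
    {q : ZFSet.{0}} (hq : q ∈ Sn Ω s lam.toZFSet) : q ∈ G ↔ ∃ p ∈ H, LE Ω ∅ p q := by
  have hM := h.fr.hM
  have hω : Ordinal.omega0 ≤ Ω := om_le h.bk.cv.hM h.bk.cv.hΩ
  have hlam : lam.toZFSet.IsOrdinal := ZFSet.isOrdinal_toZFSet _
  have hΩM := h.bk.cv.hΩ.mem
  have hE : ∀ p ∈ Sn Ω s lam.toZFSet, IsE p := fun p hp => ((mem_Sn hω).1 hp).1.isE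
  have hqM := hM.mem_of_mem h.fr.hP hq
  constructor
  · intro hqG
    have hD : ZFSet.sep (fun p => LE Ω ∅ p q ∨ ∀ r ∈ Sn Ω s lam.toZFSet, LE Ω ∅ r p → ¬ LE Ω ∅ r q)
        (Sn Ω s lam.toZFSet) ∈ M :=
      (PD.sep (hN := hM) (n := 0)
        (P := fun v p => LE Ω ∅ p q ∨ ∀ r ∈ Sn Ω s lam.toZFSet, LE Ω ∅ r p → ¬ LE Ω ∅ r q)
        (PD.const h.fr.hP)
        (Dfn.or (Df.LE hΩM (PD.const hM.empty_mem) (PD.var 0) (PD.const hqM))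
          (Df.ball (P := fun v r => LE Ω ∅ r (v 0).1 → ¬ LE Ω ∅ r q) (PD.const h.fr.hP)
            (Dfn.imp (Df.LE hΩM (PD.const hM.empty_mem) (PD.var 1) (PD.var 0))
              (Dfn.not (Df.LE hΩM (PD.const hM.empty_mem) (PD.var 1) (PD.const hqM))))))).1 Fin.elim0
    obtain ⟨p, hp, hpD⟩ := hH.fr.gen.gen _ hD (by
      intro r hr
      by_cases hinc : ∀ u ∈ Sn Ω s lam.toZFSet, LE Ω ∅ u r → ¬ LE Ω ∅ u q
      · exact ⟨r, ZFSet.mem_sep.2 ⟨hr, Or.inr hinc⟩, mem_Ln.2 ⟨hr, hr, LE.refl _ _ _⟩⟩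
      · push Not at hinc
        obtain ⟨u, huS, hur, huq⟩ := hinc
        obtain ⟨K, hK, hsub, hle, -⟩ := LE.transl (hE r hr) (hE u huS) hur
        have hu'S : trp K u ∈ Sn Ω s lam.toZFSet := trp_mem_Sn hω hlam hK huS
        exact ⟨trp K u, ZFSet.mem_sep.2 ⟨hu'S, Or.inl (hle.trans huq)⟩,
          mem_Ln.2 ⟨hu'S, hr, LE.of_sub hsub⟩⟩)
    obtain ⟨hpS, h1⟩ := ZFSet.mem_sep.1 hpD
    refine ⟨p, hp, ?_⟩
    rcases h1 with h1 | h1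
    · exact h1
    · obtain ⟨r, hr, h2, h3⟩ := h.fr.gen.dir p (hH.sub p hp) q hqG
      exact absurd (mem_Ln.1 h3).2.2 (h1 r (h.fr.gen.sub r hr) (mem_Ln.1 h2).2.2)
  · rintro ⟨p, hp, hle⟩
    exact h.fr.gen.up p (hH.sub p hp) q (mem_Ln.2 ⟨hH.fr.gen.sub p hp, hq, hle⟩)

theorem good_ext (h : St M κ Ω lam s G) {c : ZFSet.{0}} (hc : c ∈ M) {H : Set ZFSet.{0}} (hH : Gd M Ω lam s G c H) :
    ExtZ M G ⊆ ExtZ M H := by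
  have hN := hH.fr.ctm
  have hsub := hH.fr.sub
  obtain ⟨γ, hγ, hγ'⟩ := hH.fr.mem_g
  refine h.fr.min hN hsub (γ := ZFSet.sep (fun q => ∃ p ∈ γ, LE Ω ∅ p q) (Sn Ω s lam.toZFSet)) ?_ ?_
  · exact (PD.sep (hN := hN) (n := 0) (P := fun v q => ∃ p ∈ γ, LE Ω ∅ p q) (PD.const (hsub h.fr.hP))
      (Df.bex (P := fun v p => LE Ω ∅ p (v 0).1) (PD.const hγ)
        (Df.LE (hsub h.bk.cv.hΩ.mem) (PD.const hN.empty_mem) (PD.var 1) (PD.var 0)))).1 Fin.elim0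
  · intro z
    rw [ZFSet.mem_sep]
    constructor
    · rintro ⟨hz, p, hp, hle⟩
      exact (good_up0 h hc hH hz).2 ⟨p, (hγ' p).1 hp, hle⟩
    · intro hz
      have hzS := h.fr.gen.sub z hz
      obtain ⟨p, hp, hle⟩ := (good_up0 h hc hH hzS).1 hz
      exact ⟨hzS, p, (hγ' p).2 hp, hle⟩

end Pool.Agent.H17.CF
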