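import Pool.Agent.H17.CF.F.Nam
import Pool.Agent.H17.CF.F.GoodA
import Pool.Agent.H17.CF.B.Add
import Pool.Agent.H17.CF.C.Seq

/-!
# CF-F7: coding of sets of finite sets by the marker rows

Notation: `B = Bs κ = (κ · ω).toZFSet`; `κ · ω < lam` (`bs_lt`: `κ · ω` has size at most `κ` in `M`: pairs `(n, ξ) ↦ κ · n + ξ`; see
CF/D/Mul.lean (job CFD-1b): there is already a theorem of this kind; otherwise if `lam ≤ κ · ω` then `lam` would have size `≤ κ`).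

`bk3`: let `Y ∈ N = M[G]`. `Y' = Y ∩ finS B ∈ N`; `finS B ∈ M` has size `≤ κ` (`cvr_fin`). By `bdd_name` there are `α < lam` and
`ζ ∈ M`, `ζ ⊆ finS B × Sn Ω s α` with `vv G ζ = Y'`. Let `α' = max α (κ · ω)`. `VI M Ω B s α' ζ ∅ ∅ ∅` holds (`Sn Ω s α ⊆ finS (Ent Ω α')`).
By `Bk.bk` there is `θ`, `α' ≤ θ < lam`, `(θ, ins ζ ∅ ∅ ∅) ∈ s`. Claim: this `θ` works. Let `F ∈ finS B`.
`→`: let `sm s μ θ F` and `q ∈ G` with an entry in the row `(μ, 3)`. By `IsC.mkr`, `Act Ω s μ (rst q μ)`: there are `θ', F', X, q'`,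
`sm s μ θ' F'`, `sX s θ' X`, `(F', q') ∈ X`, `rst q μ ≤_∅ q'`. By uniqueness (`Vld.uni`, injectivity of `ins` and `pair`) `θ' = θ`,
`F' = F`, `X = ζ`; so `q' ∈ Sn Ω s α` and `q ≤_∅ rst q μ ≤_∅ q'`, `q' ∈ G`, `F ∈ vv G ζ = Y'`.
`←`: let `F ∈ Y`, so there is `q' ∈ G`, `(F, q') ∈ ζ`. `VI M Ω B s (θ+1) ∅ ∅ (θ, F) ∅` holds, so there is `μ ≥ θ + 1`, `μ < lam`, with
`(μ, ins ∅ ∅ (θ, F) ∅) ∈ s` and `sm s μ θ F`. The set of the `q` with an entry in the row `(μ, 3)` is dense below `q'` in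
`(Sn lam, ≤_∅)`: let `q ≤_∅ q'`; `rst q μ ≤_∅ q'` (`LE.rst`, `rst_eq`, `q' ∈ Sn Ω s α`, `α ≤ μ`), so `Act Ω s μ (rst q μ)` and `add_any` applies
(with the level `ω`, `ω ∈ LvZ Ω`). So `G` contains such a `q`.

`bk2`: for a tree row `x = row ν r`, `ν < lam`, `r < 4`, and `α < lam` there is `μ ≥ α`, `ν < μ < lam` with `sx s μ x`: `VI .. (ν+1) ∅ x ∅ ∅`.

`act3` (rows `r < 3` are active): for `μ < lam`, `r < 3` there is `q ∈ G` with an entry in `row μ r`: density by `add_any`.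
`act_level`: if the row `(μ, r)`, `r < 4`, is active in `G`, then for every `y ∈ LvZ Ω` and every `p ∈ G` there is `q ∈ G`, `q ≤_∅ p`, with an
entry `ent (row μ r) y z`; moreover for every `c`-good `H` and `p ∈ H` there is such a `q ∈ H`, `q ≤_c p`. (Let `q₀ ∈ G` have an
entry in the row, so if `r = 3` then `Act Ω s μ (rst q₀ μ)`; for `H`: by genericity `H` meets the `≤_c`-dense set of the
`q` with `q ≤_∅ q₀` or `q` incompatible with `q₀` (density as in CF-F1 `good_up0`), so there is `q₁ ∈ H`, `q₁ ≤_∅ q₀`, below `p`;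
`Act Ω s μ (rst q₁ μ)` by `Act.mono`, `LE.rst`; below `q₁` the set of the conditions with an entry at `y` is dense by
`add_any` (the new condition contains the old one, so it is `≤_c`).)
-/

set_option autoImplicit false
set_option linter.unusedVariables false
set_option linter.unusedSectionVars false
set_option linter.unusedSimpArgs false
set_option linter.unusedTactic false
set_option linter.unreachableTactic false

open Pool.Agent.H17.Omega Pool.Agent.H17.Omega.CTM Pool.Agent.H52.GC Pool.Agent.H7.IG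

namespace Pool.Agent.H17.CF

variable {M : Set ZFSet.{0}} {κ Ω lam : Ordinal.{0}} {s : ZFSet.{0}} {G : Set ZFSet.{0}}

/-- The row `ρ` is active in `G`. -/
def IsAct (G : Set ZFSet.{0}) (ρ : ZFSet.{0}) : Prop := ∃ q ∈ G, ∃ y z, ent ρ y z ∈ q

theorem bs_lt (h : Cv M κ Ω lam) : κ * Ordinal.omega0 < lam := om_lt h

theorem bkk_om (hM : CTM M) (hΩ : IsOm1 M Ω) : (omZ : ZFSet.{0}) ∈ LvZ Ω := by
  rw [LvZ, ZFSet.mem_sep]
  refine ⟨?_, fun _ h => h⟩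
  rw [card_omZ, Ordinal.toZFSet_mem_toZFSet_iff]
  by_contra hcon
  rw [not_lt] at hcon
  apply hΩ.unc
  refine (ctb_om hM).mono ?_
  rw [card_omZ]
  exact Ordinal.toZFSet_subset_toZFSet_iff.2 hcon

theorem bkk_dfn (hM : CTM M) {ρ y : ZFSet.{0}} (hρ : ρ ∈ M) (hy : y ∈ M) :
    hM.Dfn (fun v : Fin 1 → M => ∃ z, ent ρ y z ∈ (v 0).1) := by
  refine Df.exM (P := fun (v : Fin 1 → M) z => ent ρ y z ∈ (v 0).1) ?_ ?_
  · intro v z h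
    exact (hM.of_pair_mem (hM.of_pair_mem (hM.mem_of_mem (v 0).2 h)).2).2
  · exact Df.mem (PD.ent (PD.const hρ) (PD.const hy) (PD.var 1)) (PD.var 0)

theorem bkk_row_mem (hM : CTM M) {μ : ZFSet.{0}} (hμ : μ ∈ M) (r : ℕ) : row μ r ∈ M :=
  hM.pair_mem hμ (hM.natZ_mem_N r)

theorem bkk_lv_mem (hM : CTM M) (hΩ : IsOm1 M Ω) {y : ZFSet.{0}} (hy : y ∈ LvZ Ω) : y ∈ M :=
  hM.mem_of_mem hΩ.mem (ZFSet.mem_sep.1 hy).1

/-- The density argument. -/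
theorem bkk_dense (h : St M κ Ω lam s G) {μ : Ordinal.{0}} (hμ : μ < lam) {r : ℕ} (hr : r < 4) {c : ZFSet.{0}}
    {H : Set ZFSet.{0}} (hH : Fr M (Sn Ω s lam.toZFSet) (Ln Ω s lam.toZFSet c) H) {y p : ZFSet.{0}} (hy : y ∈ LvZ Ω)
    (hp : p ∈ H) (hact : r = 3 → ∀ q ∈ Sn Ω s lam.toZFSet, LE Ω c q p → Act Ω s μ.toZFSet (rst q μ.toZFSet)) :
    ∃ q ∈ H, ∃ z, ent (row μ.toZFSet r) y z ∈ q := by
  have hM := h.bk.cv.hM
  have hΩ := h.bk.cv.hΩ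
  have hω := h.bk.cv.hω
  have hμM : μ.toZFSet ∈ M := hM.toZFSet_mem_of_le hμ.le h.bk.cv.hlamN
  obtain ⟨q, hq, hz⟩ := hH.gen_dfn (D := fun q => ∃ z, ent (row μ.toZFSet r) y z ∈ q.1)
    (bkk_dfn hH.hM (bkk_row_mem hM hμM r) (bkk_lv_mem hM hΩ hy)) hp (by
      intro q hq
      rw [mem_Ln] at hq
      obtain ⟨p', hp', hsub, z, hz⟩ := add_any hω (ZFSet.isOrdinal_toZFSet lam) hq.1
        (Ordinal.toZFSet_mem_toZFSet_iff.2 hμ) hr (fun h3 => hact h3 q.1 hq.1 hq.2.2) hy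
      refine ⟨⟨p', hM.mem_of_mem hH.hP hp'⟩, mem_Ln.2 ⟨hp', hq.1, LE.of_sub hsub⟩, z, hz⟩)
  exact ⟨q.1, hq, hz⟩

theorem bkk_ins {X x m τ X' x' m' τ' : ZFSet.{0}} (h : ins X x m τ = ins X' x' m' τ') :
    X = X' ∧ x = x' ∧ m = m' ∧ τ = τ' := by
  rw [ins, ins, ZFSet.pair_inj, ZFSet.pair_inj, ZFSet.pair_inj] at h
  exact ⟨h.1.1, h.1.2, h.2.1, h.2.2⟩

theorem bkk_Sn_sub {α β : Ordinal.{0}} (hαβ : α ≤ β) : Sn Ω s α.toZFSet ⊆ finS (Ent Ω β.toZFSet) := by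
  intro q hq
  exact P1_finS_mono (P1_Ent_mono (Ordinal.toZFSet_subset_toZFSet_iff.2 hαβ)) (ZFSet.mem_sep.1 hq).1

theorem st_bk3 (h : St M κ Ω lam s G) {Y : ZFSet.{0}} (hY : Y ∈ ExtZ M G) :
    ∃ θ : Ordinal.{0}, κ * Ordinal.omega0 ≤ θ ∧ θ < lam ∧ ∀ F, FinZ F → F ⊆ (κ * Ordinal.omega0).toZFSet →
      ((∃ μ < lam, IsAct G (row μ.toZFSet 3) ∧ sm s μ.toZFSet θ.toZFSet F) ↔ F ∈ Y) := by
  have hcv := h.bk.cv
  have hM := hcv.hM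
  have hΩ := hcv.hΩ
  have hω := hcv.hω
  have hlim := hcv.lim
  have hbs : κ * Ordinal.omega0 < lam := bs_lt hcv
  obtain ⟨hB, cB⟩ := om_cvr hM hcv.hκN hcv.hκω
  have hA : finS (Bs κ) ∈ M := finS_mem hM hB
  have cA : Cvr M κ.toZFSet (finS (Bs κ)) := siz_finS hcv hB cB
  have hN := h.fr.ctm
  have hY' : Y ∩ finS (Bs κ) ∈ ExtZ M G :=
    ((PD.const (hN := hN) (n := 0) hY).inter (PD.const (h.fr.sub hA))).1 Fin.elim0
  obtain ⟨α, hα, ζ, hζ, hζs, hζv⟩ := bdd_name h hA cA hY' (fun z hz => (ZFSet.mem_inter.1 hz).2)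
  have hα' : max α (κ * Ordinal.omega0) < lam := max_lt hα hbs
  obtain ⟨θ, hθ1, -, hθ2, hθ⟩ := h.bk.bk _ hα' ζ ∅ ∅ ∅ hζ hM.empty_mem (by
    refine ⟨?_, Or.inl rfl, Or.inl rfl, Or.inl rfl⟩
    intro z hz
    have := hζs hz
    rw [ZFSet.mem_prod] at this ⊢
    obtain ⟨a, ha, q, hq, rfl⟩ := this
    exact ⟨a, ha, q, bkk_Sn_sub (le_max_left _ _) hq, rfl⟩) _ hα'
  have hαθ : α ≤ θ := (le_max_left _ _).trans hθ1
  have hBθ : κ * Ordinal.omega0 ≤ θ := (le_max_right _ _).trans hθ1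
  refine ⟨θ, hBθ, hθ2, fun F hF hFB => ⟨?_, ?_⟩⟩
  · rintro ⟨μ, hμ, ⟨q, hq, y, z, hent⟩, X, x, τ, hsm⟩
    have hqS := h.fr.gen.sub q hq
    obtain ⟨θ', F', X', q', ⟨X1, x1, τ1, h1⟩, ⟨x2, m2, τ2, h2⟩, h3, h4⟩ := act_of_ent hqS hent
    have e1 := (bkk_ins (h.bk.vld.uni _ _ _ hsm h1)).2.2.1
    rw [ZFSet.pair_inj] at e1
    rw [← e1.1] at h2
    have e2 := (bkk_ins (h.bk.vld.uni _ _ _ hθ h2)).1
    rw [← e1.2, ← e2] at h3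
    have hq'α : q' ∈ Sn Ω s α.toZFSet := by
      have := hζs h3
      rw [ZFSet.pair_mem_prod] at this
      exact this.2
    have hq'S := Sn_mono hω (Ordinal.toZFSet_subset_toZFSet_iff.2 hα.le) hq'α
    have hq'G : q' ∈ G := h.fr.gen.up q hq q' (mem_Ln.2 ⟨hqS, hq'S, (LE.of_sub rst_sub).trans h4⟩)
    have hFY : F ∈ vv G ζ := mem_vv.2 ⟨q', hq'G, h3⟩
    rw [hζv, ZFSet.mem_inter] at hFY
    exact hFY.1
  · intro hFY
    have hFB' : F ∈ finS (Bs κ) := mem_finS.2 ⟨hFB, hF⟩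
    have hFv : F ∈ vv G ζ := by
      rw [hζv, ZFSet.mem_inter]
      exact ⟨hFY, hFB'⟩
    obtain ⟨q', hq', hFq⟩ := mem_vv.1 hFv
    obtain ⟨μ, hμ1, -, hμ2, hμ⟩ := h.bk.bk _ (hlim θ hθ2) ∅ ∅ (ZFSet.pair θ.toZFSet F) ∅ hM.empty_mem
      hM.empty_mem (by
        refine ⟨ZFSet.empty_subset _, Or.inl rfl, Or.inr ⟨θ.toZFSet, ?_, F, hFB', ?_, rfl⟩, Or.inl rfl⟩
        · exact Ordinal.toZFSet_mem_toZFSet_iff.2 (Order.lt_succ θ)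
        · exact Ordinal.toZFSet_subset_toZFSet_iff.2 hBθ) _ (hlim θ hθ2)
    have hθμ : θ < μ := (Order.lt_succ θ).trans_le hμ1
    refine ⟨μ, hμ2, ?_, ∅, ∅, ∅, hμ⟩
    have hq'α : q' ∈ Sn Ω s α.toZFSet := by
      have := hζs hFq
      rw [ZFSet.pair_mem_prod] at this
      exact this.2
    obtain ⟨q, hq, z, hz⟩ := bkk_dense h hμ2 (r := 3) (by norm_num) h.fr (bkk_om hM hΩ) hq' (by
      intro _ q hqS hle
      refine ⟨θ.toZFSet, F, ζ, q', ⟨∅, ∅, ∅, hμ⟩, ⟨∅, ∅, ∅, hθ⟩, hFq, ?_⟩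
      have h5 := hle.rst (α := μ.toZFSet)
      rwa [rst_eq hω (Sn_mono hω (Ordinal.toZFSet_subset_toZFSet_iff.2 (hαθ.trans hθμ.le)) hq'α)] at h5)
    exact ⟨q, hq, _, z, hz⟩

theorem st_bk2 (h : St M κ Ω lam s G) {ν : Ordinal.{0}} (hν : ν < lam) {r : ℕ} (hr : r < 4) {α : Ordinal.{0}}
    (hα : α < lam) : ∃ μ : Ordinal.{0}, α ≤ μ ∧ μ < lam ∧ sx s μ.toZFSet (row ν.toZFSet r) := by
  have hcv := h.bk.cv
  have hM := hcv.hM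
  obtain ⟨μ, hμ1, -, hμ2, hμ⟩ := h.bk.bk _ (hcv.lim ν hν) ∅ (row ν.toZFSet r) ∅ ∅ hM.empty_mem hM.empty_mem (by
    refine ⟨ZFSet.empty_subset _, Or.inr ?_, Or.inl rfl, Or.inl rfl⟩
    exact mem_TRr.2 ⟨ν.toZFSet, Ordinal.toZFSet_mem_toZFSet_iff.2 (Order.lt_succ ν), r, hr, rfl⟩) α hα
  exact ⟨μ, hμ1, hμ2, ∅, ∅, ∅, hμ⟩

theorem st_act3 (h : St M κ Ω lam s G) {μ : Ordinal.{0}} (hμ : μ < lam) {r : ℕ} (hr : r < 3) :
    IsAct G (row μ.toZFSet r) := by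
  obtain ⟨p, hp⟩ := h.fr.gen.ne
  obtain ⟨q, hq, z, hz⟩ := bkk_dense h hμ (r := r) (by omega) h.fr (bkk_om h.bk.cv.hM h.bk.cv.hΩ) hp
    (fun h3 => by omega)
  exact ⟨q, hq, _, z, hz⟩

theorem act_level (h : St M κ Ω lam s G) {μ : Ordinal.{0}} (hμ : μ < lam) {r : ℕ} (hr : r < 4)
    (ha : IsAct G (row μ.toZFSet r)) {c : ZFSet.{0}} (hc : c ∈ M) {H : Set ZFSet.{0}} (hH : Gd M Ω lam s G c H)
    {y p : ZFSet.{0}} (hy : y ∈ LvZ Ω) (hp : p ∈ H) :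
    ∃ q ∈ H, LE Ω c q p ∧ ∃ z, ent (row μ.toZFSet r) y z ∈ q := by
  obtain ⟨q₀, hq₀, y₀, z₀, h0⟩ := ha
  have hq₀S := h.fr.gen.sub q₀ hq₀
  obtain ⟨p₀, hp₀, hle⟩ := (good_up0 h hc hH hq₀S).1 hq₀
  obtain ⟨u, hu, hup, hup₀⟩ := hH.fr.gen.dir p hp p₀ hp₀
  rw [mem_Ln] at hup hup₀
  obtain ⟨q, hq, z, hz⟩ := bkk_dense h hμ hr hH.fr hy hu (by
    rintro rfl q hqS hqu
    have h1 := act_of_ent hq₀S h0
    exact h1.mono (((hqu.to0.trans hup₀.2.2.to0).trans hle).rst))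
  obtain ⟨w, hw, hwu, hwq⟩ := hH.fr.gen.dir u hu q hq
  rw [mem_Ln] at hwu hwq
  obtain ⟨K, hK, hKc, hKe⟩ := hwq.2.2
  exact ⟨w, hw, hwu.2.2.trans hup.2.2, _, hKe _ _ _ hz⟩

end Pool.Agent.H17.CF
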