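import Pool.Agent.H17.CF.F.Lrow

/-!
# CF-F12: the fields of the interface `Cd`

`AR X` = the set of the `c ∈ ClR` with `AI (IX Ω X) (cz lam c)`.

PROOFS.
`graph_name_at`: let `G_α = G ∩ Sn Ω s α` (generic for `(Sn α, ≤_∅)`: `good_res`), `I ∈ M[G_α]` a set of pairs of nodes (`IsI`). There is
`t ∈ M`, `Nm Ω s α t`, `vv G t = I`: `exists_sname` for `G_α` and `A = Nd × Nd`; cut `t` to the pairs with `Bel x y`;
`vv G t = vv G_α t` since `t ⊆ _ × Sn α`.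
`ai_prod`: for `Z` as in `prod_tree` and a clique `c`: `AI (IX Z) c ↔ AI (IX X) c ∧ AI (IX Y) c`. Fix a `c`-good `H` (`exists_good`);
`N' = M[H]` is a ctm, contains `N` (`good_ext`), `Ω = ω₁` (`good_om1`). By `graph_name` and `ai_hom` `AI (IX X) c` iff there is an unbounded
chain of `IX X` in `M[H]`, the same for `Y`, `Z` (`ix_mem`, `ix_isI`, `ix_tg`).
`ar_R`: `Rl N Ω X Y ↔ Spc N Ω (IX Z) ↔ ∀ ĉ, DD s lam ĉ → ¬ AI (IX Z) ĉ` (`spc_iff`). If this holds and `c ∈ AR X ∩ AR Y` then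
`DD s lam (cz c)` (`cz_dd`) and `AI (IX Z) (cz c)`: contradiction. Conversely if `AI (IX Z) ĉ`, then `AI (IX X) ĉ`, `AI (IX Y) ĉ`, by `ai_act` the
same for `actc G ĉ = cz lam c` (`cz_act`), so `c ∈ AR X ∩ AR Y`.
`ar_mul`: the product tree `Z`.
`ar_up`: `ai_up`, `cz_sub`. `ar_T`: `tt_ai_mem`, `tt_ai_notmem`, `cz_mem`.
`ar_bdd`: let `S` be a 5-ary relation in `N`. The set `A` of the codes of 5-tuples of elements of `κ` is in `M` and has size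
`≤ κ` (`cvr_prod2`, `cvr_prod`); `Y = {tup w : w ∈ S} ∈ N`, `Y ⊆ A`. By `bdd_name` there are `α < lam` and `ζ ∈ M`, `ζ ⊆ A × Sn α`,
`vv G ζ = Y`, so `Y = vv G_α ζ ∈ M[G_α]`. For every `a` the section `sec S a` is `InN` for the ctm `M[G_α]`, so `IX Ω (sec S a) ∈ M[G_α]`
(`ix_mem`), and `graph_name_at` gives a name at `α`; if `sec S a` is a tree, `c ∈ AR (sec S a)`, then by `ai_res`
`AI (IX ..) (cres (cz lam c) α)`, and `cz_res`, `res_cl`.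
-/

set_option autoImplicit false
set_option linter.unusedVariables false
set_option linter.unusedSectionVars false
set_option linter.unusedSimpArgs false
set_option linter.unusedTactic false
set_option linter.unreachableTactic false

open Pool.Agent.H17.Omega Pool.Agent.H17.Omega.CTM Pool.Agent.H52.GC Pool.Agent.H7.IG

namespace Pool.Agent.H17.CF

variable {M : Set ZFSet.{0}} {κ Ω lam : Ordinal.{0}} {s : ZFSet.{0}} {G : Set ZFSet.{0}}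

/-- The invariant. -/
def AR (M : Set ZFSet.{0}) (Ω lam : Ordinal.{0}) (s : ZFSet.{0}) (G : Set ZFSet.{0}) {κ : Ordinal.{0}}
    (X : Set (Fin 4 → El κ.toZFSet)) : Set (Set Row) :=
  {c | c ∈ ClR lam s G ∧ AI M Ω lam s G (IX Ω X) (cz lam c)}

theorem graph_name_at (h : St M κ Ω lam s G) {α : Ordinal.{0}} (hα : α ≤ lam) {I : ZFSet.{0}}
    (hI : I ∈ ExtZ M {p | p ∈ G ∧ p ∈ Sn Ω s α.toZFSet}) (hIs : IsI Ω I) :
    ∃ t ∈ M, Nm Ω s α.toZFSet t ∧ vv G t = I := by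
  have hM := h.bk.cv.hM
  have hΩ := h.bk.cv.hΩ
  have hNd : Nd Ω omZ ∈ M := E2_Nd_mem hM hΩ.mem hM.omZ_mem
  have hF := (good_res hM hΩ h.bk.hs h.bk.cv.hlamN hα hM.empty_mem h.fr).1
  obtain ⟨ζ, hζ, hsub, _, hv⟩ := exists_sname hF (hM.prod_mem hNd hNd) hI (by
    intro z hz
    obtain ⟨x, hx, y, hy, _, rfl⟩ := hIs z hz
    exact ZFSet.pair_mem_prod.2 ⟨hx, hy⟩)
  have ht : ZFSet.sep (fun z => ∃ x ∈ Nd Ω omZ, ∃ y ∈ Nd Ω omZ, ∃ q ∈ Sn Ω s α.toZFSet,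
      z = ZFSet.pair (ZFSet.pair x y) q ∧ Bel x y) ζ ∈ M := by
    refine hM.sep_mem ?_ hζ
    refine Df.bex (PD.const hNd) (Df.bex (PD.const hNd) (Df.bex (PD.const hF.hP) (Dfn.and
      (Df.eq (PD.var _) (PD.pair (PD.pair (PD.var _) (PD.var _)) (PD.var _))) (Df.Bel (PD.var _) (PD.var _)))))
  refine ⟨_, ht, ⟨fun z hz => hsub (ZFSet.mem_sep.1 hz).1, ?_⟩, ?_⟩
  · intro x y q hz
    obtain ⟨_, x', _, y', _, q', _, he, hb⟩ := ZFSet.mem_sep.1 hz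
    rw [ZFSet.pair_inj, ZFSet.pair_inj] at he
    rw [he.1.1, he.1.2]
    exact hb
  · ext w
    rw [← hv, mem_vv, mem_vv]
    constructor
    · rintro ⟨p, hp, hz⟩
      have hz1 := (ZFSet.mem_sep.1 hz).1
      exact ⟨p, ⟨hp, (ZFSet.pair_mem_prod.1 (hsub hz1)).2⟩, hz1⟩
    · rintro ⟨p, hp, hz⟩
      have hw : w ∈ I := by rw [← hv, mem_vv]; exact ⟨p, hp, hz⟩
      obtain ⟨x, hx, y, hy, hb, rfl⟩ := hIs w hw
      exact ⟨p, hp.1, ZFSet.mem_sep.2 ⟨hz, x, hx, y, hy, p, hp.2, rfl, hb⟩⟩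

theorem cdf_ix (h : St M κ Ω lam s G) {X : Set (Fin 4 → El κ.toZFSet)} (hXN : InN (ExtZ M G) X) :
    IX Ω X ∈ ExtZ M G := by
  have hc := st_cv h
  exact ix_mem hc.hM hc.hΩ.mem hc.hΩκ hc.hκN hXN

theorem cdf_tg (h : St M κ Ω lam s G) {X : Set (Fin 4 → El κ.toZFSet)} (hX : IsTree Ω X) :
    TG Ω omZ (IX Ω X) :=
  ix_tg (Ordinal.omega0_le.2 fun n => (h.bk.cv.hΩ.omega_lt h.bk.cv.hM n).le) h.bk.cv.hΩκ hX

theorem cdf_iff (h : St M κ Ω lam s G) {X : Set (Fin 4 → El κ.toZFSet)} (hX : IsTree Ω X)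
    (hXN : InN (ExtZ M G) X) {c : ZFSet.{0}} (hc : DD s lam.toZFSet c) {H : Set ZFSet.{0}}
    (hH : Gd M Ω lam s G c H) :
    AI M Ω lam s G (IX Ω X) c ↔ ∃ C ∈ ExtZ M H, Chn Ω omZ (IX Ω X) C := by
  constructor
  · intro hA
    obtain ⟨α, hα, t, ht, hN, hv⟩ := graph_name h (cdf_ix h hXN) (ix_isI X)
    have hT : TG Ω omZ (vv G t) := by rw [hv]; exact cdf_tg h hX
    rw [← hv] at hA
    have h1 := ai_hom h hα.le ht hN hT hc hA hH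
    rwa [hv] at h1
  · rintro ⟨C, hC, hch⟩
    exact ⟨H, hH, C, hC, hch⟩

theorem ai_prod (h : St M κ Ω lam s G) {X Y Z : Set (Fin 4 → El κ.toZFSet)} (hX : IsTree Ω X)
    (hXN : InN (ExtZ M G) X) (hY : IsTree Ω Y) (hYN : InN (ExtZ M G) Y) (hZ : IsTree Ω Z) (hZN : InN (ExtZ M G) Z)
    (hp : ∀ N', CTM N' → ExtZ M G ⊆ N' → IsOm1 N' Ω →
        ((∃ C ∈ N', Chn Ω omZ (IX Ω Z) C) ↔
          (∃ C ∈ N', Chn Ω omZ (IX Ω X) C) ∧ ∃ C ∈ N', Chn Ω omZ (IX Ω Y) C))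
    {c : ZFSet.{0}} (hc : DD s lam.toZFSet c) :
    AI M Ω lam s G (IX Ω Z) c ↔ AI M Ω lam s G (IX Ω X) c ∧ AI M Ω lam s G (IX Ω Y) c := by
  have hcM : c ∈ M := dd_mem h.bk.cv.hM h.bk.cv.hlamN hc
  obtain ⟨q, hq⟩ := h.fr.gen.ne
  obtain ⟨H, hH, _⟩ := exists_good h hcM hq
  rw [cdf_iff h hX hXN hc hH, cdf_iff h hY hYN hc hH, cdf_iff h hZ hZN hc hH]
  exact hp _ hH.fr.ctm (good_ext h hcM hH) (good_om1 h hc hH)

theorem cdf_prod (h : St M κ Ω lam s G) {X Y : Set (Fin 4 → El κ.toZFSet)} (hX : IsTree Ω X)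
    (hXN : InN (ExtZ M G) X) (hY : IsTree Ω Y) (hYN : InN (ExtZ M G) Y) :
    ∃ Z : Set (Fin 4 → El κ.toZFSet), IsTree Ω Z ∧ InN (ExtZ M G) Z ∧
      (Rl (ExtZ M G) Ω X Y ↔ Spc (ExtZ M G) Ω (IX Ω Z)) ∧
      ∀ c, DD s lam.toZFSet c → (AI M Ω lam s G (IX Ω Z) c ↔
        AI M Ω lam s G (IX Ω X) c ∧ AI M Ω lam s G (IX Ω Y) c) := by
  have hcv := st_cv h
  obtain ⟨Z, hZ, hZN, hR, hp⟩ := prod_tree hcv.hM hcv.hΩ hcv.hΩκ hcv.hκN hX hXN hY hYN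
  exact ⟨Z, hZ, hZN, hR, fun c hc => ai_prod h hX hXN hY hYN hZ hZN hp hc⟩

theorem ar_R (h : St M κ Ω lam s G) {X Y : Set (Fin 4 → El κ.toZFSet)} (hX : IsTree Ω X)
    (hXN : InN (ExtZ M G) X) (hY : IsTree Ω Y) (hYN : InN (ExtZ M G) Y) :
    Rl (ExtZ M G) Ω X Y ↔ ∀ c ∈ AR M Ω lam s G X, c ∉ AR M Ω lam s G Y := by
  obtain ⟨Z, hZ, hZN, hR, hp⟩ := cdf_prod h hX hXN hY hYN
  rw [hR, spc_iff h (cdf_ix h hZN) (ix_isI Z) (cdf_tg h hZ)]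
  constructor
  · rintro hS c ⟨hc, hcX⟩ ⟨_, hcY⟩
    exact hS _ (cz_dd h hc) ((hp _ (cz_dd h hc)).2 ⟨hcX, hcY⟩)
  · intro hA c' hc' hZ'
    obtain ⟨h1, h2⟩ := (hp _ hc').1 hZ'
    obtain ⟨c, hc, he⟩ := cz_act h hc'
    refine hA c ⟨hc, ?_⟩ ⟨hc, ?_⟩
    · show AI M Ω lam s G (IX Ω X) (cz lam c)
      rw [he]
      exact ai_act h hc' h1
    · show AI M Ω lam s G (IX Ω Y) (cz lam c)
      rw [he]
      exact ai_act h hc' h2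

theorem ar_mul (h : St M κ Ω lam s G) {X Y : Set (Fin 4 → El κ.toZFSet)} (hX : IsTree Ω X)
    (hXN : InN (ExtZ M G) X) (hY : IsTree Ω Y) (hYN : InN (ExtZ M G) Y) :
    ∃ Z : Set (Fin 4 → El κ.toZFSet), IsTree Ω Z ∧ InN (ExtZ M G) Z ∧
      ∀ c, c ∈ AR M Ω lam s G Z ↔ c ∈ AR M Ω lam s G X ∧ c ∈ AR M Ω lam s G Y := by
  obtain ⟨Z, hZ, hZN, _, hp⟩ := cdf_prod h hX hXN hY hYN
  refine ⟨Z, hZ, hZN, fun c => ?_⟩
  constructor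
  · rintro ⟨hc, hA⟩
    obtain ⟨h1, h2⟩ := (hp _ (cz_dd h hc)).1 hA
    exact ⟨⟨hc, h1⟩, ⟨hc, h2⟩⟩
  · rintro ⟨⟨hc, h1⟩, ⟨_, h2⟩⟩
    exact ⟨hc, (hp _ (cz_dd h hc)).2 ⟨h1, h2⟩⟩

theorem ar_up (h : St M κ Ω lam s G) {X : Set (Fin 4 → El κ.toZFSet)} (hX : IsTree Ω X)
    (hXN : InN (ExtZ M G) X) {c c' : Set Row} (hc : c ∈ AR M Ω lam s G X) (hc' : c' ∈ ClR lam s G) (hcc : c ⊆ c') :
    c' ∈ AR M Ω lam s G X := by
  obtain ⟨α, hα, t, ht, hN, hv⟩ := graph_name h (cdf_ix h hXN) (ix_isI X)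
  have hT : TG Ω omZ (vv G t) := by rw [hv]; exact cdf_tg h hX
  obtain ⟨hc1, hA⟩ := hc
  refine ⟨hc', ?_⟩
  have hA' : AI M Ω lam s G (vv G t) (cz lam c) := by rw [hv]; exact hA
  have h1 := ai_up h hα.le ht hN hT (cz_dd h hc1) (cz_dd h hc') (cz_sub hcc) hA'
  rw [hv] at h1
  exact h1

theorem ar_T (h : St M κ Ω lam s G) {e : ZFSet.{0}} (he : En M Ω e) {x : Row} (hx : x ∈ AcR lam G) (c : Set Row) :
    c ∈ AR M Ω lam s G (TT κ Ω G e x.1.toZFSet x.2) ↔ c ∈ ClR lam s G ∧ x ∈ c := by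
  obtain ⟨h1, h2, h3⟩ := hx
  constructor
  · rintro ⟨hc, hA⟩
    refine ⟨hc, ?_⟩
    by_contra hxc
    exact tt_ai_notmem h he h1 h2 h3 (cz_dd h hc) (fun hr => hxc ((cz_mem h1 h2).1 hr)) hA
  · rintro ⟨hc, hxc⟩
    exact ⟨hc, tt_ai_mem h he h1 h2 h3 (cz_dd h hc) ((cz_mem h1 h2).2 hxc)⟩

/-- Codes of tuples of elements of `K`. -/
noncomputable def cdfT (K : ZFSet.{0}) : ℕ → ZFSet.{0}
  | 0 => {∅}
  | n + 1 => ZFSet.prod K (cdfT K n)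

theorem cdfT_mem {N : Set ZFSet.{0}} (hN : CTM N) {K : ZFSet.{0}} (hK : K ∈ N) : ∀ n, cdfT K n ∈ N
  | 0 => hN.singleton_mem hN.empty_mem
  | n + 1 => hN.prod_mem hK (cdfT_mem hN hK n)

theorem cdfT_cvr {N : Set ZFSet.{0}} (hN : CTM N) (hκN : κ.toZFSet ∈ N) (hκ : Ordinal.omega0 ≤ κ) :
    ∀ n, Cvr N κ.toZFSet (cdfT κ.toZFSet n)
  | 0 => cvr_of_subset hN hκN (by
      intro z hz
      have hz' : z = ∅ := ZFSet.mem_singleton.1 hz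
      rw [hz', ← Ordinal.toZFSet_zero]
      exact Ordinal.toZFSet_mem_toZFSet_iff.2 (lt_of_lt_of_le Ordinal.omega0_pos hκ))
  | n + 1 => cvr_prod2 hN hκN hκ hκN (cdfT_mem hN hκN n) (cvr_of_subset hN hκN (fun _ hx => hx))
      (cdfT_cvr hN hκN hκ n)

theorem cdf_tup_cons {n : ℕ} (a : ZFSet.{0}) (w : Fin n → ZFSet.{0}) :
    tup (Fin.cons a w : Fin (n + 1) → ZFSet.{0}) = ZFSet.pair a (tup w) := by
  simp [tup, tupL, List.ofFn_succ]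

theorem cdf_tup_mem {K : ZFSet.{0}} : ∀ {n : ℕ} (w : Fin n → El K), tup (fun i => (w i).1) ∈ cdfT K n
  | 0, w => by
    show tup (fun i => (w i).1) ∈ ({∅} : ZFSet.{0})
    rw [ZFSet.mem_singleton]
    simp [tup, tupL]
  | n + 1, w => by
    have e : (fun i => (w i).1) = (Fin.cons (w 0).1 (fun i : Fin n => (w i.succ).1) : Fin (n + 1) → ZFSet.{0}) := by
      funext i
      refine Fin.cases ?_ (fun j => ?_) i
      · simp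
      · simp
    rw [e, cdf_tup_cons]
    exact ZFSet.pair_mem_prod.2 ⟨(w 0).2, cdf_tup_mem (fun i => w i.succ)⟩

theorem ar_bdd (h : St M κ Ω lam s G) {S : Set (Fin 5 → El κ.toZFSet)} (hS : InN (ExtZ M G) S) :
    ∃ α < lam, ∀ a, IsTree Ω (sec S a) → ∀ c ∈ AR M Ω lam s G (sec S a), res c α ∈ AR M Ω lam s G (sec S a) := by
  have hM := h.bk.cv.hM
  have hcv := st_cv h
  have hκN := h.bk.cv.hκN
  have hκω := h.bk.cv.hκω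
  obtain ⟨z, hz, hz'⟩ := hS
  have hAM : cdfT κ.toZFSet 5 ∈ M := cdfT_mem hM hκN 5
  have hY : ZFSet.sep (fun v => v ∈ z) (cdfT κ.toZFSet 5) ∈ ExtZ M G :=
    hcv.hM.sep_mem (Df.mem (PD.var _) (PD.const hz)) (h.fr.sub hAM)
  obtain ⟨α, hα, ζ, hζ, hsub, hv⟩ := bdd_name h hAM (cdfT_cvr hM hκN hκω 5) hY
    (fun v hv => (ZFSet.mem_sep.1 hv).1)
  refine ⟨α, hα, fun a ha c hc => ?_⟩
  have hF := (good_res hM h.bk.cv.hΩ h.bk.hs h.bk.cv.hlamN hα.le hM.empty_mem h.fr).1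
  have hv2 : vv {p | p ∈ G ∧ p ∈ Sn Ω s α.toZFSet} ζ = vv G ζ := by
    ext w
    rw [mem_vv, mem_vv]
    constructor
    · rintro ⟨p, hp, hw⟩
      exact ⟨p, hp.1, hw⟩
    · rintro ⟨p, hp, hw⟩
      exact ⟨p, ⟨hp, (ZFSet.pair_mem_prod.1 (hsub hw)).2⟩, hw⟩
  have hYα : ZFSet.sep (fun v => v ∈ z) (cdfT κ.toZFSet 5) ∈ ExtZ M {p | p ∈ G ∧ p ∈ Sn Ω s α.toZFSet} := by
    rw [← hv, ← hv2]
    exact vv_mem hF hζ
  have hN' := hF.ctm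
  have hκN' := hF.sub hκN
  have haN' : a.1 ∈ ExtZ M {p | p ∈ G ∧ p ∈ Sn Ω s α.toZFSet} := hN'.mem_of_mem hκN' a.2
  have hsec : InN (ExtZ M {p | p ∈ G ∧ p ∈ Sn Ω s α.toZFSet}) (sec S a) := by
    have hmem : ZFSet.sep (fun v => ZFSet.pair a.1 v ∈ ZFSet.sep (fun v => v ∈ z) (cdfT κ.toZFSet 5))
      (cdfT κ.toZFSet 4) ∈ ExtZ M {p | p ∈ G ∧ p ∈ Sn Ω s α.toZFSet} := by
      refine hN'.sep_mem ?_ (cdfT_mem hN' hκN' 4)
      exact Df.mem (PD.pair (PD.const haN') (PD.var _)) (PD.const hYα)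
    refine ⟨_, hmem, fun w => ?_⟩
    have h1 : w ∈ sec S a ↔ tup (fun i => ((Fin.cons a w : Fin 5 → El κ.toZFSet) i).1) ∈ z := hz' _
    have e : (fun i => ((Fin.cons a w : Fin 5 → El κ.toZFSet) i).1) =
        (Fin.cons a.1 (fun i : Fin 4 => (w i).1) : Fin 5 → ZFSet.{0}) := by
      funext i
      refine Fin.cases ?_ (fun j => ?_) i
      · simp
      · simp
    rw [h1, e, cdf_tup_cons, ZFSet.mem_sep, ZFSet.mem_sep]
    constructor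
    · intro h2
      exact ⟨cdf_tup_mem w, ZFSet.pair_mem_prod.2 ⟨a.2, cdf_tup_mem w⟩, h2⟩
    · rintro ⟨_, _, h2⟩
      exact h2
  have hI : IX Ω (sec S a) ∈ ExtZ M {p | p ∈ G ∧ p ∈ Sn Ω s α.toZFSet} :=
    ix_mem hN' (hF.sub h.bk.cv.hΩ.mem) h.bk.cv.hΩκ hκN' hsec
  obtain ⟨t, ht, hN, hvt⟩ := graph_name_at h hα.le hI (ix_isI _)
  have hT : TG Ω omZ (vv G t) := by rw [hvt]; exact cdf_tg h ha
  obtain ⟨hc1, hA⟩ := hc
  refine ⟨res_cl h hc1, ?_⟩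
  have hA' : AI M Ω lam s G (vv G t) (cz lam c) := by rw [hvt]; exact hA
  have h1 := ai_res h hα.le ht hN hT (cz_dd h hc1) hA'
  rw [hvt, ← cz_res h hc1] at h1
  exact h1

end Pool.Agent.H17.CF
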