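import Pool.Agent.H17.CF.C.Defs
import Pool.Agent.H17.CF.B.Phi
import Pool.Agent.H17.CF.Iface

/-!
# CF-F: definitions of the second step

`M`, `s` with `Bk M κ Ω lam s`; `G` is generic for `(Sn Ω s lam, ≤_∅)` over `M`, `N = M[G]`.
* `Gd M Ω lam s G c H`: `H ⊆ G` is generic over `M` for `(Sn Ω s lam, ≤_c)` (a `c`-good filter).
* `EE M Ω s α t c q`: `q` forces over `(Sn Ω s α, ≤_c)` that the tree graph with the name `t` has an unbounded chain.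
* `Inc Ω s α p q`: `p`, `q` are incompatible in `(Sn Ω s α, ≤_∅)`.
* `tb Ω s α t p` (`t` below `p`): `t` together with all `((x, y), q)`, `Bel x y`, `q` incompatible with `p`.
* `TGP Ω s α t p`: `p` forces that `t` is a name of a tree graph.
* `AI M Ω lam s G I c`: some `c`-good `H` adds an unbounded chain of the tree graph `I`.
* `Spc N Ω I`: the tree graph `I` is special in `N`.
-/

set_option autoImplicit false
set_option linter.unusedVariables false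
set_option linter.unusedSectionVars false
set_option linter.unusedSimpArgs false
set_option linter.unusedTactic false
set_option linter.unreachableTactic false

open Pool.Agent.H17.Omega Pool.Agent.H17.Omega.CTM Pool.Agent.H52.GC Pool.Agent.H7.IG

namespace Pool.Agent.H17.CF

/-- `c`-good filters. -/
structure Gd (M : Set ZFSet.{0}) (Ω lam : Ordinal.{0}) (s : ZFSet.{0}) (G : Set ZFSet.{0}) (c : ZFSet.{0})
    (H : Set ZFSet.{0}) : Prop where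
  fr : Fr M (Sn Ω s lam.toZFSet) (Ln Ω s lam.toZFSet c) H
  sub : ∀ p ∈ H, p ∈ G

/-- `q` forces, over `(Sn Ω s α, ≤_c)`, that the tree graph named by `t` has an unbounded chain. -/
def EE (M : Set ZFSet.{0}) (Ω : Ordinal.{0}) (s α t c q : ZFSet.{0}) : Prop :=
  ∃ ζ ∈ M, FC Ω omZ (Sn Ω s α) (Ln Ω s α c) (OO Ω omZ s α t) q ζ

/-- Incompatible conditions. -/
def Inc (Ω : Ordinal.{0}) (s α p q : ZFSet.{0}) : Prop := ∀ r ∈ Sn Ω s α, LE Ω ∅ r p → ¬ LE Ω ∅ r q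

/-- The name `t` below `p`. -/
noncomputable def tb (Ω : Ordinal.{0}) (s α t p : ZFSet.{0}) : ZFSet.{0} :=
  t ∪ ZFSet.sep (fun z => ∃ x y q, z = ZFSet.pair (ZFSet.pair x y) q ∧ Bel x y ∧ Inc Ω s α q p)
    (ZFSet.prod (ZFSet.prod (Nd Ω omZ) (Nd Ω omZ)) (Sn Ω s α))

/-- `p` forces that `t` names a tree graph. -/
def TGP (Ω : Ordinal.{0}) (s α t p : ZFSet.{0}) : Prop :=
  ∀ x ∈ Nd Ω omZ, ∀ y ∈ Nd Ω omZ, ∀ z ∈ Nd Ω omZ, Bel x y → Bel y z → ∀ q, LE Ω ∅ q p →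
    ZFSet.pair (ZFSet.pair x y) q ∈ OO Ω omZ s α t → ∃ r, r ∈ Sn Ω s α ∧ LE Ω ∅ r q ∧
      (ZFSet.pair (ZFSet.pair x z) r ∈ OO Ω omZ s α t ∨ ZFSet.pair (ZFSet.pair y z) r ∈ OO Ω omZ s α t)

/-- `t` is a name over `Sn Ω s α` of a set of pairs of nodes. -/
def Nm (Ω : Ordinal.{0}) (s α t : ZFSet.{0}) : Prop :=
  t ⊆ ZFSet.prod (ZFSet.prod (Nd Ω omZ) (Nd Ω omZ)) (Sn Ω s α) ∧
    ∀ x y q, ZFSet.pair (ZFSet.pair x y) q ∈ t → Bel x y

/-- Some `c`-good filter adds an unbounded chain of `I`. -/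
def AI (M : Set ZFSet.{0}) (Ω lam : Ordinal.{0}) (s : ZFSet.{0}) (G : Set ZFSet.{0}) (I c : ZFSet.{0}) : Prop :=
  ∃ H, Gd M Ω lam s G c H ∧ ∃ C ∈ ExtZ M H, Chn Ω omZ I C

/-- `I` is special, in `N`. -/
def Spc (N : Set ZFSet.{0}) (Ω : Ordinal.{0}) (I : ZFSet.{0}) : Prop :=
  ∃ F ∈ N, (∀ x ∈ Nd Ω omZ, ∃ n ∈ omZ, ZFSet.pair x n ∈ F) ∧
    ∀ x y n, ZFSet.pair x n ∈ F → ZFSet.pair y n ∈ F → Bel x y → ZFSet.pair x y ∈ I

/-- `G` is generic over the model `M` with bookkeeping. -/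
structure St (M : Set ZFSet.{0}) (κ Ω lam : Ordinal.{0}) (s : ZFSet.{0}) (G : Set ZFSet.{0}) : Prop where
  bk : Bk M κ Ω lam s
  fr : Fr M (Sn Ω s lam.toZFSet) (Ln Ω s lam.toZFSet ∅) G

end Pool.Agent.H17.CF
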