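import Pool.Agent.H17.CF.F.Good
import Pool.Agent.H17.CF.A.Fc

/-!
# CF-F3: the sets `EE`

`EE M Ω s α t c q`: there is `ζ ∈ M` with `FC` over `(Sn Ω s α, ≤_c)` for the open name `OO Ω ω s α t`.

PROOFS.
`oo_val`: let `t` be a name over `Sn Ω s α` (`Nm`), `H` `c`-good, `β ≥ α`: `vv H (OO Ω ω s lam t) = vv G t` and
`vv (H ∩ Sn α) (OO Ω ω s α t) = vv G t`: if `p ∈ H`, `p ≤_∅ q`, `((x,y), q) ∈ t` then `q ∈ G`; conversely if `q ∈ G`, `((x,y), q) ∈ t`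
then by `good_up0` there is `p ∈ H` with `p ≤_∅ q`, and also `rst p α ≤_∅ q`, `rst p α ∈ H`.

`EE.down_c`: `q' ≤_c q → EE q → EE q'` (same `ζ`; transitivity).
`EE.trp`: `EE q → EE (trp K q)` for `K ∈ M`, `KK Ω K` (also for `K` with rows in `c`): take `ζ' = {(x, trp K r) : (x, r) ∈ ζ} ∈ M`.
`((x,y), r) ∈ OO ↔ ((x,y), trp K r) ∈ OO` since `r` and `trp K r` are `≤_∅`-equivalent (`LE_trp` with `c = ∅`); `LE_trp_trp`, `trp_trp`.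
`EE.down0`: `q' ≤_∅ q`, `q' ∈ Sn Ω s α` and `EE q` imply `EE q'`: take `K` (in `M`, from `LE.cut`) with `trp K q ⊆ q'`; `EE (trp K q)` and
`q' ≤_c trp K q`.

`EE.of_tb`: `EE M Ω s α (tb Ω s α t p) c q`, `p ∈ Sn Ω s α` imply that there is `u ≤_∅ q`, `u ≤_∅ p`, `u ∈ Sn Ω s α`, with
`EE M Ω s α t c u`. Proof: let `ζ` be the witness. `q` is compatible with `p` in `≤_∅`: otherwise every `((x,y), r)` with
`Bel x y`, `r ≤_c q` is in `OO .. (tb ..)` (`r ≤_∅ q`, `((x,y), q) ∈ tb`), but by `unb` (twice) and openness there are `r ≤_c q`,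
`Bel x y` with `(x, r), (y, r) ∈ ζ`: contradiction to `ch`. So let `u₀ ≤_∅ q, p`; by `LE.transl` a translate `u` of `u₀` satisfies
`u ⊇ q`, `u ≤_∅ u₀ ≤_∅ p`. `u ≤_c q`, so `FC .. u ζ` for the name `tb`; and for all `r ≤_∅ u`:
`((x,y), r) ∈ OO (tb ..) ↔ ((x,y), r) ∈ OO t` (`r ≤_∅ q'` with `q'` incompatible with `p` is impossible since `r ≤_∅ p`).

`tb_tgn`: if `TGP Ω s α t p` (and `p ∈ Sn`) then `TGN Ω ω (Ln Ω s α ∅) (OO Ω ω s α (tb Ω s α t p))`: let `((x,y), r) ∈ OO (tb)`: if `r` is incompatible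
with `p`: `((x,z), r) ∈ OO (tb)`. Otherwise let `r' ≤_∅ r, p`: then `((x,y), r') ∈ OO t` (as before) and `TGP` gives the
wanted condition. `tb_nm`: `Nm` is preserved. `tb_val`: `p ∈ G → vv G (tb ..) = vv G t`.
`tb_mem`: `tb ∈ M`.

`exists_tgp`: if `vv G t` is a tree graph then there is `p ∈ G ∩ Sn α` with `TGP Ω s α t p`. Otherwise: the definable set
`D = {p ∈ Sn α : TGP p, or there are x, y, z, Bel x y, Bel y z, with ((x,y), p) ∈ OO t such that for all r ≤_∅ p in Sn α: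
((x,z), r), ((y,z), r) ∉ OO t}` is dense in `(Sn α, ≤_∅)`, so it meets the generic `G ∩ Sn α` (`good_res`, with `H = G`);
the second case contradicts that `vv G t` is a tree graph (if `(x,z) ∈ vv G t` there is `q ∈ G` with `((x,z), q) ∈ t`; take
`r ∈ G ∩ Sn α` below `p` and `q`).
-/

set_option autoImplicit false
set_option linter.unusedVariables false
set_option linter.unusedSectionVars false
set_option linter.unusedSimpArgs false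
set_option linter.unusedTactic false
set_option linter.unreachableTactic false

open Pool.Agent.H17.Omega Pool.Agent.H17.Omega.CTM Pool.Agent.H52.GC Pool.Agent.H7.IG

namespace Pool.Agent.H17.CF

variable {M : Set ZFSet.{0}} {κ Ω lam : Ordinal.{0}} {s : ZFSet.{0}} {G : Set ZFSet.{0}}

/-! ### Auxiliary lemmas -/

theorem Ee_nm_mem {α t x y q : ZFSet.{0}} (h : Nm Ω s α t) (hm : ZFSet.pair (ZFSet.pair x y) q ∈ t) :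
    x ∈ Nd Ω omZ ∧ y ∈ Nd Ω omZ ∧ q ∈ Sn Ω s α ∧ Bel x y := by
  have h1 := h.1 hm
  rw [ZFSet.pair_mem_prod, ZFSet.pair_mem_prod] at h1
  exact ⟨h1.1.1, h1.1.2, h1.2, h.2 x y q hm⟩

theorem Ee_nm_form {α t w q : ZFSet.{0}} (h : Nm Ω s α t) (hm : ZFSet.pair w q ∈ t) :
    ∃ x y, w = ZFSet.pair x y := by
  have h1 := h.1 hm
  rw [ZFSet.pair_mem_prod, ZFSet.mem_prod] at h1
  obtain ⟨⟨a, _, b, _, h2⟩, _⟩ := h1
  exact ⟨a, b, h2⟩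

theorem Ee_oo_form {E α t w p : ZFSet.{0}} (h : ZFSet.pair w p ∈ OO Ω E s α t) :
    ∃ x y, w = ZFSet.pair x y := by
  obtain ⟨x, y, p', h1⟩ := oo_sub h
  exact ⟨x, y, (ZFSet.pair_inj.1 h1).1⟩

theorem Ee_oo_mono {E α t t' z : ZFSet.{0}} (h : t ⊆ t') (hz : z ∈ OO Ω E s α t) : z ∈ OO Ω E s α t' := by
  obtain ⟨x, y, p, rfl⟩ := oo_sub hz
  rw [mem_OO] at hz ⊢
  obtain ⟨h1, h2, h3, h4, q, h5, h6⟩ := hz
  exact ⟨h1, h2, h3, h4, q, h h5, h6⟩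

theorem Ee_oo_op {E α t x y p q : ZFSet.{0}} (h : ZFSet.pair (ZFSet.pair x y) q ∈ OO Ω E s α t) (hp : p ∈ Sn Ω s α)
    (hpq : LE Ω ∅ p q) : ZFSet.pair (ZFSet.pair x y) p ∈ OO Ω E s α t := by
  rw [mem_OO] at h ⊢
  obtain ⟨h1, h2, h3, h4, q', h5, h6⟩ := h
  exact ⟨h1, h2, hp, h4, q', h5, hpq.trans h6⟩

theorem Ee_ord {α : Ordinal.{0}} : α.toZFSet.IsOrdinal := ZFSet.isOrdinal_toZFSet α

theorem Ee_bel_trans {x y z : ZFSet.{0}} (hz : z ∈ Nd Ω omZ) (h : Bel x y) (h' : Bel y z) : Bel x z := by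
  obtain ⟨a, m, b, n, rfl, rfl, hab⟩ := h
  obtain ⟨b', n', d, l, h1, rfl, hbd⟩ := h'
  obtain ⟨rfl, rfl⟩ := ZFSet.pair_inj.1 h1
  rw [Nd, ZFSet.pair_mem_prod, LvZ, ZFSet.mem_sep] at hz
  have hd : d.IsOrdinal := (ZFSet.isOrdinal_toZFSet Ω).mem hz.1.1
  exact ⟨a, m, d, l, rfl, rfl, hd.isTransitive.mem_trans hab hbd⟩

/-- The graph of the translation. -/
def EeTr (K r r' : ZFSet.{0}) : Prop :=
  (∀ ρ y z, ent ρ y z ∈ r → ent ρ y (tr K ρ y z) ∈ r') ∧ ∀ ρ y z, ent ρ y z ∈ r' → ent ρ y (tr K ρ y z) ∈ r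

theorem EeTr_iff {K r r' : ZFSet.{0}} (hr : IsE r) (hr' : IsE r') : EeTr K r r' ↔ r' = trp K r := by
  constructor
  · rintro ⟨h1, h2⟩
    refine ext_isE hr' (isE_trp hr) fun ρ y z => ?_
    rw [ent_mem_trp hr]
    constructor
    · exact fun h => h2 ρ y z h
    · intro h
      have h3 := h1 _ _ _ h
      rwa [tr_self] at h3
  · rintro rfl
    constructor
    · intro ρ y z h
      rw [ent_mem_trp hr, tr_self]
      exact h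
    · intro ρ y z h
      exact (ent_mem_trp hr).1 h

theorem Ee_dfn_tr {N : Set ZFSet.{0}} {hN : CTM N} {n : ℕ} {k r r' : (Fin n → N) → ZFSet.{0}} (hk : PD hN k)
    (hr : PD hN r) (hr' : PD hN r') : hN.Dfn (fun v => EeTr (k v) (r v) (r' v)) := by
  refine Dfn.and ?_ ?_
  · refine Df.allEnt (P := fun v ρ y z => ent ρ y (tr (k v) ρ y z) ∈ r' v) hr ?_
    exact Df.mem (PD.ent (PD.var _) (PD.var _) (PD.tr hk.lift.lift.lift (PD.var _) (PD.var _) (PD.var _)))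
      hr'.lift.lift.lift
  · refine Df.allEnt (P := fun v ρ y z => ent ρ y (tr (k v) ρ y z) ∈ r v) hr' ?_
    exact Df.mem (PD.ent (PD.var _) (PD.var _) (PD.tr hk.lift.lift.lift (PD.var _) (PD.var _) (PD.var _)))
      hr.lift.lift.lift

/-- The translated name of a set of nodes. -/
theorem Ee_name (hM : CTM M) (hΩ : Ω.toZFSet ∈ M) (hs : s ∈ M) {α K ζ : ZFSet.{0}} (hαM : α ∈ M)
    (hKM : K ∈ M) (hζ : ζ ∈ M) : ∃ ζ' ∈ M, ∀ z, z ∈ ζ' ↔ z ∈ ZFSet.prod (Nd Ω omZ) (Sn Ω s α) ∧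
      ∃ x r, z = ZFSet.pair x r ∧ ZFSet.pair x (trp K r) ∈ ζ ∧ trp K r ∈ Sn Ω s α := by
  have hSn := Sn_mem hM hΩ hs hαM
  have hNd : Nd Ω omZ ∈ M := (PD.Nd (hN := hM) (n := 0) hΩ PD.omZ).1 Fin.elim0
  have hE : ∀ r ∈ Sn Ω s α, IsE r := fun r hr => IsC.isE (Ω := Ω) (s := s) (ZFSet.mem_sep.1 hr).2
  obtain ⟨ζ', h1, h2⟩ := hM.exists_sep (P := fun z : M => ∃ x r, z.1 = ZFSet.pair x r ∧
      ∃ r' ∈ Sn Ω s α, EeTr K r r' ∧ ZFSet.pair x r' ∈ ζ) (by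
    refine Df.exPr (x := fun v : Fin 1 → M => (v 0).1) (P := fun v x r => ∃ r' ∈ Sn Ω s α, EeTr K r r' ∧
      ZFSet.pair x r' ∈ ζ) (PD.var _) ?_
    refine Df.bex (P := fun (v : Fin 3 → M) r' => EeTr K (v 2).1 r' ∧ ZFSet.pair (v 1).1 r' ∈ ζ)
      (PD.const hSn) ?_
    exact Dfn.and (Ee_dfn_tr (PD.const hKM) (PD.var _) (PD.var _))
      (Df.mem (PD.pair (PD.var _) (PD.var _)) (PD.const hζ))) (hM.prod_mem hNd hSn)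
  refine ⟨ζ', h1, fun z => ?_⟩
  rw [h2]
  constructor
  · rintro ⟨h3, hz, x, r, h4, r', h5, h6, h7⟩
    refine ⟨h3, x, r, h4, ?_⟩
    have h4' : z = ZFSet.pair x r := h4
    rw [h4', ZFSet.pair_mem_prod] at h3
    rw [← (EeTr_iff (hE r h3.2) (hE r' h5)).1 h6]
    exact ⟨h7, h5⟩
  · rintro ⟨h3, x, r, rfl, h4, h5⟩
    have h6 := ZFSet.pair_mem_prod.1 h3
    refine ⟨h3, hM.mem_of_mem (hM.prod_mem hNd hSn) h3, x, r, rfl, trp K r, h5, ?_, h4⟩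
    exact (EeTr_iff (hE r h6.2) (hE _ h5)).2 rfl

/-- `q` forces that `t` is not a tree graph. -/
def EeW (Ω : Ordinal.{0}) (s α t q : ZFSet.{0}) : Prop :=
  ∃ x ∈ Nd Ω omZ, ∃ y ∈ Nd Ω omZ, ∃ z ∈ Nd Ω omZ, Bel x y ∧ Bel y z ∧
    ZFSet.pair (ZFSet.pair x y) q ∈ OO Ω omZ s α t ∧ ∀ r ∈ Sn Ω s α, LE Ω ∅ r q →
      ZFSet.pair (ZFSet.pair x z) r ∉ OO Ω omZ s α t ∧ ZFSet.pair (ZFSet.pair y z) r ∉ OO Ω omZ s α t

theorem Ee_dfn_W {hM : CTM M} (hΩ : Ω.toZFSet ∈ M) (hs : s ∈ M) {α t : ZFSet.{0}} (hαM : α ∈ M) (ht : t ∈ M) :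
    hM.Dfn (fun v : Fin 1 → M => EeW Ω s α t (v 0).1) := by
  have hoo : OO Ω omZ s α t ∈ M := OO_mem hM hΩ hM.omZ_mem hs hαM ht
  have hNd : Nd Ω omZ ∈ M := (PD.Nd (hN := hM) (n := 0) hΩ PD.omZ).1 Fin.elim0
  have hSn := Sn_mem hM hΩ hs hαM
  refine Df.bex (P := fun (v : Fin 1 → M) x => ∃ y ∈ Nd Ω omZ, ∃ z ∈ Nd Ω omZ, Bel x y ∧ Bel y z ∧
        ZFSet.pair (ZFSet.pair x y) (v 0).1 ∈ OO Ω omZ s α t ∧ ∀ r ∈ Sn Ω s α, LE Ω ∅ r (v 0).1 →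
          ZFSet.pair (ZFSet.pair x z) r ∉ OO Ω omZ s α t ∧
          ZFSet.pair (ZFSet.pair y z) r ∉ OO Ω omZ s α t) (PD.const hNd) ?_
  refine Df.bex (P := fun (v : Fin 2 → M) y => ∃ z ∈ Nd Ω omZ, Bel (v 1).1 y ∧ Bel y z ∧
        ZFSet.pair (ZFSet.pair (v 1).1 y) (v 0).1 ∈ OO Ω omZ s α t ∧ ∀ r ∈ Sn Ω s α,
          LE Ω ∅ r (v 0).1 → ZFSet.pair (ZFSet.pair (v 1).1 z) r ∉ OO Ω omZ s α t ∧
          ZFSet.pair (ZFSet.pair y z) r ∉ OO Ω omZ s α t) (PD.const hNd) ?_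
  refine Df.bex (P := fun (v : Fin 3 → M) z => Bel (v 1).1 (v 2).1 ∧ Bel (v 2).1 z ∧
        ZFSet.pair (ZFSet.pair (v 1).1 (v 2).1) (v 0).1 ∈ OO Ω omZ s α t ∧ ∀ r ∈ Sn Ω s α,
          LE Ω ∅ r (v 0).1 → ZFSet.pair (ZFSet.pair (v 1).1 z) r ∉ OO Ω omZ s α t ∧
          ZFSet.pair (ZFSet.pair (v 2).1 z) r ∉ OO Ω omZ s α t) (PD.const hNd) ?_
  refine Dfn.and (Df.Bel (PD.var _) (PD.var _)) (Dfn.and (Df.Bel (PD.var _) (PD.var _)) (Dfn.and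
    (Df.mem (PD.pair (PD.pair (PD.var _) (PD.var _)) (PD.var _)) (PD.const hoo)) ?_))
  refine Df.ball (P := fun (v : Fin 4 → M) r => LE Ω ∅ r (v 0).1 →
        ZFSet.pair (ZFSet.pair (v 1).1 (v 3).1) r ∉ OO Ω omZ s α t ∧
        ZFSet.pair (ZFSet.pair (v 2).1 (v 3).1) r ∉ OO Ω omZ s α t) (PD.const hSn) ?_
  exact Dfn.imp (Df.LE hΩ (PD.const hM.empty_mem) (PD.var _) (PD.var _)) (Dfn.and
    (Dfn.not (Df.mem (PD.pair (PD.pair (PD.var _) (PD.var _)) (PD.var _)) (PD.const hoo)))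
    (Dfn.not (Df.mem (PD.pair (PD.pair (PD.var _) (PD.var _)) (PD.var _)) (PD.const hoo))))

theorem oo_val (h : St M κ Ω lam s G) {c t : ZFSet.{0}} (hc : c ∈ M) {α : Ordinal.{0}} (hα : α ≤ lam)
    (hN : Nm Ω s α.toZFSet t) {H : Set ZFSet.{0}} (hH : Gd M Ω lam s G c H) :
    vv H (OO Ω omZ s lam.toZFSet t) = vv G t ∧
      vv {p | p ∈ H ∧ p ∈ Sn Ω s α.toZFSet} (OO Ω omZ s α.toZFSet t) = vv G t := by
  have hω := om_le h.bk.cv.hM h.bk.cv.hΩ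
  have hsub : Sn Ω s α.toZFSet ⊆ Sn Ω s lam.toZFSet := Sn_mono hω (Ordinal.toZFSet_subset_toZFSet_iff.2 hα)
  have key : ∀ {w p q : ZFSet.{0}}, p ∈ H → LE Ω ∅ p q → ZFSet.pair w q ∈ t → q ∈ G := by
    intro w p q hp hle hw
    obtain ⟨x, y, rfl⟩ := Ee_nm_form hN hw
    have h1 := Ee_nm_mem hN hw
    exact h.fr.gen.up p (hH.sub p hp) q (mem_Ln.2 ⟨hH.fr.gen.sub p hp, hsub h1.2.2.1, hle⟩)
  constructor
  · ext w
    rw [mem_vv, mem_vv]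
    constructor
    · rintro ⟨p, hp, hw⟩
      obtain ⟨x, y, rfl⟩ := Ee_oo_form hw
      obtain ⟨_, _, _, _, q, h5, h6⟩ := mem_OO.1 hw
      exact ⟨q, key hp h6 h5, h5⟩
    · rintro ⟨q, hq, hw⟩
      obtain ⟨x, y, rfl⟩ := Ee_nm_form hN hw
      obtain ⟨h1, h2, h3, h4⟩ := Ee_nm_mem hN hw
      obtain ⟨p, hp, hle⟩ := (good_up0 h hc hH (hsub h3)).1 hq
      exact ⟨p, hp, mem_OO.2 ⟨h1, h2, hH.fr.gen.sub p hp, h4, q, hw, hle⟩⟩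
  · ext w
    rw [mem_vv, mem_vv]
    constructor
    · rintro ⟨p, hp, hw⟩
      obtain ⟨x, y, rfl⟩ := Ee_oo_form hw
      obtain ⟨_, _, _, _, q, h5, h6⟩ := mem_OO.1 hw
      exact ⟨q, key hp.1 h6 h5, h5⟩
    · rintro ⟨q, hq, hw⟩
      obtain ⟨x, y, rfl⟩ := Ee_nm_form hN hw
      obtain ⟨h1, h2, h3, h4⟩ := Ee_nm_mem hN hw
      obtain ⟨p, hp, hle⟩ := (good_up0 h hc hH (hsub h3)).1 hq
      have hpS := hH.fr.gen.sub p hp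
      have h5 : rst p α.toZFSet ∈ Sn Ω s α.toZFSet := rst_mem_Sn hω Ee_ord Ee_ord hpS
      have h6 : LE Ω ∅ (rst p α.toZFSet) q := by
        have h7 := LE.rst (α := α.toZFSet) hle
        rwa [rst_eq hω h3] at h7
      refine ⟨rst p α.toZFSet, ⟨?_, h5⟩, mem_OO.2 ⟨h1, h2, h5, h4, q, hw, h6⟩⟩
      exact hH.fr.gen.up p hp _ (mem_Ln.2 ⟨hpS, hsub h5, LE.of_sub rst_sub⟩)

theorem EE.down_c (hω : Ordinal.omega0 ≤ Ω) {α t c q q' : ZFSet.{0}} (h : EE M Ω s α t c q)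
    (h' : ZFSet.pair q' q ∈ Ln Ω s α c) : EE M Ω s α t c q' := by
  obtain ⟨ζ, hζ, f⟩ := h
  have ht := (Ln_pre (Ω := Ω) (s := s) α c).trans
  exact ⟨ζ, hζ, (mem_Ln.1 h').1, f.sub, f.op, fun x y r hr => f.ch x y r (ht _ _ _ hr h'),
    fun r hr β hβ => f.unb r (ht _ _ _ hr h') β hβ⟩

theorem EE.trp (hM : CTM M) (hΩ : IsOm1 M Ω) (hs : s ∈ M) {α t c q K : ZFSet.{0}} (hα : α.IsOrdinal) (hαM : α ∈ M)
    (hc : c ∈ M) (ht : t ∈ M) (hK : KK Ω K) (hKM : K ∈ M) (h : EE M Ω s α t c q) : EE M Ω s α t c (trp K q) := by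
  have hω := om_le hM hΩ
  obtain ⟨ζ, hζ, f⟩ := h
  obtain ⟨ζ', hζ', hz⟩ := Ee_name hM hΩ.mem hs hαM hKM hζ
  have hE : ∀ r ∈ Sn Ω s α, IsE r := fun r hr => IsC.isE (Ω := Ω) (s := s) (ZFSet.mem_sep.1 hr).2
  have htr : ∀ r ∈ Sn Ω s α, CF.trp K r ∈ Sn Ω s α := fun r hr => trp_mem_Sn hω hα hK hr
  have hz' : ∀ x r, ZFSet.pair x r ∈ ζ' ↔ x ∈ Nd Ω omZ ∧ r ∈ Sn Ω s α ∧ ZFSet.pair x (CF.trp K r) ∈ ζ := by
    intro x r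
    rw [hz, ZFSet.pair_mem_prod]
    constructor
    · rintro ⟨⟨h1, h2⟩, x', r', h3, h4, h5⟩
      obtain ⟨rfl, rfl⟩ := ZFSet.pair_inj.1 h3
      exact ⟨h1, h2, h4⟩
    · rintro ⟨h1, h2, h3⟩
      exact ⟨⟨h1, h2⟩, x, r, rfl, h3, htr r h2⟩
  have hL : ∀ {r r' : ZFSet.{0}}, ZFSet.pair r r' ∈ Ln Ω s α c →
      ZFSet.pair (CF.trp K r) (CF.trp K r') ∈ Ln Ω s α c := by
    intro r r' hr
    obtain ⟨h1, h2, h3⟩ := mem_Ln.1 hr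
    exact mem_Ln.2 ⟨htr r h1, htr r' h2, (LE_trp_trp (hE r h1) (hE r' h2) hK).2 h3⟩
  refine ⟨ζ', hζ', htr q f.q_mem, fun z hz1 => ((hz z).1 hz1).1, ?_, ?_, ?_⟩
  · intro x r r' h1 h2
    obtain ⟨h3, h4, h5⟩ := (hz' x r).1 h1
    exact (hz' x r').2 ⟨h3, (mem_Ln.1 h2).1, f.op _ _ _ h5 (hL h2)⟩
  · intro x y r h1 h2 h3 h4
    obtain ⟨_, h5, h6⟩ := (hz' x r).1 h2
    obtain ⟨_, _, h7⟩ := (hz' y r).1 h3
    have h8 := hL h1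
    rw [trp_trp (hE q f.q_mem)] at h8
    refine f.ch x y (CF.trp K r) h8 h6 h7 ?_
    exact Ee_oo_op h4 (htr r h5) (LE_trp (hE r h5) hK (cd_av K)).1
  · intro r h1 β hβ
    have h2 := hL h1
    rw [trp_trp (hE q f.q_mem)] at h2
    obtain ⟨r', h3, a, m, h4, h5⟩ := f.unb _ h2 β hβ
    have h6 := hL h3
    have hrS := (mem_Ln.1 h1).1
    rw [trp_trp (hE r hrS)] at h6
    have hr'S := (mem_Ln.1 h3).1
    refine ⟨CF.trp K r', h6, a, m, (hz' _ _).2 ⟨?_, htr r' hr'S, ?_⟩, h5⟩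
    · exact (ZFSet.pair_mem_prod.1 (f.sub h4)).1
    · rw [trp_trp (hE r' hr'S)]
      exact h4

theorem EE.down0 (hM : CTM M) (hΩ : IsOm1 M Ω) (hs : s ∈ M) {α t c q q' : ZFSet.{0}} (hα : α.IsOrdinal) (hαM : α ∈ M)
    (hc : c ∈ M) (ht : t ∈ M) (h : EE M Ω s α t c q) (hq' : q' ∈ Sn Ω s α) (hle : LE Ω ∅ q' q) :
    EE M Ω s α t c q' := by
  have hω := om_le hM hΩ
  have hE : ∀ r ∈ Sn Ω s α, IsE r := fun r hr => IsC.isE (Ω := Ω) (s := s) (ZFSet.mem_sep.1 hr).2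
  obtain ⟨K, hK, _, h1, h2⟩ := LE.cut hle
  obtain ⟨ζ, hζ, f⟩ := id h
  have hq := f.q_mem
  have hqM : q ∈ M := hM.mem_of_mem (Sn_mem hM hΩ.mem hs hαM) hq
  have hKM : K ∈ M := by
    refine FinZ.mem hM (X := K) hK.1 fun z hz => ?_
    obtain ⟨μ, a, ⟨r, _, rfl⟩, ha⟩ := hK.2 z hz
    obtain ⟨y, z', h3⟩ := h1 _ _ hz
    exact hM.pair_mem (dx_ent hqM hM h3).1 (hM.mem_of_mem hΩ.mem ha)
  have h3 := h.trp hM hΩ hs hα hαM hc ht hK hKM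
  refine h3.down_c hω (mem_Ln.2 ⟨hq', trp_mem_Sn hω hα hK hq, LE.of_sub fun e he => ?_⟩)
  obtain ⟨ρ, y, z, h4, rfl⟩ := (mem_trp (hE q hq)).1 he
  exact h2 ρ y z h4

theorem tb_mem (hM : CTM M) (hΩ : IsOm1 M Ω) (hs : s ∈ M) {α t p : ZFSet.{0}} (hαM : α ∈ M) (ht : t ∈ M)
    (hp : p ∈ M) : tb Ω s α t p ∈ M := by
  have h1 : PD hM (n := 0) (fun _ => ZFSet.sep (fun z => ∃ w q, z = ZFSet.pair w q ∧ ∃ x y, w = ZFSet.pair x y ∧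
      Bel x y ∧ Inc Ω s α q p) (ZFSet.prod (ZFSet.prod (Nd Ω omZ) (Nd Ω omZ)) (Sn Ω s α))) := by
    refine PD.sep (P := fun v z => ∃ w q, z = ZFSet.pair w q ∧ ∃ x y, w = ZFSet.pair x y ∧
      Bel x y ∧ Inc Ω s α q p) (PD.prod (PD.prod (PD.Nd hΩ.mem PD.omZ) (PD.Nd hΩ.mem PD.omZ))
        (PD.Sn hΩ.mem (PD.const hs) (PD.const hαM))) ?_
    refine Df.exPr (x := fun v : Fin 1 → M => (v 0).1) (P := fun v w q => ∃ x y, w = ZFSet.pair x y ∧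
      Bel x y ∧ Inc Ω s α q p) (PD.var _) ?_
    refine Df.exPr (x := fun v : Fin 3 → M => (v 1).1) (P := fun v x y =>
      Bel x y ∧ Inc Ω s α (v 2).1 p) (PD.var _) ?_
    refine Dfn.and (Df.Bel (PD.var _) (PD.var _)) ?_
    refine Df.ball (P := fun (v : Fin 5 → M) r => LE Ω ∅ r (v 2).1 → ¬ LE Ω ∅ r p)
      (PD.Sn hΩ.mem (PD.const hs) (PD.const hαM)) ?_
    exact Dfn.imp (Df.LE hΩ.mem (PD.const hM.empty_mem) (PD.var _) (PD.var _))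
      (Dfn.not (Df.LE hΩ.mem (PD.const hM.empty_mem) (PD.var _) (PD.const hp)))
  have h2 := h1.1 Fin.elim0
  refine hM.union_mem ht ?_
  refine Eq.mp (congrArg (fun z => z ∈ M) ?_) h2
  ext z
  rw [ZFSet.mem_sep, ZFSet.mem_sep]
  refine and_congr_right fun _ => ?_
  constructor
  · rintro ⟨w, q, h3, x, y, h4, h5, h6⟩
    exact ⟨x, y, q, by rw [h3, h4], h5, h6⟩
  · rintro ⟨x, y, q, h3, h5, h6⟩
    exact ⟨_, q, h3, x, y, rfl, h5, h6⟩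

theorem tb_nm {α t p : ZFSet.{0}} (h : Nm Ω s α t) : Nm Ω s α (tb Ω s α t p) := by
  refine ⟨fun z hz => ?_, fun x y q hz => ?_⟩
  · rcases ZFSet.mem_union.1 hz with h1 | h1
    · exact h.1 h1
    · exact (ZFSet.mem_sep.1 h1).1
  · rcases ZFSet.mem_union.1 hz with h1 | h1
    · exact h.2 x y q h1
    · obtain ⟨x', y', q', h2, h3, _⟩ := (ZFSet.mem_sep.1 h1).2
      obtain ⟨h4, _⟩ := ZFSet.pair_inj.1 h2
      obtain ⟨rfl, rfl⟩ := ZFSet.pair_inj.1 h4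
      exact h3

theorem tb_tgn (hω : Ordinal.omega0 ≤ Ω) {α t p : ZFSet.{0}} (hα : α.IsOrdinal) (hN : Nm Ω s α t) (hp : p ∈ Sn Ω s α)
    (h : TGP Ω s α t p) : TGN Ω omZ (Ln Ω s α ∅) (OO Ω omZ s α (tb Ω s α t p)) := by
  have hsub : t ⊆ tb Ω s α t p := fun z hz => ZFSet.mem_union.2 (Or.inl hz)
  intro x hx y hy z hz hxy hyz r hr
  have hrS : r ∈ Sn Ω s α := (mem_OO.1 hr).2.2.1
  by_cases hinc : Inc Ω s α r p
  · have hxz := Ee_bel_trans hz hxy hyz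
    refine ⟨r, mem_Ln.2 ⟨hrS, hrS, LE.refl Ω ∅ r⟩, Or.inl (mem_OO.2 ⟨hx, hz, hrS, hxz, r, ?_, LE.refl Ω ∅ r⟩)⟩
    refine ZFSet.mem_union.2 (Or.inr (ZFSet.mem_sep.2 ⟨?_, x, z, r, rfl, hxz, hinc⟩))
    exact ZFSet.pair_mem_prod.2 ⟨ZFSet.pair_mem_prod.2 ⟨hx, hz⟩, hrS⟩
  · have hinc' : ∃ r' ∈ Sn Ω s α, LE Ω ∅ r' r ∧ LE Ω ∅ r' p := by
      by_contra hcon
      exact hinc fun r' h1 h2 h3 => hcon ⟨r', h1, h2, h3⟩
    obtain ⟨r', h1, h2, h3⟩ := hinc'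
    have h4 := Ee_oo_op hr h1 h2
    obtain ⟨_, _, _, _, q, h5, h6⟩ := mem_OO.1 h4
    have h7 : ZFSet.pair (ZFSet.pair x y) r' ∈ OO Ω omZ s α t := by
      rcases ZFSet.mem_union.1 h5 with h8 | h8
      · exact mem_OO.2 ⟨hx, hy, h1, hxy, q, h8, h6⟩
      · obtain ⟨x', y', q', h9, _, h10⟩ := (ZFSet.mem_sep.1 h8).2
        obtain ⟨_, rfl⟩ := ZFSet.pair_inj.1 h9
        exact absurd h3 (h10 r' h1 h6)
    obtain ⟨r'', h8, h9, h10⟩ := h x hx y hy z hz hxy hyz r' h3 h7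
    refine ⟨r'', mem_Ln.2 ⟨h8, hrS, h9.trans h2⟩, ?_⟩
    rcases h10 with h10 | h10
    · exact Or.inl (Ee_oo_mono hsub h10)
    · exact Or.inr (Ee_oo_mono hsub h10)

theorem tb_val (h : St M κ Ω lam s G) {α : Ordinal.{0}} (hα : α ≤ lam) {t p : ZFSet.{0}} (hp : p ∈ G)
    (hpα : p ∈ Sn Ω s α.toZFSet) : vv G (tb Ω s α.toZFSet t p) = vv G t := by
  have hω := om_le h.bk.cv.hM h.bk.cv.hΩ
  ext w
  rw [mem_vv, mem_vv]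
  constructor
  · rintro ⟨q, hq, hw⟩
    rcases ZFSet.mem_union.1 hw with h1 | h1
    · exact ⟨q, hq, h1⟩
    · exfalso
      obtain ⟨h2, x, y, q', h3, _, h4⟩ := ZFSet.mem_sep.1 h1
      obtain ⟨_, rfl⟩ := ZFSet.pair_inj.1 h3
      obtain ⟨h5, h6⟩ := ZFSet.pair_mem_prod.1 h2
      obtain ⟨r, hr, h7, h8⟩ := h.fr.gen.dir q hq p hp
      have hrS := h.fr.gen.sub r hr
      have h9 : rst r α.toZFSet ∈ Sn Ω s α.toZFSet := rst_mem_Sn hω Ee_ord Ee_ord hrS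
      have h10 : LE Ω ∅ (rst r α.toZFSet) q := by
        have h11 := LE.rst (α := α.toZFSet) (mem_Ln.1 h7).2.2
        rwa [rst_eq hω h6] at h11
      have h12 : LE Ω ∅ (rst r α.toZFSet) p := by
        have h11 := LE.rst (α := α.toZFSet) (mem_Ln.1 h8).2.2
        rwa [rst_eq hω hpα] at h11
      exact h4 _ h9 h10 h12
  · rintro ⟨q, hq, hw⟩
    exact ⟨q, hq, ZFSet.mem_union.2 (Or.inl hw)⟩

theorem EE.of_tb (hM : CTM M) (hΩ : IsOm1 M Ω) (hs : s ∈ M) {α t c q p : ZFSet.{0}} (hα : α.IsOrdinal) (hαM : α ∈ M)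
    (hc : c ∈ M) (ht : t ∈ M) (hN : Nm Ω s α t) (hp : p ∈ Sn Ω s α)
    (h : EE M Ω s α (tb Ω s α t p) c q) :
    ∃ u ∈ Sn Ω s α, LE Ω ∅ u q ∧ LE Ω ∅ u p ∧ EE M Ω s α t c u := by
  have hω := om_le hM hΩ
  have hE : ∀ r ∈ Sn Ω s α, IsE r := fun r hr => IsC.isE (Ω := Ω) (s := s) (ZFSet.mem_sep.1 hr).2
  have hsub : t ⊆ tb Ω s α t p := fun z hz => ZFSet.mem_union.2 (Or.inl hz)
  obtain ⟨ζ, hζ, f⟩ := id h
  have hq := f.q_mem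
  have hpre := Ln_pre (Ω := Ω) (s := s) α c
  have hinc : ¬ Inc Ω s α q p := by
    intro hinc
    obtain ⟨r1, h1, a, m, h2, _⟩ := f.unb q (hpre.refl q hq) 0
      (lt_of_lt_of_le Ordinal.omega0_pos hω)
    have h3 := ZFSet.pair_mem_prod.1 (f.sub h2)
    have ha : a ∈ Ω.toZFSet := (ZFSet.mem_sep.1 (ZFSet.pair_mem_prod.1 h3.1).1).1
    obtain ⟨β, hβ, rfl⟩ := Ordinal.mem_toZFSet_iff.1 ha
    obtain ⟨r2, h4, b, n, h5, h6⟩ := f.unb r1 h1 β hβ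
    have h7 := ZFSet.pair_mem_prod.1 (f.sub h5)
    have h8 : Bel (ZFSet.pair β.toZFSet m) (ZFSet.pair b n) := ⟨_, _, _, _, rfl, rfl, h6⟩
    have h9 := hpre.trans _ _ _ h4 h1
    refine f.ch _ _ r2 h9 (f.op _ _ _ h2 h4) h5 (mem_OO.2 ⟨h3.1, h7.1, (mem_Ln.1 h9).1, h8, q, ?_,
      (mem_Ln.1 h9).2.2.to0⟩)
    exact ZFSet.mem_union.2 (Or.inr (ZFSet.mem_sep.2
      ⟨ZFSet.pair_mem_prod.2 ⟨ZFSet.pair_mem_prod.2 ⟨h3.1, h7.1⟩, hq⟩, _, _, q, rfl, h8, hinc⟩))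
  have hinc' : ∃ r' ∈ Sn Ω s α, LE Ω ∅ r' q ∧ LE Ω ∅ r' p := by
    by_contra hcon
    exact hinc fun r' h1 h2 h3 => hcon ⟨r', h1, h2, h3⟩
  obtain ⟨u₀, h1, h2, h3⟩ := hinc'
  obtain ⟨K, hK, h4, h5, h6⟩ := LE.transl (hE q hq) (hE u₀ h1) h2
  have h7 : CF.trp K u₀ ∈ Sn Ω s α := trp_mem_Sn hω hα hK h1
  obtain ⟨ζ', hζ', f'⟩ := h.down_c (q' := CF.trp K u₀) hω (mem_Ln.2 ⟨h7, hq, LE.of_sub h4⟩)
  refine ⟨CF.trp K u₀, h7, LE.of_sub h4, h5.trans h3, ζ', hζ', f'.q_mem, f'.sub, f'.op, ?_, f'.unb⟩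
  intro x y r h8 h9 h10 h11
  exact f'.ch x y r h8 h9 h10 (Ee_oo_mono hsub h11)

theorem exists_tgp (h : St M κ Ω lam s G) {α : Ordinal.{0}} (hα : α ≤ lam) {t : ZFSet.{0}} (ht : t ∈ M)
    (hN : Nm Ω s α.toZFSet t) (hT : TG Ω omZ (vv G t)) :
    ∃ p ∈ G, p ∈ Sn Ω s α.toZFSet ∧ TGP Ω s α.toZFSet t p := by
  have hM := h.bk.cv.hM
  have hΩ := h.bk.cv.hΩ
  have hs := h.bk.hs
  have hω := om_le hM hΩ
  have hlam := h.bk.cv.hlamN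
  have hαM : α.toZFSet ∈ M := by
    rcases hα.lt_or_eq with h1 | rfl
    · exact hM.mem_of_mem hlam (Ordinal.toZFSet_mem_toZFSet_iff.2 h1)
    · exact hlam
  have hsub : Sn Ω s α.toZFSet ⊆ Sn Ω s lam.toZFSet := Sn_mono hω (Ordinal.toZFSet_subset_toZFSet_iff.2 hα)
  have hg := (good_res hM hΩ hs hlam hα hM.empty_mem h.fr).1
  by_contra hcon
  push Not at hcon
  obtain ⟨p0, hp0⟩ := hg.gen.ne
  have hW := Ee_dfn_W (hM := hM) hΩ.mem hs hαM ht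
  have hLE : h.bk.cv.hM.Dfn (fun v : Fin 1 → M => (∀ r ∈ Sn Ω s α.toZFSet, LE Ω ∅ r (v 0).1 →
      ¬ EeW Ω s α.toZFSet t r) ∨ EeW Ω s α.toZFSet t (v 0).1) := by
    refine Dfn.or ?_ hW
    refine Df.ball (P := fun (v : Fin 1 → M) r => LE Ω ∅ r (v 0).1 → ¬ EeW Ω s α.toZFSet t r)
      (PD.const (Sn_mem hM hΩ.mem hs hαM)) ?_
    exact Dfn.imp (Df.LE hΩ.mem (PD.const hM.empty_mem) (PD.var _) (PD.var _))
      (Dfn.not (Dy_u1 hW (PD.var _)))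
  obtain ⟨q, hq, hD⟩ := hg.gen_dfn (D := fun q : M => (∀ r ∈ Sn Ω s α.toZFSet, LE Ω ∅ r q.1 →
      ¬ EeW Ω s α.toZFSet t r) ∨ EeW Ω s α.toZFSet t q.1) hLE hp0 (by
    intro r hr
    have hrS := (mem_Ln.1 hr).1
    by_cases hex : ∃ r' ∈ Sn Ω s α.toZFSet, LE Ω ∅ r' r.1 ∧ EeW Ω s α.toZFSet t r'
    · obtain ⟨r', h1, h2, h3⟩ := hex
      exact ⟨⟨r', hM.mem_of_mem (Sn_mem hM hΩ.mem hs hαM) h1⟩, mem_Ln.2 ⟨h1, hrS, h2⟩, Or.inr h3⟩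
    · exact ⟨r, mem_Ln.2 ⟨hrS, hrS, LE.refl Ω ∅ _⟩, Or.inl fun r' h1 h2 h3 => hex ⟨r', h1, h2, h3⟩⟩)
  rcases hD with hD | hD
  · refine hcon q.1 hq.1 hq.2 ?_
    intro x hx y hy z hz hxy hyz q' hq' h1
    by_contra hn
    push Not at hn
    exact hD q' (mem_OO.1 h1).2.2.1 hq' ⟨x, hx, y, hy, z, hz, hxy, hyz, h1, fun r h2 h3 => hn r h2 h3⟩
  · obtain ⟨x, hx, y, hy, z, hz, hxy, hyz, h1, h2⟩ := hD
    have hw : ZFSet.pair x y ∈ vv G t := by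
      obtain ⟨_, _, _, _, q', h3, h4⟩ := mem_OO.1 h1
      refine mem_vv.2 ⟨q', h.fr.gen.up q.1 hq.1 q' (mem_Ln.2 ⟨hsub hq.2, hsub (Ee_nm_mem hN h3).2.2.1, h4⟩), h3⟩
    have hbad : ∀ x' y', ZFSet.pair x' y' ∈ vv G t → ∃ r ∈ Sn Ω s α.toZFSet, LE Ω ∅ r q.1 ∧
        ZFSet.pair (ZFSet.pair x' y') r ∈ OO Ω omZ s α.toZFSet t := by
      intro x' y' h3
      obtain ⟨q', hq', h4⟩ := mem_vv.1 h3
      obtain ⟨h5, h6, h7, h8⟩ := Ee_nm_mem hN h4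
      obtain ⟨r, hr, h9, h10⟩ := hg.gen.dir q.1 hq q' ⟨hq', h7⟩
      exact ⟨r, hr.2, (mem_Ln.1 h9).2.2, mem_OO.2 ⟨h5, h6, hr.2, h8, q', h4, (mem_Ln.1 h10).2.2⟩⟩
    rcases hT x hx y hy z hz hxy hyz hw with h3 | h3
    · obtain ⟨r, h4, h5, h6⟩ := hbad _ _ h3
      exact (h2 r h4 h5).1 h6
    · obtain ⟨r, h4, h5, h6⟩ := hbad _ _ h3
      exact (h2 r h4 h5).2 h6

end Pool.Agent.H17.CF
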