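import Pool.Agent.H17.CF.F.Defs
import Pool.Agent.H17.CF.A.Nice
import Pool.Agent.H17.CF.A.Pres
import Pool.Agent.H17.CF.C.Bas

/-!
# CF-F2: names of small sets are bounded

`(Sn Ω s lam, ≤_∅)` is ccc (`cc_all` with `c = ∅`: `DD s lam ∅`).

PROOF of `bdd_name`. Let `Y ∈ M[G]`, `Y ⊆ A ∈ M`, `A` of size `≤ κ` in `M`. `exists_sname` and `exists_nice` give `ζ ∈ M`,
`ζ ⊆ A × Sn Ω s lam`, `vv G ζ = Y`, with countable sections. So `ζ` has size `≤ κ` (`cvr_union` with `I = A`; or `cvr_prod2` and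
choice), and the set `X ⊆ lam` of the stages of the entries of the conditions `p`, `(a, p) ∈ ζ`, has size `≤ κ` (`cvr_union`
again: each `p` is finite; in `M` by separation). By `bdd_of_cvr` (CF/A/Card) there is `α < lam` with `X ⊆ α`. So
`ζ ⊆ A × Sn Ω s α` (`mem_Sn`).

`st_ccc` = ccc of `(Sn Ω s lam, ≤_c)` for cliques `c`; `good_om1`: `Ω` is `ω₁` in `M[H]` for `c`-good `H` (`CC.om1`); `st_cv`:
`Cv (ExtZ M G) κ Ω lam`: `CC.om1`, `CC.card`, `CC.card2`, `Fr.ord`, and `Cvr` goes up (`M ⊆ M[G]`).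

`graph_name` (for graphs): let `I ∈ M[G]`, `I` a set of pairs `(x, y)` of nodes with `Bel x y`. There is `α < lam` and a name `t ∈ M`, `Nm Ω s α t`,
such that `I = vv G t`. (`A = Nd × Nd` has size `≤ Ω ≤ κ`.) Drop the elements of `t` without `Bel x y`.
-/

set_option autoImplicit false
set_option linter.unusedVariables false
set_option linter.unusedSectionVars false
set_option linter.unusedSimpArgs false
set_option linter.unusedTactic false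
set_option linter.unreachableTactic false

open Pool.Agent.H17.Omega Pool.Agent.H17.Omega.CTM Pool.Agent.H52.GC Pool.Agent.H7.IG

namespace Pool.Agent.H17.CF

variable {M : Set ZFSet.{0}} {κ Ω lam : Ordinal.{0}} {s : ZFSet.{0}} {G : Set ZFSet.{0}}

theorem st_ccc (h : St M κ Ω lam s G) {β : Ordinal.{0}} (hβ : β ≤ lam) {c : ZFSet.{0}} (hc : DD s β.toZFSet c) :
    CC M (Sn Ω s β.toZFSet) (Ln Ω s β.toZFSet c) :=
  cc_all h.bk.cv.hM h.bk.cv.hΩ (om_cvr h.bk.cv.hM h.bk.cv.hκN h.bk.cv.hκω).1 h.bk.hs h.bk.cv.hlamN h.bk.vld hβ hc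

theorem good_om1 (h : St M κ Ω lam s G) {c : ZFSet.{0}} (hc : DD s lam.toZFSet c) {H : Set ZFSet.{0}}
    (hH : Gd M Ω lam s G c H) : IsOm1 (ExtZ M H) Ω :=
  CC.om1 hH.fr (st_ccc h le_rfl hc) h.bk.cv.hΩ

theorem st_cv (h : St M κ Ω lam s G) : Cv (ExtZ M G) κ Ω lam := by
  have hc := st_ccc h le_rfl (c := ∅) (Or.inl rfl)
  have hv := h.bk.cv
  refine ⟨h.fr.ctm, h.fr.sub hv.hκN, hv.hκω, CC.card h.fr hc hv.hκN hv.hκω hv.hκ, CC.om1 h.fr hc hv.hΩ,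
    hv.hΩκ, h.fr.sub hv.hlamN, hv.hlamκ, CC.card2 h.fr hc hv.hκN hv.hκω hv.hlamN hv.hlam, fun α hα => ?_⟩
  obtain ⟨f, hf, h1⟩ := hv.hcov α hα
  exact ⟨f, h.fr.sub hf, h1⟩

/-- The stages of the entries of a condition. -/
def NamS (p μ : ZFSet.{0}) : Prop := ∃ e ∈ p, ∃ ρ t, e = ZFSet.pair ρ t ∧ ∃ μ' r, ρ = ZFSet.pair μ' r ∧ μ' = μ

theorem Nam_dfn (hM : CTM M) {n : ℕ} {p μ : (Fin n → M) → ZFSet.{0}} (hp : PD hM p) (hμ : PD hM μ) :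
    hM.Dfn (fun v => NamS (p v) (μ v)) := by
  refine Df.bex (P := fun v e => ∃ ρ t, e = ZFSet.pair ρ t ∧ ∃ μ' r, ρ = ZFSet.pair μ' r ∧ μ' = μ v) hp ?_
  refine Df.exPr (x := fun v => (v (Fin.last n)).1)
    (P := fun v ρ _ => ∃ μ' r, ρ = ZFSet.pair μ' r ∧ μ' = μ (fun i => v i.castSucc)) (PD.var _) ?_
  refine Df.exPr (x := fun v => (v (Fin.last (n + 1)).castSucc).1)
    (P := fun v μ' _ => μ' = μ (fun i => v i.castSucc.castSucc.castSucc)) (PD.var _) ?_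
  exact Df.eq (PD.var _) hμ.lift.lift.lift.lift.lift

theorem Nam_fin {p Y : ZFSet.{0}} (hp : FinZ p) (hY : ∀ μ ∈ Y, NamS p μ) : FinZ Y := by
  refine sc_finR hp (fun e μ => ∃ ρ t, e = ZFSet.pair ρ t ∧ ∃ μ' r, ρ = ZFSet.pair μ' r ∧ μ' = μ) ?_ ?_
  · rintro x w w' ⟨ρ, t, h1, μ₁, r₁, h2, rfl⟩ ⟨ρ', t', h1', μ₂, r₂, h2', rfl⟩
    have h3 := (ZFSet.pair_inj.1 (h1.symm.trans h1')).1
    exact (ZFSet.pair_inj.1 (h2.symm.trans (h3.trans h2'))).1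
  · intro μ hμ
    exact hY μ hμ

theorem bdd_name (h : St M κ Ω lam s G) {A Y : ZFSet.{0}} (hA : A ∈ M) (hAκ : Cvr M κ.toZFSet A)
    (hY : Y ∈ ExtZ M G) (hYA : Y ⊆ A) :
    ∃ α < lam, ∃ ζ ∈ M, ζ ⊆ ZFSet.prod A (Sn Ω s α.toZFSet) ∧ vv G ζ = Y := by
  have hv := h.bk.cv
  have hM := hv.hM
  have hω := om_le hM hv.hΩ
  have hS : Sn Ω s lam.toZFSet ∈ M := Sn_mem hM hv.hΩ.mem h.bk.hs hv.hlamN
  have hc := st_ccc h le_rfl (c := ∅) (Or.inl rfl)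
  obtain ⟨ζ₀, hζ₀, hs₀, ho₀, hv₀⟩ := exists_sname h.fr hA hY hYA
  obtain ⟨ζ, hζ, hζs, hζc, hζv⟩ := exists_nice hM h.fr.hP h.fr.hR hc hA hζ₀ hs₀ ho₀
  -- the set of the conditions that occur in `ζ`
  obtain ⟨D, hD, hD'⟩ : ∃ D ∈ M, ∀ p, p ∈ D ↔ p ∈ Sn Ω s lam.toZFSet ∧ ∃ a ∈ A, ZFSet.pair a p ∈ ζ := by
    refine ⟨ZFSet.sep (fun p => ∃ a ∈ A, ZFSet.pair a p ∈ ζ) (Sn Ω s lam.toZFSet), ?_, fun p => ZFSet.mem_sep⟩
    refine (PD.sep (hN := hM) (n := 0) (P := fun _ p => ∃ a ∈ A, ZFSet.pair a p ∈ ζ) (PD.const hS) ?_).1 Fin.elim0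
    refine Df.bex (P := fun v a => ZFSet.pair a (v (Fin.last 0)).1 ∈ ζ) (PD.const hA) ?_
    exact Df.mem (PD.pair (PD.var _) (PD.var _)) (PD.const hζ)
  have hDκ : Cvr M κ.toZFSet D := by
    refine cvr_union hM hv.hκN hv.hκω hA hζ hD hAκ ?_ ?_
    · intro a ha
      have haM := hM.mem_of_mem hA ha
      have hY := pres_sec hM hζ haM hS
      refine ⟨_, hY, ctb_cvr hM hv.hκN hv.hκω hY (hζc a ha), fun p hp hap => ?_⟩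
      rw [ZFSet.mem_sep]
      exact ⟨((hD' p).1 hp).1, hap⟩
    · intro p hp
      exact ((hD' p).1 hp).2
  -- the stages
  obtain ⟨r, hr, hr'⟩ : ∃ r ∈ M, ∀ p μ, ZFSet.pair p μ ∈ r ↔ p ∈ D ∧ μ ∈ lam.toZFSet ∧ NamS p μ := by
    refine ⟨ZFSet.sep (fun z => ∃ p μ, z = ZFSet.pair p μ ∧ NamS p μ) (ZFSet.prod D lam.toZFSet), ?_,
      fun p μ => ?_⟩
    · refine (PD.sep (hN := hM) (n := 0) (P := fun _ z => ∃ p μ, z = ZFSet.pair p μ ∧ NamS p μ)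
        (PD.prod (PD.const hD) (PD.const hv.hlamN)) ?_).1 Fin.elim0
      refine Df.exPr (x := fun v => (v (Fin.last 0)).1) (P := fun _ p μ => NamS p μ) (PD.var _) ?_
      exact Nam_dfn hM (PD.var _) (PD.var _)
    · rw [ZFSet.mem_sep, ZFSet.pair_mem_prod]
      constructor
      · rintro ⟨h1, p', μ', h2, h3⟩
        obtain ⟨rfl, rfl⟩ := ZFSet.pair_inj.1 h2
        exact ⟨h1.1, h1.2, h3⟩
      · rintro ⟨h1, h2, h3⟩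
        exact ⟨⟨h1, h2⟩, p, μ, rfl, h3⟩
  obtain ⟨X, hX, hX'⟩ : ∃ X ∈ M, ∀ μ, μ ∈ X ↔ μ ∈ lam.toZFSet ∧ ∃ p ∈ D, ZFSet.pair p μ ∈ r := by
    refine ⟨ZFSet.sep (fun μ => ∃ p ∈ D, ZFSet.pair p μ ∈ r) lam.toZFSet, ?_, fun p => ZFSet.mem_sep⟩
    refine (PD.sep (hN := hM) (n := 0) (P := fun _ μ => ∃ p ∈ D, ZFSet.pair p μ ∈ r)
      (PD.const hv.hlamN) ?_).1 Fin.elim0
    refine Df.bex (P := fun v p => ZFSet.pair p (v (Fin.last 0)).1 ∈ r) (PD.const hD) ?_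
    exact Df.mem (PD.pair (PD.var _) (PD.var _)) (PD.const hr)
  have hXκ : Cvr M κ.toZFSet X := by
    refine cvr_union hM hv.hκN hv.hκω hD hr hX hDκ ?_ ?_
    · intro p hp
      have hpM := hM.mem_of_mem hD hp
      have hY := pres_sec hM hr hpM hX
      refine ⟨_, hY, ctb_cvr hM hv.hκN hv.hκω hY ?_, fun μ hμ hpμ => ZFSet.mem_sep.2 ⟨hμ, hpμ⟩⟩
      obtain ⟨-, hpf, -⟩ := (mem_Sn hω).1 ((hD' p).1 hp).1
      have hf : FinZ (ZFSet.sep (fun b => ZFSet.pair p b ∈ r) X) :=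
        Nam_fin hpf fun μ hμ => ((hr' p μ).1 (ZFSet.mem_sep.1 hμ).2).2.2
      obtain ⟨t, ht⟩ := hf
      exact lim_ctb_fin hM t _ ht fun z hz => hM.mem_of_mem hY hz
    · intro μ hμ
      exact ((hX' μ).1 hμ).2
  obtain ⟨α, hα, hXα⟩ := bdd_of_cvr hM hv.hκN hv.hκω hv.hlamN hv.hlam hv.hcov hX hXκ
    (fun μ hμ => ((hX' μ).1 hμ).1)
  refine ⟨α, hα, ζ, hζ, ?_, (hζv G h.fr).trans hv₀⟩
  intro z hz
  obtain ⟨a, ha, p, hp, rfl⟩ := ZFSet.mem_prod.1 (hs₀ (hζs hz))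
  rw [ZFSet.pair_mem_prod]
  refine ⟨ha, (mem_Sn hω).2 ?_⟩
  obtain ⟨h1, h2, h3⟩ := (mem_Sn hω).1 hp
  refine ⟨h1, h2, fun μ r' y z' he => hXα ((hX' μ).2 ?_)⟩
  have hpD : p ∈ D := (hD' p).2 ⟨hp, a, ha, hz⟩
  exact ⟨h3 μ r' y z' he, p, hpD, (hr' p μ).2 ⟨hpD, h3 μ r' y z' he, _, he, _, _, rfl, _, _, rfl, rfl⟩⟩

theorem graph_name (h : St M κ Ω lam s G) {I : ZFSet.{0}} (hI : I ∈ ExtZ M G)
    (hIs : ∀ z ∈ I, ∃ x ∈ Nd Ω omZ, ∃ y ∈ Nd Ω omZ, Bel x y ∧ z = ZFSet.pair x y) :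
    ∃ α < lam, ∃ t ∈ M, Nm Ω s α.toZFSet t ∧ vv G t = I := by
  have hv := h.bk.cv
  have hM := hv.hM
  have hNd : Nd Ω omZ ∈ M := (PD.Nd (hN := hM) (n := 0) hv.hΩ.mem (PD.const hM.omZ_mem)).1 Fin.elim0
  have hNκ : Cvr M κ.toZFSet (Nd Ω omZ) := by
    have hL : LvZ Ω ∈ M := (PD.LvZ (hN := hM) (n := 0) hv.hΩ.mem).1 Fin.elim0
    refine cvr_prod2 hM hv.hκN hv.hκω hL hM.omZ_mem (cvr_of_subset hM hv.hκN fun x hx => ?_)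
      (ctb_cvr hM hv.hκN hv.hκω hM.omZ_mem (ctb_om hM))
    obtain ⟨o, ho, rfl⟩ := Ordinal.mem_toZFSet_iff.1 (ZFSet.mem_sep.1 hx).1
    exact Ordinal.toZFSet_mem_toZFSet_iff.2 (ho.trans_le hv.hΩκ)
  obtain ⟨α, hα, ζ, hζ, hs, hval⟩ := bdd_name h (hM.prod_mem hNd hNd)
    (cvr_prod2 hM hv.hκN hv.hκω hNd hNd hNκ hNκ) hI (fun z hz => by
      obtain ⟨x, hx, y, hy, -, rfl⟩ := hIs z hz
      exact ZFSet.pair_mem_prod.2 ⟨hx, hy⟩)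
  obtain ⟨t, ht, ht'⟩ : ∃ t ∈ M, ∀ z, z ∈ t ↔ z ∈ ζ ∧ ∃ w p, z = ZFSet.pair w p ∧
      ∃ x y, w = ZFSet.pair x y ∧ Bel x y := by
    refine ⟨ZFSet.sep (fun z => ∃ w p, z = ZFSet.pair w p ∧ ∃ x y, w = ZFSet.pair x y ∧ Bel x y) ζ, ?_,
      fun p => ZFSet.mem_sep⟩
    refine (PD.sep (hN := hM) (n := 0) (P := fun _ z => ∃ w p, z = ZFSet.pair w p ∧
      ∃ x y, w = ZFSet.pair x y ∧ Bel x y) (PD.const hζ) ?_).1 Fin.elim0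
    refine Df.exPr (x := fun v => (v (Fin.last 0)).1) (P := fun _ w _ => ∃ x y, w = ZFSet.pair x y ∧ Bel x y)
      (PD.var _) ?_
    refine Df.exPr (x := fun v => (v (Fin.last 1).castSucc).1) (P := fun _ x y => Bel x y) (PD.var _) ?_
    exact Df.Bel (PD.var _) (PD.var _)
  refine ⟨α, hα, t, ht, ⟨fun z hz => hs ((ht' z).1 hz).1, ?_⟩, ?_⟩
  · intro x y q hq
    obtain ⟨-, w, p, h1, x', y', h2, h3⟩ := (ht' _).1 hq
    have h4 := (ZFSet.pair_inj.1 h1).1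
    obtain ⟨rfl, rfl⟩ := ZFSet.pair_inj.1 (h4.trans h2)
    exact h3
  · ext z
    rw [mem_vv]
    constructor
    · rintro ⟨p, hp, hz⟩
      rw [← hval, mem_vv]
      exact ⟨p, hp, ((ht' _).1 hz).1⟩
    · intro hz
      obtain ⟨x, hx, y, hy, hb, rfl⟩ := hIs z hz
      rw [← hval, mem_vv] at hz
      obtain ⟨p, hp, hz⟩ := hz
      exact ⟨p, hp, (ht' _).2 ⟨hz, _, _, rfl, x, y, rfl, hb⟩⟩

end Pool.Agent.H17.CF
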