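import Pool.Agent.H17.CF.F.Ee
import Pool.Agent.H17.CF.F.Nam
import Pool.Agent.H17.CF.A.E1
import Pool.Agent.H17.CF.A.E2
import Pool.Agent.H17.CF.C.Bas

/-!
# CF-F4: the restriction theorem for the invariant

Let `t ∈ M` be a name over `Sn Ω s α`, `I = vv G t` a tree graph, `c` a clique (`DD s lam c`).

`ai_iff`: `AI M Ω lam s G I c ↔ ∃ q ∈ G, q ∈ Sn Ω s α ∧ EE M Ω s α t (cres c α) q`.

`←`: let `H ∋ q` be `c`-good (`exists_good`), `H_α = H ∩ Sn α`: generic for `(Sn α, ≤_c)` and `M[H_α] ⊆ M[H]` (`good_res`);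
`Ln α (cres c α) = Ln α c` (`Ln_cres`). By `chain_of_fc` (with `oo_opn`) `vv H_α ζ` is an unbounded chain of
`vv H_α (OO α t) = I` (`oo_val`), and it is in `M[H_α]` (`vv_mem`).

`→`: let `c₀ = cres c α` and suppose that no `q ∈ G ∩ Sn α` satisfies `EE .. c₀ q`. Let `H` be `c`-good with an unbounded chain of
`I` in `M[H]`. Let `p₁ ∈ G ∩ Sn α` with `TGP Ω s α t p₁` (`exists_tgp`). By `good_hom` we may assume `p₁ ∈ H`. The definable set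
`{r ∈ Sn α : EE .. c₀ r, or no r' ≤_{c₀} r satisfies EE}` is dense in `(Sn α, ≤_{c₀})` and meets `H_α` below `p₁`: there is
`p ∈ H_α`, `p ≤_{c₀} p₁` in it (apply `Fr.gen_dfn` below `p₁`; `p` need not be in `H_α` below `p₁` literally: take the
definable set of the `r ≤_{c₀} p₁` with the property). Since `p ∈ G`, no `r' ≤_{c₀} p` satisfies `EE`. `TGP Ω s α t p`
(clear from `TGP` for `p₁`). Let `t' = tb Ω s α t p`.
Claim: the iteration of `(Sn α, ≤_{c₀})` with `OO Ω ω s α t'` is ccc. By `qq_ccc` (ccc of `(Sn α, ≤_{c₀})`: `st_ccc`, `dd_res`; `TGN` for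
`≤_{c₀}`: `tb_tgn` and `oo_tgn` with `β = α`) it is enough that there are no `q, ζ` with `FC`, i.e. no `q` with
`EE M Ω s α t' c₀ q`: by `EE.of_tb` there would be `u ≤_∅ p` with `EE M Ω s α t c₀ u`; by `LE.transl` (translation `K` with rows in `p`,
so `K ∈ M`) `trp K u ⊇ p`, so `trp K u ≤_{c₀} p`, and `EE` holds for `trp K u` (`EE.trp`): contradiction.
By `phi` (`β = lam`) the iteration of `(Sn lam, ≤_c)` with `OO Ω ω s lam t'` is ccc, so by `qq_nochain` there is no `FC` for it. But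
by `good_hom` there is a `c`-good `H' ∋ p` with `M[H'] = M[H]`, which contains an unbounded chain of
`I = vv G t' = vv H' (OO lam t')` (`tb_val`, `oo_val`), and `fc_of_chain` gives an `FC`: contradiction.

`ai_hom`: `AI I c` implies that EVERY `c`-good `H` has an unbounded chain of `I` in `M[H]`: by `ai_iff` (for `α = lam`, or
the given `α`) there is `q ∈ G` with `EE`; by `good_hom` there is `H' ∋ q` `c`-good, `M[H'] = M[H]`, and the proof of `←` applies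
to `H'`.
`ai_up`: `AI I c`, `c ⊆ c'` imply `AI I c'`: take `H'` `c'`-good (`exists_good`), `H` `c`-good with `M[H] ⊆ M[H']` (`good_down`), and
`ai_hom` for `H`.
`ai_res`: `AI I c → AI I (cres c α)`: `ai_iff` twice (`cres_cres`, `dd_res`, `dd_mono`).
-/

set_option autoImplicit false
set_option linter.unusedVariables false
set_option linter.unusedSectionVars false
set_option linter.unusedSimpArgs false
set_option linter.unusedTactic false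
set_option linter.unreachableTactic false

open Pool.Agent.H17.Omega Pool.Agent.H17.Omega.CTM Pool.Agent.H52.GC Pool.Agent.H7.IG

namespace Pool.Agent.H17.CF

variable {M : Set ZFSet.{0}} {κ Ω lam : Ordinal.{0}} {s : ZFSet.{0}} {G : Set ZFSet.{0}}

/-- bounded form of `FC` -/
def F4_FC (NZ LZ ΩZ P R O q ζ : ZFSet.{0}) : Prop :=
  q ∈ P ∧ ζ ⊆ ZFSet.prod NZ P ∧
    (∀ x ∈ NZ, ∀ r ∈ P, ∀ r' ∈ P, ZFSet.pair x r ∈ ζ → ZFSet.pair r' r ∈ R → ZFSet.pair x r' ∈ ζ) ∧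
    (∀ x ∈ NZ, ∀ y ∈ NZ, ∀ r ∈ P, ZFSet.pair r q ∈ R → ZFSet.pair x r ∈ ζ → ZFSet.pair y r ∈ ζ →
      ¬ ZFSet.pair (ZFSet.pair x y) r ∈ O) ∧
    ∀ r ∈ P, ZFSet.pair r q ∈ R → ∀ b ∈ ΩZ, ∃ r' ∈ P, ZFSet.pair r' r ∈ R ∧
      ∃ a ∈ LZ, ∃ m ∈ omZ, ZFSet.pair (ZFSet.pair a m) r' ∈ ζ ∧ b ∈ a

theorem F4_iff {P R O q ζ : ZFSet.{0}} (po : Pre P R) :
    FC Ω omZ P R O q ζ ↔ F4_FC (Nd Ω omZ) (LvZ Ω) Ω.toZFSet P R O q ζ := by
  constructor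
  · intro h
    refine ⟨h.q_mem, h.sub, fun x _ r _ r' _ h1 h2 => h.op x r r' h1 h2,
      fun x _ y _ r _ h1 h2 h3 => h.ch x y r h1 h2 h3, ?_⟩
    intro r hr h1 b hb
    obtain ⟨β, hβ, rfl⟩ := Ordinal.mem_toZFSet_iff.1 hb
    obtain ⟨r', h2, a, m, h3, h4⟩ := h.unb r h1 β hβ
    have h5 := h.sub h3
    rw [ZFSet.pair_mem_prod, Nd, ZFSet.pair_mem_prod] at h5
    exact ⟨r', h5.2, h2, a, h5.1.1, m, h5.1.2, h3, h4⟩
  · rintro ⟨h1, h2, h3, h4, h5⟩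
    refine ⟨h1, h2, ?_, ?_, ?_⟩
    · intro x r r' h6 h7
      have h8 := h2 h6
      rw [ZFSet.pair_mem_prod] at h8
      exact h3 x h8.1 r h8.2 r' (po.mem h7).1 h6 h7
    · intro x y r h6 h7 h8
      have h9 := h2 h7
      have h10 := h2 h8
      rw [ZFSet.pair_mem_prod] at h9 h10
      exact h4 x h9.1 y h10.1 r h9.2 h6 h7 h8
    · intro r h6 β hβ
      obtain ⟨r', _, h7, a, _, m, _, h8, h9⟩ := h5 r (po.mem h6).1 h6 β.toZFSet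
        (Ordinal.toZFSet_mem_toZFSet_iff.2 hβ)
      exact ⟨r', h7, a, m, h8, h9⟩

theorem F4_dfn (hM : CTM M) {NZ LZ ΩZ P R O : ZFSet.{0}} (hN : NZ ∈ M) (hL : LZ ∈ M) (hΩ : ΩZ ∈ M) (hP : P ∈ M)
    (hR : R ∈ M) (hO : O ∈ M) : hM.Dfn (fun v : Fin 2 → M => F4_FC NZ LZ ΩZ P R O (v 0).1 (v 1).1) := by
  have hom : omZ ∈ M := hM.omZ_mem
  have hNP : ZFSet.prod NZ P ∈ M := hM.prod_mem hN hP
  unfold F4_FC
  (repeat' first
    | exact PD.var _ | exact PD.const ‹_› | refine PD.pair ?_ ?_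
    | refine Df.bex ?_ ?_ | refine Df.ball ?_ ?_ | refine Df.eq ?_ ?_ | refine Df.mem ?_ ?_ | refine Df.sub ?_ ?_
    | refine Dfn.and ?_ ?_ | refine Dfn.or ?_ ?_ | refine Dfn.not ?_ | refine Dfn.imp ?_ ?_)

theorem F4_dfn2 (hM : CTM M) {NZ LZ ΩZ P R O : ZFSet.{0}} (hN : NZ ∈ M) (hL : LZ ∈ M) (hΩ : ΩZ ∈ M) (hP : P ∈ M)
    (hR : R ∈ M) (hO : O ∈ M) {p₁ : ZFSet.{0}} (hp₁ : p₁ ∈ M) :
    hM.Dfn (fun v : Fin 1 → M => ZFSet.pair (v 0).1 p₁ ∈ R ∧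
      ((∃ ζ : M, F4_FC NZ LZ ΩZ P R O (v 0).1 ζ.1) ∨
        ∀ r : M, ZFSet.pair r.1 (v 0).1 ∈ R → ¬ ∃ ζ : M, F4_FC NZ LZ ΩZ P R O r.1 ζ.1)) := by
  have h0 := F4_dfn hM hN hL hΩ hP hR hO
  have h1 : ∀ {n : ℕ} (i j : Fin n), hM.Dfn (fun v : Fin n → M => F4_FC NZ LZ ΩZ P R O (v i).1 (v j).1) := by
    intro n i j
    exact reidxC (P := fun v : Fin 2 → M => F4_FC NZ LZ ΩZ P R O (v 0).1 (v 1).1) h0 ![i, j]
  refine Dfn.and (Df.mem (PD.pair (PD.var _) (PD.const hp₁)) (PD.const hR)) (Dfn.or ?_ ?_)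
  · exact Dfn.ex (P := fun (v : Fin 1 → M) ζ => F4_FC NZ LZ ΩZ P R O (v 0).1 ζ.1) (h1 (n := 2) 0 1)
  · refine Dfn.all (P := fun (v : Fin 1 → M) r => ZFSet.pair r.1 (v 0).1 ∈ R →
      ¬ ∃ ζ : M, F4_FC NZ LZ ΩZ P R O r.1 ζ.1) (Dfn.imp ?_ (Dfn.not ?_))
    · exact Df.mem (PD.pair (PD.var _) (PD.var _)) (PD.const hR)
    · exact Dfn.ex (P := fun (v : Fin 2 → M) ζ => F4_FC NZ LZ ΩZ P R O (v 1).1 ζ.1) (h1 (n := 3) 1 2)

theorem F4_rows {α c : ZFSet.{0}} (hc : DD s α c) : ∀ ρ ∈ c, ∃ μ r, ρ = ZFSet.pair μ r := by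
  intro ρ hρ
  obtain ⟨μ, _, r, _, h⟩ := mem_TRr.1 (dd_rows hc ρ hρ)
  exact ⟨μ, natZ r, h⟩

theorem F4_sub {α β : Ordinal.{0}} (h : α ≤ β) : α.toZFSet ⊆ β.toZFSet := Ordinal.toZFSet_subset_toZFSet_iff.2 h

theorem ai_of_ee (h : St M κ Ω lam s G) {α : Ordinal.{0}} (hα : α ≤ lam) {t c : ZFSet.{0}} (ht : t ∈ M)
    (hN : Nm Ω s α.toZFSet t) (hc : DD s lam.toZFSet c) {q : ZFSet.{0}} (hqα : q ∈ Sn Ω s α.toZFSet)
    (hE : EE M Ω s α.toZFSet t (cres c α.toZFSet) q) {H : Set ZFSet.{0}} (hH : Gd M Ω lam s G c H) (hq : q ∈ H) :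
    ∃ C ∈ ExtZ M H, Chn Ω omZ (vv G t) C := by
  have hM := h.bk.cv.hM
  have hΩ := h.bk.cv.hΩ
  have hω : Ordinal.omega0 ≤ Ω := om_le hM hΩ
  have hlM := h.bk.cv.hlamN
  have hαM : α.toZFSet ∈ M := hM.toZFSet_mem_of_le hα hlM
  have hcM : c ∈ M := dd_mem hM hlM hc
  have hOM : OO Ω omZ s α.toZFSet t ∈ M := OO_mem hM hΩ.mem hM.omZ_mem h.bk.hs hαM ht
  obtain ⟨hf, hsub⟩ := good_res hM hΩ h.bk.hs hlM hα hcM hH.fr
  obtain ⟨ζ, hζ, hfc⟩ := hE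
  rw [Ln_cres hω (F4_rows hc)] at hfc
  have h1 := chain_of_fc hf hΩ.mem hM.omZ_mem hOM oo_opn hζ hfc ⟨hq, hqα⟩
  rw [(oo_val h hcM hα hN hH).2] at h1
  exact ⟨_, hsub (vv_mem hf hζ), h1⟩

theorem ai_iff (h : St M κ Ω lam s G) {α : Ordinal.{0}} (hα : α ≤ lam) {t c : ZFSet.{0}} (ht : t ∈ M)
    (hN : Nm Ω s α.toZFSet t) (hT : TG Ω omZ (vv G t)) (hc : DD s lam.toZFSet c) :
    AI M Ω lam s G (vv G t) c ↔
      ∃ q ∈ G, q ∈ Sn Ω s α.toZFSet ∧ EE M Ω s α.toZFSet t (cres c α.toZFSet) q := by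
  have hM := h.bk.cv.hM
  have hΩ := h.bk.cv.hΩ
  have hω : Ordinal.omega0 ≤ Ω := om_le hM hΩ
  have hlM := h.bk.cv.hlamN
  have hs := h.bk.hs
  have hom := hM.omZ_mem
  have hαM : α.toZFSet ∈ M := hM.toZFSet_mem_of_le hα hlM
  have hcM : c ∈ M := dd_mem hM hlM hc
  have hαo : α.toZFSet.IsOrdinal := ZFSet.isOrdinal_toZFSet α
  have hsub := F4_sub hα
  have hc₀ : DD s α.toZFSet (cres c α.toZFSet) := dd_res hαo (ZFSet.isOrdinal_toZFSet lam) hsub hc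
  have hc₀M : cres c α.toZFSet ∈ M := dd_mem hM hαM hc₀
  have hSM := Sn_mem hM hΩ.mem hs hαM
  have hLM := Ln_mem hM hΩ.mem hs hαM hc₀M
  have hLc : Ln Ω s α.toZFSet (cres c α.toZFSet) = Ln Ω s α.toZFSet c := Ln_cres hω (F4_rows hc)
  constructor
  · rintro ⟨H, hH, C, hC, hch⟩
    by_contra hcon
    push Not at hcon
    obtain ⟨p₁, hp₁, hp₁α, hT₁⟩ := exists_tgp h hα ht hN hT
    obtain ⟨H₁, hH₁, hpH₁, hext⟩ := good_hom h hcM hH hp₁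
    obtain ⟨hf, -⟩ := good_res hM hΩ hs hlM hα hcM hH₁.fr
    rw [← hLc] at hf
    have hp₁M : p₁ ∈ M := hM.mem_of_mem hSM hp₁α
    have hOM : OO Ω omZ s α.toZFSet t ∈ M := OO_mem hM hΩ.mem hom hs hαM ht
    have po := Ln_pre (Ω := Ω) (s := s) α.toZFSet (cres c α.toZFSet)
    -- the key condition `p`
    obtain ⟨p, hpH, hpp₁, hpD⟩ := hf.gen_dfn (D := fun q => ZFSet.pair q.1 p₁ ∈ Ln Ω s α.toZFSet (cres c α.toZFSet) ∧
      ((∃ ζ : M, F4_FC (Nd Ω omZ) (LvZ Ω) Ω.toZFSet (Sn Ω s α.toZFSet) (Ln Ω s α.toZFSet (cres c α.toZFSet))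
        (OO Ω omZ s α.toZFSet t) q.1 ζ.1) ∨
        ∀ r : M, ZFSet.pair r.1 q.1 ∈ Ln Ω s α.toZFSet (cres c α.toZFSet) → ¬ ∃ ζ : M,
          F4_FC (Nd Ω omZ) (LvZ Ω) Ω.toZFSet (Sn Ω s α.toZFSet) (Ln Ω s α.toZFSet (cres c α.toZFSet))
        (OO Ω omZ s α.toZFSet t) r.1 ζ.1))
      (F4_dfn2 hM (E2_Nd_mem hM hΩ.mem hom) (E2_Lv_mem hM hΩ.mem) hΩ.mem hSM hLM hOM hp₁M)
      (p := p₁) ⟨hpH₁, hp₁α⟩ (by
        intro r hr
        by_cases hex : ∃ r' : M, ZFSet.pair r'.1 r.1 ∈ Ln Ω s α.toZFSet (cres c α.toZFSet) ∧ ∃ ζ : M,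
          F4_FC (Nd Ω omZ) (LvZ Ω) Ω.toZFSet (Sn Ω s α.toZFSet) (Ln Ω s α.toZFSet (cres c α.toZFSet))
            (OO Ω omZ s α.toZFSet t) r'.1 ζ.1
        · obtain ⟨r', hr', hζ⟩ := hex
          exact ⟨r', hr', po.trans _ _ _ hr' hr, Or.inl hζ⟩
        · push Not at hex
          refine ⟨r, po.refl _ (po.mem hr).1, hr, Or.inr fun r' hr' => ?_⟩
          rintro ⟨ζ, hζ⟩
          exact hex r' hr' ζ hζ)
    have hpα : p.1 ∈ Sn Ω s α.toZFSet := hpH.2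
    have hpG : p.1 ∈ G := hH₁.sub _ hpH.1
    have hnoEE : ∀ r, ZFSet.pair r p.1 ∈ Ln Ω s α.toZFSet (cres c α.toZFSet) →
        ¬ EE M Ω s α.toZFSet t (cres c α.toZFSet) r := by
      rcases hpD with ⟨ζ, hζ⟩ | hpD
      · exact absurd ⟨ζ.1, ζ.2, (F4_iff po).2 hζ⟩ (hcon p.1 hpG hpα)
      · rintro r hr ⟨ζ, hζ, hfc⟩
        exact hpD ⟨r, hM.mem_of_mem hSM (po.mem hr).1⟩ hr ⟨⟨ζ, hζ⟩, (F4_iff po).1 hfc⟩
    have hTp : TGP Ω s α.toZFSet t p.1 := by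
      intro x hx y hy z hz h1 h2 q hq h3
      exact hT₁ x hx y hy z hz h1 h2 q (hq.trans (mem_Ln.1 hpp₁).2.2.to0) h3
    have ht'M : tb Ω s α.toZFSet t p.1 ∈ M := tb_mem hM hΩ hs hαM ht p.2
    have hN' := tb_nm (p := p.1) hN
    have hO'M : OO Ω omZ s α.toZFSet (tb Ω s α.toZFSet t p.1) ∈ M := OO_mem hM hΩ.mem hom hs hαM ht'M
    have htg := tb_tgn hω hαo hN hpα hTp
    -- no name of a chain
    have hnoFC : ∀ q, ∀ ζ ∈ M, ¬ FC Ω omZ (Sn Ω s α.toZFSet) (Ln Ω s α.toZFSet (cres c α.toZFSet))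
        (OO Ω omZ s α.toZFSet (tb Ω s α.toZFSet t p.1)) q ζ := by
      intro q ζ hζ hfc
      obtain ⟨u, hu, -, hup, hEu⟩ := EE.of_tb hM hΩ hs hαo hαM hc₀M ht hN hpα ⟨ζ, hζ, hfc⟩
      obtain ⟨K, hK, -, hKr, hKe⟩ := hup.cut
      have hpE : IsE p.1 := ((mem_Sn hω).1 hpα).1.isE
      have huE : IsE u := ((mem_Sn hω).1 hu).1.isE
      have hKM : K ∈ M := by
        refine FinZ.mem (X := K) hM hK.1 fun k hk => ?_
        obtain ⟨μ, a, ⟨r, hr, hkr⟩, ha⟩ := hK.2 k hk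
        subst hkr
        obtain ⟨y, z, hyz⟩ := hKr _ _ hk
        have h1 : ent (row μ r) y z ∈ M := hM.mem_of_mem p.2 hyz
        exact hM.pair_mem (hM.of_pair_mem h1).1 (hM.mem_of_mem hΩ.mem ha)
      have hsubK : trp K p.1 ⊆ u := by
        intro e he
        obtain ⟨ρ, y, z, h1, rfl⟩ := (mem_trp hpE).1 he
        exact hKe ρ y z h1
      have hpu : p.1 ⊆ trp K u := by
        intro e he
        rw [← trp_trp (K := K) hpE] at he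
        obtain ⟨ρ, y, z, h1, rfl⟩ := (mem_trp (isE_trp hpE)).1 he
        exact (mem_trp huE).2 ⟨ρ, y, z, hsubK h1, rfl⟩
      refine hnoEE (trp K u) ?_ (EE.trp hM hΩ hs hαo hαM hc₀M ht hK hKM hEu)
      exact mem_Ln.2 ⟨trp_mem_Sn hω hαo hK hu, hpα, LE.of_sub hpu⟩
    have hccc := qq_ccc hM hSM hLM po hΩ hom (ctb_om hM) hO'M oo_opn
      (oo_tgn (c := cres c α.toZFSet) hω hαo hαo (fun _ hx => hx) hN'.1 htg) (st_ccc h hα hc₀) hnoFC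
    have hccl := phi hM hΩ (om_cvr hM h.bk.cv.hκN h.bk.cv.hκω).1 hs hom (ctb_om hM) ht'M hlM h.bk.vld hα hN'.1 htg
      hc₀ hccc hα le_rfl hc rfl
    have hO''M : OO Ω omZ s lam.toZFSet (tb Ω s α.toZFSet t p.1) ∈ M := OO_mem hM hΩ.mem hom hs hlM ht'M
    have hval : vv H (OO Ω omZ s lam.toZFSet (tb Ω s α.toZFSet t p.1)) = vv G t := by
      rw [(oo_val h hcM hα hN' hH).1, tb_val h hα hpG hpα]
    obtain ⟨q, -, ζ, hζ, hfc, -⟩ := fc_of_chain hH.fr hΩ.mem hom hO''M oo_opn hC (by rw [hval]; exact hch)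
    exact qq_nochain hM (Sn_mem hM hΩ.mem hs hlM) (Ln_mem hM hΩ.mem hs hlM hcM) (Ln_pre _ _) hΩ hom hO''M hccl hζ hfc
  · rintro ⟨q, hqG, hqα, hE⟩
    obtain ⟨H, hH, hqH⟩ := exists_good h hcM hqG
    exact ⟨H, hH, ai_of_ee h hα ht hN hc hqα hE hH hqH⟩

theorem ai_hom (h : St M κ Ω lam s G) {α : Ordinal.{0}} (hα : α ≤ lam) {t c : ZFSet.{0}} (ht : t ∈ M)
    (hN : Nm Ω s α.toZFSet t) (hT : TG Ω omZ (vv G t)) (hc : DD s lam.toZFSet c)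
    (hA : AI M Ω lam s G (vv G t) c) {H : Set ZFSet.{0}} (hH : Gd M Ω lam s G c H) :
    ∃ C ∈ ExtZ M H, Chn Ω omZ (vv G t) C := by
  obtain ⟨q, hqG, hqα, hE⟩ := (ai_iff h hα ht hN hT hc).1 hA
  have hcM : c ∈ M := dd_mem h.bk.cv.hM h.bk.cv.hlamN hc
  obtain ⟨H', hH', hqH', hext⟩ := good_hom h hcM hH hqG
  rw [← hext]
  exact ai_of_ee h hα ht hN hc hqα hE hH' hqH'

theorem ai_up (h : St M κ Ω lam s G) {α : Ordinal.{0}} (hα : α ≤ lam) {t c c' : ZFSet.{0}} (ht : t ∈ M)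
    (hN : Nm Ω s α.toZFSet t) (hT : TG Ω omZ (vv G t)) (hc : DD s lam.toZFSet c) (hc' : DD s lam.toZFSet c')
    (hcc : c ⊆ c') (hA : AI M Ω lam s G (vv G t) c) : AI M Ω lam s G (vv G t) c' := by
  have hcM : c ∈ M := dd_mem h.bk.cv.hM h.bk.cv.hlamN hc
  have hc'M : c' ∈ M := dd_mem h.bk.cv.hM h.bk.cv.hlamN hc'
  obtain ⟨q, hq⟩ := h.fr.gen.ne
  obtain ⟨H', hH', -⟩ := exists_good h hc'M hq
  obtain ⟨H, hH, hsub⟩ := good_down h hc'M hcM hcc hH'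
  obtain ⟨C, hC, hch⟩ := ai_hom h hα ht hN hT hc hA hH
  exact ⟨H', hH', C, hsub hC, hch⟩

theorem ai_res (h : St M κ Ω lam s G) {α : Ordinal.{0}} (hα : α ≤ lam) {t c : ZFSet.{0}} (ht : t ∈ M)
    (hN : Nm Ω s α.toZFSet t) (hT : TG Ω omZ (vv G t)) (hc : DD s lam.toZFSet c)
    (hA : AI M Ω lam s G (vv G t) c) : AI M Ω lam s G (vv G t) (cres c α.toZFSet) := by
  obtain ⟨q, hqG, hqα, hE⟩ := (ai_iff h hα ht hN hT hc).1 hA
  have hc₀ : DD s lam.toZFSet (cres c α.toZFSet) :=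
    dd_mono (F4_sub hα) (dd_res (ZFSet.isOrdinal_toZFSet α) (ZFSet.isOrdinal_toZFSet lam) (F4_sub hα) hc)
  refine (ai_iff h hα ht hN hT hc₀).2 ⟨q, hqG, hqα, ?_⟩
  rw [cres_cres (fun _ hx => hx)]
  exact hE

end Pool.Agent.H17.CF
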