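import Pool.Agent.H17.CF.F.Defs

/-!
# CF-F1c: good filters

`S = Sn Ω s lam`, `G` generic for `(S, ≤_∅)` over `M`. All preorders belong to `M` (`Sn_mem`, `Ln_mem`), `Ln_pre`.

PROOFS.
`good_res`: for `α ≤ β`, if `H` is generic for `(Sn Ω s β, ≤_c)` then `H ∩ Sn Ω s α` is generic for `(Sn Ω s α, ≤_c)`.
`rst p α ∈ H` for `p ∈ H` (`p ≤_c rst p α` by `LE.of_sub`). Directed: for `p, q ∈ H ∩ Sn α` let `r ∈ H` be below; `rst r α` is below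
(`LE.rst`, `rst_eq`). Generic: for `D ∈ M` dense in `Sn α`: `{r ∈ Sn β : ∃ d ∈ D, rst r α ≤_c d}` is dense in `Sn β` by `amal`.
`good_res_ext`: `M[H ∩ Sn α] ⊆ M[H]`: `Fr.min` and separation.
`fr_congr_c`: on `Sn Ω s α` the orders `≤_c` and `≤_{cres c α}` are equal (`LE.congr_c`).
-/

set_option autoImplicit false
set_option linter.unusedVariables false
set_option linter.unusedSectionVars false
set_option linter.unusedSimpArgs false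
set_option linter.unusedTactic false
set_option linter.unreachableTactic false

open Pool.Agent.H17.Omega Pool.Agent.H17.Omega.CTM Pool.Agent.H52.GC Pool.Agent.H7.IG

namespace Pool.Agent.H17.CF

variable {M : Set ZFSet.{0}} {κ Ω lam : Ordinal.{0}} {s : ZFSet.{0}} {G : Set ZFSet.{0}}

theorem good_res (hM : CTM M) (hΩ : IsOm1 M Ω) (hs : s ∈ M) {α β : Ordinal.{0}} (hβ : β.toZFSet ∈ M) (hαβ : α ≤ β)
    {c : ZFSet.{0}} (hc : c ∈ M) {H : Set ZFSet.{0}} (hH : Fr M (Sn Ω s β.toZFSet) (Ln Ω s β.toZFSet c) H) :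
    Fr M (Sn Ω s α.toZFSet) (Ln Ω s α.toZFSet c) {p | p ∈ H ∧ p ∈ Sn Ω s α.toZFSet} ∧
      ExtZ M {p | p ∈ H ∧ p ∈ Sn Ω s α.toZFSet} ⊆ ExtZ M H := by
  have hω := om_le hM hΩ
  have hαβ' : α.toZFSet ⊆ β.toZFSet := Ordinal.toZFSet_subset_toZFSet_iff.2 hαβ
  have hα : α.toZFSet ∈ M := by
    rcases hαβ.lt_or_eq with h | rfl
    · exact hM.mem_of_mem hβ (Ordinal.toZFSet_mem_toZFSet_iff.2 h)
    · exact hβ
  have hαo : α.toZFSet.IsOrdinal := ZFSet.isOrdinal_toZFSet α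
  have hβo : β.toZFSet.IsOrdinal := ZFSet.isOrdinal_toZFSet β
  have hSαM := Sn_mem hM hΩ.mem hs hα
  have hSβM := Sn_mem hM hΩ.mem hs hβ
  have hLαM := Ln_mem hM hΩ.mem hs hα hc
  have hmono : Sn Ω s α.toZFSet ⊆ Sn Ω s β.toZFSet := Sn_mono hω hαβ'
  have hrst : ∀ p ∈ H, rst p α.toZFSet ∈ H ∧ rst p α.toZFSet ∈ Sn Ω s α.toZFSet := by
    intro p hp
    have hpS := hH.gen.sub p hp
    have h1 : rst p α.toZFSet ∈ Sn Ω s α.toZFSet := rst_mem_Sn hω hαo hβo hpS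
    exact ⟨hH.gen.up p hp _ (mem_Ln.2 ⟨hpS, hmono h1, LE.of_sub rst_sub⟩), h1⟩
  have hfr : Fr M (Sn Ω s α.toZFSet) (Ln Ω s α.toZFSet c) {p | p ∈ H ∧ p ∈ Sn Ω s α.toZFSet} := by
    refine ⟨hM, hSαM, hLαM, Ln_pre _ _, ⟨fun p hp => hp.2, ?_, ?_, ?_, ?_⟩⟩
    · obtain ⟨p, hp⟩ := hH.gen.ne
      exact ⟨_, hrst p hp⟩
    · rintro p ⟨hp, hpS⟩ q hq
      obtain ⟨-, hqS, hle⟩ := mem_Ln.1 hq
      exact ⟨hH.gen.up p hp q (mem_Ln.2 ⟨hmono hpS, hmono hqS, hle⟩), hqS⟩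
    · rintro p ⟨hp, hpS⟩ q ⟨hq, hqS⟩
      obtain ⟨r, hr, h1, h2⟩ := hH.gen.dir p hp q hq
      have h3 := hrst r hr
      refine ⟨_, h3, mem_Ln.2 ⟨h3.2, hpS, ?_⟩, mem_Ln.2 ⟨h3.2, hqS, ?_⟩⟩
      · have := LE.rst (α := α.toZFSet) (mem_Ln.1 h1).2.2
        rwa [rst_eq hω hpS] at this
      · have := LE.rst (α := α.toZFSet) (mem_Ln.1 h2).2.2
        rwa [rst_eq hω hqS] at this
    · intro D hD hd
      have hD' : ZFSet.sep (fun r => ∃ d ∈ D, ZFSet.pair (rst r α.toZFSet) d ∈ Ln Ω s α.toZFSet c)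
          (Sn Ω s β.toZFSet) ∈ M := by
        refine hM.sep_mem ?_ hSβM
        refine Df.bex (P := fun (v : Fin 1 → M) d => ZFSet.pair (rst (v 0).1 α.toZFSet) d ∈
          Ln Ω s α.toZFSet c) (PD.const hD) ?_
        exact Df.mem (PD.pair (PD.rst (PD.var 0) (PD.const hα)) (PD.var _)) (PD.const hLαM)
      obtain ⟨p, hp, hpD⟩ := hH.gen.gen _ hD' (by
        intro p hp
        obtain ⟨d, hdD, hd1⟩ := hd (rst p α.toZFSet) (rst_mem_Sn hω hαo hβo hp)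
        obtain ⟨hdS, -, hle⟩ := mem_Ln.1 hd1
        obtain ⟨h1, h2, h3⟩ := amal hω hαo hβo hαβ' hp hdS hle
        refine ⟨_, ZFSet.mem_sep.2 ⟨h1, d, hdD, ?_⟩, mem_Ln.2 ⟨h1, hp, h2⟩⟩
        rw [h3]
        exact mem_Ln.2 ⟨hdS, hdS, LE.refl Ω c d⟩)
      obtain ⟨-, d, hdD, hd1⟩ := ZFSet.mem_sep.1 hpD
      obtain ⟨h1, h2, h3⟩ := mem_Ln.1 hd1
      exact ⟨d, ⟨hH.gen.up _ (hrst p hp).1 d (mem_Ln.2 ⟨hmono h1, hmono h2, h3⟩), h2⟩, hdD⟩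
  refine ⟨hfr, ?_⟩
  obtain ⟨γ, hγ, hγ'⟩ := hH.mem_g
  refine hfr.min hH.ctm hH.sub (γ := ZFSet.sep (fun z => z ∈ Sn Ω s α.toZFSet) γ) ?_ ?_
  · refine hH.ctm.sep_mem ?_ hγ
    exact Df.mem (PD.var 0) (PD.const (hH.sub hSαM))
  · intro z
    rw [ZFSet.mem_sep, hγ']
    exact Iff.rfl

theorem Ln_cres {α : Ordinal.{0}} {c : ZFSet.{0}} (hω : Ordinal.omega0 ≤ Ω)
    (hcr : ∀ ρ ∈ c, ∃ μ r, ρ = ZFSet.pair μ r) :
    Ln Ω s α.toZFSet (cres c α.toZFSet) = Ln Ω s α.toZFSet c := by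
  have key : ∀ p q, q ∈ Sn Ω s α.toZFSet → (LE Ω (cres c α.toZFSet) p q ↔ LE Ω c p q) := by
    intro p q hq
    refine LE.congr_c fun ρ y z hz => ?_
    rw [cres, ZFSet.mem_sep]
    refine ⟨fun h => h.1, fun h => ⟨h, ?_⟩⟩
    obtain ⟨μ, r, y', z', h1, h2⟩ := cd_form hω hq hz
    refine ⟨μ, h2, natZ r, ?_⟩
    exact (ent_inj.1 h1).1
  ext z
  constructor
  · intro h
    obtain ⟨p, hp, q, hq, rfl⟩ := (Ln_pre (Ω := Ω) (s := s) α.toZFSet (cres c α.toZFSet)).rel z h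
    obtain ⟨h1, h2, h3⟩ := mem_Ln.1 h
    exact mem_Ln.2 ⟨h1, h2, (key p q h2).1 h3⟩
  · intro h
    obtain ⟨p, hp, q, hq, rfl⟩ := (Ln_pre (Ω := Ω) (s := s) α.toZFSet c).rel z h
    obtain ⟨h1, h2, h3⟩ := mem_Ln.1 h
    exact mem_Ln.2 ⟨h1, h2, (key p q h2).2 h3⟩

end Pool.Agent.H17.CF
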