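import Pool.Agent.H17.CF.F.GoodA

/-!
# CF-F1b: good filters

`S = Sn Ω s lam`, `G` generic for `(S, ≤_∅)` over `M`. All preorders belong to `M` (`Sn_mem`, `Ln_mem`), `Ln_pre`.

PROOFS.
`good_trp`: for `K ∈ M`, `KK Ω K`: the image `trp K '' H` is `c`-good and generates the same model. (`trp K` is an automorphism
of `(S, ≤_c)` in `M` and an involution: `trp_trp`, `LE_trp_trp`, `trp_mem_Sn`; `trp K p ∈ G` for `p ∈ G` since
`p ≤_∅ trp K p`: `LE_trp` with `c = ∅`. Genericity: for `D ∈ M` dense, `{trp K p : p ∈ D}` is in `M` and dense.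
`M[trp K '' H] ⊆ M[H]` by `Fr.min`: the map `trp K` on `S` belongs to `M`; the other inclusion by `trp_trp`.)

`good_hom`: let `q ∈ G`, `H` `c`-good. By `good_up0` there is `p ∈ H`, `p ≤_∅ q`; let `K` be as in `LE.cut`: its rows occur in
`q ∈ M`, so `K ∈ M` (`FinZ.mem`), and `trp K q ⊆ p`. So `trp K q ∈ H` (`p ≤_c trp K q` by `LE.of_sub`), and
`q = trp K (trp K q) ∈ trp K '' H`.

`good_down`: for `c' ⊆ c`: `H' = {q ∈ S : ∃ p ∈ H, p ≤_c' q}`. Filter: directed since `H` is. Generic: let `D ∈ M` be dense in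
`(S, ≤_c')`; `{r ∈ S : ∃ d ∈ D, r ≤_c' d}` is dense in `(S, ≤_c)`: let `r ∈ S`, `d ∈ D`, `d ≤_c' r` by `K` avoiding `c'`,
`trp K r ⊆ d`; then `trp K d ⊇ r`, so `trp K d ≤_c r`, and `trp K d ≤_c' d` (`LE_trp`). `M[H'] ⊆ M[H]` by `Fr.min`.
-/

set_option autoImplicit false
set_option linter.unusedVariables false
set_option linter.unusedSectionVars false
set_option linter.unusedSimpArgs false
set_option linter.unusedTactic false
set_option linter.unreachableTactic false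

open Pool.Agent.H17.Omega Pool.Agent.H17.Omega.CTM Pool.Agent.H52.GC Pool.Agent.H7.IG

namespace Pool.Agent.H17.CF

variable {M : Set ZFSet.{0}} {κ Ω lam : Ordinal.{0}} {s : ZFSet.{0}} {G : Set ZFSet.{0}}

/-! ### Preparations -/

theorem gb_om (h : St M κ Ω lam s G) : Ordinal.omega0 ≤ Ω := by
  rw [Ordinal.omega0_le]
  exact fun n => (IsOm1.omega_lt h.bk.cv.hM h.bk.cv.hΩ n).le

theorem gb_ord : lam.toZFSet.IsOrdinal := ZFSet.isOrdinal_toZFSet lam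

theorem gb_isE (h : St M κ Ω lam s G) {p : ZFSet.{0}} (hp : p ∈ Sn Ω s lam.toZFSet) : IsE p :=
  ((mem_Sn (gb_om h)).1 hp).1.isE

theorem gb_S (h : St M κ Ω lam s G) {N : Set ZFSet.{0}} (hN : CTM N) (hMN : M ⊆ N) :
    Sn Ω s lam.toZFSet ∈ N :=
  (PD.Sn (hN := hN) (n := 0) (s := fun _ => s) (a := fun _ => lam.toZFSet) (hMN h.bk.cv.hΩ.mem)
    (PD.const (hMN h.bk.hs)) (PD.const (hMN h.bk.cv.hlamN))).1 (fun i => i.elim0)

theorem gb_L (h : St M κ Ω lam s G) {c : ZFSet.{0}} (hc : c ∈ M) : Ln Ω s lam.toZFSet c ∈ M :=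
  (PD.Ln (hN := h.bk.cv.hM) (n := 0) (s := fun _ => s) (a := fun _ => lam.toZFSet) (c := fun _ => c)
    h.bk.cv.hΩ.mem (PD.const h.bk.hs) (PD.const h.bk.cv.hlamN) (PD.const hc)).1 (fun i => i.elim0)

/-- the graph of the translation, in definable form -/
def GbT (K p q : ZFSet.{0}) : Prop :=
  (∀ ρ y z, ent ρ y z ∈ p → ent ρ y (tr K ρ y z) ∈ q) ∧
    ∀ ρ y z, ent ρ y z ∈ q → ent ρ y (tr K ρ y z) ∈ p

theorem gbT_iff {K p q : ZFSet.{0}} (hp : IsE p) (hq : IsE q) : GbT K p q ↔ q = trp K p := by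
  constructor
  · rintro ⟨h1, h2⟩
    refine ext_isE hq (isE_trp hp) fun ρ y z => ?_
    rw [ent_mem_trp hp]
    constructor
    · exact h2 ρ y z
    · intro h3
      have h4 := h1 _ _ _ h3
      rwa [tr_self] at h4
  · rintro rfl
    refine ⟨fun ρ y z h => ?_, fun ρ y z h => ?_⟩
    · rw [ent_mem_trp hp, tr_self]
      exact h
    · exact (ent_mem_trp hp).1 h

theorem df_gbT {N : Set ZFSet.{0}} {hN : CTM N} {n : ℕ} {k p q : (Fin n → N) → ZFSet.{0}}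
    (hk : PD hN k) (hp : PD hN p) (hq : PD hN q) : hN.Dfn (fun v => GbT (k v) (p v) (q v)) := by
  refine Dfn.and ?_ ?_
  · refine Df.allEnt (q := p) (P := fun v ρ y z => ent ρ y (tr (k v) ρ y z) ∈ q v) hp ?_
    exact Df.mem (PD.ent (PD.var _) (PD.var _) (PD.tr hk.lift.lift.lift (PD.var _) (PD.var _) (PD.var _)))
      hq.lift.lift.lift
  · refine Df.allEnt (q := q) (P := fun v ρ y z => ent ρ y (tr (k v) ρ y z) ∈ p v) hq ?_
    exact Df.mem (PD.ent (PD.var _) (PD.var _) (PD.tr hk.lift.lift.lift (PD.var _) (PD.var _) (PD.var _)))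
      hp.lift.lift.lift

theorem gb_trp (h : St M κ Ω lam s G) {c : ZFSet.{0}} (hc : c ∈ M) {H : Set ZFSet.{0}} (hH : Gd M Ω lam s G c H)
    {K : ZFSet.{0}} (hK : KK Ω K) (hKM : K ∈ M) :
    Gd M Ω lam s G c (trp K '' H) ∧ ExtZ M (trp K '' H) ⊆ ExtZ M H := by
  have hM : CTM M := h.bk.cv.hM
  have hω := gb_om h
  have hord : lam.toZFSet.IsOrdinal := ZFSet.isOrdinal_toZFSet lam
  have hS : Sn Ω s lam.toZFSet ∈ M := gb_S h hM (fun _ hx => hx)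
  have hHS : ∀ p ∈ H, p ∈ Sn Ω s lam.toZFSet := hH.fr.gen.sub
  have hT : ∀ p ∈ Sn Ω s lam.toZFSet, trp K p ∈ Sn Ω s lam.toZFSet := fun p hp =>
    trp_mem_Sn hω hord hK hp
  have hTT : ∀ p ∈ Sn Ω s lam.toZFSet, trp K (trp K p) = p := fun p hp => trp_trp (gb_isE h hp)
  have hmv : ∀ p ∈ Sn Ω s lam.toZFSet, ∀ q ∈ Sn Ω s lam.toZFSet, LE Ω c p (trp K q) →
      LE Ω c (trp K p) q := by
    intro p hp q hq h1
    have h2 := (LE_trp_trp (gb_isE h hp) (gb_isE h (hT q hq)) hK).2 h1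
    rwa [hTT q hq] at h2
  have hfr : Fr M (Sn Ω s lam.toZFSet) (Ln Ω s lam.toZFSet c) (trp K '' H) := by
    refine ⟨hM, hS, gb_L h hc, Ln_pre _ _, ?_, ?_, ?_, ?_, ?_⟩
    · rintro _ ⟨p, hp, rfl⟩
      exact hT p (hHS p hp)
    · exact hH.fr.gen.ne.image _
    · rintro _ ⟨p, hp, rfl⟩ q hq
      obtain ⟨h1, h2, h3⟩ := mem_Ln.1 hq
      have h4 : LE Ω c p (trp K q) := by
        have h5 := (LE_trp_trp (gb_isE h h1) (gb_isE h h2) hK).2 h3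
        rwa [hTT p (hHS p hp)] at h5
      exact ⟨trp K q, hH.fr.gen.up p hp _ (mem_Ln.2 ⟨hHS p hp, hT q h2, h4⟩), hTT q h2⟩
    · rintro _ ⟨p, hp, rfl⟩ _ ⟨q, hq, rfl⟩
      obtain ⟨r, hr, h1, h2⟩ := hH.fr.gen.dir p hp q hq
      obtain ⟨h3, h4, h5⟩ := mem_Ln.1 h1
      obtain ⟨h6, h7, h8⟩ := mem_Ln.1 h2
      exact ⟨trp K r, ⟨r, hr, rfl⟩,
        mem_Ln.2 ⟨hT r h3, hT p h4, (LE_trp_trp (gb_isE h h3) (gb_isE h h4) hK).2 h5⟩,
        mem_Ln.2 ⟨hT r h3, hT q h7, (LE_trp_trp (gb_isE h h3) (gb_isE h h7) hK).2 h8⟩⟩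
    · intro D hD hd
      have hD' : ZFSet.sep (fun p => ∃ q ∈ D, q ∈ Sn Ω s lam.toZFSet ∧ GbT K p q) (Sn Ω s lam.toZFSet) ∈ M := by
        refine (PD.sep (hN := hM) (n := 0) (s := fun _ => Sn Ω s lam.toZFSet)
          (P := fun _ p => ∃ q ∈ D, q ∈ Sn Ω s lam.toZFSet ∧ GbT K p q) (PD.const hS) ?_).1 (fun i => i.elim0)
        refine Df.bex (s := fun _ => D) (P := fun (v : Fin 1 → M) q => q ∈ Sn Ω s lam.toZFSet ∧
          GbT K (v (Fin.last 0)).1 q) (PD.const hD) ?_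
        exact Dfn.and (Df.mem (PD.var _) (PD.const hS)) (df_gbT (PD.const hKM) (PD.var _) (PD.var _))
      obtain ⟨p, hp, hpD⟩ := hH.fr.gen.gen _ hD' (by
        intro p hp
        obtain ⟨q, hq, hqp⟩ := hd (trp K p) (hT p hp)
        obtain ⟨h1, h2, h3⟩ := mem_Ln.1 hqp
        refine ⟨trp K q, ZFSet.mem_sep.2 ⟨hT q h1, q, hq, h1, ?_⟩, mem_Ln.2 ⟨hT q h1, hp, hmv q h1 p hp h3⟩⟩
        exact (gbT_iff (gb_isE h (hT q h1)) (gb_isE h h1)).2 (hTT q h1).symm)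
      obtain ⟨h1, q, hq, h2, h3⟩ := ZFSet.mem_sep.1 hpD
      refine ⟨q, ⟨p, hp, ?_⟩, hq⟩
      exact ((gbT_iff (gb_isE h h1) (gb_isE h h2)).1 h3).symm
  refine ⟨⟨hfr, ?_⟩, ?_⟩
  · rintro _ ⟨p, hp, rfl⟩
    refine h.fr.gen.up p (hH.sub p hp) _ (mem_Ln.2 ⟨hHS p hp, hT p (hHS p hp), ?_⟩)
    exact (LE_trp (gb_isE h (hHS p hp)) hK fun _ _ _ => ZFSet.notMem_empty _).2
  · obtain ⟨γ, hγ, hγ'⟩ := hH.fr.mem_g
    have hN : CTM (ExtZ M H) := hH.fr.ctm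
    have hMN : M ⊆ ExtZ M H := hH.fr.sub
    have hSN : Sn Ω s lam.toZFSet ∈ ExtZ M H := hMN hS
    have hD' : ZFSet.sep (fun q => ∃ p ∈ γ, GbT K p q) (Sn Ω s lam.toZFSet) ∈ ExtZ M H := by
      refine (PD.sep (hN := hN) (n := 0) (s := fun _ => Sn Ω s lam.toZFSet)
        (P := fun _ q => ∃ p ∈ γ, GbT K p q) (PD.const hSN) ?_).1 (fun i => i.elim0)
      refine Df.bex (s := fun _ => γ) (P := fun (v : Fin 1 → ExtZ M H) p => GbT K p (v (Fin.last 0)).1)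
        (PD.const hγ) ?_
      exact df_gbT (PD.const (hMN hKM)) (PD.var _) (PD.var _)
    refine hfr.min hN hMN hD' fun z => ?_
    rw [ZFSet.mem_sep]
    constructor
    · rintro ⟨h1, p, hp, h2⟩
      have hp' := (hγ' p).1 hp
      exact ⟨p, hp', ((gbT_iff (gb_isE h (hHS p hp')) (gb_isE h h1)).1 h2).symm⟩
    · rintro ⟨p, hp, rfl⟩
      refine ⟨hT p (hHS p hp), p, (hγ' p).2 hp, ?_⟩
      exact (gbT_iff (gb_isE h (hHS p hp)) (gb_isE h (hT p (hHS p hp)))).2 rfl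

theorem good_trp (h : St M κ Ω lam s G) {c : ZFSet.{0}} (hc : c ∈ M) {H : Set ZFSet.{0}} (hH : Gd M Ω lam s G c H)
    {K : ZFSet.{0}} (hK : KK Ω K) (hKM : K ∈ M) :
    Gd M Ω lam s G c (trp K '' H) ∧ ExtZ M (trp K '' H) = ExtZ M H := by
  obtain ⟨h1, h2⟩ := gb_trp h hc hH hK hKM
  obtain ⟨_, h3⟩ := gb_trp h hc h1 hK hKM
  refine ⟨h1, Set.Subset.antisymm h2 ?_⟩
  have e : trp K '' (trp K '' H) = H := by
    ext p
    constructor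
    · rintro ⟨_, ⟨q, hq, rfl⟩, rfl⟩
      rw [trp_trp (gb_isE h (hH.fr.gen.sub q hq))]
      exact hq
    · intro hp
      exact ⟨_, ⟨p, hp, rfl⟩, trp_trp (gb_isE h (hH.fr.gen.sub p hp))⟩
  rwa [e] at h3

theorem good_hom (h : St M κ Ω lam s G) {c : ZFSet.{0}} (hc : c ∈ M) {H : Set ZFSet.{0}} (hH : Gd M Ω lam s G c H)
    {q : ZFSet.{0}} (hq : q ∈ G) : ∃ H', Gd M Ω lam s G c H' ∧ q ∈ H' ∧ ExtZ M H' = ExtZ M H := by
  have hM : CTM M := h.bk.cv.hM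
  have hqS : q ∈ Sn Ω s lam.toZFSet := h.fr.gen.sub q hq
  have hqM : q ∈ M := hM.mem_of_mem (gb_S h hM fun _ hx => hx) hqS
  obtain ⟨p, hp, hpq⟩ := (good_up0 h hc hH hqS).1 hq
  obtain ⟨K, hK, _, h3, h4⟩ := hpq.cut
  have hKM : K ∈ M := by
    refine FinZ.mem (X := ∅) hM hK.1 fun k hk => ?_
    obtain ⟨μ, a, ⟨r, hr, e⟩, ha⟩ := hK.2 k hk
    obtain ⟨y, z, h5⟩ := h3 (row μ r) a (e ▸ hk)
    rw [e]
    exact hM.pair_mem (dx_ent hqM hM h5).1 (hM.mem_of_mem h.bk.cv.hΩ.mem ha)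
  have hqE : IsE q := gb_isE h hqS
  have hpS := hH.fr.gen.sub p hp
  have hTS : trp K q ∈ Sn Ω s lam.toZFSet := trp_mem_Sn (gb_om h) gb_ord hK hqS
  have hsub : trp K q ⊆ p := by
    intro e he
    obtain ⟨ρ, y, z, h5, rfl⟩ := (mem_trp hqE).1 he
    exact h4 ρ y z h5
  have hTH : trp K q ∈ H := hH.fr.gen.up p hp _ (mem_Ln.2 ⟨hpS, hTS, LE.of_sub hsub⟩)
  obtain ⟨h5, h6⟩ := good_trp h hc hH hK hKM
  exact ⟨trp K '' H, h5, ⟨_, hTH, trp_trp hqE⟩, h6⟩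

theorem good_down (h : St M κ Ω lam s G) {c c' : ZFSet.{0}} (hc : c ∈ M) (hc' : c' ∈ M) (hcc : c' ⊆ c)
    {H : Set ZFSet.{0}} (hH : Gd M Ω lam s G c H) :
    ∃ H', Gd M Ω lam s G c' H' ∧ ExtZ M H' ⊆ ExtZ M H := by
  have hM : CTM M := h.bk.cv.hM
  have hS : Sn Ω s lam.toZFSet ∈ M := gb_S h hM (fun _ hx => hx)
  have hHS : ∀ p ∈ H, p ∈ Sn Ω s lam.toZFSet := hH.fr.gen.sub
  have hfr : Fr M (Sn Ω s lam.toZFSet) (Ln Ω s lam.toZFSet c')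
      {q | q ∈ Sn Ω s lam.toZFSet ∧ ∃ p ∈ H, LE Ω c' p q} := by
    refine ⟨hM, hS, gb_L h hc', Ln_pre _ _, ?_, ?_, ?_, ?_, ?_⟩
    · rintro p ⟨h1, _⟩
      exact h1
    · obtain ⟨p, hp⟩ := hH.fr.gen.ne
      exact ⟨p, hHS p hp, p, hp, LE.refl _ _ _⟩
    · rintro p ⟨h1, r, hr, h2⟩ q hq
      obtain ⟨h3, h4, h5⟩ := mem_Ln.1 hq
      exact ⟨h4, r, hr, h2.trans h5⟩
    · rintro p ⟨h1, p', hp', h2⟩ q ⟨h3, q', hq', h4⟩
      obtain ⟨r, hr, h5, h6⟩ := hH.fr.gen.dir p' hp' q' hq'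
      obtain ⟨h7, h8, h9⟩ := mem_Ln.1 h5
      obtain ⟨_, h10, h11⟩ := mem_Ln.1 h6
      exact ⟨r, ⟨h7, r, hr, LE.refl _ _ _⟩, mem_Ln.2 ⟨h7, h1, (h9.anti hcc).trans h2⟩,
        mem_Ln.2 ⟨h7, h3, (h11.anti hcc).trans h4⟩⟩
    · intro D hD hd
      have hD' : ZFSet.sep (fun p => ∃ q ∈ D, q ∈ Sn Ω s lam.toZFSet ∧ LE Ω c' p q) (Sn Ω s lam.toZFSet) ∈ M := by
        refine (PD.sep (hN := hM) (n := 0) (s := fun _ => Sn Ω s lam.toZFSet)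
          (P := fun _ p => ∃ q ∈ D, q ∈ Sn Ω s lam.toZFSet ∧ LE Ω c' p q) (PD.const hS) ?_).1 (fun i => i.elim0)
        refine Df.bex (s := fun _ => D) (P := fun (v : Fin 1 → M) q => q ∈ Sn Ω s lam.toZFSet ∧
          LE Ω c' (v (Fin.last 0)).1 q) (PD.const hD) ?_
        exact Dfn.and (Df.mem (PD.var _) (PD.const hS)) (Df.LE h.bk.cv.hΩ.mem (PD.const hc') (PD.var _) (PD.var _))
      obtain ⟨p, hp, hpD⟩ := hH.fr.gen.gen _ hD' (by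
        intro r hr
        obtain ⟨d, hd1, hd2⟩ := hd r hr
        obtain ⟨h1, h2, h3⟩ := mem_Ln.1 hd2
        obtain ⟨K, hK, hKc, h4⟩ := (LE_iff (gb_isE h hr)).1 h3
        have h5 : trp K d ∈ Sn Ω s lam.toZFSet := trp_mem_Sn (gb_om h) gb_ord hK h1
        refine ⟨trp K d, ZFSet.mem_sep.2 ⟨h5, d, hd1, h1, (LE_trp (gb_isE h h1) hK hKc).1⟩,
          mem_Ln.2 ⟨h5, hr, LE.of_sub ?_⟩⟩
        intro e he
        rw [← trp_trp (K := K) (gb_isE h hr)] at he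
        obtain ⟨e', he', rfl⟩ := mem_trp0.1 he
        exact mem_trp0.2 ⟨e', h4 he', rfl⟩)
      obtain ⟨h1, q, hq, h2, h3⟩ := ZFSet.mem_sep.1 hpD
      exact ⟨q, ⟨h2, p, hp, h3⟩, hq⟩
  refine ⟨_, ⟨hfr, ?_⟩, ?_⟩
  · rintro q ⟨h1, p, hp, h2⟩
    exact h.fr.gen.up p (hH.sub p hp) _ (mem_Ln.2 ⟨hHS p hp, h1, h2.to0⟩)
  · obtain ⟨γ, hγ, hγ'⟩ := hH.fr.mem_g
    have hN : CTM (ExtZ M H) := hH.fr.ctm
    have hMN : M ⊆ ExtZ M H := hH.fr.sub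
    have hD' : ZFSet.sep (fun q => ∃ p ∈ γ, LE Ω c' p q) (Sn Ω s lam.toZFSet) ∈ ExtZ M H := by
      refine (PD.sep (hN := hN) (n := 0) (s := fun _ => Sn Ω s lam.toZFSet)
        (P := fun _ q => ∃ p ∈ γ, LE Ω c' p q) (PD.const (hMN hS)) ?_).1 (fun i => i.elim0)
      refine Df.bex (s := fun _ => γ) (P := fun (v : Fin 1 → ExtZ M H) p => LE Ω c' p (v (Fin.last 0)).1)
        (PD.const hγ) ?_
      exact Df.LE (hMN h.bk.cv.hΩ.mem) (PD.const (hMN hc')) (PD.var _) (PD.var _)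
    refine hfr.min hN hMN hD' fun z => ?_
    rw [ZFSet.mem_sep]
    constructor
    · rintro ⟨h1, p, hp, h2⟩
      exact ⟨h1, p, (hγ' p).1 hp, h2⟩
    · rintro ⟨h1, p, hp, h2⟩
      exact ⟨h1, p, (hγ' p).2 hp, h2⟩

end Pool.Agent.H17.CF
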