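import Pool.Agent.H17.CF.F.Good
import Pool.Agent.H17.CF.B.Add

/-!
# CF-F6: inactive rows

`actc G c` = the rows of `c` that are active in `G` (some `q ∈ G` has an entry in the row).

`dd_act`: a subset of a clique is a clique. `ai_act`: `AI I c → AI I (actc G c)`: Let `H` be `c`-good, `C ∈ M[H]` an unbounded
chain. Let `c' = actc G c`. Claim: the same `H` is `c'`-good. Induction over the (at most two) inactive rows of `c` is
not needed; treat them together. Since `c` is finite there is `q₀ ∈ H` such that no `r ≤_∅ q₀` in `S = Sn Ω s lam` has an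
entry in an inactive row of `c`: for one inactive row `ρ` the set `{q : q has an entry in ρ, or no r ≤_∅ q has one}` is dense in
`(S, ≤_c)` (let `q ∈ S`, `r ≤_∅ q` with an entry in `ρ`; a translate `r' ⊇ q` of `r` (`LE.transl`) has an entry in `ρ` too,
`r' ≤_c q`), so `H` meets it (`Fr.gen_dfn`); the first case is impossible since `H ⊆ G`. Directedness for two rows.
Upward closed: `p ∈ H`, `p ≤_c' q` in `S`: `q ∈ G` (`G` upward closed for `≤_∅`), so `q` has no entry in an inactive row, so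
`p ≤_c q` (`LE.congr_c`). Generic: let `D ∈ M` be dense in `(S, ≤_c')`. The set `{d ∈ D : ..}` is dense below `q₀` in `(S, ≤_c)`:
let `r ≤_c q₀`; let `d ∈ D`, `d ≤_c' r`; `r ≤_∅ q₀` has no entry in an inactive row of `c`, so `d ≤_c r` by `LE.congr_c`. So
`Fr.gen_dfn` below `q₀` gives an element of `H ∩ D`. The other properties do not depend on `c`.
-/

set_option autoImplicit false
set_option linter.unusedVariables false
set_option linter.unusedSectionVars false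
set_option linter.unusedSimpArgs false
set_option linter.unusedTactic false
set_option linter.unreachableTactic false

open Pool.Agent.H17.Omega Pool.Agent.H17.Omega.CTM Pool.Agent.H52.GC Pool.Agent.H7.IG

namespace Pool.Agent.H17.CF

variable {M : Set ZFSet.{0}} {κ Ω lam : Ordinal.{0}} {s : ZFSet.{0}} {G : Set ZFSet.{0}}

/-- The active rows of `c`. -/
noncomputable def actc (G : Set ZFSet.{0}) (c : ZFSet.{0}) : ZFSet.{0} :=
  ZFSet.sep (fun ρ => ∃ q ∈ G, ∃ y z, ent ρ y z ∈ q) c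

theorem inact_sub {α c c' : ZFSet.{0}} (hc : DD s α c) (h : c' ⊆ c) : DD s α c' := by
  rcases hc with rfl | ⟨ρ, hρ, rfl⟩ | ⟨ρ, hρ, ρ', hρ', hE, rfl⟩
  · left
    rw [ZFSet.eq_empty]
    intro z hz
    exact ZFSet.notMem_empty z (h hz)
  · by_cases h1 : ρ ∈ c'
    · right; left
      refine ⟨ρ, hρ, ?_⟩
      ext z
      rw [ZFSet.mem_singleton]
      exact ⟨fun hz => ZFSet.mem_singleton.1 (h hz), fun hz => hz ▸ h1⟩
    · left
      rw [ZFSet.eq_empty]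
      intro z hz
      have h2 := ZFSet.mem_singleton.1 (h hz)
      rw [h2] at hz
      exact h1 hz
  · by_cases h1 : ρ ∈ c' <;> by_cases h2 : ρ' ∈ c'
    · right; right
      refine ⟨ρ, hρ, ρ', hρ', hE, ?_⟩
      ext z
      rw [ZFSet.mem_pair]
      refine ⟨fun hz => ZFSet.mem_pair.1 (h hz), ?_⟩
      rintro (rfl | rfl)
      · exact h1
      · exact h2
    · right; left
      refine ⟨ρ, hρ, ?_⟩
      ext z
      rw [ZFSet.mem_singleton]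
      constructor
      · intro hz
        rcases ZFSet.mem_pair.1 (h hz) with h3 | h3
        · exact h3
        · rw [h3] at hz
          exact absurd hz h2
      · rintro rfl
        exact h1
    · right; left
      refine ⟨ρ', hρ', ?_⟩
      ext z
      rw [ZFSet.mem_singleton]
      constructor
      · intro hz
        rcases ZFSet.mem_pair.1 (h hz) with h3 | h3
        · rw [h3] at hz
          exact absurd hz h1
        · exact h3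
      · rintro rfl
        exact h2
    · left
      rw [ZFSet.eq_empty]
      intro z hz
      rcases ZFSet.mem_pair.1 (h hz) with h3 | h3
      · rw [h3] at hz
        exact h1 hz
      · rw [h3] at hz
        exact h2 hz

theorem actc_sub {G : Set ZFSet.{0}} {c : ZFSet.{0}} : actc G c ⊆ c := fun _ h => (ZFSet.mem_sep.1 h).1

theorem dd_act {α c : ZFSet.{0}} (hc : DD s α c) : DD s α (actc G c) :=
  inact_sub hc actc_sub

/-- Some element of `H` has no extension with an entry in an inactive row. -/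
theorem inact_one (h : St M κ Ω lam s G) {c : ZFSet.{0}} {H : Set ZFSet.{0}}
    (hH : Gd M Ω lam s G c H) {ρ : ZFSet.{0}} (hρM : ρ ∈ M) (hρ : ¬ ∃ q ∈ G, ∃ y z, ent ρ y z ∈ q) :
    ∃ q₀ ∈ H, ∀ r ∈ Sn Ω s lam.toZFSet, LE Ω ∅ r q₀ → ¬ ∃ y z, ent ρ y z ∈ r := by
  have hM := h.bk.cv.hM
  have hΩM : Ω.toZFSet ∈ M := h.bk.cv.hΩ.1
  have hω : Ordinal.omega0 ≤ Ω := om_le hM h.bk.cv.hΩ
  have hSM : Sn Ω s lam.toZFSet ∈ M := hH.fr.hP
  have hent : ∀ {n : ℕ} {q : (Fin n → M) → ZFSet.{0}}, PD hM q → hM.Dfn (fun v => ∃ y z, ent ρ y z ∈ q v) := by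
    intro n q hq
    refine (Df.exEnt (P := fun _ ρ' _ _ => ρ' = ρ) hq (Df.eq (PD.var _) (PD.const hρM))).congr fun v => ?_
    constructor
    · rintro ⟨_, y, z, h1, rfl⟩
      exact ⟨y, z, h1⟩
    · rintro ⟨y, z, h1⟩
      exact ⟨ρ, y, z, h1, rfl⟩
  have hD : hM.Dfn (fun v : Fin 1 → M => (∃ y z, ent ρ y z ∈ (v 0).1) ∨
      ∀ r ∈ Sn Ω s lam.toZFSet, LE Ω ∅ r (v 0).1 → ¬ ∃ y z, ent ρ y z ∈ r) := by
    refine Dfn.or (hent (PD.var 0)) ?_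
    refine Df.ball (P := fun v r => LE Ω ∅ r (v 0).1 → ¬ ∃ y z, ent ρ y z ∈ r) (PD.const hSM) ?_
    exact Dfn.imp (Df.LE hΩM (PD.const hM.empty_mem) (PD.var _) (PD.var _)) (Dfn.not (hent (PD.var _)))
  obtain ⟨p, hp⟩ := hH.fr.gen.ne
  obtain ⟨q, hqH, hq⟩ := hH.fr.gen_dfn (D := fun q : M => (∃ y z, ent ρ y z ∈ q.1) ∨
      ∀ r ∈ Sn Ω s lam.toZFSet, LE Ω ∅ r q.1 → ¬ ∃ y z, ent ρ y z ∈ r) hD hp (by
    intro r hr
    obtain ⟨hrS, -, -⟩ := mem_Ln.1 hr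
    by_cases hex : ∃ u ∈ Sn Ω s lam.toZFSet, LE Ω ∅ u r.1 ∧ ∃ y z, ent ρ y z ∈ u
    · obtain ⟨u, huS, hur, y, z, hyz⟩ := hex
      have hrE : IsE r.1 := (ZFSet.mem_sep.1 hrS).2.isE
      have huE : IsE u := (ZFSet.mem_sep.1 huS).2.isE
      obtain ⟨K, hK, hrK, -, -⟩ := LE.transl hrE huE hur
      have hu' : trp K u ∈ Sn Ω s lam.toZFSet := trp_mem_Sn hω (ZFSet.isOrdinal_toZFSet lam) hK huS
      exact ⟨⟨trp K u, hM.mem_of_mem hSM hu'⟩, mem_Ln.2 ⟨hu', hrS, LE.of_sub hrK⟩,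
        Or.inl ⟨y, _, (mem_trp huE).2 ⟨ρ, y, z, hyz, rfl⟩⟩⟩
    · refine ⟨r, mem_Ln.2 ⟨hrS, hrS, LE.refl _ _ _⟩, Or.inr fun u hu hur hyz => hex ⟨u, hu, hur, hyz⟩⟩)
  rcases hq with hq | hq
  · exact absurd ⟨q.1, hH.sub _ hqH, hq⟩ hρ
  · exact ⟨q.1, hqH, hq⟩

theorem inact_all (h : St M κ Ω lam s G) {c : ZFSet.{0}} (hc : DD s lam.toZFSet c) {H : Set ZFSet.{0}}
    (hH : Gd M Ω lam s G c H) :
    ∃ q₀ ∈ H, ∀ ρ ∈ c, ρ ∉ actc G c → ∀ r ∈ Sn Ω s lam.toZFSet, LE Ω ∅ r q₀ → ¬ ∃ y z, ent ρ y z ∈ r := by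
  have hM := h.bk.cv.hM
  have hcM : c ∈ M := dd_mem hM h.bk.cv.hlamN hc
  have one : ∀ ρ ∈ c, ∃ q₀ ∈ H, ρ ∉ actc G c → ∀ r ∈ Sn Ω s lam.toZFSet, LE Ω ∅ r q₀ →
      ¬ ∃ y z, ent ρ y z ∈ r := by
    intro ρ hρ
    by_cases h1 : ∃ q ∈ G, ∃ y z, ent ρ y z ∈ q
    · obtain ⟨p, hp⟩ := hH.fr.gen.ne
      exact ⟨p, hp, fun h2 => absurd (ZFSet.mem_sep.2 ⟨hρ, h1⟩) h2⟩
    · obtain ⟨q, hq, hq'⟩ := inact_one h hH (hM.mem_of_mem hcM hρ) h1
      exact ⟨q, hq, fun _ => hq'⟩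
  rcases hc with rfl | ⟨ρ, hρ, rfl⟩ | ⟨ρ, hρ, ρ', hρ', hE, rfl⟩
  · obtain ⟨p, hp⟩ := hH.fr.gen.ne
    exact ⟨p, hp, fun ρ hρ => absurd hρ (ZFSet.notMem_empty ρ)⟩
  · obtain ⟨q, hq, hq'⟩ := one ρ (ZFSet.mem_singleton.2 rfl)
    refine ⟨q, hq, fun ρ₁ hρ₁ => ?_⟩
    rw [ZFSet.mem_singleton.1 hρ₁]
    exact hq'
  · obtain ⟨q, hq, hq'⟩ := one ρ (ZFSet.mem_pair.2 (Or.inl rfl))
    obtain ⟨q₂, hq₂, hq₂'⟩ := one ρ' (ZFSet.mem_pair.2 (Or.inr rfl))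
    obtain ⟨r, hr, h1, h2⟩ := hH.fr.gen.dir q hq q₂ hq₂
    refine ⟨r, hr, fun ρ₁ hρ₁ hn u hu hur => ?_⟩
    rcases ZFSet.mem_pair.1 hρ₁ with h3 | h3
    · rw [h3] at hn ⊢
      exact hq' hn u hu (hur.trans (mem_Ln.1 h1).2.2.to0)
    · rw [h3] at hn ⊢
      exact hq₂' hn u hu (hur.trans (mem_Ln.1 h2).2.2.to0)

theorem ai_act (h : St M κ Ω lam s G) {I c : ZFSet.{0}} (hc : DD s lam.toZFSet c) (hA : AI M Ω lam s G I c) :
    AI M Ω lam s G I (actc G c) := by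
  obtain ⟨H, hH, C, hC, hch⟩ := hA
  have hM := h.bk.cv.hM
  have hΩM : Ω.toZFSet ∈ M := h.bk.cv.hΩ.1
  have hSM : Sn Ω s lam.toZFSet ∈ M := hH.fr.hP
  have hcM : actc G c ∈ M := dd_mem hM h.bk.cv.hlamN (dd_act hc)
  obtain ⟨q₀, hq₀, hno⟩ := inact_all h hc hH
  refine ⟨H, ⟨⟨hM, hSM, Ln_mem hM hΩM h.bk.hs h.bk.cv.hlamN hcM, Ln_pre _ _,
    ⟨hH.fr.gen.sub, hH.fr.gen.ne, ?_, ?_, ?_⟩⟩, hH.sub⟩, C, hC, hch⟩
  · intro p hp q hpq
    obtain ⟨hpS, hqS, hle⟩ := mem_Ln.1 hpq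
    have hqG : q ∈ G := h.fr.gen.up p (hH.sub p hp) q (mem_Ln.2 ⟨hpS, hqS, hle.to0⟩)
    refine hH.fr.gen.up p hp q (mem_Ln.2 ⟨hpS, hqS, (LE.congr_c fun ρ y z hz => ?_).1 hle⟩)
    exact ⟨fun h1 => actc_sub h1, fun h1 => ZFSet.mem_sep.2 ⟨h1, q, hqG, y, z, hz⟩⟩
  · intro p hp q hq
    obtain ⟨r, hr, h1, h2⟩ := hH.fr.gen.dir p hp q hq
    obtain ⟨a1, a2, a3⟩ := mem_Ln.1 h1
    obtain ⟨b1, b2, b3⟩ := mem_Ln.1 h2
    exact ⟨r, hr, mem_Ln.2 ⟨a1, a2, a3.anti actc_sub⟩, mem_Ln.2 ⟨b1, b2, b3.anti actc_sub⟩⟩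
  · intro D hD hdense
    obtain ⟨q, hqH, hqD⟩ := hH.fr.gen_dfn (D := fun q : M => q.1 ∈ D)
      (Df.mem (PD.var 0) (PD.const hD)) hq₀ (by
        intro r hr
        obtain ⟨hrS, -, hrq⟩ := mem_Ln.1 hr
        obtain ⟨d, hdD, hd⟩ := hdense r.1 hrS
        obtain ⟨hdS, -, hle⟩ := mem_Ln.1 hd
        refine ⟨⟨d, hM.mem_of_mem hSM hdS⟩, mem_Ln.2 ⟨hdS, hrS, (LE.congr_c fun ρ y z hz => ?_).1 hle⟩, hdD⟩
        refine ⟨fun h1 => actc_sub h1, fun h1 => ?_⟩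
        by_contra h2
        exact hno ρ h1 h2 r.1 hrS hrq.to0 ⟨y, z, hz⟩)
    exact ⟨q.1, hqH, hqD⟩

end Pool.Agent.H17.CF
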