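import Pool.Agent.H17.CF.F.Row
import Pool.Agent.H17.CF.F.F4

/-!
# CF-F10: the invariant of the tree of a row

Let `ρ = row μ r`, `μ < lam`, `r < 4`, be active in `G`, `T = TT κ Ω G e μ r`, `c` a clique (`DD s lam c`).

`tt_ai_mem`: `ρ ∈ c → AI M Ω lam s G (IX Ω T) c`. Let `H` be `c`-good (`exists_good` with any `q ∈ G`). For a level `a` let `B(a)` be the `z` with
`ent ρ a z ∈ q` for some `q ∈ H`: it exists by `act_level`, and it is unique: for `q, q' ∈ H` take `u ∈ H` below both for `≤_c`: since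
`ρ ∈ c` the entries of the row `ρ` are not translated (`tr_none`). `B(a) ∈ finS a`. Let
`C = {(a, m) : a ∈ LvZ Ω, m ∈ ω, e(a, m) = B(a)} ∈ M[H]` (separation; `h.mem_g` for `H`). Chain: let `(a, n), (b, m) ∈ C`, `a ∈ b`, and `q ∈ H` with
entries `B(a)`, `B(b)` at `a`, `b`: `e(a, n) = B(a) = B(a) △ ((B(b) △ e(b, m)) ∩ a)`, so `![a, b, m, n] ∈ T` and the pair is not in
`IX Ω T`. Unbounded: for every level `a` there is `m` with `e(a, m) = B(a)`.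

`tt_ai_notmem`: `ρ ∉ c → ¬ AI M Ω lam s G (IX Ω T) c`. Let `β = μ + 1`, and let `t ∈ M` be the set of the `((x, y), p)` with `x = (a, n)`, `y = (b, m)`
nodes, `a ∈ b`, `p ∈ Sn Ω s β`, such that for some `F, F'`: `ent ρ a F, ent ρ b F' ∈ p` and `e(a, n) ≠ F △ ((F' △ e(b, m)) ∩ a)`.
`Nm Ω s β t`; `vv G t = IX Ω T` (`act_level`, `tt_indep`, `rst q β ∈ G`). Suppose `AI (IX Ω T) c`. By `ai_iff` (`ix_tg`, `tt_tree`) for `α = β` there is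
`q ∈ G ∩ Sn β` with `EE M Ω s β t c₁ q`, `c₁ = cres c β`. `ρ` is active, so there is `q₁ ∈ G` with an entry in the row `ρ`; replace `q` by
`rst u β` where `u ∈ G` is below `q` and `q₁` for `≤_∅` (`EE.down0`): so we may assume that `q` has an entry in the row `ρ`.
Let `ζ` be the witness of `EE`. Let `c₂ = c₁ ∪ {ρ}`. `(Sn Ω s β, ≤_{c₂})` is ccc by `cc_succ_any` (at `μ`, with the clique `cres c μ` and
`c' = {ρ' ∈ c₂ : ρ' has stage μ}`; `c₂ = cres c μ ∪ c'`).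
Let `Z ∈ M` be the set of the `q' ∈ Sn Ω s β` such that `q' ≤_{c₁} q` and there are `η, γ, m` with `η ∈ γ ∈ LvZ Ω`, `m ∈ ω`, `((γ, m), q') ∈ ζ` and
`ent ρ γ (e(γ, m) △ {η}) ∈ q'`.
(1) For every `η < Ω` there is such a `q'` (with this `η`): by `unb` there are `q₀ ≤_{c₁} q` and `γ, m` with `((γ, m), q₀) ∈ ζ`, `η ∈ γ`. We may
assume that `q₀` has an entry `ent ρ γ z` (`add_any`; if `r = 3` the marker is active since `q` has an entry in the row `ρ`: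
`act_of_ent`, `Act.mono`, `LE.rst`; the new condition contains the old one; openness of `ζ`). Let
`K = {(ρ, k) : k ∈ z △ e(γ, m) △ {η}}` and `q' = trp K q₀`. `K` avoids `c₁` (`ρ ∉ c₁`), so `q' ≤_{c₁} q₀ ≤_{c₁} q` (`LE_trp`), `((γ, m), q') ∈ ζ` by
openness, and `ent ρ γ (tr K ρ γ z) ∈ q'`, `tr K ρ γ z = z △ (z △ e(γ,m) △ {η}) = e(γ, m) △ {η}`.
(2) By ccc let `C ⊆ Z` be countable in `M` such that every `z ∈ Z` is `≤_{c₂}`-compatible with some `w ∈ C`. The set of all levels `γ'`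
such that some `w ∈ C` has an entry in the row `ρ` at `γ'` is countable (`w` is finite), so bounded: `γ' ∈ η` for all of
them, for some `η < Ω` (`om1_bdd`). Take `q' ∈ Z` for this `η` with `γ, m` (1), and `w ∈ C` with `η', γ', m'`, and `u ≤_{c₂} q', w`. Since
`ρ ∈ c₂`: `ent ρ γ (e(γ, m) △ {η}) ∈ u`, `ent ρ γ' (e(γ', m') △ {η'}) ∈ u`. `γ' ∈ η ∈ γ`. Let `x = (γ', m')`, `y = (γ, m)`: `Bel x y`, and
`(e(γ',m') △ {η'}) △ ((e(γ,m) △ {η} △ e(γ,m)) ∩ γ') = (e(γ',m') △ {η'}) △ ({η} ∩ γ') = e(γ',m') △ {η'} ≠ e(γ',m')`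
(`η ∉ γ'` since `γ' ∈ η`), so `((x, y), u) ∈ t` and `((x, y), u) ∈ OO Ω ω s β t` (`LE.refl`). But `u ≤_{c₁} q`, `(x, u), (y, u) ∈ ζ` by openness
(`LE.anti`: `≤_{c₂}` is contained in `≤_{c₁}`): contradiction to `FC.ch`.
-/

set_option autoImplicit false
set_option linter.unusedVariables false
set_option linter.unusedSectionVars false
set_option linter.unusedSimpArgs false
set_option linter.unusedTactic false
set_option linter.unreachableTactic false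

open Pool.Agent.H17.Omega Pool.Agent.H17.Omega.CTM Pool.Agent.H52.GC Pool.Agent.H7.IG

namespace Pool.Agent.H17.CF

variable {M : Set ZFSet.{0}} {κ Ω lam : Ordinal.{0}} {s : ZFSet.{0}} {G : Set ZFSet.{0}}

/-! ### Small lemmas -/

theorem ra_keep {c p q ρ y z : ZFSet.{0}} (h : LE Ω c p q) (hρ : ρ ∈ c) (he : ent ρ y z ∈ q) : ent ρ y z ∈ p := by
  obtain ⟨K, _, h2, h3⟩ := h
  have h4 := h3 ρ y z he
  rwa [tr_none (fun a ha => h2 ρ a ha hρ)] at h4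

theorem ra_move {c p q ρ y z : ZFSet.{0}} (h : LE Ω c p q) (he : ent ρ y z ∈ q) : ∃ z', ent ρ y z' ∈ p := by
  obtain ⟨K, _, _, h3⟩ := h
  exact ⟨_, h3 ρ y z he⟩

theorem ra_Nd {a m : ZFSet.{0}} : ZFSet.pair a m ∈ Nd Ω omZ ↔ a ∈ LvZ Ω ∧ m ∈ omZ := by
  rw [Nd, ZFSet.pair_mem_prod]

theorem ra_Lv {a : ZFSet.{0}} : a ∈ LvZ Ω ↔ a ∈ Ω.toZFSet ∧ omZ ⊆ a := by
  rw [LvZ, ZFSet.mem_sep]

theorem ra_sym_self (x : ZFSet.{0}) : symZ x x = ∅ := by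
  ext k
  rw [mem_symZ]
  have := ZFSet.notMem_empty k
  tauto

theorem ra_sym_empty (x : ZFSet.{0}) : symZ x ∅ = x := by
  ext k
  rw [mem_symZ]
  have := ZFSet.notMem_empty k
  tauto

theorem ra_PD_sym {N : Set ZFSet.{0}} {hN : CTM N} {n : ℕ} {a b : (Fin n → N) → ZFSet.{0}} (ha : PD hN a)
    (hb : PD hN b) : PD hN (fun v => symZ (a v) (b v)) := by
  exact PD.union (PD.sdiff ha hb) (PD.sdiff hb ha)

/-- The level after a given ordinal. -/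
theorem ra_level {N : Set ZFSet.{0}} (hN : CTM N) (hΩ : IsOm1 N Ω) {β : Ordinal.{0}} (hβ : β < Ω) :
    ∃ a ∈ LvZ Ω, β.toZFSet ∈ a := by
  have hω : Ordinal.omega0 < Ω := by
    have h1 := hΩ.unc
    rcases lt_or_ge Ordinal.omega0 Ω with h2 | h2
    · exact h2
    · exfalso
      refine h1 ((ctb_om hN).mono ?_)
      rw [pres_omZ]
      exact Ordinal.toZFSet_subset_toZFSet_iff.2 h2
  have h1 : max Ordinal.omega0 (β + 1) < Ω := max_lt hω (hΩ.succ_lt hN hβ)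
  refine ⟨(max Ordinal.omega0 (β + 1)).toZFSet, ra_Lv.2 ⟨Ordinal.toZFSet_mem_toZFSet_iff.2 h1, ?_⟩, ?_⟩
  · rw [pres_omZ]
    exact Ordinal.toZFSet_subset_toZFSet_iff.2 (le_max_left _ _)
  · refine Ordinal.toZFSet_mem_toZFSet_iff.2 (lt_of_lt_of_le ?_ (le_max_right _ _))
    exact Order.lt_add_one_iff.2 le_rfl

theorem ra_gd (h : St M κ Ω lam s G) : Gd M Ω lam s G ∅ G := ⟨h.fr, fun p hp => hp⟩

theorem ra_ty {α p μ y z : ZFSet.{0}} {r : ℕ} (hω : Ordinal.omega0 ≤ Ω) (hr : r < 4) (hp : p ∈ Sn Ω s α)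
    (he : ent (row μ r) y z ∈ p) : y ∈ LvZ Ω ∧ z ∈ finS y := by
  obtain ⟨h1, _, _⟩ := (mem_Sn hω).1 hp
  obtain ⟨μ', y', z', ⟨r', hr', h4, hy, hz⟩ | ⟨h4, hy, hz⟩⟩ := h1.ty _ he
  · obtain ⟨_, rfl, rfl⟩ := ent_inj.1 h4
    exact ⟨hy, hz⟩
  · have h5 := (cd_row_inj (ent_inj.1 h4).1).2
    omega

theorem tt_ai_mem (h : St M κ Ω lam s G) {e : ZFSet.{0}} (he : En M Ω e) {μ : Ordinal.{0}} (hμ : μ < lam) {r : ℕ}
    (hr : r < 4) (ha : IsAct G (row μ.toZFSet r)) {c : ZFSet.{0}} (hc : DD s lam.toZFSet c)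
    (hρ : row μ.toZFSet r ∈ c) : AI M Ω lam s G (IX Ω (TT κ Ω G e μ.toZFSet r)) c := by
  have hM := h.bk.cv.hM
  have hΩM : Ω.toZFSet ∈ M := h.bk.cv.hΩ.mem
  have hω : Ordinal.omega0 ≤ Ω := om_le hM h.bk.cv.hΩ
  have hlM : lam.toZFSet ∈ M := h.bk.cv.hlamN
  have hcM : c ∈ M := dd_mem hM hlM hc
  obtain ⟨q₀, hq₀⟩ := h.fr.gen.ne
  obtain ⟨H, hH, hq₀H⟩ := exists_good h hcM hq₀
  refine ⟨H, hH, ?_⟩
  have hN := hH.fr.ctm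
  obtain ⟨γ, hγ, hγ'⟩ := hH.fr.mem_g
  have heN : e ∈ ExtZ M H := hH.fr.sub he.mem
  have hΩN : Ω.toZFSet ∈ ExtZ M H := hH.fr.sub hΩM
  have hμM : μ.toZFSet ∈ M := hM.mem_of_mem hlM (Ordinal.toZFSet_mem_toZFSet_iff.2 hμ)
  have hμN : μ.toZFSet ∈ ExtZ M H := hH.fr.sub hμM
  generalize hC : ZFSet.sep (fun x => ∃ a m, x = ZFSet.pair a m ∧ ∃ q ∈ γ, ∃ w, ZFSet.pair x w ∈ e ∧
    ent (row μ.toZFSet r) a w ∈ q) (Nd Ω omZ) = C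
  have hCm : ∀ x, x ∈ C ↔ ∃ a m, x = ZFSet.pair a m ∧ a ∈ LvZ Ω ∧ m ∈ omZ ∧ ∃ q ∈ H,
      ent (row μ.toZFSet r) a (ap e (ZFSet.pair a m)) ∈ q := by
    intro x
    rw [← hC, ZFSet.mem_sep]
    constructor
    · rintro ⟨h1, a, m, rfl, q, hq, w, hw, hq'⟩
      obtain ⟨h2, h3⟩ := ra_Nd.1 h1
      refine ⟨a, m, rfl, h2, h3, q, (hγ' q).1 hq, ?_⟩
      rw [he.fn.ap_eq hw]
      exact hq'
    · rintro ⟨a, m, rfl, h2, h3, q, hq, hq'⟩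
      exact ⟨ra_Nd.2 ⟨h2, h3⟩, a, m, rfl, q, (hγ' q).2 hq, _, (he.fn.ap_mem (ZFSet.pair_mem_prod.2 ⟨h2, h3⟩)).2, hq'⟩
  have hCN : C ∈ ExtZ M H := by
    rw [← hC]
    refine hN.sep_mem ?_ ((PD.Nd (hN := hN) (n := 0) hΩN PD.omZ).1 Fin.elim0)
    refine Df.exPr (PD.var 0) ?_
    refine Df.bex (PD.const hγ) ?_
    refine Df.exM (P := fun v w => ZFSet.pair (v 0).1 w ∈ e ∧ ent (row μ.toZFSet r) (v 1).1 w ∈ (v 3).1) ?_ ?_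
    · intro v x hx
      exact (dx_pair heN hN hx.1).2
    · exact Dfn.and (Df.mem (PD.pair (PD.var _) (PD.var _)) (PD.const heN))
        (Df.mem (PD.ent (PD.row (PD.const hμN) r) (PD.var _) (PD.var _)) (PD.var _))
  refine ⟨C, hCN, ?_, ?_, ?_⟩
  · rw [← hC]
    exact fun x hx => (ZFSet.mem_sep.1 hx).1
  · intro x hx y hy hxy hI
    obtain ⟨a, n, rfl, ha1, hn, q, hq, hqe⟩ := (hCm x).1 hx
    obtain ⟨b, m, rfl, hb1, hm, q', hq', hqe'⟩ := (hCm y).1 hy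
    rw [IX, ZFSet.mem_sep] at hI
    obtain ⟨_, a', b', m', n', h1, hab, hT⟩ := hI
    obtain ⟨h2, h3⟩ := ZFSet.pair_inj.1 h1
    obtain ⟨e1, e2⟩ := ZFSet.pair_inj.1 h2
    obtain ⟨e3, e4⟩ := ZFSet.pair_inj.1 h3
    obtain ⟨u, hu, hu1, hu2⟩ := hH.fr.gen.dir q hq q' hq'
    have k1 := ra_keep (mem_Ln.1 hu1).2.2 hρ hqe
    have k2 := ra_keep (mem_Ln.1 hu2).2.2 hρ hqe'
    refine hT ⟨?_, ?_, ?_, ?_, ?_, u, hH.sub u hu, ap e (ZFSet.pair a n), ap e (ZFSet.pair b m), ?_, ?_, ?_⟩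
    · show a'.1 ∈ LvZ Ω
      rw [← e1]; exact ha1
    · show b'.1 ∈ LvZ Ω
      rw [← e3]; exact hb1
    · exact hab
    · show m'.1 ∈ omZ
      rw [← e4]; exact hm
    · show n'.1 ∈ omZ
      rw [← e2]; exact hn
    · show ent (row μ.toZFSet r) a'.1 _ ∈ u
      rw [← e1]; exact k1
    · show ent (row μ.toZFSet r) b'.1 _ ∈ u
      rw [← e3]; exact k2
    · show ap e (ZFSet.pair a'.1 n'.1) = symZ _ (symZ _ (ap e (ZFSet.pair b'.1 m'.1)) ∩ a'.1)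
      rw [← e1, ← e2, ← e3, ← e4, ra_sym_self]
      have h5 : (∅ : ZFSet.{0}) ∩ a = ∅ := by
        ext z
        rw [ZFSet.mem_inter]
        have := ZFSet.notMem_empty z
        tauto
      rw [h5, ra_sym_empty]
  · intro β hβ
    obtain ⟨a, ha1, ha2⟩ := ra_level hM h.bk.cv.hΩ hβ
    obtain ⟨q, hq, _, z, hz⟩ := act_level h hμ hr ha hcM hH ha1 hq₀H
    have hqS := hH.fr.gen.sub q hq
    obtain ⟨_, hz2⟩ := ra_ty hω hr hqS hz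
    obtain ⟨m, hm, hm'⟩ := he.sur a ha1 z hz2
    refine ⟨a, m, (hCm _).2 ⟨a, m, rfl, ha1, hm, q, hq, ?_⟩, ha2⟩
    rw [hm']
    exact hz

theorem ra_rst_mem (h : St M κ Ω lam s G) {β : Ordinal.{0}} {q : ZFSet.{0}} (hq : q ∈ G) : rst q β.toZFSet ∈ G := by
  have hω : Ordinal.omega0 ≤ Ω := om_le h.bk.cv.hM h.bk.cv.hΩ
  have hqS := h.fr.gen.sub q hq
  refine h.fr.gen.up q hq _ (mem_Ln.2 ⟨hqS, ?_, LE.of_sub rst_sub⟩)
  by_cases hb : β ≤ lam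
  · exact Sn_mono hω (Ordinal.toZFSet_subset_toZFSet_iff.2 hb) (rst_mem_Sn hω (ZFSet.isOrdinal_toZFSet _)
      (ZFSet.isOrdinal_toZFSet _) hqS)
  · have h1 : rst q β.toZFSet = q := by
      refine rst_eq hω (Sn_mono hω (Ordinal.toZFSet_subset_toZFSet_iff.2 (not_le.1 hb).le) hqS)
    rw [h1]
    exact hqS

theorem ra_IX {X : Set (Fin 4 → El κ.toZFSet)} {z : ZFSet.{0}} : z ∈ IX Ω X ↔ ∃ a b m n : El κ.toZFSet,
    z = ZFSet.pair (ZFSet.pair a.1 n.1) (ZFSet.pair b.1 m.1) ∧ a.1 ∈ LvZ Ω ∧ n.1 ∈ omZ ∧ b.1 ∈ LvZ Ω ∧ m.1 ∈ omZ ∧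
    a.1 ∈ b.1 ∧ ![a, b, m, n] ∉ X := by
  rw [IX, ZFSet.mem_sep]
  constructor
  · rintro ⟨h1, a, b, m, n, rfl, h2, h3⟩
    rw [ZFSet.pair_mem_prod, ra_Nd, ra_Nd] at h1
    exact ⟨a, b, m, n, rfl, h1.1.1, h1.1.2, h1.2.1, h1.2.2, h2, h3⟩
  · rintro ⟨a, b, m, n, rfl, h1, h2, h3, h4, h5, h6⟩
    rw [ZFSet.pair_mem_prod, ra_Nd, ra_Nd]
    exact ⟨⟨⟨h1, h2⟩, ⟨h3, h4⟩⟩, a, b, m, n, rfl, h5, h6⟩

theorem ra_finS {a z : ZFSet.{0}} (ha : a ∈ LvZ Ω) (hz : z ∈ finS a) : z ∈ finS Ω.toZFSet := by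
  rw [mem_finS] at hz ⊢
  exact ⟨fun k hk => (ZFSet.isOrdinal_toZFSet Ω).isTransitive.mem_trans (hz.1 hk) (ra_Lv.1 ha).1, hz.2⟩

theorem tt_name (h : St M κ Ω lam s G) {e : ZFSet.{0}} (he : En M Ω e) {μ : Ordinal.{0}} (hμ : μ < lam) {r : ℕ}
    (hr : r < 4) (ha : IsAct G (row μ.toZFSet r)) :
    ∃ t ∈ M, Nm Ω s (Order.succ μ).toZFSet t ∧ vv G t = IX Ω (TT κ Ω G e μ.toZFSet r) ∧
      ∀ a b n m p F F', a ∈ LvZ Ω → b ∈ LvZ Ω → a ∈ b → n ∈ omZ → m ∈ omZ → p ∈ Sn Ω s (Order.succ μ).toZFSet →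
        ent (row μ.toZFSet r) a F ∈ p → ent (row μ.toZFSet r) b F' ∈ p →
        ap e (ZFSet.pair a n) ≠ symZ F (symZ F' (ap e (ZFSet.pair b m)) ∩ a) →
        ZFSet.pair (ZFSet.pair (ZFSet.pair a n) (ZFSet.pair b m)) p ∈ t := by
  have hM := h.bk.cv.hM
  have hΩM : Ω.toZFSet ∈ M := h.bk.cv.hΩ.mem
  have hω : Ordinal.omega0 ≤ Ω := om_le hM h.bk.cv.hΩ
  have hlM : lam.toZFSet ∈ M := h.bk.cv.hlamN
  have hsM : s ∈ M := h.bk.hs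
  have heM : e ∈ M := he.mem
  have hμM : μ.toZFSet ∈ M := hM.mem_of_mem hlM (Ordinal.toZFSet_mem_toZFSet_iff.2 hμ)
  have hβM : (Order.succ μ).toZFSet ∈ M := sc_succ_mem hM hμM
  have hβl : (Order.succ μ).toZFSet ⊆ lam.toZFSet := Ordinal.toZFSet_subset_toZFSet_iff.2 (Order.succ_le_of_lt hμ)
  have hμβ : μ.toZFSet ∈ (Order.succ μ).toZFSet := (sc_succ μ _).2 (Or.inr rfl)
  have hFS : finS Ω.toZFSet ∈ M := E1_finS hM hΩM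
  have hNdM : Nd Ω omZ ∈ M := E2_Nd_mem hM hΩM hM.omZ_mem
  have hSnM : Sn Ω s (Order.succ μ).toZFSet ∈ M :=
    (PD.Sn (hN := hM) (n := 0) hΩM (PD.const hsM) (PD.const hβM)).1 Fin.elim0
  have hΩκ : Ω ≤ κ := h.bk.cv.hΩκ
  have hωκ : Ordinal.omega0 ≤ κ := h.bk.cv.hκω
  generalize ht : ZFSet.sep (fun z => ∃ xy p, z = ZFSet.pair xy p ∧ ∃ x y, xy = ZFSet.pair x y ∧
    ∃ a n, x = ZFSet.pair a n ∧ ∃ b m, y = ZFSet.pair b m ∧ a ∈ b ∧ ∃ F ∈ finS Ω.toZFSet, ∃ F' ∈ finS Ω.toZFSet,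
      ∃ w ∈ finS Ω.toZFSet, ∃ w' ∈ finS Ω.toZFSet, ent (row μ.toZFSet r) a F ∈ p ∧ ent (row μ.toZFSet r) b F' ∈ p ∧
        ZFSet.pair x w ∈ e ∧ ZFSet.pair y w' ∈ e ∧ w ≠ symZ F (symZ F' w' ∩ a))
    (ZFSet.prod (ZFSet.prod (Nd Ω omZ) (Nd Ω omZ)) (Sn Ω s (Order.succ μ).toZFSet)) = t
  have htM : t ∈ M := by
    rw [← ht]
    refine hM.sep_mem ?_ (hM.prod_mem (hM.prod_mem hNdM hNdM) hSnM)
    refine Df.exPr (PD.var 0) ?_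
    refine Df.exPr (PD.var 1) ?_
    refine Df.exPr (PD.var 3) ?_
    refine Df.exPr (PD.var 4) ?_
    refine Dfn.and (Df.mem (PD.var _) (PD.var _)) ?_
    refine Df.bex (PD.const hFS) ?_
    refine Df.bex (PD.const hFS) ?_
    refine Df.bex (PD.const hFS) ?_
    refine Df.bex (PD.const hFS) ?_
    refine Dfn.and (Df.mem (PD.ent (PD.row (PD.const hμM) r) (PD.var _) (PD.var _)) (PD.var _)) ?_
    refine Dfn.and (Df.mem (PD.ent (PD.row (PD.const hμM) r) (PD.var _) (PD.var _)) (PD.var _)) ?_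
    refine Dfn.and (Df.mem (PD.pair (PD.var _) (PD.var _)) (PD.const heM)) ?_
    refine Dfn.and (Df.mem (PD.pair (PD.var _) (PD.var _)) (PD.const heM)) ?_
    exact Dfn.not (Df.eq (PD.var _) (ra_PD_sym (PD.var _) (PD.inter (ra_PD_sym (PD.var _) (PD.var _)) (PD.var _))))
  have hap : ∀ a ∈ LvZ Ω, ∀ m ∈ omZ, ZFSet.pair (ZFSet.pair a m) (ap e (ZFSet.pair a m)) ∈ e := fun a h1 m h2 =>
    (he.fn.ap_mem (ZFSet.pair_mem_prod.2 ⟨h1, h2⟩)).2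
  have htm : ∀ z, z ∈ t ↔ ∃ a n b m p F F', z = ZFSet.pair (ZFSet.pair (ZFSet.pair a n) (ZFSet.pair b m)) p ∧
      a ∈ LvZ Ω ∧ n ∈ omZ ∧ b ∈ LvZ Ω ∧ m ∈ omZ ∧ p ∈ Sn Ω s (Order.succ μ).toZFSet ∧ a ∈ b ∧
      ent (row μ.toZFSet r) a F ∈ p ∧ ent (row μ.toZFSet r) b F' ∈ p ∧
      ap e (ZFSet.pair a n) ≠ symZ F (symZ F' (ap e (ZFSet.pair b m)) ∩ a) := by
    intro z
    rw [← ht, ZFSet.mem_sep]
    constructor
    · rintro ⟨h1, xy, p, rfl, x, y, rfl, a, n, rfl, b, m, rfl, h2, F, _, F', _, w, _, w', _, h3, h4, h5, h6, h7⟩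
      rw [ZFSet.pair_mem_prod, ZFSet.pair_mem_prod, ra_Nd, ra_Nd] at h1
      refine ⟨a, n, b, m, p, F, F', rfl, h1.1.1.1, h1.1.1.2, h1.1.2.1, h1.1.2.2, h1.2, h2, h3, h4, ?_⟩
      rw [he.fn.ap_eq h5, he.fn.ap_eq h6]
      exact h7
    · rintro ⟨a, n, b, m, p, F, F', rfl, h1, h2, h3, h4, h5, h6, h7, h8, h9⟩
      rw [ZFSet.pair_mem_prod, ZFSet.pair_mem_prod, ra_Nd, ra_Nd]
      refine ⟨⟨⟨⟨h1, h2⟩, ⟨h3, h4⟩⟩, h5⟩, _, p, rfl, _, _, rfl, a, n, rfl, b, m, rfl, h6, F, ?_, F', ?_,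
        _, ?_, _, ?_, h7, h8, hap a h1 n h2, hap b h3 m h4, h9⟩
      · exact ra_finS h1 (ra_ty hω hr h5 h7).2
      · exact ra_finS h3 (ra_ty hω hr h5 h8).2
      · exact ra_finS h1 (he.val a h1 n h2)
      · exact ra_finS h3 (he.val b h3 m h4)
  refine ⟨t, htM, ⟨?_, ?_⟩, ?_, ?_⟩
  · rw [← ht]
    exact fun x hx => (ZFSet.mem_sep.1 hx).1
  · intro x y q hq
    obtain ⟨a, n, b, m, p, F, F', h1, _, _, _, _, _, h2, _⟩ := (htm _).1 hq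
    obtain ⟨h3, _⟩ := ZFSet.pair_inj.1 h1
    obtain ⟨h4, h5⟩ := ZFSet.pair_inj.1 h3
    exact ⟨a, n, b, m, h4, h5, h2⟩
  · ext z
    rw [mem_vv, ra_IX]
    constructor
    · rintro ⟨p, hp, hz⟩
      obtain ⟨a, n, b, m, p', F, F', h1, h2, h3, h4, h5, h6, h7, h8, h9, h10⟩ := (htm _).1 hz
      obtain ⟨rfl, rfl⟩ := ZFSet.pair_inj.1 h1
      have ka : a ∈ κ.toZFSet := Ordinal.toZFSet_subset_toZFSet_iff.2 hΩκ (ra_Lv.1 h2).1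
      have kb : b ∈ κ.toZFSet := Ordinal.toZFSet_subset_toZFSet_iff.2 hΩκ (ra_Lv.1 h4).1
      have ko : omZ ⊆ κ.toZFSet := by
        rw [pres_omZ]; exact Ordinal.toZFSet_subset_toZFSet_iff.2 hωκ
      refine ⟨⟨a, ka⟩, ⟨b, kb⟩, ⟨m, ko h5⟩, ⟨n, ko h3⟩, rfl, h2, h3, h4, h5, h7, ?_⟩
      rintro ⟨_, _, _, _, _, q, hq, F1, F1', k1, k2, k3⟩
      exact h10 (k3.trans (tt_indep h (μ := μ.toZFSet) (r := r) h7 h4 hq hp k1 k2 h8 h9))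
    · rintro ⟨a, b, m, n, rfl, h1, h2, h3, h4, h5, h6⟩
      obtain ⟨q₀, hq₀⟩ := h.fr.gen.ne
      have h0M : (∅ : ZFSet.{0}) ∈ M := FinZ.mem hM (X := omZ) ⟨∅, fun z => ⟨fun hz => absurd hz (ZFSet.notMem_empty z),
        fun hz => absurd hz (Finset.notMem_empty z)⟩⟩ (fun z hz => absurd hz (ZFSet.notMem_empty z))
      obtain ⟨q1, hq1, _, F, hF⟩ := act_level h hμ hr ha h0M (ra_gd h) h1 hq₀
      obtain ⟨q2, hq2, hle, F', hF'⟩ := act_level h hμ hr ha h0M (ra_gd h) h3 hq1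
      obtain ⟨F2, hF2⟩ := ra_move hle hF
      have hqS := h.fr.gen.sub q2 hq2
      refine ⟨rst q2 (Order.succ μ).toZFSet, ra_rst_mem h hq2, (htm _).2 ⟨a.1, n.1, b.1, m.1, _, F2, F', rfl, h1, h2, h3,
        h4, rst_mem_Sn hω (ZFSet.isOrdinal_toZFSet _) (ZFSet.isOrdinal_toZFSet _) hqS, h5, cd_row.2 ⟨hF2, hμβ⟩,
        cd_row.2 ⟨hF', hμβ⟩, fun h7 => h6 ?_⟩⟩
      exact ⟨h1, h3, h5, h4, h2, q2, hq2, F2, F', hF2, hF', h7⟩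
  · intro a b n m p F F' h1 h2 h3 h4 h5 h6 h7 h8 h9
    exact (htm _).2 ⟨a, n, b, m, p, F, F', rfl, h1, h4, h2, h5, h6, h3, h7, h8, h9⟩

theorem ra_alg1 {z w η k : ZFSet.{0}} (h : k ∈ symZ z (symZ w {η})) : k ∈ z ∨ k ∈ w ∨ k = η := by
  rw [mem_symZ, mem_symZ, ZFSet.mem_singleton] at h
  by_cases h1 : k ∈ z
  · exact Or.inl h1
  · by_cases h2 : k ∈ w
    · exact Or.inr (Or.inl h2)
    · by_cases h3 : k = η
      · exact Or.inr (Or.inr h3)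
      · exfalso
        rcases h with h4 | h4
        · exact h1 h4.1
        · rcases h4.1 with h5 | h5
          · exact h2 h5.1
          · exact h3 h5.1

theorem ra_alg2 {K ρ γ z w : ZFSet.{0}} (hK : ∀ k, ZFSet.pair ρ k ∈ K ↔ k ∈ symZ z w)
    (hγ : ∀ k, k ∈ symZ z w → k ∈ γ) : tr K ρ γ w = z := by
  ext k
  have h1 := hγ k
  rw [mem_tr, hK]
  rw [mem_symZ] at h1 ⊢
  by_cases h2 : k ∈ z <;> by_cases h3 : k ∈ w
  · simp [h2, h3]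
  · have h4 := h1 (Or.inl ⟨h2, h3⟩)
    simp [h2, h3, h4]
  · have h4 := h1 (Or.inr ⟨h3, h2⟩)
    simp [h2, h3, h4]
  · simp [h2, h3]

theorem ra_one {α c₁ q' ζ t e y₁ z₂ : ZFSet.{0}} {μ : Ordinal.{0}} {r : ℕ} (hω : Ordinal.omega0 ≤ Ω)
    (hβo : α.IsOrdinal) (hμβ : μ.toZFSet ∈ α) (hr : r < 4) (he : En M Ω e) (hq'S : q' ∈ Sn Ω s α)
    (he₃ : ent (row μ.toZFSet r) y₁ z₂ ∈ q') (hρc₁ : row μ.toZFSet r ∉ c₁)
    (hF : FC Ω omZ (Sn Ω s α) (Ln Ω s α c₁) (OO Ω omZ s α t) q' ζ)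
    (hζs : ∀ γ m p, ZFSet.pair (ZFSet.pair γ m) p ∈ ζ → γ ∈ LvZ Ω ∧ m ∈ omZ ∧ p ∈ Sn Ω s α)
    {η : Ordinal.{0}} (hη : η < Ω) : ∃ p ∈ Sn Ω s α, LE Ω c₁ p q' ∧ ∃ γ m, η.toZFSet ∈ γ ∧
      ZFSet.pair (ZFSet.pair γ m) p ∈ ζ ∧
      ent (row μ.toZFSet r) γ (symZ (ap e (ZFSet.pair γ m)) {η.toZFSet}) ∈ p := by
  obtain ⟨p₀, hp₀, γ, m, hγm, hηγ⟩ := hF.unb q' (mem_Ln.2 ⟨hq'S, hq'S, LE.refl _ _ _⟩) η hη
  obtain ⟨hp₀S, _, hp₀le⟩ := mem_Ln.1 hp₀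
  obtain ⟨hγL, hmo, _⟩ := hζs _ _ _ hγm
  obtain ⟨p₁, hp₁S, hp₀₁, z, hz⟩ := add_any (y := γ) hω hβo hp₀S hμβ hr (by
    rintro rfl
    exact (act_of_ent hq'S he₃).mono hp₀le.to0.rst) hγL
  have hp₁le : LE Ω c₁ p₁ p₀ := LE.of_sub hp₀₁
  obtain ⟨_, hzf⟩ := ra_ty hω hr hp₁S hz
  have hwf := he.val γ hγL m hmo
  generalize hwe : ap e (ZFSet.pair γ m) = w at hwf
  rw [mem_finS] at hzf hwf
  -- the translation
  have hDγ : ∀ k, k ∈ symZ z (symZ w {η.toZFSet}) → k ∈ γ := by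
    intro k hk
    rcases ra_alg1 hk with h1 | h1 | h1
    · exact hzf.1 h1
    · exact hwf.1 h1
    · rw [h1]; exact hηγ
  have hDf : FinZ (symZ z (symZ w {η.toZFSet})) := by
    classical
    obtain ⟨sz, hsz⟩ := hzf.2
    obtain ⟨sw, hsw⟩ := hwf.2
    refine cd_fin_sub (a := z ∪ (w ∪ {η.toZFSet})) ⟨sz ∪ (sw ∪ {η.toZFSet}), fun k => ?_⟩ ?_
    · rw [ZFSet.mem_union, ZFSet.mem_union, ZFSet.mem_singleton, Finset.mem_union, Finset.mem_union,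
        Finset.mem_singleton, hsz, hsw]
    · intro k hk
      rw [ZFSet.mem_union, ZFSet.mem_union, ZFSet.mem_singleton]
      exact ra_alg1 hk
  have hKK : KK Ω (ZFSet.prod {row μ.toZFSet r} (symZ z (symZ w {η.toZFSet}))) := by
    constructor
    · refine sc_finR hDf (fun x y => y = ZFSet.pair (row μ.toZFSet r) x) (fun x y y' h1 h2 => h1.trans h2.symm) ?_
      intro y hy
      obtain ⟨a, ha', b, hb, rfl⟩ := ZFSet.mem_prod.1 hy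
      rw [ZFSet.mem_singleton.1 ha']
      exact ⟨b, hb, rfl⟩
    · intro k hk
      obtain ⟨a, ha', b, hb, rfl⟩ := ZFSet.mem_prod.1 hk
      rw [ZFSet.mem_singleton.1 ha']
      refine ⟨μ.toZFSet, b, ⟨r, hr, rfl⟩, ?_⟩
      exact (ZFSet.isOrdinal_toZFSet Ω).isTransitive.mem_trans (hDγ b hb) (ra_Lv.1 hγL).1
  generalize hK : ZFSet.prod {row μ.toZFSet r} (symZ z (symZ w {η.toZFSet})) = K at hKK
  have hKm : ∀ k, ZFSet.pair (row μ.toZFSet r) k ∈ K ↔ k ∈ symZ z (symZ w {η.toZFSet}) := by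
    intro k
    rw [← hK, ZFSet.pair_mem_prod, ZFSet.mem_singleton]
    simp
  have hAv : Av K c₁ := by
    intro ρ' a ha'
    rw [← hK, ZFSet.pair_mem_prod, ZFSet.mem_singleton] at ha'
    rw [ha'.1]
    exact hρc₁
  have hp₁E := ((mem_Sn hω).1 hp₁S).1.isE
  have hp₂S : trp K p₁ ∈ Sn Ω s α := trp_mem_Sn hω hβo hKK hp₁S
  have hp₂le : LE Ω c₁ (trp K p₁) p₀ := (LE_trp hp₁E hKK hAv).1.trans hp₁le
  refine ⟨trp K p₁, hp₂S, hp₂le.trans hp₀le, γ, m, hηγ, hF.op _ _ _ hγm (mem_Ln.2 ⟨hp₂S, hp₀S, hp₂le⟩), ?_⟩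
  rw [hwe, ent_mem_trp hp₁E, ra_alg2 hKm hDγ]
  exact hz

theorem ra_lev (hM : CTM M) (hΩ : IsOm1 M Ω) (hω : Ordinal.omega0 ≤ Ω) {α C : ZFSet.{0}} {μ : Ordinal.{0}} {r : ℕ}
    (hμM : μ.toZFSet ∈ M) (hCM : C ∈ M) (hCS : C ⊆ Sn Ω s α) (hCc : Ctb M C) :
    ∃ η < Ω, ∀ w ∈ C, ∀ γ z, γ ∈ Ω.toZFSet → z ∈ finS Ω.toZFSet →
      ent (row μ.toZFSet r) γ z ∈ w → γ ∈ η.toZFSet := by
  have hΩM : Ω.toZFSet ∈ M := hΩ.mem
  have hFS : finS Ω.toZFSet ∈ M := E1_finS hM hΩM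
  have hLM : ZFSet.sep (fun γ => ∃ w ∈ C, ∃ z ∈ finS Ω.toZFSet, ent (row μ.toZFSet r) γ z ∈ w) Ω.toZFSet ∈ M := by
    refine hM.sep_mem ?_ hΩM
    exact Df.bex (PD.const hCM) (Df.bex (PD.const hFS) (Df.mem (PD.ent (PD.row (PD.const hμM) r) (PD.var _)
      (PD.var _)) (PD.var _)))
  have hrM : ZFSet.sep (fun x => ∃ w γ, x = ZFSet.pair w γ ∧ ∃ z ∈ finS Ω.toZFSet, ent (row μ.toZFSet r) γ z ∈ w)
      (ZFSet.prod C Ω.toZFSet) ∈ M := by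
    refine hM.sep_mem ?_ (hM.prod_mem hCM hΩM)
    exact Df.exPr (PD.var 0) (Df.bex (PD.const hFS) (Df.mem (PD.ent (PD.row (PD.const hμM) r) (PD.var _)
      (PD.var _)) (PD.var _)))
  have hLc := ctb_union hM hCM hrM hLM hCc (by
    intro w hw
    have hwS := hCS hw
    have hwM : w ∈ M := hM.mem_of_mem hCM hw
    refine ⟨ZFSet.sep (fun γ => ∃ z ∈ finS Ω.toZFSet, ent (row μ.toZFSet r) γ z ∈ w) Ω.toZFSet, ?_, ?_, ?_⟩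
    · refine hM.sep_mem ?_ hΩM
      exact Df.bex (PD.const hFS) (Df.mem (PD.ent (PD.row (PD.const hμM) r) (PD.var _) (PD.var _)) (PD.const hwM))
    · have hfin : FinZ (ZFSet.sep (fun γ => ∃ z ∈ finS Ω.toZFSet, ent (row μ.toZFSet r) γ z ∈ w) Ω.toZFSet) := by
        refine sc_finR ((mem_Sn hω).1 hwS).2.1 (fun x γ => ∃ z, x = ent (row μ.toZFSet r) γ z) ?_ ?_
        · rintro x γ γ' ⟨z, h1⟩ ⟨z', h2⟩
          rw [h1] at h2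
          exact (ent_inj.1 h2).2.1
        · intro γ hγ
          obtain ⟨_, z, _, h1⟩ := ZFSet.mem_sep.1 hγ
          exact ⟨_, h1, z, rfl⟩
      obtain ⟨fs, hfs⟩ := hfin
      obtain ⟨α, hα, hb⟩ := tk5_finset_bdd hM hΩ fs (fun z hz => (ZFSet.mem_sep.1 ((hfs z).2 hz)).1)
      exact (hΩ.ctb α hα).mono (fun z hz => hb z ((hfs z).1 hz))
    · intro γ hγ h1
      obtain ⟨_, w', γ', h2, z, hz, h3⟩ := ZFSet.mem_sep.1 h1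
      obtain ⟨rfl, rfl⟩ := ZFSet.pair_inj.1 h2
      exact ZFSet.mem_sep.2 ⟨(ZFSet.mem_sep.1 hγ).1, z, hz, h3⟩) (by
    intro γ hγ
    obtain ⟨h1, w, hw, z, hz, h2⟩ := ZFSet.mem_sep.1 hγ
    exact ⟨w, hw, ZFSet.mem_sep.2 ⟨ZFSet.pair_mem_prod.2 ⟨hw, h1⟩, w, γ, rfl, z, hz, h2⟩⟩)
  obtain ⟨η, hη, h1⟩ := om1_bdd hM hΩ hLM hLc (fun x hx => (ZFSet.mem_sep.1 hx).1)
  exact ⟨η, hη, fun w hw γ z h2 h3 h4 => h1 (ZFSet.mem_sep.2 ⟨h2, w, hw, z, h3, h4⟩)⟩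

theorem ra_ne {w' w'' η η' γ' : ZFSet.{0}} (h : γ' ∈ η) :
    w' ≠ symZ (symZ w' {η'}) (symZ (symZ w'' {η}) w'' ∩ γ') := by
  intro h1
  have h2 : symZ (symZ w'' {η}) w'' ∩ γ' = ∅ := by
    ext k
    rw [ZFSet.mem_inter, mem_symZ, mem_symZ, ZFSet.mem_singleton]
    constructor
    · rintro ⟨h3, h4⟩
      have h5 : k = η := by
        by_contra h6
        rcases h3 with h3 | h3
        · rcases h3.1 with h7 | h7
          · exact h3.2 h7.1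
          · exact h6 h7.1
        · exact h3.2 (Or.inl ⟨h3.1, h6⟩)
      rw [h5] at h4
      exact absurd h (ZFSet.mem_asymm h4)
    · intro h3
      exact absurd h3 (ZFSet.notMem_empty k)
  rw [h2, ra_sym_empty] at h1
  have h3 : η' ∈ w' ↔ η' ∈ symZ w' {η'} := by rw [← h1]
  rw [mem_symZ, ZFSet.mem_singleton] at h3
  by_cases h4 : η' ∈ w'
  · rcases h3.1 h4 with h5 | h5
    · exact h5.2 rfl
    · exact h5.2 h4
  · exact h4 (h3.2 (Or.inr ⟨rfl, h4⟩))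

theorem tt_ai_notmem (h : St M κ Ω lam s G) {e : ZFSet.{0}} (he : En M Ω e) {μ : Ordinal.{0}} (hμ : μ < lam) {r : ℕ}
    (hr : r < 4) (ha : IsAct G (row μ.toZFSet r)) {c : ZFSet.{0}} (hc : DD s lam.toZFSet c)
    (hρ : row μ.toZFSet r ∉ c) : ¬ AI M Ω lam s G (IX Ω (TT κ Ω G e μ.toZFSet r)) c := by
  intro hA
  have hM := h.bk.cv.hM
  have hΩ := h.bk.cv.hΩ
  have hΩM : Ω.toZFSet ∈ M := hΩ.mem
  have hω : Ordinal.omega0 ≤ Ω := om_le hM hΩ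
  have hlM : lam.toZFSet ∈ M := h.bk.cv.hlamN
  have hcM : c ∈ M := dd_mem hM hlM hc
  have hsM : s ∈ M := h.bk.hs
  have heM : e ∈ M := he.mem
  have hμM : μ.toZFSet ∈ M := hM.mem_of_mem hlM (Ordinal.toZFSet_mem_toZFSet_iff.2 hμ)
  have hβl : Order.succ μ ≤ lam := Order.succ_le_of_lt hμ
  have hβM : (Order.succ μ).toZFSet ∈ M := sc_succ_mem hM hμM
  have hβo : (Order.succ μ).toZFSet.IsOrdinal := ZFSet.isOrdinal_toZFSet _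
  have hμo : μ.toZFSet.IsOrdinal := ZFSet.isOrdinal_toZFSet _
  have hlo : lam.toZFSet.IsOrdinal := ZFSet.isOrdinal_toZFSet _
  have hμβ : μ.toZFSet ∈ (Order.succ μ).toZFSet := (sc_succ μ _).2 (Or.inr rfl)
  have hΩκ : Ω ≤ κ := h.bk.cv.hΩκ
  have hFS : finS Ω.toZFSet ∈ M := E1_finS hM hΩM
  have hSnM : Sn Ω s (Order.succ μ).toZFSet ∈ M :=
    (PD.Sn (hN := hM) (n := 0) hΩM (PD.const hsM) (PD.const hβM)).1 Fin.elim0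
  obtain ⟨t, htM, hNm, hv, hprop⟩ := tt_name h he hμ hr ha
  have hTG : TG Ω omZ (vv G t) := by
    rw [hv]; exact ix_tg hω hΩκ (tt_tree h he hμ hr ha)
  rw [← hv] at hA
  obtain ⟨q, hqG, hqβ, hE⟩ := (ai_iff h hβl htM hNm hTG hc).1 hA
  generalize hc₁ : cres c (Order.succ μ).toZFSet = c₁ at hE
  have hc₁M : c₁ ∈ M := by
    rw [← hc₁]; exact (PD.cres (hN := hM) (n := 0) (PD.const hcM) (PD.const hβM)).1 Fin.elim0
  obtain ⟨q₁, hq₁G, y₁, z₁, he₁⟩ := ha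
  obtain ⟨u, huG, huq, huq₁⟩ := h.fr.gen.dir q hqG q₁ hq₁G
  have huS := h.fr.gen.sub u huG
  obtain ⟨z₂, he₂⟩ := ra_move (mem_Ln.1 huq₁).2.2 he₁
  generalize hq' : rst u (Order.succ μ).toZFSet = q'
  have hq'S : q' ∈ Sn Ω s (Order.succ μ).toZFSet := by
    rw [← hq']; exact rst_mem_Sn hω hβo hlo huS
  have hq'M : q' ∈ M := hM.mem_of_mem hSnM hq'S
  have hle : LE Ω ∅ q' q := by
    have h1 := (mem_Ln.1 huq).2.2.rst (α := (Order.succ μ).toZFSet)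
    rwa [hq', rst_eq hω hqβ] at h1
  have he₃ : ent (row μ.toZFSet r) y₁ z₂ ∈ q' := by
    rw [← hq']; exact cd_row.2 ⟨he₂, hμβ⟩
  obtain ⟨ζ, hζM, hF⟩ := EE.down0 hM hΩ hsM hβo hβM hc₁M htM hE hq'S hle
  have hρc₁ : row μ.toZFSet r ∉ c₁ := by
    rw [← hc₁]; intro h'; exact hρ (mem_cresr.1 h').1
  have hρM : row μ.toZFSet r ∈ M := (PD.row (hN := hM) (n := 0) (PD.const hμM) r).1 Fin.elim0
  have hBM : Bs κ ∈ M := hM.mem_of_mem hlM (Ordinal.toZFSet_mem_toZFSet_iff.2 (bs_lt h.bk.cv))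
  -- the order for the bigger set of rows is ccc
  have hcc : CC M (Sn Ω s (Order.succ μ).toZFSet)
      (Ln Ω s (Order.succ μ).toZFSet (c₁ ∪ {row μ.toZFSet r})) := by
    have h1 := cc_succ_any hM hΩ hBM hsM hlM h.bk.vld hμ (c := cres c μ.toZFSet)
      (c' := ZFSet.sep (fun ρ' => ∃ a b, ρ' = ZFSet.pair a b ∧ a = μ.toZFSet) (c₁ ∪ {row μ.toZFSet r}))
      (dd_res hμo hlo (Ordinal.toZFSet_subset_toZFSet_iff.2 hμ.le) hc) (by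
        intro ρ' hρ'
        obtain ⟨_, a, b, h2, h3⟩ := ZFSet.mem_sep.1 hρ'
        exact ⟨b, by rw [h2, h3]⟩)
      (hM.sep_mem (Df.exPr (PD.var 0) (Df.eq (PD.var _) (PD.const hμM)))
        (hM.union_mem hc₁M (hM.singleton_mem hρM)))
    have h2 : cres c μ.toZFSet ∪ ZFSet.sep (fun ρ' => ∃ a b, ρ' = ZFSet.pair a b ∧ a = μ.toZFSet)
        (c₁ ∪ {row μ.toZFSet r}) = c₁ ∪ {row μ.toZFSet r} := by
      ext ρ'
      rw [ZFSet.mem_union, ZFSet.mem_sep, ← hc₁, ZFSet.mem_union, mem_cresr, mem_cresr, ZFSet.mem_singleton]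
      constructor
      · rintro (⟨h3, ν, h4, r', h5⟩ | h3)
        · exact Or.inl ⟨h3, ν, (sc_succ μ _).2 (Or.inl h4), r', h5⟩
        · exact h3.1
      · rintro (⟨h3, ν, h4, r', h5⟩ | h3)
        · rcases (sc_succ μ _).1 h4 with h6 | h6
          · exact Or.inl ⟨h3, ν, h6, r', h5⟩
          · exact Or.inr ⟨Or.inl ⟨h3, ν, h4, r', h5⟩, ν, r', h5, h6⟩
        · exact Or.inr ⟨Or.inr h3, _, _, h3, rfl⟩
    rwa [h2] at h1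
  generalize hc₂ : c₁ ∪ {row μ.toZFSet r} = c₂ at hcc
  have hc₁₂ : c₁ ⊆ c₂ := by
    rw [← hc₂]; exact fun x hx => ZFSet.mem_union.2 (Or.inl hx)
  have hρc₂ : row μ.toZFSet r ∈ c₂ := by
    rw [← hc₂]; exact ZFSet.mem_union.2 (Or.inr (ZFSet.mem_singleton.2 rfl))
  -- nodes of the name
  have hζs : ∀ γ m p, ZFSet.pair (ZFSet.pair γ m) p ∈ ζ → γ ∈ LvZ Ω ∧ m ∈ omZ ∧ p ∈ Sn Ω s (Order.succ μ).toZFSet := by
    intro γ m p hp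
    have h1 := hF.sub hp
    rw [ZFSet.pair_mem_prod, ra_Nd] at h1
    exact ⟨h1.1.1, h1.1.2, h1.2⟩
  have hap : ∀ a ∈ LvZ Ω, ∀ m ∈ omZ, ZFSet.pair (ZFSet.pair a m) (ap e (ZFSet.pair a m)) ∈ e := fun a h1 m h2 =>
    (he.fn.ap_mem (ZFSet.pair_mem_prod.2 ⟨h1, h2⟩)).2
  generalize hZ : ZFSet.sep (fun q'' => LE Ω c₁ q'' q' ∧ ∃ γ ∈ Ω.toZFSet, ∃ η ∈ γ, ∃ m ∈ omZ,
    ∃ w ∈ finS Ω.toZFSet, ZFSet.pair (ZFSet.pair γ m) q'' ∈ ζ ∧ ZFSet.pair (ZFSet.pair γ m) w ∈ e ∧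
      ent (row μ.toZFSet r) γ (symZ w {η}) ∈ q'') (Sn Ω s (Order.succ μ).toZFSet) = Z
  have hZM : Z ∈ M := by
    rw [← hZ]
    refine hM.sep_mem ?_ hSnM
    refine Dfn.and (Df.LE hΩM (PD.const hc₁M) (PD.var _) (PD.const hq'M)) ?_
    refine Df.bex (PD.const hΩM) ?_
    refine Df.bex (PD.var 1) ?_
    refine Df.bex PD.omZ ?_
    refine Df.bex (PD.const hFS) ?_
    refine Dfn.and (Df.mem (PD.pair (PD.pair (PD.var _) (PD.var _)) (PD.var _)) (PD.const hζM)) ?_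
    refine Dfn.and (Df.mem (PD.pair (PD.pair (PD.var _) (PD.var _)) (PD.var _)) (PD.const heM)) ?_
    exact Df.mem (PD.ent (PD.row (PD.const hμM) r) (PD.var _) (ra_PD_sym (PD.var _) (PD.singleton (PD.var _))))
      (PD.var _)
  have hZm : ∀ p, p ∈ Z ↔ p ∈ Sn Ω s (Order.succ μ).toZFSet ∧ LE Ω c₁ p q' ∧ ∃ γ η m, η ∈ γ ∧
      ZFSet.pair (ZFSet.pair γ m) p ∈ ζ ∧ ent (row μ.toZFSet r) γ (symZ (ap e (ZFSet.pair γ m)) {η}) ∈ p := by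
    intro p
    rw [← hZ, ZFSet.mem_sep]
    constructor
    · rintro ⟨h1, h2, γ, _, η, h3, m, _, w, _, h4, h5, h6⟩
      refine ⟨h1, h2, γ, η, m, h3, h4, ?_⟩
      rw [he.fn.ap_eq h5]
      exact h6
    · rintro ⟨h1, h2, γ, η, m, h3, h4, h5⟩
      obtain ⟨k1, k2, _⟩ := hζs _ _ _ h4
      exact ⟨h1, h2, γ, (ra_Lv.1 k1).1, η, h3, m, k2, _, ra_finS k1 (he.val γ k1 m k2), h4, hap γ k1 m k2, h5⟩
  obtain ⟨C, hCM, hCZ, hCc, hCd⟩ := hcc Z hZM (by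
    rw [← hZ]; exact fun x hx => (ZFSet.mem_sep.1 hx).1)
  obtain ⟨η, hη, hLη⟩ := ra_lev (r := r) hM hΩ hω hμM hCM (fun w hw => ((hZm w).1 (hCZ hw)).1) hCc
  obtain ⟨p, hpS, hpq, γ, m, hηγ, hpζ, hpe⟩ := ra_one hω hβo hμβ hr he hq'S he₃ hρc₁ hF hζs hη
  obtain ⟨hγL, hmo, _⟩ := hζs _ _ _ hpζ
  obtain ⟨w, hw, v, hvp, hvw⟩ := hCd p ((hZm p).2 ⟨hpS, hpq, γ, η.toZFSet, m, hηγ, hpζ, hpe⟩)
  obtain ⟨hwS, hwq, γ', η', m', hη'γ', hwζ, hwe⟩ := (hZm w).1 (hCZ hw)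
  obtain ⟨hγ'L, hm'o, _⟩ := hζs _ _ _ hwζ
  obtain ⟨hvS, _, hvple⟩ := mem_Ln.1 hvp
  obtain ⟨_, _, hvwle⟩ := mem_Ln.1 hvw
  have k1 := ra_keep hvple hρc₂ hpe
  have k2 := ra_keep hvwle hρc₂ hwe
  have hγ'η : γ' ∈ η.toZFSet := hLη w hw γ' _ (ra_Lv.1 hγ'L).1 (ra_finS hγ'L (ra_ty hω hr hwS hwe).2) hwe
  have hγo : γ.IsTransitive := by
    obtain ⟨o, _, rfl⟩ := Ordinal.mem_toZFSet_iff.1 (ra_Lv.1 hγL).1
    exact (ZFSet.isOrdinal_toZFSet o).isTransitive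
  have hγ'γ : γ' ∈ γ := hγo.mem_trans hγ'η hηγ
  have hne : ap e (ZFSet.pair γ' m') ≠ symZ (symZ (ap e (ZFSet.pair γ' m')) {η'})
      (symZ (symZ (ap e (ZFSet.pair γ m)) {η.toZFSet}) (ap e (ZFSet.pair γ m)) ∩ γ') := ra_ne hγ'η
  have hvt := hprop γ' γ m' m v _ _ hγ'L hγL hγ'γ hm'o hmo hvS k2 k1 hne
  have hvw₁ : ZFSet.pair v w ∈ Ln Ω s (Order.succ μ).toZFSet c₁ := mem_Ln.2 ⟨hvS, hwS, hvwle.anti hc₁₂⟩
  have hvp₁ : ZFSet.pair v p ∈ Ln Ω s (Order.succ μ).toZFSet c₁ := mem_Ln.2 ⟨hvS, hpS, hvple.anti hc₁₂⟩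
  have hvq : ZFSet.pair v q' ∈ Ln Ω s (Order.succ μ).toZFSet c₁ :=
    mem_Ln.2 ⟨hvS, hq'S, (hvple.anti hc₁₂).trans hpq⟩
  exact hF.ch _ _ v hvq (hF.op _ _ _ hwζ hvw₁) (hF.op _ _ _ hpζ hvp₁) (mem_OO.2 ⟨ra_Nd.2 ⟨hγ'L, hm'o⟩,
    ra_Nd.2 ⟨hγL, hmo⟩, hvS, ⟨_, _, _, _, rfl, rfl, hγ'γ⟩, v, hvt, LE.refl _ _ _⟩)

end Pool.Agent.H17.CF
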