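import Pool.Agent.H17.CF.F.F4
import Pool.Agent.H17.CF.B.Add

/-!
# CF-F5: special tree graphs (complete, helper69)

Let `I ∈ N = M[G]` be a tree graph (a set of pairs `(x, y)` of nodes with `Bel x y`, `TG`).
`spc_iff`: `Spc N Ω I ↔ ∀ c, DD s lam c → ¬ AI M Ω lam s G I c`.

`spc_noai` (`→`). Let `F ∈ N` be the colouring, `H` `c`-good, `C ∈ M[H]` an unbounded chain. `F ∈ M[H]` (`good_ext`). In
`M[H]`, `Ω = ω₁` (`good_om1`). For each `n ∈ ω` the elements of `C` of colour `n` (all `x` with `(x, n) ∈ F`) are on one level: if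
`x, y ∈ C`, `(x,n), (y,n) ∈ F` and `Bel x y` then `(x,y) ∈ I`, but `C` is a chain. So the set of the levels of the elements of `C` is
the union over `n ∈ ω` of sets with at most one element: countable in `M[H]` (`Ctb.image` of `ω` under `n ↦` the level),
so bounded in `Ω` (`om1_bdd` of Tk5 / `IsOm1.bdd`): contradiction to `Chn`.

`spc_of_noai` (`←`). By `graph_name` let `I = vv G t`, `Nm Ω s α t`, `α < lam`. Let `p₁ ∈ G ∩ Sn α` with `TGP Ω s α t p₁` (`exists_tgp`).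
For `p ∈ Sn α` say `Good p` if for all `c₀` with `DD s α c₀` the iteration of `(Sn α, ≤_{c₀})` with `OO Ω ω s α (tb Ω s α t p)` is ccc in `M`.
The definable set `D = {p ∈ Sn α : p ≤_∅ p₁ and (Good p, or EE M Ω s α t c₀ p for some clique c₀ at α)}` is dense below `p₁` in
`(Sn α, ≤_∅)`: let `p ≤_∅ p₁`, not `Good p`, with `c₀`. By `qq_ccc` (`st_ccc`, `tb_tgn`, `oo_tgn`, `oo_opn`) there are `q, ζ` with `FC`, i.e.
`EE M Ω s α (tb ..) c₀ q`, so by `EE.of_tb` there is `u ≤_∅ p` with `EE M Ω s α t c₀ u`: `u ∈ D`.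
`G ∩ Sn α` is generic (`good_res` for `H = G`, `c = ∅`), so it contains some `p ∈ D`. If `EE M Ω s α t c₀ p`, `DD s α c₀`, then `DD s lam c₀`
(`dd_mono`), `cres c₀ α = c₀` (`dd_res_self`) and `ai_iff` gives `AI I c₀`: contradiction. So `Good p`. Let
`τ = tb Ω s α t p ∈ M`. `τ ≠ ∅`: otherwise `OO .. τ = ∅` and `FC Ω ω (Sn α) (Ln α ∅) ∅ ∅ ζ` holds with `ζ` = all `(x, r)`; but the
iteration is ccc (`Good p`, `c₀ = ∅`): contradiction to `qq_nochain`.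
`VI M Ω B s α ∅ ∅ ∅ τ` holds, so by `Bk.bk` there is `μ ≥ α`, `μ < lam`, with `(μ, ins ∅ ∅ ∅ τ) ∈ s`, so `st s μ τ`.
Let `F = {(x, n) : ∃ q ∈ G, ent (row μ 4) x n ∈ q} ∈ N` (separation from `Nd × ω`). Total: for `x ∈ Nd` the set of the `q` with an
entry `ent (row μ 4) x n` is dense (`add_spec`). Let `(x,n), (y,n) ∈ F`, `Bel x y`: there is `q ∈ G` with both entries (a common
extension `q ≤_∅ q₁, q₂` in `G`: spec entries are not translated, `tr_spec`). By `IsC.sp2` `Opn Ω s μ x y (rst q μ)`: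
`st s μ τ'` (`τ' = τ` by `Vld.uni`, `ins` injective), `((x,y), q') ∈ τ`, `rst q μ ≤_∅ q'`. So `q' ∈ G` (`q ≤_∅ rst q μ ≤_∅ q'`), `(x, y) ∈ vv G τ = I`
(`tb_val`).
-/

set_option autoImplicit false
set_option linter.unusedVariables false
set_option linter.unusedSectionVars false
set_option linter.unusedSimpArgs false
set_option linter.unusedTactic false
set_option linter.unreachableTactic false

open Pool.Agent.H17.Omega Pool.Agent.H17.Omega.CTM Pool.Agent.H52.GC Pool.Agent.H7.IG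

namespace Pool.Agent.H17.CF

variable {M : Set ZFSet.{0}} {κ Ω lam : Ordinal.{0}} {s : ZFSet.{0}} {G : Set ZFSet.{0}}

/-- `I` is a set of pairs of nodes. -/
def IsI (Ω : Ordinal.{0}) (I : ZFSet.{0}) : Prop :=
  ∀ z ∈ I, ∃ x ∈ Nd Ω omZ, ∃ y ∈ Nd Ω omZ, Bel x y ∧ z = ZFSet.pair x y

/-- the level of a node -/
theorem spec_lvl {a m : ZFSet.{0}} (h : ZFSet.pair a m ∈ Nd Ω omZ) : ∃ β < Ω, β.toZFSet = a := by
  rw [Nd, ZFSet.pair_mem_prod] at h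
  exact Ordinal.mem_toZFSet_iff.1 (ZFSet.mem_sep.1 h.1).1

theorem spc_noai (h : St M κ Ω lam s G) {I : ZFSet.{0}} (hI : I ∈ ExtZ M G) (hIs : IsI Ω I)
    (hS : Spc (ExtZ M G) Ω I) {c : ZFSet.{0}} (hc : DD s lam.toZFSet c) : ¬ AI M Ω lam s G I c := by
  rintro ⟨H, hH, C, hC, hCs, hCc, hCu⟩
  have hM := h.bk.cv.hM
  have hcM : c ∈ M := dd_mem hM h.bk.cv.hlamN hc
  obtain ⟨F, hF, hFt, hFh⟩ := hS
  have hW : CTM (ExtZ M H) := hH.fr.ctm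
  have hFW : F ∈ ExtZ M H := good_ext h hcM hH hF
  have hΩW := good_om1 h hc hH
  obtain ⟨α, hα, hb⟩ := IsOm1.bdd hW hΩW hW.omZ_mem (ctb_om hW)
    (F := fun n a => ∃ m x : ExtZ M H, x.1 = ZFSet.pair a.1 m.1 ∧ x.1 ∈ C ∧ ZFSet.pair x.1 n.1 ∈ F) (by
      (repeat' first
        | exact PD.var _ | exact PD.const ‹_› | refine PD.pair ?_ ?_
        | refine Df.mem ?_ ?_ | refine Df.eq ?_ ?_ | refine Dfn.and ?_ ?_ | refine Dfn.ex ?_))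
    (by
      rintro n hn a a' ⟨m, x, h1, h2, h3⟩ ⟨m', x', h1', h2', h3'⟩
      obtain ⟨β, hβ, e⟩ := spec_lvl (h1 ▸ hCs h2)
      obtain ⟨β', hβ', e'⟩ := spec_lvl (h1' ▸ hCs h2')
      rcases lt_trichotomy β β' with h4 | h4 | h4
      · have hB : Bel x.1 x'.1 := ⟨a.1, m.1, a'.1, m'.1, h1, h1', by
          rw [← e, ← e']
          exact Ordinal.toZFSet_mem_toZFSet_iff.2 h4⟩
        exact absurd (hFh _ _ _ h3 h3' hB) (hCc _ h2 _ h2' hB)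
      · exact Subtype.ext (by rw [← e, ← e', h4])
      · have hB : Bel x'.1 x.1 := ⟨a'.1, m'.1, a.1, m.1, h1', h1, by
          rw [← e, ← e']
          exact Ordinal.toZFSet_mem_toZFSet_iff.2 h4⟩
        exact absurd (hFh _ _ _ h3' h3 hB) (hCc _ h2' _ h2 hB))
  obtain ⟨a, m, ham, hαa⟩ := hCu α hα
  obtain ⟨n, hn, hnF⟩ := hFt _ (hCs ham)
  obtain ⟨β, hβ, e⟩ := spec_lvl (hCs ham)
  have hpN := hW.mem_of_mem hC ham
  have hamN := hW.of_pair_mem hpN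
  have h5 := hb ⟨n, hW.mem_of_mem hW.omZ_mem hn⟩ hn ⟨a, hamN.1⟩
    ⟨⟨m, hamN.2⟩, ⟨_, hpN⟩, rfl, ham, hnF⟩ β hβ e.symm
  rw [← e, Ordinal.toZFSet_mem_toZFSet_iff] at hαa
  exact absurd hαa h5.not_gt

/-- some condition below which there is an unbounded chain -/
def SpD (M : Set ZFSet.{0}) (Ω : Ordinal.{0}) (s α t q : ZFSet.{0}) : Prop :=
  ∃ c₀, DD s α c₀ ∧ EE M Ω s α t c₀ q

theorem spec_dfn (hM : CTM M) (hΩM : Ω.toZFSet ∈ M) {α t : ZFSet.{0}} (hs : s ∈ M) (hα : α ∈ M) (ht : t ∈ M) :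
    hM.Dfn (fun v : Fin 1 → M => SpD M Ω s α t (v 0).1) := by
  have h1 : hM.Dfn (fun v : Fin 1 → M => ∃ c₀ : M, DD s α c₀.1 ∧ ∃ ζ : M, (v 0).1 ∈ Sn Ω s α ∧
      (∀ z ∈ ζ.1, z ∈ ZFSet.prod (Nd Ω omZ) (Sn Ω s α)) ∧
      (∀ x r r' : M, ZFSet.pair x.1 r.1 ∈ ζ.1 → ZFSet.pair r'.1 r.1 ∈ Ln Ω s α c₀.1 →
        ZFSet.pair x.1 r'.1 ∈ ζ.1) ∧
      (∀ x y r : M, ZFSet.pair r.1 (v 0).1 ∈ Ln Ω s α c₀.1 → ZFSet.pair x.1 r.1 ∈ ζ.1 →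
        ZFSet.pair y.1 r.1 ∈ ζ.1 → ¬ ZFSet.pair (ZFSet.pair x.1 y.1) r.1 ∈ OO Ω omZ s α t) ∧
      ∀ r : M, ZFSet.pair r.1 (v 0).1 ∈ Ln Ω s α c₀.1 → ∀ b ∈ Ω.toZFSet, ∃ r' : M,
        ZFSet.pair r'.1 r.1 ∈ Ln Ω s α c₀.1 ∧ ∃ a m : M, ZFSet.pair (ZFSet.pair a.1 m.1) r'.1 ∈ ζ.1 ∧ b ∈ a.1) := by
    (repeat' first
      | exact PD.var _ | exact PD.const ‹_› | exact PD.omZ | exact PD.LvZ ‹_›
      | refine PD.pair ?_ ?_ | refine PD.prod ?_ ?_ | refine PD.Nd ‹_› ?_ | refine PD.Sn ‹_› ?_ ?_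
      | refine PD.Ln ‹_› ?_ ?_ ?_ | refine PD.OO ‹_› ?_ ?_ ?_ ?_ | refine Df.DD ?_ ?_ ?_
      | refine Df.mem ?_ ?_ | refine Df.ball ?_ ?_ | refine Dfn.and ?_ ?_ | refine Dfn.not ?_
      | refine Dfn.imp ?_ ?_ | refine Dfn.all ?_ | refine Dfn.ex ?_)
  refine h1.congr fun v => ?_
  constructor
  · rintro ⟨c₀, hc, ζ, h2, h3, h4, h5, h6⟩
    have hLM : Ln Ω s α c₀.1 ∈ M :=
      (PD.Ln (hN := hM) (n := 0) hΩM (PD.const hs) (PD.const hα) (PD.const c₀.2)).1 Fin.elim0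
    have hm : ∀ {x y : ZFSet.{0}}, ZFSet.pair x y ∈ ζ.1 → x ∈ M ∧ y ∈ M := fun hxy =>
      hM.of_pair_mem (hM.mem_of_mem ζ.2 hxy)
    have hl : ∀ {x y : ZFSet.{0}}, ZFSet.pair x y ∈ Ln Ω s α c₀.1 → x ∈ M ∧ y ∈ M := fun hxy =>
      hM.of_pair_mem (hM.mem_of_mem hLM hxy)
    refine ⟨c₀.1, hc, ζ.1, ζ.2, h2, h3, ?_, ?_, ?_⟩
    · intro x r r' hx hr
      exact h4 ⟨x, (hm hx).1⟩ ⟨r, (hm hx).2⟩ ⟨r', (hl hr).1⟩ hx hr
    · intro x y r hr hx hy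
      exact h5 ⟨x, (hm hx).1⟩ ⟨y, (hm hy).1⟩ ⟨r, (hm hx).2⟩ hr hx hy
    · intro r hr β hβ
      obtain ⟨r', h7, a, m, h8, h9⟩ := h6 ⟨r, (hl hr).1⟩ hr β.toZFSet (Ordinal.toZFSet_mem_toZFSet_iff.2 hβ)
      exact ⟨r'.1, h7, a.1, m.1, h8, h9⟩
  · rintro ⟨c₀, hc, ζ, hζ, h2, h3, h4, h5, h6⟩
    have hcM : c₀ ∈ M := dd_mem hM hα hc
    have hLM : Ln Ω s α c₀ ∈ M :=
      (PD.Ln (hN := hM) (n := 0) hΩM (PD.const hs) (PD.const hα) (PD.const hcM)).1 Fin.elim0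
    refine ⟨⟨c₀, hcM⟩, hc, ⟨ζ, hζ⟩, h2, h3, fun x r r' => h4 _ _ _, fun x y r => h5 _ _ _, ?_⟩
    intro r hr b hb
    obtain ⟨β, hβ, rfl⟩ := Ordinal.mem_toZFSet_iff.1 hb
    obtain ⟨r', h7, a, m, h8, h9⟩ := h6 r.1 hr β hβ
    have h10 := hM.of_pair_mem (hM.mem_of_mem hζ h8)
    have h11 := hM.of_pair_mem h10.1
    exact ⟨⟨r', h10.2⟩, h7, ⟨a, h11.1⟩, ⟨m, h11.2⟩, h8, h9⟩

/-- either some condition of `G` forces an unbounded chain, or no condition below some condition of `G` does -/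
theorem spec_dense (h : St M κ Ω lam s G) {α : Ordinal.{0}} (hα : α ≤ lam) {t p₁ : ZFSet.{0}} (ht : t ∈ M)
    (hp₁ : p₁ ∈ G) (hp₁α : p₁ ∈ Sn Ω s α.toZFSet) :
    (∃ q ∈ G, q ∈ Sn Ω s α.toZFSet ∧ SpD M Ω s α.toZFSet t q) ∨
      ∃ p ∈ G, p ∈ Sn Ω s α.toZFSet ∧ LE Ω ∅ p p₁ ∧
        ∀ u ∈ Sn Ω s α.toZFSet, LE Ω ∅ u p → ¬ SpD M Ω s α.toZFSet t u := by
  have hM := h.bk.cv.hM
  have hs := h.bk.hs
  have hΩM := h.bk.cv.hΩ.mem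
  have hαM : α.toZFSet ∈ M := by
    rcases hα.eq_or_lt with e | e
    · rw [e]; exact h.bk.cv.hlamN
    · exact hM.mem_of_mem h.bk.cv.hlamN (Ordinal.toZFSet_mem_toZFSet_iff.2 e)
  have hfr := (good_res hM h.bk.cv.hΩ hs h.bk.cv.hlamN hα hM.empty_mem h.fr).1
  have hLM := hfr.hR
  have hd := spec_dfn (s := s) (t := t) hM hΩM hs hαM ht
  obtain ⟨q, hq, hD⟩ := hfr.gen_dfn (D := fun q : M => SpD M Ω s α.toZFSet t q.1 ∨
      ∀ r : M, ZFSet.pair r.1 q.1 ∈ Ln Ω s α.toZFSet ∅ → ¬ SpD M Ω s α.toZFSet t r.1) (by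
      refine Dfn.or hd (Dfn.all (Dfn.imp (Df.mem (PD.pair (PD.var _) (PD.var _)) (PD.const hLM))
        (Dfn.not ?_)))
      exact Dy_u1 (P := fun q => SpD M Ω s α.toZFSet t q) hd (PD.var _)) (p := p₁) ⟨hp₁, hp₁α⟩ (by
      intro r hr
      by_cases hex : ∃ q : M, ZFSet.pair q.1 r.1 ∈ Ln Ω s α.toZFSet ∅ ∧ SpD M Ω s α.toZFSet t q.1
      · obtain ⟨q, h1, h2⟩ := hex
        exact ⟨q, h1, Or.inl h2⟩
      · refine ⟨r, (Ln_pre _ _).refl _ (hfr.po.mem hr).1, Or.inr fun q h1 h2 => hex ⟨q, h1, h2⟩⟩)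
  rcases hD with hD | hD
  · exact Or.inl ⟨q.1, hq.1, hq.2, hD⟩
  · obtain ⟨p, hp, hpq, hpp⟩ := hfr.gen.dir _ hq _ ⟨hp₁, hp₁α⟩
    refine Or.inr ⟨p, hp.1, hp.2, (mem_Ln.1 hpp).2.2, fun u hu hup => ?_⟩
    have huM : u ∈ M := hM.mem_of_mem hfr.hP hu
    exact hD ⟨u, huM⟩ (mem_Ln.2 ⟨hu, hq.2, hup.trans (mem_Ln.1 hpq).2.2⟩)

/-- the countable chain condition of the iteration -/
theorem spec_good (h : St M κ Ω lam s G) {α : Ordinal.{0}} (hα : α ≤ lam) {t p : ZFSet.{0}} (ht : t ∈ M)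
    (hN : Nm Ω s α.toZFSet t) (hpα : p ∈ Sn Ω s α.toZFSet) (hT : TGP Ω s α.toZFSet t p)
    (hno : ∀ u ∈ Sn Ω s α.toZFSet, LE Ω ∅ u p → ¬ SpD M Ω s α.toZFSet t u) {c₀ : ZFSet.{0}}
    (hc₀ : DD s α.toZFSet c₀) :
    CC M (QQ Ω omZ (Sn Ω s α.toZFSet) (OO Ω omZ s α.toZFSet (tb Ω s α.toZFSet t p)))
      (RQ Ω omZ (Sn Ω s α.toZFSet) (Ln Ω s α.toZFSet c₀) (OO Ω omZ s α.toZFSet (tb Ω s α.toZFSet t p))) := by
  have hM := h.bk.cv.hM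
  have hs := h.bk.hs
  have hΩ := h.bk.cv.hΩ
  have hΩM := hΩ.mem
  have hω := om_le hM hΩ
  have hαM : α.toZFSet ∈ M := by
    rcases hα.eq_or_lt with e | e
    · rw [e]; exact h.bk.cv.hlamN
    · exact hM.mem_of_mem h.bk.cv.hlamN (Ordinal.toZFSet_mem_toZFSet_iff.2 e)
  have hcM : c₀ ∈ M := dd_mem hM hαM hc₀
  have hSM : Sn Ω s α.toZFSet ∈ M :=
    (PD.Sn (hN := hM) (n := 0) hΩM (PD.const hs) (PD.const hαM)).1 Fin.elim0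
  have hpM : p ∈ M := hM.mem_of_mem hSM hpα
  have htbM := tb_mem hM hΩ hs hαM ht hpM
  have hLM : Ln Ω s α.toZFSet c₀ ∈ M :=
    (PD.Ln (hN := hM) (n := 0) hΩM (PD.const hs) (PD.const hαM) (PD.const hcM)).1 Fin.elim0
  have hOM : OO Ω omZ s α.toZFSet (tb Ω s α.toZFSet t p) ∈ M :=
    (PD.OO (hN := hM) (n := 0) hΩM PD.omZ (PD.const hs) (PD.const hαM) (PD.const htbM)).1 Fin.elim0
  have hord : α.toZFSet.IsOrdinal := ZFSet.isOrdinal_toZFSet α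
  refine qq_ccc hM hSM hLM (Ln_pre _ _) hΩ hM.omZ_mem (ctb_om hM) hOM oo_opn
    (oo_tgn hω hord hord (fun _ h => h) (tb_nm hN).1 (tb_tgn hω hord hN hpα hT)) (st_ccc h hα hc₀) ?_
  intro q ζ hζ hF
  obtain ⟨u, hu, -, hup, hE⟩ := EE.of_tb hM hΩ hs hord hαM hcM ht hN hpα ⟨ζ, hζ, hF⟩
  exact hno u hu hup ⟨c₀, hc₀, hE⟩

/-- the name `∅` has unbounded chains -/
theorem spec_ne (h : St M κ Ω lam s G) {α : Ordinal.{0}} (hα : α ≤ lam) {τ : ZFSet.{0}}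
    (hc : CC M (QQ Ω omZ (Sn Ω s α.toZFSet) (OO Ω omZ s α.toZFSet τ))
      (RQ Ω omZ (Sn Ω s α.toZFSet) (Ln Ω s α.toZFSet ∅) (OO Ω omZ s α.toZFSet τ))) : τ ≠ ∅ := by
  rintro rfl
  have hM := h.bk.cv.hM
  have hs := h.bk.hs
  have hΩ := h.bk.cv.hΩ
  have hΩM := hΩ.mem
  have hω := om_le hM hΩ
  have hαM : α.toZFSet ∈ M := by
    rcases hα.eq_or_lt with e | e
    · rw [e]; exact h.bk.cv.hlamN
    · exact hM.mem_of_mem h.bk.cv.hlamN (Ordinal.toZFSet_mem_toZFSet_iff.2 e)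
  have hSM : Sn Ω s α.toZFSet ∈ M :=
    (PD.Sn (hN := hM) (n := 0) hΩM (PD.const hs) (PD.const hαM)).1 Fin.elim0
  have hLM : Ln Ω s α.toZFSet ∅ ∈ M :=
    (PD.Ln (hN := hM) (n := 0) hΩM (PD.const hs) (PD.const hαM) (PD.const hM.empty_mem)).1 Fin.elim0
  have hOM : OO Ω omZ s α.toZFSet ∅ ∈ M :=
    (PD.OO (hN := hM) (n := 0) hΩM PD.omZ (PD.const hs) (PD.const hαM) (PD.const hM.empty_mem)).1 Fin.elim0
  have hNdM : Nd Ω omZ ∈ M := (PD.Nd (hN := hM) (n := 0) hΩM PD.omZ).1 Fin.elim0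
  refine qq_nochain hM hSM hLM (Ln_pre _ _) hΩ hM.omZ_mem hOM hc
    (q := ∅) (ζ := ZFSet.prod (Nd Ω omZ) (Sn Ω s α.toZFSet)) (hM.prod_mem hNdM hSM) ⟨empty_mem_Sn _, fun _ h => h, ?_, ?_, ?_⟩
  · intro x r r' hx hr
    rw [ZFSet.pair_mem_prod] at hx ⊢
    exact ⟨hx.1, (mem_Ln.1 hr).1⟩
  · intro x y r _ _ _ hO
    obtain ⟨-, -, -, -, q, hq, -⟩ := mem_OO.1 hO
    exact ZFSet.notMem_empty _ hq
  · intro r hr β hβ
    have hωΩ : Ordinal.omega0 < Ω := by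
      refine lt_of_le_of_ne hω fun e => hΩ.unc ?_
      rw [← e, ← pres_omZ]
      exact ctb_om hM
    have h1 : max β Ordinal.omega0 + 1 < Ω := IsOm1.succ_lt hM hΩ (max_lt hβ hωΩ)
    have h2 : β < max β Ordinal.omega0 + 1 := Order.lt_add_one_iff.2 (le_max_left _ _)
    have h3 : Ordinal.omega0 ≤ max β Ordinal.omega0 + 1 := (le_max_right _ _).trans (lt_add_one _).le
    refine ⟨r, (Ln_pre _ _).refl _ (mem_Ln.1 hr).1, (max β Ordinal.omega0 + 1).toZFSet, natZ 0, ?_,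
      Ordinal.toZFSet_mem_toZFSet_iff.2 h2⟩
    rw [ZFSet.pair_mem_prod, Nd, ZFSet.pair_mem_prod]
    refine ⟨⟨ZFSet.mem_sep.2 ⟨Ordinal.toZFSet_mem_toZFSet_iff.2 h1, ?_⟩, natZ_mem_omZ 0⟩, (mem_Ln.1 hr).1⟩
    rw [pres_omZ]
    exact Ordinal.toZFSet_subset_toZFSet_iff.2 h3

/-- the colouring given by the specialization at stage `μ` -/
theorem spec_color (h : St M κ Ω lam s G) {μ : Ordinal.{0}} (hμ : μ < lam) {τ I : ZFSet.{0}} (hτ : τ ≠ ∅)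
    (hins : ZFSet.pair μ.toZFSet (ins ∅ ∅ ∅ τ) ∈ s)
    (hτs : ∀ x y q, ZFSet.pair (ZFSet.pair x y) q ∈ τ → q ∈ Sn Ω s lam.toZFSet)
    (hI : ∀ x y q, ZFSet.pair (ZFSet.pair x y) q ∈ τ → q ∈ G → ZFSet.pair x y ∈ I) :
    Spc (ExtZ M G) Ω I := by
  have hM := h.bk.cv.hM
  have hs := h.bk.hs
  have hΩ := h.bk.cv.hΩ
  have hΩM := hΩ.mem
  have hω := om_le hM hΩ
  have hlN := h.bk.cv.hlamN
  have hord : lam.toZFSet.IsOrdinal := ZFSet.isOrdinal_toZFSet lam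
  have hμl : μ.toZFSet ∈ lam.toZFSet := Ordinal.toZFSet_mem_toZFSet_iff.2 hμ
  have hμM : μ.toZFSet ∈ M := hM.mem_of_mem hlN hμl
  have hst : st s μ.toZFSet τ := ⟨hτ, ∅, ∅, ∅, hins⟩
  have hNc := h.fr.ctm
  have hMN := h.fr.sub
  obtain ⟨γ, hγ, hγ'⟩ := h.fr.mem_g
  have hNdM : Nd Ω omZ ∈ M := (PD.Nd (hN := hM) (n := 0) hΩM PD.omZ).1 Fin.elim0
  have hrM : row μ.toZFSet 4 ∈ M := hM.pair_mem hμM (hM.natZ_mem_N 4)
  have hrN : row μ.toZFSet 4 ∈ ExtZ M G := hMN hrM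
  obtain ⟨F, hF, hF'⟩ := hNc.exists_sep (P := fun z => ∃ x n q : ExtZ M G, z.1 = ZFSet.pair x.1 n.1 ∧
      q.1 ∈ γ ∧ ZFSet.pair (row μ.toZFSet 4) (ZFSet.pair x.1 n.1) ∈ q.1) (by
    (repeat' first
      | exact PD.var _ | exact PD.const ‹_› | refine PD.pair ?_ ?_
      | refine Df.mem ?_ ?_ | refine Df.eq ?_ ?_ | refine Dfn.and ?_ ?_ | refine Dfn.ex ?_))
    (hNc.prod_mem (hMN hNdM) hNc.omZ_mem)
  have hFm : ∀ x n, ZFSet.pair x n ∈ F ↔ ∃ q ∈ G, ent (row μ.toZFSet 4) x n ∈ q := by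
    intro x n
    rw [hF']
    constructor
    · rintro ⟨_, _, x', n', q, h1, h2, h3⟩
      have h1 : ZFSet.pair x n = ZFSet.pair x'.1 n'.1 := h1
      rw [ZFSet.pair_inj] at h1
      rw [h1.1, h1.2]
      exact ⟨q.1, (hγ' _).1 h2, h3⟩
    · rintro ⟨q, hq, h1⟩
      obtain ⟨h2, h3⟩ := sc_ty hω (h.fr.gen.sub q hq) h1
      have hqN : q ∈ ExtZ M G := hMN (hM.mem_of_mem h.fr.hP (h.fr.gen.sub q hq))
      have hxN : x ∈ ExtZ M G := hMN (hM.mem_of_mem hNdM h2)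
      have hnN : n ∈ ExtZ M G := hNc.mem_of_mem hNc.omZ_mem h3
      exact ⟨ZFSet.pair_mem_prod.2 ⟨h2, h3⟩, hNc.pair_mem hxN hnN, ⟨x, hxN⟩, ⟨n, hnN⟩, ⟨q, hqN⟩, rfl,
        (hγ' _).2 hq, h1⟩
  refine ⟨F, hF, ?_, ?_⟩
  · intro x hx
    have hxM : x ∈ M := hM.mem_of_mem hNdM hx
    obtain ⟨p, hp⟩ := h.fr.gen.ne
    obtain ⟨q, hq, n, hn⟩ := h.fr.gen_dfn (D := fun q : M => ∃ n : M,
        ZFSet.pair (row μ.toZFSet 4) (ZFSet.pair x n.1) ∈ q.1) (by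
      (repeat' first
        | exact PD.var _ | exact PD.const ‹_› | refine PD.pair ?_ ?_
        | refine Df.mem ?_ ?_ | refine Dfn.ex ?_)) hp (by
      intro r hr
      obtain ⟨p', hp', hsub, n, hn⟩ := add_spec hω hord (h.fr.po.mem hr).1 hμl ⟨τ, hst⟩ hx
      have hp'M : p' ∈ M := hM.mem_of_mem h.fr.hP hp'
      have hnM : n ∈ M := (hM.of_pair_mem (hM.of_pair_mem (hM.mem_of_mem hp'M hn)).2).2
      exact ⟨⟨p', hp'M⟩, mem_Ln.2 ⟨hp', (h.fr.po.mem hr).1, LE.of_sub hsub⟩, ⟨n, hnM⟩, hn⟩)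
    exact ⟨n.1, (sc_ty hω (h.fr.gen.sub _ hq) hn).2, (hFm _ _).2 ⟨q.1, hq, hn⟩⟩
  · intro x y n hx hy hxy
    obtain ⟨q₁, hq₁, h1⟩ := (hFm _ _).1 hx
    obtain ⟨q₂, hq₂, h2⟩ := (hFm _ _).1 hy
    obtain ⟨q, hq, hqq₁, hqq₂⟩ := h.fr.gen.dir _ hq₁ _ hq₂
    have key : ∀ {q' z m : ZFSet.{0}}, ZFSet.pair q q' ∈ Ln Ω s lam.toZFSet ∅ → ent (row μ.toZFSet 4) z m ∈ q' →
        ent (row μ.toZFSet 4) z m ∈ q := by
      intro q' z m hqq' hz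
      obtain ⟨K, hK, -, h3⟩ := (mem_Ln.1 hqq').2.2
      have h4 := h3 _ _ _ hz
      rwa [tr_spec hK] at h4
    have hqS := h.fr.gen.sub q hq
    obtain ⟨τ', q', ⟨-, X, x', m, hins'⟩, h4, h5⟩ := ((mem_Sn hω).1 hqS).1.sp2 _ _ _ _ (key hqq₁ h1) (key hqq₂ h2) hxy
    have h6 := h.bk.vld.uni _ _ _ hins hins'
    have h7 : τ = τ' := by
      rw [ins, ins, ZFSet.pair_inj, ZFSet.pair_inj, ZFSet.pair_inj] at h6
      exact h6.2.2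
    subst h7
    refine hI x y q' h4 (h.fr.gen.up q hq q' (mem_Ln.2 ⟨hqS, hτs _ _ _ h4, ?_⟩))
    exact (LE.of_sub rst_sub).trans h5

theorem spc_of_noai (h : St M κ Ω lam s G) {I : ZFSet.{0}} (hI : I ∈ ExtZ M G) (hIs : IsI Ω I) (hT : TG Ω omZ I)
    (hn : ∀ c, DD s lam.toZFSet c → ¬ AI M Ω lam s G I c) : Spc (ExtZ M G) Ω I := by
  obtain ⟨α, hα, t, ht, hN, rfl⟩ := graph_name h hI hIs
  have hM := h.bk.cv.hM
  have hs := h.bk.hs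
  have hΩ := h.bk.cv.hΩ
  have hω := om_le hM hΩ
  have hsub : α.toZFSet ⊆ lam.toZFSet := Ordinal.toZFSet_subset_toZFSet_iff.2 hα.le
  have hαM : α.toZFSet ∈ M := hM.mem_of_mem h.bk.cv.hlamN (Ordinal.toZFSet_mem_toZFSet_iff.2 hα)
  have hord : α.toZFSet.IsOrdinal := ZFSet.isOrdinal_toZFSet α
  obtain ⟨p₁, hp₁, hp₁α, hT₁⟩ := exists_tgp h hα.le ht hN hT
  rcases spec_dense h hα.le ht hp₁ hp₁α with ⟨q, hq, hqα, c₀, hc₀, hE⟩ | ⟨p, hp, hpα, hpp, hno⟩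
  · exfalso
    refine hn c₀ (dd_mono hsub hc₀) ((ai_iff h hα.le ht hN hT (dd_mono hsub hc₀)).2 ⟨q, hq, hqα, ?_⟩)
    rw [dd_res_self hc₀]
    exact hE
  · have hTp : TGP Ω s α.toZFSet t p := fun x hx y hy z hz h1 h2 q hq h3 =>
      hT₁ x hx y hy z hz h1 h2 q (hq.trans hpp) h3
    have hgood := fun c₀ (hc₀ : DD s α.toZFSet c₀) => spec_good h hα.le ht hN hpα hTp hno hc₀
    have hSM : Sn Ω s α.toZFSet ∈ M :=
      (PD.Sn (hN := hM) (n := 0) hΩ.mem (PD.const hs) (PD.const hαM)).1 Fin.elim0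
    have hpM : p ∈ M := hM.mem_of_mem hSM hpα
    have htbM := tb_mem hM hΩ hs hαM ht hpM
    have hne := spec_ne h hα.le (hgood ∅ (Or.inl rfl))
    obtain ⟨μ, -, -, hμ, hins⟩ := h.bk.bk α hα ∅ ∅ ∅ (tb Ω s α.toZFSet t p) hM.empty_mem htbM
      ⟨fun z hz => absurd hz (ZFSet.notMem_empty z), Or.inl rfl, Or.inl rfl,
        Or.inr ⟨(tb_nm hN).1, tb_tgn hω hord hN hpα hTp, hgood⟩⟩ α hα
    refine spec_color h hμ hne hins ?_ ?_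
    · intro x y q hq
      exact Sn_mono hω hsub (ZFSet.pair_mem_prod.1 ((tb_nm hN).1 hq)).2
    · intro x y q hq hqG
      rw [← tb_val h hα.le hp hpα, mem_vv]
      exact ⟨q, hqG, hq⟩

theorem spc_iff (h : St M κ Ω lam s G) {I : ZFSet.{0}} (hI : I ∈ ExtZ M G) (hIs : IsI Ω I) (hT : TG Ω omZ I) :
    Spc (ExtZ M G) Ω I ↔ ∀ c, DD s lam.toZFSet c → ¬ AI M Ω lam s G I c :=
  ⟨fun hS c hc => spc_noai h hI hIs hS hc, spc_of_noai h hI hIs hT⟩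

end Pool.Agent.H17.CF
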