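import Pool.Agent.H17.CF.F.Inact
import Pool.Agent.H17.CF.F.Spec
import Pool.Agent.H17.CF.F.RowA

/-!
# CF-F11: rows, cliques and the graph as objects of Lean

`AcR` = the set of the active rows `(μ, r)` (of type `Row`); `xrR`, `mrR`, `EdR`, `ClR`: the data of the interface `Cd`;
`cz lam c` = the set of the codes `row μ r` of the rows in `c`.

PROOFS.
`xrR_uni`, `mrR_uni`: uniqueness of the instruction (`h.bk.vld.uni`), injectivity of `ins`, `ZFSet.pair`, `natZ`, `toZFSet`.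
`xrR_lt`: `h.bk.vld.hx`: `x = ∅` or `x ∈ TR μ`; `row ..` is a pair, so not empty. `mrR_lt`: `h.bk.vld.hm`, `Bs κ = (κ * ω).toZFSet`.
`mrR_act`: let `q ∈ G` have an entry in the row `(μ, 3)`: `Act Ω s μ (rst q μ)` (`act_of_ent`) gives `sm s μ θ F`, and by
`h.bk.vld.hm` `θ ∈ μ`, so `θ` is the code of an ordinal.
`cz_mem`: `row μ r ∈ cz lam c ↔ (μ, r) ∈ c` for `μ < lam`, `r < 4`; `cz_dd`: `c ∈ ClR → DD s lam (cz lam c)`: `∅`, singletons, edges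
(`EdR x y` implies `Edg s (row x) (row y)`).
`cz_act`: for a clique `ĉ` (`DD s lam ĉ`) there is `c ∈ ClR` with `cz lam c = actc G ĉ`: `c = {x : x.1 < lam, x.2 < 4, row x ∈ actc G ĉ}`;
`actc G ĉ` is `∅`, `{ρ}` with `ρ` active, or `{ρ, ρ'}`, both active, with `Edg s ρ ρ'`: every case of `Edg` gives `EdR`.
`cz_res`: `cz lam (res c α) = cres (cz lam c) α`.
`actc_cz`: `c ∈ ClR → actc G (cz lam c) = cz lam c`.
-/

set_option autoImplicit false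
set_option linter.unusedVariables false
set_option linter.unusedSectionVars false
set_option linter.unusedSimpArgs false
set_option linter.unusedTactic false
set_option linter.unreachableTactic false

open Pool.Agent.H17.Omega Pool.Agent.H17.Omega.CTM Pool.Agent.H52.GC Pool.Agent.H7.IG

namespace Pool.Agent.H17.CF

variable {M : Set ZFSet.{0}} {κ Ω lam : Ordinal.{0}} {s : ZFSet.{0}} {G : Set ZFSet.{0}}

/-- Code of a row. -/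
noncomputable def rw (x : Row) : ZFSet.{0} := row x.1.toZFSet x.2

/-- Active rows. -/
def AcR (lam : Ordinal.{0}) (G : Set ZFSet.{0}) : Set Row := {x | x.1 < lam ∧ x.2 < 4 ∧ IsAct G (rw x)}

def xrR (lam : Ordinal.{0}) (s : ZFSet.{0}) (μ : Ordinal.{0}) (y : Row) : Prop := μ < lam ∧ sx s μ.toZFSet (rw y)

def mrR (lam : Ordinal.{0}) (s : ZFSet.{0}) (μ θ : Ordinal.{0}) (F : ZFSet.{0}) : Prop :=
  μ < lam ∧ sm s μ.toZFSet θ.toZFSet F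

def EdR (lam : Ordinal.{0}) (s : ZFSet.{0}) (G : Set ZFSet.{0}) (x y : Row) : Prop :=
  x ∈ AcR lam G ∧ y ∈ AcR lam G ∧ ((x.2 = 1 ∧ y.2 = 0 ∧ y.1 ≤ x.1) ∨ (x.2 = 2 ∧ xrR lam s x.1 y) ∨
    (x.2 = 3 ∧ y.2 = 0 ∧ ∃ θ F, mrR lam s x.1 θ F ∧ (y.1 = θ ∨ y.1.toZFSet ∈ F)))

def ClR (lam : Ordinal.{0}) (s : ZFSet.{0}) (G : Set ZFSet.{0}) : Set (Set Row) :=
  {c | c = ∅ ∨ (∃ x ∈ AcR lam G, c = {x}) ∨ ∃ x y, EdR lam s G x y ∧ c = {x, y}}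

/-- The set of the codes of the rows in `c`. -/
noncomputable def cz (lam : Ordinal.{0}) (c : Set Row) : ZFSet.{0} :=
  ZFSet.sep (fun w => ∃ x ∈ c, w = rw x) (TR lam.toZFSet)

theorem lr_row {x : Row} {μ : ZFSet.{0}} {r : ℕ} : rw x = row μ r ↔ x.1.toZFSet = μ ∧ x.2 = r := by
  unfold CF.rw CF.row
  rw [ZFSet.pair_inj, natZ_inj]

theorem rw_inj {x y : Row} : rw x = rw y ↔ x = y := by
  show rw x = row y.1.toZFSet y.2 ↔ _
  rw [lr_row]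
  constructor
  · rintro ⟨h1, h2⟩
    exact Prod.ext (Ordinal.toZFSet_injective h1) h2
  · rintro rfl
    exact ⟨rfl, rfl⟩

theorem lr_ins {X x m τ X' x' m' τ' : ZFSet.{0}} (h : ins X x m τ = ins X' x' m' τ') :
    X = X' ∧ x = x' ∧ m = m' ∧ τ = τ' := by
  unfold CF.ins at h
  rw [ZFSet.pair_inj, ZFSet.pair_inj, ZFSet.pair_inj] at h
  exact ⟨h.1.1, h.1.2, h.2.1, h.2.2⟩

theorem lr_ne {a b : ZFSet.{0}} : ZFSet.pair a b ≠ ∅ := by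
  intro h
  have h1 : ({a} : ZFSet.{0}) ∈ ZFSet.pair a b := by simp [ZFSet.pair]
  rw [h] at h1
  exact ZFSet.notMem_empty _ h1

theorem lr_TR {x : Row} {μ : Ordinal.{0}} : rw x ∈ TR μ.toZFSet ↔ x.1 < μ ∧ x.2 < 4 := by
  unfold CF.rw CF.row CF.TR
  rw [ZFSet.pair_mem_prod, Ordinal.toZFSet_mem_toZFSet_iff, mem_natZ]
  refine and_congr_right fun _ => ⟨?_, fun h => ⟨x.2, h, rfl⟩⟩
  rintro ⟨m, hm, h1⟩
  rw [natZ_inj.1 h1]
  exact hm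

theorem lr_TR' {w : ZFSet.{0}} {μ : Ordinal.{0}} (h : w ∈ TR μ.toZFSet) : ∃ x : Row, x.1 < μ ∧ x.2 < 4 ∧ w = rw x := by
  obtain ⟨a, ha, b, hb, rfl⟩ := ZFSet.mem_prod.1 h
  obtain ⟨α, hα, rfl⟩ := Ordinal.mem_toZFSet_iff.1 ha
  obtain ⟨m, hm, rfl⟩ := mem_natZ.1 hb
  exact ⟨(α, m), hα, hm, rfl⟩

theorem xrR_uni (h : St M κ Ω lam s G) {μ : Ordinal.{0}} {y z : Row} (h1 : xrR lam s μ y) (h2 : xrR lam s μ z) :
    y = z := by
  obtain ⟨_, X, m, τ, h3⟩ := h1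
  obtain ⟨_, X', m', τ', h4⟩ := h2
  exact rw_inj.1 (lr_ins (h.bk.vld.uni _ _ _ h3 h4)).2.1

theorem xrR_lt (h : St M κ Ω lam s G) {μ : Ordinal.{0}} {y : Row} (h1 : xrR lam s μ y) : y.1 < μ ∧ y.2 < 4 := by
  obtain ⟨_, X, m, τ, h3⟩ := h1
  rcases h.bk.vld.hx _ _ _ _ _ h3 with h4 | h4
  · exact absurd h4 lr_ne
  · exact lr_TR.1 h4

theorem mrR_uni (h : St M κ Ω lam s G) {μ θ θ' : Ordinal.{0}} {F F' : ZFSet.{0}} (h1 : mrR lam s μ θ F)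
    (h2 : mrR lam s μ θ' F') : θ = θ' ∧ F = F' := by
  obtain ⟨_, X, x, τ, h3⟩ := h1
  obtain ⟨_, X', x', τ', h4⟩ := h2
  have h5 := (lr_ins (h.bk.vld.uni _ _ _ h3 h4)).2.2.1
  rw [ZFSet.pair_inj] at h5
  exact ⟨Ordinal.toZFSet_injective h5.1, h5.2⟩

theorem lr_sm (h : St M κ Ω lam s G) {μ θ F : ZFSet.{0}} (h1 : sm s μ θ F) :
    θ ∈ μ ∧ F ∈ finS (Bs κ) ∧ Bs κ ⊆ θ := by
  obtain ⟨X, x, τ, h3⟩ := h1
  rcases h.bk.vld.hm _ _ _ _ _ h3 with h4 | ⟨θ', hθ', F', hF', h5, h6⟩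
  · exact absurd h4 lr_ne
  · rw [ZFSet.pair_inj] at h6
    rw [h6.1, h6.2]
    exact ⟨hθ', hF', h5⟩

theorem mrR_lt (h : St M κ Ω lam s G) {μ θ : Ordinal.{0}} {F : ZFSet.{0}} (h1 : mrR lam s μ θ F) :
    κ * Ordinal.omega0 ≤ θ ∧ θ < μ ∧ F ⊆ (κ * Ordinal.omega0).toZFSet ∧ FinZ F := by
  obtain ⟨h3, h4, h5⟩ := lr_sm h h1.2
  exact ⟨Ordinal.toZFSet_subset_toZFSet_iff.1 h5, Ordinal.toZFSet_mem_toZFSet_iff.1 h3, (mem_finS.1 h4).1,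
    (mem_finS.1 h4).2⟩

theorem mrR_act (h : St M κ Ω lam s G) {μ : Ordinal.{0}} (h1 : (μ, 3) ∈ AcR lam G) : ∃ θ F, mrR lam s μ θ F := by
  obtain ⟨h2, _, q, hq, y, z, h3⟩ := h1
  obtain ⟨θ, F, X, q', h4, _⟩ := act_of_ent (h.fr.gen.sub q hq) h3
  obtain ⟨θ', _, rfl⟩ := Ordinal.mem_toZFSet_iff.1 (lr_sm h h4).1
  exact ⟨θ', F, h2, h4⟩

theorem cz_mem {c : Set Row} {x : Row} (h1 : x.1 < lam) (h2 : x.2 < 4) : rw x ∈ cz lam c ↔ x ∈ c := by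
  unfold CF.cz
  rw [ZFSet.mem_sep, lr_TR]
  constructor
  · rintro ⟨_, x', hx', h3⟩
    rw [rw_inj.1 h3]
    exact hx'
  · intro hx
    exact ⟨⟨h1, h2⟩, x, hx, rfl⟩

theorem lr_cz {c : Set Row} (hc : ∀ x ∈ c, x.1 < lam ∧ x.2 < 4) {w : ZFSet.{0}} :
    w ∈ cz lam c ↔ ∃ x ∈ c, w = rw x := by
  unfold CF.cz
  rw [ZFSet.mem_sep]
  constructor
  · rintro ⟨_, h1⟩
    exact h1
  · rintro ⟨x, hx, rfl⟩
    exact ⟨lr_TR.2 (hc x hx), x, hx, rfl⟩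

theorem lr_bd {c : Set Row} (hc : c ∈ ClR lam s G) : ∀ x ∈ c, x ∈ AcR lam G := by
  rcases hc with rfl | ⟨x, hx, rfl⟩ | ⟨x, y, hxy, rfl⟩
  · intro x hx
    exact absurd hx (Set.notMem_empty x)
  · intro z hz
    rw [Set.mem_singleton_iff] at hz
    rw [hz]
    exact hx
  · intro z hz
    rw [Set.mem_insert_iff, Set.mem_singleton_iff] at hz
    rcases hz with rfl | rfl
    · exact hxy.1
    · exact hxy.2.1

theorem lr_edg {x y : Row} (hxy : EdR lam s G x y) : Edg s (rw x) (rw y) := by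
  obtain ⟨_, _, ⟨h1, h2, h3⟩ | ⟨h1, h2⟩ | ⟨h1, h2, θ, F, h3, h4⟩⟩ := hxy
  · refine ⟨x.1.toZFSet, Or.inl ⟨lr_row.2 ⟨rfl, h1⟩, y.1.toZFSet, lr_row.2 ⟨rfl, h2⟩, ?_⟩⟩
    rcases h3.lt_or_eq with h4 | h4
    · exact Or.inl (Ordinal.toZFSet_mem_toZFSet_iff.2 h4)
    · exact Or.inr (by rw [h4])
  · exact ⟨x.1.toZFSet, Or.inr (Or.inl ⟨lr_row.2 ⟨rfl, h1⟩, h2.2⟩)⟩
  · refine ⟨x.1.toZFSet, Or.inr (Or.inr ⟨lr_row.2 ⟨rfl, h1⟩, θ.toZFSet, F, y.1.toZFSet, h3.2,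
      lr_row.2 ⟨rfl, h2⟩, ?_⟩)⟩
    rcases h4 with h4 | h4
    · exact Or.inl (by rw [h4])
    · exact Or.inr h4

theorem lr_edR (h : St M κ Ω lam s G) {x y : Row} (hx : x ∈ AcR lam G) (hy : y ∈ AcR lam G)
    (hxy : Edg s (rw x) (rw y)) : EdR lam s G x y := by
  refine ⟨hx, hy, ?_⟩
  obtain ⟨μ, ⟨h1, ν, h2, h3⟩ | ⟨h1, h2⟩ | ⟨h1, θ, F, f, h2, h3, h4⟩⟩ := hxy
  · obtain ⟨rfl, h1'⟩ := lr_row.1 h1
    obtain ⟨rfl, h2'⟩ := lr_row.1 h2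
    refine Or.inl ⟨h1', h2', ?_⟩
    rcases h3 with h3 | h3
    · exact (Ordinal.toZFSet_mem_toZFSet_iff.1 h3).le
    · exact (Ordinal.toZFSet_injective h3).le
  · obtain ⟨rfl, h1'⟩ := lr_row.1 h1
    exact Or.inr (Or.inl ⟨h1', hx.1, h2⟩)
  · obtain ⟨rfl, h1'⟩ := lr_row.1 h1
    obtain ⟨rfl, h3'⟩ := lr_row.1 h3
    obtain ⟨θ', _, rfl⟩ := Ordinal.mem_toZFSet_iff.1 (lr_sm h h2).1
    refine Or.inr (Or.inr ⟨h1', h3', θ', F, ⟨hx.1, h2⟩, ?_⟩)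
    rcases h4 with h4 | h4
    · exact Or.inl (Ordinal.toZFSet_injective h4)
    · exact Or.inr h4

theorem cz_sub {c c' : Set Row} (h : c ⊆ c') : cz lam c ⊆ cz lam c' := by
  intro w hw
  obtain ⟨h1, x, hx, h2⟩ := ZFSet.mem_sep.1 hw
  exact ZFSet.mem_sep.2 ⟨h1, x, h hx, h2⟩

theorem cz_dd (h : St M κ Ω lam s G) {c : Set Row} (hc : c ∈ ClR lam s G) : DD s lam.toZFSet (cz lam c) := by
  have hb : ∀ x ∈ c, x.1 < lam ∧ x.2 < 4 := fun x hx => ⟨(lr_bd hc x hx).1, (lr_bd hc x hx).2.1⟩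
  rcases hc with rfl | ⟨x, hx, rfl⟩ | ⟨x, y, hxy, rfl⟩
  · left
    rw [ZFSet.eq_empty]
    intro w hw
    obtain ⟨x, hx, _⟩ := (lr_cz hb).1 hw
    exact absurd hx (Set.notMem_empty x)
  · right
    left
    refine ⟨rw x, lr_TR.2 ⟨hx.1, hx.2.1⟩, ?_⟩
    ext w
    rw [lr_cz hb, ZFSet.mem_singleton]
    constructor
    · rintro ⟨x', hx', h1⟩
      rw [Set.mem_singleton_iff] at hx'
      rw [h1, hx']
    · rintro rfl
      exact ⟨x, rfl, rfl⟩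
  · right
    right
    refine ⟨rw x, lr_TR.2 ⟨hxy.1.1, hxy.1.2.1⟩, rw y, lr_TR.2 ⟨hxy.2.1.1, hxy.2.1.2.1⟩, lr_edg hxy, ?_⟩
    ext w
    rw [lr_cz hb, ZFSet.mem_pair]
    constructor
    · rintro ⟨x', hx', h1⟩
      rw [Set.mem_insert_iff, Set.mem_singleton_iff] at hx'
      rcases hx' with rfl | rfl
      · exact Or.inl h1
      · exact Or.inr h1
    · rintro (rfl | rfl)
      · exact ⟨x, Set.mem_insert _ _, rfl⟩
      · exact ⟨y, Set.mem_insert_of_mem _ rfl, rfl⟩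

theorem cz_act (h : St M κ Ω lam s G) {c' : ZFSet.{0}} (hc : DD s lam.toZFSet c') :
    ∃ c ∈ ClR lam s G, cz lam c = actc G c' := by
  have hsub : ∀ w ∈ actc G c', w ∈ TR lam.toZFSet := fun w hw => dd_rows hc w (ZFSet.mem_sep.1 hw).1
  have hac : ∀ x : Row, x.1 < lam → x.2 < 4 → rw x ∈ actc G c' → x ∈ AcR lam G := fun x h1 h2 h3 =>
    ⟨h1, h2, (ZFSet.mem_sep.1 h3).2⟩
  obtain ⟨c, hcd⟩ : ∃ c : Set Row, c = {x | x.1 < lam ∧ x.2 < 4 ∧ rw x ∈ actc G c'} := ⟨_, rfl⟩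
  have hcm : ∀ x, x ∈ c ↔ x.1 < lam ∧ x.2 < 4 ∧ rw x ∈ actc G c' := by
    intro x
    rw [hcd]
    exact Iff.rfl
  refine ⟨c, ?_, ?_⟩
  · rcases dd_act (G := G) hc with h1 | ⟨ρ, hρ, h1⟩ | ⟨ρ, hρ, ρ', hρ', hE, h1⟩
    · left
      rw [Set.eq_empty_iff_forall_notMem]
      intro x hx
      have h2 := ((hcm x).1 hx).2.2
      rw [h1] at h2
      exact ZFSet.notMem_empty _ h2
    · obtain ⟨x, hx1, hx2, rfl⟩ := lr_TR' hρ
      right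
      left
      have hxa : rw x ∈ actc G c' := by
        rw [h1]
        exact ZFSet.mem_singleton.2 rfl
      refine ⟨x, hac x hx1 hx2 hxa, ?_⟩
      ext y
      rw [hcm, Set.mem_singleton_iff]
      constructor
      · rintro ⟨_, _, h2⟩
        rw [h1, ZFSet.mem_singleton] at h2
        exact rw_inj.1 h2
      · rintro rfl
        exact ⟨hx1, hx2, hxa⟩
    · obtain ⟨x, hx1, hx2, rfl⟩ := lr_TR' hρ
      obtain ⟨y, hy1, hy2, rfl⟩ := lr_TR' hρ'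
      right
      right
      have hxa : rw x ∈ actc G c' := by
        rw [h1]
        exact ZFSet.mem_pair.2 (Or.inl rfl)
      have hya : rw y ∈ actc G c' := by
        rw [h1]
        exact ZFSet.mem_pair.2 (Or.inr rfl)
      refine ⟨x, y, lr_edR h (hac x hx1 hx2 hxa) (hac y hy1 hy2 hya) hE, ?_⟩
      ext z
      rw [hcm, Set.mem_insert_iff, Set.mem_singleton_iff]
      constructor
      · rintro ⟨_, _, h2⟩
        rw [h1, ZFSet.mem_pair] at h2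
        exact h2.imp rw_inj.1 rw_inj.1
      · rintro (rfl | rfl)
        · exact ⟨hx1, hx2, hxa⟩
        · exact ⟨hy1, hy2, hya⟩
  · ext w
    unfold CF.cz
    rw [ZFSet.mem_sep]
    constructor
    · rintro ⟨_, x, hx, rfl⟩
      exact ((hcm x).1 hx).2.2
    · intro hw
      obtain ⟨x, hx1, hx2, rfl⟩ := lr_TR' (hsub w hw)
      exact ⟨hsub _ hw, x, (hcm x).2 ⟨hx1, hx2, hw⟩, rfl⟩

theorem cz_res (h : St M κ Ω lam s G) {c : Set Row} (hc : c ∈ ClR lam s G) {α : Ordinal.{0}} :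
    cz lam (res c α) = cres (cz lam c) α.toZFSet := by
  ext w
  unfold CF.cz CF.cres
  rw [ZFSet.mem_sep, ZFSet.mem_sep, ZFSet.mem_sep]
  constructor
  · rintro ⟨h1, x, ⟨hx, hx2⟩, rfl⟩
    exact ⟨⟨h1, x, hx, rfl⟩, x.1.toZFSet, Ordinal.toZFSet_mem_toZFSet_iff.2 hx2, natZ x.2, rfl⟩
  · rintro ⟨⟨h1, x, hx, h2⟩, μ, hμ, r, h3⟩
    refine ⟨h1, x, ⟨hx, ?_⟩, h2⟩
    rw [h2] at h3
    unfold CF.rw CF.row at h3
    rw [ZFSet.pair_inj] at h3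
    rw [← h3.1] at hμ
    exact Ordinal.toZFSet_mem_toZFSet_iff.1 hμ

theorem res_cl (h : St M κ Ω lam s G) {c : Set Row} (hc : c ∈ ClR lam s G) {α : Ordinal.{0}} :
    res c α ∈ ClR lam s G := by
  have hs : res c α ⊆ c := fun x hx => hx.1
  rcases hc with rfl | ⟨x, hx, rfl⟩ | ⟨x, y, hxy, rfl⟩
  · exact Or.inl (Set.subset_empty_iff.1 hs)
  · rcases Set.subset_singleton_iff_eq.1 hs with h1 | h1
    · exact Or.inl h1
    · exact Or.inr (Or.inl ⟨x, hx, h1⟩)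
  · rcases Set.subset_pair_iff_eq.1 hs with h1 | h1 | h1 | h1
    · exact Or.inl h1
    · exact Or.inr (Or.inl ⟨x, hxy.1, h1⟩)
    · exact Or.inr (Or.inl ⟨y, hxy.2.1, h1⟩)
    · exact Or.inr (Or.inr ⟨x, y, hxy, h1⟩)

end Pool.Agent.H17.CF
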