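import Pool.Agent.H17.CF.F.Defs
import Pool.Agent.H7.IG.Tk5

/-!
# CF-F8: leveled trees, their graphs, products (no forcing)

`K = El κ.toZFSet`, `Ω ≤ κ`. `IX Ω X` = the graph of the tree `X` (4-ary relation on `K`, `![a, b, m, n] ∈ X` means that
`(a, n)` is the predecessor on level `a` of the node `(b, m)` of level `b`): the set of the pairs `((a, n), (b, m))` of nodes,
`a ∈ b`, with `![a, b, m, n] ∉ X`.

PROOFS. `ix_mem`: separation in `N` (`InN`: `w ∈ X ↔ tup w ∈ z`; `tup ![a,b,m,n] = pair a (pair b (pair m (pair n ∅)))`).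
`ix_tg`: let `Bel x y`, `Bel y z`, `(x, z), (y, z)` not in the graph: `x = (a, n)`, `y = (b, m)`, `z = (d, k)`, `![a,d,k,n] ∈ X`,
`![b,d,k,m] ∈ X`. By `tot` there is `n'` with `![a,b,m,n'] ∈ X`, by `coh` `![a,d,k,n'] ∈ X`, by `uni` `n' = n`; so `(x, y)` is not in the
graph.
`branch_of_chain`: let `N` be a ctm, `C ∈ N` an unbounded chain of `IX Ω X`. Then there is a branch `b ∈ N`: a function from
`LvZ Ω` to `ω` with `![a, d, b(d), b(a)] ∈ X` for all levels `a ∈ d`: `b(a) = n` iff `![a, d, m, n] ∈ X` for some `(d, m) ∈ C`,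
`a ∈ d` (unique and coherent: for `(d, m), (d', m') ∈ C`, `d ∈ d'`: `![d, d', m', m] ∈ X` and `coh`; if `d = d'` take a third
element of `C` above both levels and use `uni`).
`prod_tree`: let `X, Y` be trees in `N`. Let `j : ω × ω → ω` be a bijection in `N` (e.g. from `exists_pairing` of H52/GC and
`Ctb` of `ω × ω`; or Cantor's pairing with `Nat.pair`: the set `{((natZ m, natZ n), natZ (Nat.pair m n))}` is in `N`: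
prove it with a recursion or use `exists_enum`/`ctb` bijections; any bijection in `N` is fine). Put
`![a, b, j(m,m'), j(n,n')] ∈ Z` iff `![a,b,m,n] ∈ X` and `![a,b,m',n'] ∈ Y`. `Z` is a tree in `N`.
 (1) `Rl N Ω X Y ↔ Spc N Ω (IX Ω Z)`: a colouring `G` of the triples corresponds to `F = {((a, j(m,m')), n) : ![a,m,m',n] ∈ G}`.
 (For `→`: `(x, n), (y, n) ∈ F`, `Bel x y`, `(x, y) ∉ IX Z` gives `X`- and `Y`-comparability: contradiction. For `←`: `F ∈ N`, put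
 `G = {![a,m,m',n] : ((a, j(m,m')), n) ∈ F}`.)
 (2) for every ctm `N' ⊇ N` (`IsOm1 N' Ω`): there is an unbounded chain of `IX Z` in `N'` iff there is one for `IX X` and one for
 `IX Y`: `→` take branches (`branch_of_chain` for `Z`) and project; `←` take branches `b, b'` for `X, Y` and the chain of the
 nodes `(a, j(b(a), b'(a)))`.
-/

set_option autoImplicit false
set_option linter.unusedVariables false
set_option linter.unusedSectionVars false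
set_option linter.unusedSimpArgs false
set_option linter.unusedTactic false
set_option linter.unreachableTactic false

open Pool.Agent.H17.Omega Pool.Agent.H17.Omega.CTM Pool.Agent.H52.GC Pool.Agent.H7.IG

namespace Pool.Agent.H17.CF

variable {M : Set ZFSet.{0}} {κ Ω lam : Ordinal.{0}} {s : ZFSet.{0}} {G : Set ZFSet.{0}}

/-- The graph of a tree. -/
noncomputable def IX (Ω : Ordinal.{0}) {κ : Ordinal.{0}} (X : Set (Fin 4 → El κ.toZFSet)) : ZFSet.{0} :=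
  ZFSet.sep (fun z => ∃ a b m n : El κ.toZFSet, z = ZFSet.pair (ZFSet.pair a.1 n.1) (ZFSet.pair b.1 m.1) ∧
    a.1 ∈ b.1 ∧ ![a, b, m, n] ∉ X) (ZFSet.prod (Nd Ω omZ) (Nd Ω omZ))

variable {N : Set ZFSet.{0}}


/-! ### Tuples -/

theorem t8_tup {A : ZFSet.{0}} (a b m n : El A) :
    tup (fun i => ((![a, b, m, n] : Fin 4 → El A) i).1) =
      ZFSet.pair a.1 (ZFSet.pair b.1 (ZFSet.pair m.1 (ZFSet.pair n.1 ∅))) := by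
  simp [tup, tupL, List.ofFn_succ]

theorem t8_vec {A : ZFSet.{0}} (w : Fin 4 → El A) : w = ![w 0, w 1, w 2, w 3] := by
  funext i
  fin_cases i <;> rfl

/-- A definable relation of arity four is in the model. -/
theorem t8_inN (hN : CTM N) {A : ZFSet.{0}} (hA : A ∈ N) {X : Set (Fin 4 → El A)}
    {P : ZFSet.{0} → ZFSet.{0} → ZFSet.{0} → ZFSet.{0} → Prop}
    (hP : hN.Dfn (fun v : Fin 5 → N => P (v 1).1 (v 2).1 (v 3).1 (v 4).1))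
    (hX : ∀ a b m n : El A, ![a, b, m, n] ∈ X ↔ P a.1 b.1 m.1 n.1) : InN N X := by
  refine ⟨ZFSet.sep (fun z => ∃ a ∈ A, ∃ b ∈ A, ∃ m ∈ A, ∃ n ∈ A,
    z = ZFSet.pair a (ZFSet.pair b (ZFSet.pair m (ZFSet.pair n ∅))) ∧ P a b m n)
    (ZFSet.prod A (ZFSet.prod A (ZFSet.prod A (ZFSet.prod A {∅})))), ?_, ?_⟩
  · refine hN.sep_mem ?_ (hN.prod_mem hA (hN.prod_mem hA (hN.prod_mem hA (hN.prod_mem hA
      (hN.singleton_mem hN.empty_mem)))))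
    refine Df.bex (P := fun v a => ∃ b ∈ A, ∃ m ∈ A, ∃ n ∈ A,
      (v 0).1 = ZFSet.pair a (ZFSet.pair b (ZFSet.pair m (ZFSet.pair n ∅))) ∧ P a b m n) (PD.const hA) ?_
    refine Df.bex (P := fun v b => ∃ m ∈ A, ∃ n ∈ A,
      (v 0).1 = ZFSet.pair (v 1).1 (ZFSet.pair b (ZFSet.pair m (ZFSet.pair n ∅))) ∧ P (v 1).1 b m n) (PD.const hA) ?_
    refine Df.bex (P := fun v m => ∃ n ∈ A,
      (v 0).1 = ZFSet.pair (v 1).1 (ZFSet.pair (v 2).1 (ZFSet.pair m (ZFSet.pair n ∅))) ∧ P (v 1).1 (v 2).1 m n)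
      (PD.const hA) ?_
    refine Df.bex (P := fun v n =>
      (v 0).1 = ZFSet.pair (v 1).1 (ZFSet.pair (v 2).1 (ZFSet.pair (v 3).1 (ZFSet.pair n ∅))) ∧
        P (v 1).1 (v 2).1 (v 3).1 n) (PD.const hA) ?_
    exact Dfn.and (Df.eq (PD.var _) (PD.pair (PD.var _) (PD.pair (PD.var _) (PD.pair (PD.var _)
      (PD.pair (PD.var _) (PD.const hN.empty_mem)))))) hP
  · intro w
    rw [t8_vec w, t8_tup, ZFSet.mem_sep, hX]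
    constructor
    · intro h
      refine ⟨?_, _, (w 0).2, _, (w 1).2, _, (w 2).2, _, (w 3).2, rfl, h⟩
      simp only [ZFSet.pair_mem_prod]
      exact ⟨(w 0).2, (w 1).2, (w 2).2, (w 3).2, by simp⟩
    · rintro ⟨_, a, ha, b, hb, m, hm, n, hn, he, h⟩
      simp only [ZFSet.pair_inj] at he
      obtain ⟨rfl, rfl, rfl, rfl, _⟩ := he
      exact h

/-- Membership in a relation of the model, as a membership of codes. -/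
theorem t8_code {A z : ZFSet.{0}} {X : Set (Fin 4 → El A)} (hz : ∀ w : Fin 4 → El A, w ∈ X ↔ tup (fun i => (w i).1) ∈ z)
    (a b m n : El A) : ![a, b, m, n] ∈ X ↔
      ZFSet.pair a.1 (ZFSet.pair b.1 (ZFSet.pair m.1 (ZFSet.pair n.1 ∅))) ∈ z := by
  rw [hz, t8_tup]

/-! ### Levels -/

theorem t8_mem_LvZ {a : ZFSet.{0}} : a ∈ LvZ Ω ↔ Lvl Ω a := by
  rw [LvZ, ZFSet.mem_sep]; rfl

theorem t8_lvz_mem (hN : CTM N) (hΩ : Ω.toZFSet ∈ N) : LvZ Ω ∈ N :=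
  hN.sep_mem (Df.sub (PD.const hN.omZ_mem) (PD.var 0)) hΩ

theorem t8_nd_mem (hN : CTM N) (hΩ : Ω.toZFSet ∈ N) : Nd Ω omZ ∈ N := hN.prod_mem (t8_lvz_mem hN hΩ) hN.omZ_mem

theorem t8_mem_Nd {a m : ZFSet.{0}} : ZFSet.pair a m ∈ Nd Ω omZ ↔ Lvl Ω a ∧ m ∈ omZ := by
  rw [Nd, ZFSet.pair_mem_prod, t8_mem_LvZ]

theorem Lvl.t8ord {a : ZFSet.{0}} (h : Lvl Ω a) : ∃ α < Ω, a = α.toZFSet := by
  obtain ⟨α, hα, h1⟩ := Ordinal.mem_toZFSet_iff.1 h.1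
  exact ⟨α, hα, h1.symm⟩

theorem t8_lvl_trans {a b d : ZFSet.{0}} (ha : Lvl Ω a) (hb : Lvl Ω b) (hd : Lvl Ω d) (hab : a ∈ b) (hbd : b ∈ d) :
    a ∈ d := by
  obtain ⟨α, hα, rfl⟩ := ha.t8ord
  obtain ⟨β, hβ, rfl⟩ := hb.t8ord
  obtain ⟨δ, hδ, rfl⟩ := hd.t8ord
  rw [Ordinal.toZFSet_mem_toZFSet_iff] at *
  exact hab.trans hbd

theorem Lvl.t8el (hΩκ : Ω ≤ κ) {a : ZFSet.{0}} (h : Lvl Ω a) : a ∈ κ.toZFSet := by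
  obtain ⟨α, hα, rfl⟩ := h.t8ord
  exact Ordinal.toZFSet_mem_toZFSet_iff.2 (hα.trans_le hΩκ)

theorem t8_om_el (hω : Ordinal.omega0 ≤ κ) {m : ZFSet.{0}} (h : m ∈ omZ) : m ∈ κ.toZFSet := by
  obtain ⟨n, rfl⟩ := mem_omZ.1 h
  rw [natZ_eq]
  exact Ordinal.toZFSet_mem_toZFSet_iff.2 ((Ordinal.natCast_lt_omega0 n).trans_le hω)

theorem t8_om1_ge (hN : CTM N) (hΩ : IsOm1 N Ω) : Ordinal.omega0 ≤ Ω := by
  by_contra h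
  push Not at h
  obtain ⟨n, rfl⟩ := Ordinal.lt_omega0.1 h
  exact lt_irrefl _ (hΩ.omega_lt hN n)

/-- Two levels are below a common level, which may be chosen in an unbounded chain. -/
theorem Chn.t8above {I C : ZFSet.{0}} (h : Chn Ω omZ I C) {a b : ZFSet.{0}} (ha : Lvl Ω a) (hb : Lvl Ω b) :
    ∃ d m, ZFSet.pair d m ∈ C ∧ Lvl Ω d ∧ m ∈ omZ ∧ a ∈ d ∧ b ∈ d := by
  obtain ⟨α, hα, rfl⟩ := ha.t8ord
  obtain ⟨β, hβ, rfl⟩ := hb.t8ord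
  obtain ⟨d, m, hC, hd⟩ := h.2.2 (max α β) (max_lt hα hβ)
  obtain ⟨h1, h2⟩ := t8_mem_Nd.1 (h.1 hC)
  obtain ⟨δ, hδ, rfl⟩ := h1.t8ord
  rw [Ordinal.toZFSet_mem_toZFSet_iff] at hd
  exact ⟨_, m, hC, h1, h2, Ordinal.toZFSet_mem_toZFSet_iff.2 ((le_max_left _ _).trans_lt hd),
    Ordinal.toZFSet_mem_toZFSet_iff.2 ((le_max_right _ _).trans_lt hd)⟩

/-! ### The graph of a tree -/

theorem t8_ix_iff {X : Set (Fin 4 → El κ.toZFSet)} (a b m n : El κ.toZFSet) :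
    ZFSet.pair (ZFSet.pair a.1 n.1) (ZFSet.pair b.1 m.1) ∈ IX Ω X ↔
      Lvl Ω a.1 ∧ Lvl Ω b.1 ∧ n.1 ∈ omZ ∧ m.1 ∈ omZ ∧ a.1 ∈ b.1 ∧ ![a, b, m, n] ∉ X := by
  rw [IX, ZFSet.mem_sep, ZFSet.pair_mem_prod, t8_mem_Nd, t8_mem_Nd]
  constructor
  · rintro ⟨⟨⟨h1, h2⟩, h3, h4⟩, a', b', m', n', he, h5, h6⟩
    simp only [ZFSet.pair_inj] at he
    obtain ⟨⟨e1, e2⟩, e3, e4⟩ := he
    obtain rfl := Subtype.ext e1
    obtain rfl := Subtype.ext e2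
    obtain rfl := Subtype.ext e3
    obtain rfl := Subtype.ext e4
    exact ⟨h1, h3, h2, h4, h5, h6⟩
  · rintro ⟨h1, h2, h3, h4, h5, h6⟩
    exact ⟨⟨⟨h1, h3⟩, h2, h4⟩, a, b, m, n, rfl, h5, h6⟩

theorem ix_mem (hN : CTM N) (hΩN : Ω.toZFSet ∈ N) (hΩκ : Ω ≤ κ) (hκ : κ.toZFSet ∈ N) {X : Set (Fin 4 → El κ.toZFSet)}
    (hX : InN N X) : IX Ω X ∈ N := by
  obtain ⟨z, hz, hX⟩ := hX
  have h1 : IX Ω X = ZFSet.sep (fun t => ∃ a ∈ κ.toZFSet, ∃ b ∈ κ.toZFSet, ∃ m ∈ κ.toZFSet, ∃ n ∈ κ.toZFSet,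
      t = ZFSet.pair (ZFSet.pair a n) (ZFSet.pair b m) ∧ a ∈ b ∧
        ¬ ZFSet.pair a (ZFSet.pair b (ZFSet.pair m (ZFSet.pair n ∅))) ∈ z) (ZFSet.prod (Nd Ω omZ) (Nd Ω omZ)) := by
    ext t
    rw [IX, ZFSet.mem_sep, ZFSet.mem_sep]
    refine and_congr_right fun _ => ?_
    constructor
    · rintro ⟨a, b, m, n, h1, h2, h3⟩
      exact ⟨a.1, a.2, b.1, b.2, m.1, m.2, n.1, n.2, h1, h2, fun h => h3 ((t8_code hX a b m n).2 h)⟩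
    · rintro ⟨a, ha, b, hb, m, hm, n, hn, h1, h2, h3⟩
      exact ⟨⟨a, ha⟩, ⟨b, hb⟩, ⟨m, hm⟩, ⟨n, hn⟩, h1, h2,
        fun h => h3 ((t8_code hX ⟨a, ha⟩ ⟨b, hb⟩ ⟨m, hm⟩ ⟨n, hn⟩).1 h)⟩
  rw [h1]
  refine hN.sep_mem ?_ (hN.prod_mem (t8_nd_mem hN hΩN) (t8_nd_mem hN hΩN))
  refine Df.bex (P := fun v a => ∃ b ∈ κ.toZFSet, ∃ m ∈ κ.toZFSet, ∃ n ∈ κ.toZFSet,
      (v 0).1 = ZFSet.pair (ZFSet.pair a n) (ZFSet.pair b m) ∧ a ∈ b ∧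
        ¬ ZFSet.pair a (ZFSet.pair b (ZFSet.pair m (ZFSet.pair n ∅))) ∈ z) (PD.const hκ) ?_
  refine Df.bex (P := fun v b => ∃ m ∈ κ.toZFSet, ∃ n ∈ κ.toZFSet,
      (v 0).1 = ZFSet.pair (ZFSet.pair (v 1).1 n) (ZFSet.pair b m) ∧ (v 1).1 ∈ b ∧
        ¬ ZFSet.pair (v 1).1 (ZFSet.pair b (ZFSet.pair m (ZFSet.pair n ∅))) ∈ z) (PD.const hκ) ?_
  refine Df.bex (P := fun v m => ∃ n ∈ κ.toZFSet,
      (v 0).1 = ZFSet.pair (ZFSet.pair (v 1).1 n) (ZFSet.pair (v 2).1 m) ∧ (v 1).1 ∈ (v 2).1 ∧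
        ¬ ZFSet.pair (v 1).1 (ZFSet.pair (v 2).1 (ZFSet.pair m (ZFSet.pair n ∅))) ∈ z) (PD.const hκ) ?_
  refine Df.bex (P := fun v n =>
      (v 0).1 = ZFSet.pair (ZFSet.pair (v 1).1 n) (ZFSet.pair (v 2).1 (v 3).1) ∧ (v 1).1 ∈ (v 2).1 ∧
        ¬ ZFSet.pair (v 1).1 (ZFSet.pair (v 2).1 (ZFSet.pair (v 3).1 (ZFSet.pair n ∅))) ∈ z) (PD.const hκ) ?_
  exact Dfn.and (Df.eq (PD.var _) (PD.pair (PD.pair (PD.var _) (PD.var _)) (PD.pair (PD.var _) (PD.var _))))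
    (Dfn.and (Df.mem (PD.var _) (PD.var _)) (Dfn.not (Df.mem (PD.pair (PD.var _) (PD.pair (PD.var _)
      (PD.pair (PD.var _) (PD.pair (PD.var _) (PD.const hN.empty_mem))))) (PD.const hz))))

theorem ix_isI (X : Set (Fin 4 → El κ.toZFSet)) :
    ∀ z ∈ IX Ω X, ∃ x ∈ Nd Ω omZ, ∃ y ∈ Nd Ω omZ, Bel x y ∧ z = ZFSet.pair x y := by
  intro z hz
  rw [IX, ZFSet.mem_sep] at hz
  obtain ⟨h1, a, b, m, n, rfl, h2, h3⟩ := hz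
  rw [ZFSet.pair_mem_prod] at h1
  exact ⟨_, h1.1, _, h1.2, ⟨_, _, _, _, rfl, rfl, h2⟩, rfl⟩

theorem ix_tg (hω : Ordinal.omega0 ≤ Ω) (hΩκ : Ω ≤ κ) {X : Set (Fin 4 → El κ.toZFSet)} (hX : IsTree Ω X) :
    TG Ω omZ (IX Ω X) := by
  rintro x hx y hy z hz ⟨a, n, b, m, rfl, rfl, hab⟩ ⟨b', m', d, k, he, rfl, hbd⟩ hxy
  rw [ZFSet.pair_inj] at he
  obtain ⟨rfl, rfl⟩ := he
  rw [t8_mem_Nd] at hx hy hz
  have hωκ := hω.trans hΩκ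
  obtain ⟨a, rfl⟩ : ∃ a' : El κ.toZFSet, a'.1 = a := ⟨⟨a, hx.1.t8el hΩκ⟩, rfl⟩
  obtain ⟨b, rfl⟩ : ∃ a' : El κ.toZFSet, a'.1 = b := ⟨⟨b, hy.1.t8el hΩκ⟩, rfl⟩
  obtain ⟨d, rfl⟩ : ∃ a' : El κ.toZFSet, a'.1 = d := ⟨⟨d, hz.1.t8el hΩκ⟩, rfl⟩
  obtain ⟨n, rfl⟩ : ∃ a' : El κ.toZFSet, a'.1 = n := ⟨⟨n, t8_om_el hωκ hx.2⟩, rfl⟩
  obtain ⟨m, rfl⟩ : ∃ a' : El κ.toZFSet, a'.1 = m := ⟨⟨m, t8_om_el hωκ hy.2⟩, rfl⟩
  obtain ⟨k, rfl⟩ : ∃ a' : El κ.toZFSet, a'.1 = k := ⟨⟨k, t8_om_el hωκ hz.2⟩, rfl⟩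
  have had : a.1 ∈ d.1 := t8_lvl_trans hx.1 hy.1 hz.1 hab hbd
  rw [t8_ix_iff] at hxy ⊢
  rw [t8_ix_iff]
  by_contra hcon
  push Not at hcon
  obtain ⟨h1, h2⟩ := hcon
  have h1 := h1 hx.1 hz.1 hx.2 hz.2 had
  have h2 := h2 hy.1 hz.1 hy.2 hz.2 hbd
  obtain ⟨n', hn'⟩ := hX.tot a b m hx.1 hy.1 hab hy.2
  have h3 := hX.coh a b d k m n' h2 hn'
  have h4 := hX.uni a d k n n' h1 h3
  exact hxy.2.2.2.2.2 (h4 ▸ hn')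

/-- Comparability on a chain. -/
theorem Chn.t8cmp {X : Set (Fin 4 → El κ.toZFSet)} {C : ZFSet.{0}} (hch : Chn Ω omZ (IX Ω X) C) {a b m n : El κ.toZFSet}
    (hb : ZFSet.pair b.1 m.1 ∈ C) (ha : ZFSet.pair a.1 n.1 ∈ C) (hab : a.1 ∈ b.1) : ![a, b, m, n] ∈ X := by
  by_contra h
  have h1 := t8_mem_Nd.1 (hch.1 ha)
  have h2 := t8_mem_Nd.1 (hch.1 hb)
  exact hch.2.1 _ ha _ hb ⟨_, _, _, _, rfl, rfl, hab⟩
    ((t8_ix_iff a b m n).2 ⟨h1.1, h2.1, h1.2, h2.2, hab, h⟩)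

theorem branch_of_chain (hN : CTM N) (hΩ : IsOm1 N Ω) (hΩκ : Ω ≤ κ) (hκ : κ.toZFSet ∈ N)
    {X : Set (Fin 4 → El κ.toZFSet)} (hX : IsTree Ω X) (hXN : InN N X) {C : ZFSet.{0}} (hC : C ∈ N)
    (hch : Chn Ω omZ (IX Ω X) C) :
    ∃ b ∈ N, Fn b (LvZ Ω) omZ ∧ ∀ a d m n : El κ.toZFSet, Lvl Ω a.1 → Lvl Ω d.1 → a.1 ∈ d.1 →
      ZFSet.pair d.1 m.1 ∈ b → ZFSet.pair a.1 n.1 ∈ b → ![a, d, m, n] ∈ X := by
  obtain ⟨z, hz, hzX⟩ := hXN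
  have hω := t8_om1_ge hN hΩ
  have hωκ := hω.trans hΩκ
  -- two witnesses are compared by a third element
  have key : ∀ a d m n : El κ.toZFSet, Lvl Ω a.1 → Lvl Ω d.1 → ZFSet.pair d.1 m.1 ∈ C → a.1 ∈ d.1 →
      ![a, d, m, n] ∈ X → ∀ e k : El κ.toZFSet, ZFSet.pair e.1 k.1 ∈ C → d.1 ∈ e.1 → ![a, e, k, n] ∈ X := by
    intro a d m n ha hd hdm had h1 e k hek hde
    exact hX.coh a d e k m n (hch.t8cmp hek hdm hde) h1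
  have third : ∀ d d' : El κ.toZFSet, Lvl Ω d.1 → Lvl Ω d'.1 → ∃ e k : El κ.toZFSet, ZFSet.pair e.1 k.1 ∈ C ∧
      d.1 ∈ e.1 ∧ d'.1 ∈ e.1 ∧ Lvl Ω e.1 := by
    intro d d' hd hd'
    obtain ⟨e, k, h1, h2, h3, h4, h5⟩ := hch.t8above hd hd'
    exact ⟨⟨e, h2.t8el hΩκ⟩, ⟨k, t8_om_el hωκ h3⟩, h1, h4, h5, h2⟩
  obtain ⟨b, hb, hbf, hb'⟩ := exists_fn hN (F := fun x y => ∃ d ∈ κ.toZFSet, ∃ m ∈ κ.toZFSet, ZFSet.pair d m ∈ C ∧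
      x.1 ∈ d ∧ ZFSet.pair x.1 (ZFSet.pair d (ZFSet.pair m (ZFSet.pair y.1 ∅))) ∈ z) (by
    refine Df.bex (P := fun v d => ∃ m ∈ κ.toZFSet, ZFSet.pair d m ∈ C ∧
      (v 0).1 ∈ d ∧ ZFSet.pair (v 0).1 (ZFSet.pair d (ZFSet.pair m (ZFSet.pair (v 1).1 ∅))) ∈ z) (PD.const hκ) ?_
    refine Df.bex (P := fun v m => ZFSet.pair (v 2).1 m ∈ C ∧
      (v 0).1 ∈ (v 2).1 ∧ ZFSet.pair (v 0).1 (ZFSet.pair (v 2).1 (ZFSet.pair m (ZFSet.pair (v 1).1 ∅))) ∈ z)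
      (PD.const hκ) ?_
    exact Dfn.and (Df.mem (PD.pair (PD.var _) (PD.var _)) (PD.const hC)) (Dfn.and (Df.mem (PD.var _) (PD.var _))
      (Df.mem (PD.pair (PD.var _) (PD.pair (PD.var _) (PD.pair (PD.var _) (PD.pair (PD.var _)
        (PD.const hN.empty_mem))))) (PD.const hz)))) (t8_lvz_mem hN hΩ.mem) hN.omZ_mem (by
    intro x hx
    have hx' : Lvl Ω x.1 := t8_mem_LvZ.1 hx
    obtain ⟨e, k, hek, hxe, _, he⟩ := third ⟨x.1, hx'.t8el hΩκ⟩ ⟨x.1, hx'.t8el hΩκ⟩ hx' hx'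
    have hk := (t8_mem_Nd.1 (hch.1 hek)).2
    obtain ⟨n, hn⟩ := hX.tot ⟨x.1, hx'.t8el hΩκ⟩ e k hx' he hxe hk
    have hnω : n.1 ∈ omZ := (hX.dom _ hn).2.2.2.2
    refine ⟨⟨n.1, hN.mem_of_mem hN.omZ_mem hnω⟩, hnω, ⟨e.1, e.2, k.1, k.2, hek, hxe,
      (t8_code hzX ⟨x.1, hx'.t8el hΩκ⟩ e k n).1 hn⟩, ?_⟩
    rintro y hy ⟨d, hd, m, hm, h1, h2, h3⟩
    have h4 := (t8_code hzX ⟨x.1, hx'.t8el hΩκ⟩ ⟨d, hd⟩ ⟨m, hm⟩ ⟨y.1, t8_om_el hωκ hy⟩).2 h3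
    have hd' : Lvl Ω d := (t8_mem_Nd.1 (hch.1 h1)).1
    obtain ⟨e', k', hek', h5, h6, _⟩ := third e ⟨d, hd⟩ he hd'
    have h7 := key _ _ _ _ hx' he hek hxe hn e' k' hek' h5
    have h8 := key _ _ _ _ hx' hd' h1 h2 h4 e' k' hek' h6
    have h9 := hX.uni _ _ _ _ _ h8 h7
    exact Subtype.ext (congrArg (fun t : El κ.toZFSet => t.1) h9))
  refine ⟨b, hb, hbf, ?_⟩
  intro a d m n ha hd had h1 h2
  have hκN : ∀ x : El κ.toZFSet, x.1 ∈ N := fun x => hN.mem_of_mem hκ x.2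
  obtain ⟨_, _, e, he, k, hk, h3, h4, h5⟩ := (hb' ⟨d.1, hκN d⟩ ⟨m.1, hκN m⟩).1 h1
  obtain ⟨_, _, e', he', k', hk', h3', h4', h5'⟩ := (hb' ⟨a.1, hκN a⟩ ⟨n.1, hκN n⟩).1 h2
  have h5 := (t8_code hzX d ⟨e, he⟩ ⟨k, hk⟩ m).2 h5
  have h5' := (t8_code hzX a ⟨e', he'⟩ ⟨k', hk'⟩ n).2 h5'
  have hle : Lvl Ω e := (t8_mem_Nd.1 (hch.1 h3)).1
  have hle' : Lvl Ω e' := (t8_mem_Nd.1 (hch.1 h3')).1
  obtain ⟨f, l, hfl, h6, h7, hf⟩ := third ⟨e, he⟩ ⟨e', he'⟩ hle hle'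
  have h8 := key d ⟨e, he⟩ ⟨k, hk⟩ m hd hle h3 h4 h5 f l hfl h6
  have h9 := key a ⟨e', he'⟩ ⟨k', hk'⟩ n ha hle' h3' h4' h5' f l hfl h7
  obtain ⟨n', hn'⟩ := hX.tot a d m ha hd had (hX.dom _ h5).2.2.2.2
  have h10 := hX.coh a d f l m n' h8 hn'
  rw [hX.uni a f l n n' h9 h10]
  exact hn'

theorem prod_tree (hN : CTM N) (hΩ : IsOm1 N Ω) (hΩκ : Ω ≤ κ) (hκ : κ.toZFSet ∈ N)
    {X Y : Set (Fin 4 → El κ.toZFSet)} (hX : IsTree Ω X) (hXN : InN N X) (hY : IsTree Ω Y) (hYN : InN N Y) :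
    ∃ Z : Set (Fin 4 → El κ.toZFSet), IsTree Ω Z ∧ InN N Z ∧ (Rl N Ω X Y ↔ Spc N Ω (IX Ω Z)) ∧
      ∀ N', CTM N' → N ⊆ N' → IsOm1 N' Ω →
        ((∃ C ∈ N', Chn Ω omZ (IX Ω Z) C) ↔
          (∃ C ∈ N', Chn Ω omZ (IX Ω X) C) ∧ ∃ C ∈ N', Chn Ω omZ (IX Ω Y) C) := by
  have hω := t8_om1_ge hN hΩ
  have hωκ := hω.trans hΩκ
  have hωN := hN.omZ_mem
  -- pairing functions
  obtain ⟨g, hgs, hgN⟩ := exists_pairing hN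
  set γ := seqZ (fun n => ZFSet.pair (natZ (g n).1) (natZ (g n).2)) with hγ
  have hγ1 : ∀ p ∈ omZ, ∃ m ∈ omZ, ∃ m' ∈ omZ, ZFSet.pair p (ZFSet.pair m m') ∈ γ := by
    intro p hp
    obtain ⟨n, rfl⟩ := mem_omZ.1 hp
    exact ⟨_, natZ_mem_omZ _, _, natZ_mem_omZ _, pair_mem_seqZ.2 rfl⟩
  have hγ2 : ∀ p m m' : ZFSet.{0}, ZFSet.pair p (ZFSet.pair m m') ∈ γ → p ∈ omZ ∧ m ∈ omZ ∧ m' ∈ omZ := by
    intro p m m' h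
    obtain ⟨n, hn⟩ := mem_seqZ.1 h
    simp only [ZFSet.pair_inj] at hn
    obtain ⟨rfl, rfl, rfl⟩ := hn
    exact ⟨natZ_mem_omZ _, natZ_mem_omZ _, natZ_mem_omZ _⟩
  have hγ3 : ∀ p m m' k k' : ZFSet.{0}, ZFSet.pair p (ZFSet.pair m m') ∈ γ → ZFSet.pair p (ZFSet.pair k k') ∈ γ →
      m = k ∧ m' = k' := by
    intro p m m' k k' h h'
    obtain ⟨n, hn⟩ := mem_seqZ.1 h
    obtain ⟨n', hn'⟩ := mem_seqZ.1 h'
    simp only [ZFSet.pair_inj] at hn hn'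
    obtain ⟨rfl, rfl, rfl⟩ := hn
    obtain ⟨h1, rfl, rfl⟩ := hn'
    obtain rfl := natZ_inj.1 h1
    exact ⟨rfl, rfl⟩
  obtain ⟨j, hj, hjf, hj'⟩ := exists_choice hN (F := fun x y => ZFSet.pair y.1 x.1 ∈ γ)
    (Df.mem (PD.pair (PD.var _) (PD.var _)) (PD.const hgN)) (hN.prod_mem hωN hωN) hωN (by
    intro x hx
    rw [ZFSet.mem_prod] at hx
    obtain ⟨m, hm, m', hm', hx⟩ := hx
    obtain ⟨k, rfl⟩ := mem_omZ.1 hm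
    obtain ⟨k', rfl⟩ := mem_omZ.1 hm'
    obtain ⟨n, hn⟩ := hgs (k, k')
    refine ⟨⟨natZ n, hN.natZ_mem_N n⟩, natZ_mem_omZ n, ?_⟩
    rw [hx]
    exact pair_mem_seqZ.2 (by rw [hn]))
  have hj1 : ∀ m ∈ omZ, ∀ m' ∈ omZ, ∃ p ∈ omZ, ZFSet.pair (ZFSet.pair m m') p ∈ j := by
    intro m hm m' hm'
    exact hjf.tot _ (ZFSet.pair_mem_prod.2 ⟨hm, hm'⟩)
  have hj2 : ∀ m m' p : ZFSet.{0}, ZFSet.pair (ZFSet.pair m m') p ∈ j → m ∈ omZ ∧ m' ∈ omZ ∧ p ∈ omZ ∧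
      ZFSet.pair p (ZFSet.pair m m') ∈ γ := by
    intro m m' p h
    obtain ⟨x, hx, y, hy, he⟩ := hjf.sub _ h
    rw [ZFSet.pair_inj] at he
    obtain ⟨rfl, rfl⟩ := he
    rw [ZFSet.pair_mem_prod] at hx
    have hmN := hN.mem_of_mem hωN hx.1
    have hmN' := hN.mem_of_mem hωN hx.2
    have hpN := hN.mem_of_mem hωN hy
    exact ⟨hx.1, hx.2, hy, hj' ⟨_, hN.pair_mem hmN hmN'⟩ ⟨_, hpN⟩ h⟩
  have hj3 : ∀ m m' p p' : ZFSet.{0}, ZFSet.pair (ZFSet.pair m m') p ∈ j → ZFSet.pair (ZFSet.pair m m') p' ∈ j →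
      p = p' := by
    intro m m' p p' h h'
    obtain ⟨h1, h2, h3, _⟩ := hj2 _ _ _ h
    obtain ⟨_, _, h4, _⟩ := hj2 _ _ _ h'
    exact hjf.uni _ (ZFSet.pair_mem_prod.2 ⟨h1, h2⟩) _ h3 _ h4 h h'
  obtain ⟨zX, hzX, hX'⟩ := hXN
  obtain ⟨zY, hzY, hY'⟩ := hYN
  -- the product
  set Z : Set (Fin 4 → El κ.toZFSet) := {w | ∃ m m' n n' : El κ.toZFSet, ZFSet.pair (w 2).1 (ZFSet.pair m.1 m'.1) ∈ γ ∧
    ![w 0, w 1, m, n] ∈ X ∧ ![w 0, w 1, m', n'] ∈ Y ∧ ZFSet.pair (ZFSet.pair n.1 n'.1) (w 3).1 ∈ j} with hZ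
  have hZm : ∀ a b p q : El κ.toZFSet, ![a, b, p, q] ∈ Z ↔ ∃ m m' n n' : El κ.toZFSet,
      ZFSet.pair p.1 (ZFSet.pair m.1 m'.1) ∈ γ ∧ ![a, b, m, n] ∈ X ∧ ![a, b, m', n'] ∈ Y ∧
      ZFSet.pair (ZFSet.pair n.1 n'.1) q.1 ∈ j := fun a b p q => Iff.rfl
  have hZT : IsTree Ω Z := by
    constructor
    · rintro w ⟨m, m', n, n', h1, h2, h3, h4⟩
      have h5 := hX.dom _ h2
      exact ⟨h5.1, h5.2.1, h5.2.2.1, (hγ2 _ _ _ h1).1, (hj2 _ _ _ h4).2.2.1⟩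
    · intro a b p ha hb hab hp
      obtain ⟨m, hm, m', hm', h1⟩ := hγ1 _ hp
      obtain ⟨n, hn⟩ := hX.tot a b ⟨m, t8_om_el hωκ hm⟩ ha hb hab hm
      obtain ⟨n', hn'⟩ := hY.tot a b ⟨m', t8_om_el hωκ hm'⟩ ha hb hab hm'
      obtain ⟨q, hq, h2⟩ := hj1 n.1 (hX.dom _ hn).2.2.2.2 n'.1 (hY.dom _ hn').2.2.2.2
      exact ⟨⟨q, t8_om_el hωκ hq⟩, (hZm _ _ _ _).2 ⟨⟨m, t8_om_el hωκ hm⟩, ⟨m', t8_om_el hωκ hm'⟩, n, n', h1, hn, hn', h2⟩⟩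
    · intro a b p q q' h h'
      obtain ⟨m, m', n, n', h1, h2, h3, h4⟩ := (hZm _ _ _ _).1 h
      obtain ⟨k, k', l, l', h5, h6, h7, h8⟩ := (hZm _ _ _ _).1 h'
      obtain ⟨e1, e2⟩ := hγ3 _ _ _ _ _ h1 h5
      obtain rfl := Subtype.ext e1
      obtain rfl := Subtype.ext e2
      obtain rfl := hX.uni _ _ _ _ _ h2 h6
      obtain rfl := hY.uni _ _ _ _ _ h3 h7
      exact Subtype.ext (hj3 _ _ _ _ h4 h8)
    · intro a b c p q r h h'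
      obtain ⟨m, m', n, n', h1, h2, h3, h4⟩ := (hZm _ _ _ _).1 h
      obtain ⟨k, k', l, l', h5, h6, h7, h8⟩ := (hZm _ _ _ _).1 h'
      obtain ⟨e1, e2⟩ := hγ3 _ _ _ _ _ (hj2 _ _ _ h4).2.2.2 h5
      obtain rfl := Subtype.ext e1
      obtain rfl := Subtype.ext e2
      exact (hZm _ _ _ _).2 ⟨m, m', l, l', h1, hX.coh _ _ _ _ _ _ h2 h6, hY.coh _ _ _ _ _ _ h3 h7, h8⟩
  have hZN : InN N Z := by
    refine t8_inN hN hκ (P := fun a b p q => ∃ m ∈ κ.toZFSet, ∃ m' ∈ κ.toZFSet, ∃ n ∈ κ.toZFSet, ∃ n' ∈ κ.toZFSet,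
      ZFSet.pair p (ZFSet.pair m m') ∈ γ ∧ ZFSet.pair a (ZFSet.pair b (ZFSet.pair m (ZFSet.pair n ∅))) ∈ zX ∧
      ZFSet.pair a (ZFSet.pair b (ZFSet.pair m' (ZFSet.pair n' ∅))) ∈ zY ∧ ZFSet.pair (ZFSet.pair n n') q ∈ j) ?_ ?_
    · refine Df.bex (P := fun v m => ∃ m' ∈ κ.toZFSet, ∃ n ∈ κ.toZFSet, ∃ n' ∈ κ.toZFSet,
        ZFSet.pair (v 3).1 (ZFSet.pair m m') ∈ γ ∧
        ZFSet.pair (v 1).1 (ZFSet.pair (v 2).1 (ZFSet.pair m (ZFSet.pair n ∅))) ∈ zX ∧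
        ZFSet.pair (v 1).1 (ZFSet.pair (v 2).1 (ZFSet.pair m' (ZFSet.pair n' ∅))) ∈ zY ∧
        ZFSet.pair (ZFSet.pair n n') (v 4).1 ∈ j) (PD.const hκ) ?_
      refine Df.bex (P := fun v m' => ∃ n ∈ κ.toZFSet, ∃ n' ∈ κ.toZFSet,
        ZFSet.pair (v 3).1 (ZFSet.pair (v 5).1 m') ∈ γ ∧
        ZFSet.pair (v 1).1 (ZFSet.pair (v 2).1 (ZFSet.pair (v 5).1 (ZFSet.pair n ∅))) ∈ zX ∧
        ZFSet.pair (v 1).1 (ZFSet.pair (v 2).1 (ZFSet.pair m' (ZFSet.pair n' ∅))) ∈ zY ∧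
        ZFSet.pair (ZFSet.pair n n') (v 4).1 ∈ j) (PD.const hκ) ?_
      refine Df.bex (P := fun v n => ∃ n' ∈ κ.toZFSet,
        ZFSet.pair (v 3).1 (ZFSet.pair (v 5).1 (v 6).1) ∈ γ ∧
        ZFSet.pair (v 1).1 (ZFSet.pair (v 2).1 (ZFSet.pair (v 5).1 (ZFSet.pair n ∅))) ∈ zX ∧
        ZFSet.pair (v 1).1 (ZFSet.pair (v 2).1 (ZFSet.pair (v 6).1 (ZFSet.pair n' ∅))) ∈ zY ∧
        ZFSet.pair (ZFSet.pair n n') (v 4).1 ∈ j) (PD.const hκ) ?_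
      refine Df.bex (P := fun v n' =>
        ZFSet.pair (v 3).1 (ZFSet.pair (v 5).1 (v 6).1) ∈ γ ∧
        ZFSet.pair (v 1).1 (ZFSet.pair (v 2).1 (ZFSet.pair (v 5).1 (ZFSet.pair (v 7).1 ∅))) ∈ zX ∧
        ZFSet.pair (v 1).1 (ZFSet.pair (v 2).1 (ZFSet.pair (v 6).1 (ZFSet.pair n' ∅))) ∈ zY ∧
        ZFSet.pair (ZFSet.pair (v 7).1 n') (v 4).1 ∈ j) (PD.const hκ) ?_
      exact Dfn.and (Df.mem (PD.pair (PD.var _) (PD.pair (PD.var _) (PD.var _))) (PD.const hgN))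
        (Dfn.and (Df.mem (PD.pair (PD.var _) (PD.pair (PD.var _) (PD.pair (PD.var _) (PD.pair (PD.var _)
          (PD.const hN.empty_mem))))) (PD.const hzX))
        (Dfn.and (Df.mem (PD.pair (PD.var _) (PD.pair (PD.var _) (PD.pair (PD.var _) (PD.pair (PD.var _)
          (PD.const hN.empty_mem))))) (PD.const hzY))
        (Df.mem (PD.pair (PD.pair (PD.var _) (PD.var _)) (PD.var _)) (PD.const hj))))
    · intro a b p q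
      rw [hZm]
      constructor
      · rintro ⟨m, m', n, n', h1, h2, h3, h4⟩
        exact ⟨m.1, m.2, m'.1, m'.2, n.1, n.2, n'.1, n'.2, h1, (t8_code hX' a b m n).1 h2,
          (t8_code hY' a b m' n').1 h3, h4⟩
      · rintro ⟨m, hm, m', hm', n, hn, n', hn', h1, h2, h3, h4⟩
        exact ⟨⟨m, hm⟩, ⟨m', hm'⟩, ⟨n, hn⟩, ⟨n', hn'⟩, h1, (t8_code hX' a b ⟨m, hm⟩ ⟨n, hn⟩).2 h2,
          (t8_code hY' a b ⟨m', hm'⟩ ⟨n', hn'⟩).2 h3, h4⟩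
  refine ⟨Z, hZT, hZN, ?_, ?_⟩
  · constructor
    · rintro ⟨G, ⟨zG, hzG, hG'⟩, hG1, hG2⟩
      refine ⟨ZFSet.sep (fun t => ∃ a ∈ κ.toZFSet, ∃ p ∈ κ.toZFSet, ∃ m ∈ κ.toZFSet, ∃ m' ∈ κ.toZFSet,
        ∃ n ∈ κ.toZFSet, t = ZFSet.pair (ZFSet.pair a p) n ∧ ZFSet.pair p (ZFSet.pair m m') ∈ γ ∧
          ZFSet.pair a (ZFSet.pair m (ZFSet.pair m' (ZFSet.pair n ∅))) ∈ zG)
        (ZFSet.prod (Nd Ω omZ) omZ), ?_, ?_, ?_⟩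
      · refine hN.sep_mem ?_ (hN.prod_mem (t8_nd_mem hN hΩ.mem) hωN)
        refine Df.bex (P := fun v a => ∃ p ∈ κ.toZFSet, ∃ m ∈ κ.toZFSet, ∃ m' ∈ κ.toZFSet,
          ∃ n ∈ κ.toZFSet, (v 0).1 = ZFSet.pair (ZFSet.pair a p) n ∧ ZFSet.pair p (ZFSet.pair m m') ∈ γ ∧
          ZFSet.pair a (ZFSet.pair m (ZFSet.pair m' (ZFSet.pair n ∅))) ∈ zG) (PD.const hκ) ?_
        refine Df.bex (P := fun v p => ∃ m ∈ κ.toZFSet, ∃ m' ∈ κ.toZFSet,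
          ∃ n ∈ κ.toZFSet, (v 0).1 = ZFSet.pair (ZFSet.pair (v 1).1 p) n ∧ ZFSet.pair p (ZFSet.pair m m') ∈ γ ∧
          ZFSet.pair (v 1).1 (ZFSet.pair m (ZFSet.pair m' (ZFSet.pair n ∅))) ∈ zG) (PD.const hκ) ?_
        refine Df.bex (P := fun v m => ∃ m' ∈ κ.toZFSet,
          ∃ n ∈ κ.toZFSet, (v 0).1 = ZFSet.pair (ZFSet.pair (v 1).1 (v 2).1) n ∧
          ZFSet.pair (v 2).1 (ZFSet.pair m m') ∈ γ ∧
          ZFSet.pair (v 1).1 (ZFSet.pair m (ZFSet.pair m' (ZFSet.pair n ∅))) ∈ zG) (PD.const hκ) ?_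
        refine Df.bex (P := fun v m' =>
          ∃ n ∈ κ.toZFSet, (v 0).1 = ZFSet.pair (ZFSet.pair (v 1).1 (v 2).1) n ∧
          ZFSet.pair (v 2).1 (ZFSet.pair (v 3).1 m') ∈ γ ∧
          ZFSet.pair (v 1).1 (ZFSet.pair (v 3).1 (ZFSet.pair m' (ZFSet.pair n ∅))) ∈ zG) (PD.const hκ) ?_
        refine Df.bex (P := fun v n =>
          (v 0).1 = ZFSet.pair (ZFSet.pair (v 1).1 (v 2).1) n ∧
          ZFSet.pair (v 2).1 (ZFSet.pair (v 3).1 (v 4).1) ∈ γ ∧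
          ZFSet.pair (v 1).1 (ZFSet.pair (v 3).1 (ZFSet.pair (v 4).1 (ZFSet.pair n ∅))) ∈ zG) (PD.const hκ) ?_
        exact Dfn.and (Df.eq (PD.var _) (PD.pair (PD.pair (PD.var _) (PD.var _)) (PD.var _)))
          (Dfn.and (Df.mem (PD.pair (PD.var _) (PD.pair (PD.var _) (PD.var _))) (PD.const hgN))
          (Df.mem (PD.pair (PD.var _) (PD.pair (PD.var _) (PD.pair (PD.var _) (PD.pair (PD.var _)
          (PD.const hN.empty_mem))))) (PD.const hzG)))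
      · intro x hx
        rw [Nd, ZFSet.mem_prod] at hx
        obtain ⟨a, ha, p, hp, rfl⟩ := hx
        rw [t8_mem_LvZ] at ha
        obtain ⟨m, hm, m', hm', h1⟩ := hγ1 _ hp
        obtain ⟨n, hn, h2⟩ := hG1 ⟨a, ha.t8el hΩκ⟩ ⟨m, t8_om_el hωκ hm⟩ ⟨m', t8_om_el hωκ hm'⟩ ha hm hm'
        refine ⟨n.1, hn, ?_⟩
        rw [ZFSet.mem_sep, ZFSet.pair_mem_prod, t8_mem_Nd]
        exact ⟨⟨⟨ha, hp⟩, hn⟩, a, ha.t8el hΩκ, p, t8_om_el hωκ hp, m, t8_om_el hωκ hm, m', t8_om_el hωκ hm', n.1, n.2, rfl, h1,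
          (t8_code hG' ⟨a, ha.t8el hΩκ⟩ ⟨m, t8_om_el hωκ hm⟩ ⟨m', t8_om_el hωκ hm'⟩ n).1 h2⟩
      · intro x y n hx hy hxy
        rw [ZFSet.mem_sep] at hx hy
        obtain ⟨hx0, a, ha, p, hp, m, hm, m', hm', n1, hn1, hxe, h1, h2⟩ := hx
        obtain ⟨hy0, b, hb, q, hq, k, hk, k', hk', n2, hn2, hye, h3, h4⟩ := hy
        rw [ZFSet.pair_inj] at hxe hye
        obtain ⟨rfl, rfl⟩ := hxe
        obtain ⟨rfl, rfl⟩ := hye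
        obtain ⟨a1, p1, b1, q1, e1, e2, hab⟩ := hxy
        rw [ZFSet.pair_inj] at e1 e2
        obtain ⟨rfl, rfl⟩ := e1
        obtain ⟨rfl, rfl⟩ := e2
        rw [ZFSet.pair_mem_prod, t8_mem_Nd] at hx0 hy0
        refine (t8_ix_iff ⟨a, ha⟩ ⟨b, hb⟩ ⟨q, hq⟩ ⟨p, hp⟩).2 ⟨hx0.1.1, hy0.1.1, hx0.1.2, hy0.1.2, hab, ?_⟩
        intro hcon
        obtain ⟨u, u', v, v', h5, h6, h7, h8⟩ := (hZm _ _ _ _).1 hcon
        obtain ⟨rfl, rfl⟩ := hγ3 _ _ _ _ _ h5 h3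
        obtain ⟨rfl, rfl⟩ := hγ3 _ _ _ _ _ (hj2 _ _ _ h8).2.2.2 h1
        exact hG2 ⟨a, ha⟩ ⟨b, hb⟩ v v' u u' ⟨n, hn1⟩ ((t8_code hG' ⟨a, ha⟩ v v' ⟨n, hn1⟩).2 h2)
          ((t8_code hG' ⟨b, hb⟩ u u' ⟨n, hn1⟩).2 h4) h6 h7
    · rintro ⟨F, hF, hF1, hF2⟩
      set G : Set (Fin 4 → El κ.toZFSet) := {w | Lvl Ω (w 0).1 ∧ (w 3).1 ∈ omZ ∧ ∃ p : El κ.toZFSet,
        ZFSet.pair (ZFSet.pair (w 1).1 (w 2).1) p.1 ∈ j ∧ ZFSet.pair (ZFSet.pair (w 0).1 p.1) (w 3).1 ∈ F} with hG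
      have hGm : ∀ a m m' n : El κ.toZFSet, ![a, m, m', n] ∈ G ↔ Lvl Ω a.1 ∧ n.1 ∈ omZ ∧ ∃ p : El κ.toZFSet,
        ZFSet.pair (ZFSet.pair m.1 m'.1) p.1 ∈ j ∧ ZFSet.pair (ZFSet.pair a.1 p.1) n.1 ∈ F := fun _ _ _ _ => Iff.rfl
      refine ⟨G, ?_, ?_, ?_⟩
      · refine t8_inN hN hκ (P := fun a m m' n => a ∈ LvZ Ω ∧ n ∈ omZ ∧ ∃ p ∈ κ.toZFSet,
          ZFSet.pair (ZFSet.pair m m') p ∈ j ∧ ZFSet.pair (ZFSet.pair a p) n ∈ F) ?_ ?_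
        · refine Dfn.and (Df.mem (PD.var _) (PD.const (t8_lvz_mem hN hΩ.mem))) (Dfn.and (Df.mem (PD.var _)
            (PD.const hωN)) ?_)
          refine Df.bex (P := fun v p => ZFSet.pair (ZFSet.pair (v 2).1 (v 3).1) p ∈ j ∧
            ZFSet.pair (ZFSet.pair (v 1).1 p) (v 4).1 ∈ F) (PD.const hκ) ?_
          exact Dfn.and (Df.mem (PD.pair (PD.pair (PD.var _) (PD.var _)) (PD.var _)) (PD.const hj))
            (Df.mem (PD.pair (PD.pair (PD.var _) (PD.var _)) (PD.var _)) (PD.const hF))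
        · intro a m m' n
          rw [hGm, t8_mem_LvZ]
          constructor
          · rintro ⟨h1, h2, p, h3, h4⟩
            exact ⟨h1, h2, p.1, p.2, h3, h4⟩
          · rintro ⟨h1, h2, p, hp, h3, h4⟩
            exact ⟨h1, h2, ⟨p, hp⟩, h3, h4⟩
      · intro a m m' ha hm hm'
        obtain ⟨p, hp, h1⟩ := hj1 _ hm _ hm'
        obtain ⟨n, hn, h2⟩ := hF1 (ZFSet.pair a.1 p) (t8_mem_Nd.2 ⟨ha, hp⟩)
        exact ⟨⟨n, t8_om_el hωκ hn⟩, hn, (hGm _ _ _ _).2 ⟨ha, hn, ⟨p, t8_om_el hωκ hp⟩, h1, h2⟩⟩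
      · intro a b m m' k k' n h1 h2 h3 h4
        obtain ⟨ha, hn, p, h5, h6⟩ := (hGm _ _ _ _).1 h1
        obtain ⟨hb, _, q, h7, h8⟩ := (hGm _ _ _ _).1 h2
        have hab : a.1 ∈ b.1 := (hX.dom _ h3).2.2.1
        have h9 := hF2 _ _ _ h6 h8 ⟨_, _, _, _, rfl, rfl, hab⟩
        exact ((t8_ix_iff a b q p).1 h9).2.2.2.2.2 ((hZm _ _ _ _).2 ⟨k, k', m, m', (hj2 _ _ _ h7).2.2.2, h3, h4, h5⟩)
  · intro N' hN' hNN' hΩ'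
    have hκ' := hNN' hκ
    constructor
    · rintro ⟨C, hC, hch⟩
      have hcmp : ∀ a b p q : El κ.toZFSet, ZFSet.pair b.1 q.1 ∈ C → ZFSet.pair a.1 p.1 ∈ C → a.1 ∈ b.1 →
          ∀ m m' k k' : El κ.toZFSet, ZFSet.pair p.1 (ZFSet.pair m.1 m'.1) ∈ γ →
            ZFSet.pair q.1 (ZFSet.pair k.1 k'.1) ∈ γ → ![a, b, k, m] ∈ X ∧ ![a, b, k', m'] ∈ Y := by
        intro a b p q hb ha hab m m' k k' h1 h2
        obtain ⟨u, u', v, v', h3, h4, h5, h6⟩ := (hZm _ _ _ _).1 (hch.t8cmp hb ha hab)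
        obtain ⟨e1, e2⟩ := hγ3 _ _ _ _ _ h3 h2
        obtain ⟨e3, e4⟩ := hγ3 _ _ _ _ _ (hj2 _ _ _ h6).2.2.2 h1
        obtain rfl := Subtype.ext e1
        obtain rfl := Subtype.ext e2
        obtain rfl := Subtype.ext e3
        obtain rfl := Subtype.ext e4
        exact ⟨h4, h5⟩
      constructor
      · refine ⟨ZFSet.sep (fun t => ∃ a ∈ κ.toZFSet, ∃ m ∈ κ.toZFSet, ∃ m' ∈ κ.toZFSet, ∃ p ∈ κ.toZFSet,
          t = ZFSet.pair a m ∧ ZFSet.pair a p ∈ C ∧ ZFSet.pair p (ZFSet.pair m m') ∈ γ) (Nd Ω omZ), ?_, ?_, ?_, ?_⟩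
        · refine hN'.sep_mem ?_ (t8_nd_mem hN' hΩ'.mem)
          refine Df.bex (P := fun v a => ∃ m ∈ κ.toZFSet, ∃ m' ∈ κ.toZFSet, ∃ p ∈ κ.toZFSet,
            (v 0).1 = ZFSet.pair a m ∧ ZFSet.pair a p ∈ C ∧ ZFSet.pair p (ZFSet.pair m m') ∈ γ) (PD.const hκ') ?_
          refine Df.bex (P := fun v m => ∃ m' ∈ κ.toZFSet, ∃ p ∈ κ.toZFSet,
            (v 0).1 = ZFSet.pair (v 1).1 m ∧ ZFSet.pair (v 1).1 p ∈ C ∧ ZFSet.pair p (ZFSet.pair m m') ∈ γ)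
            (PD.const hκ') ?_
          refine Df.bex (P := fun v m' => ∃ p ∈ κ.toZFSet,
            (v 0).1 = ZFSet.pair (v 1).1 (v 2).1 ∧ ZFSet.pair (v 1).1 p ∈ C ∧
              ZFSet.pair p (ZFSet.pair (v 2).1 m') ∈ γ) (PD.const hκ') ?_
          refine Df.bex (P := fun v p =>
            (v 0).1 = ZFSet.pair (v 1).1 (v 2).1 ∧ ZFSet.pair (v 1).1 p ∈ C ∧
              ZFSet.pair p (ZFSet.pair (v 2).1 (v 3).1) ∈ γ) (PD.const hκ') ?_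
          exact Dfn.and (Df.eq (PD.var _) (PD.pair (PD.var _) (PD.var _)))
            (Dfn.and (Df.mem (PD.pair (PD.var _) (PD.var _)) (PD.const hC))
            (Df.mem (PD.pair (PD.var _) (PD.pair (PD.var _) (PD.var _))) (PD.const (hNN' hgN))))
        · intro t ht
          exact (ZFSet.mem_sep.1 ht).1
        · intro x hx y hy hxy
          rw [ZFSet.mem_sep] at hx hy
          obtain ⟨hx0, a, ha, m, hm, m', hm', p, hp, rfl, h1, h2⟩ := hx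
          obtain ⟨hy0, b, hb, k, hk, k', hk', q, hq, rfl, h3, h4⟩ := hy
          obtain ⟨a1, p1, b1, q1, e1, e2, hab⟩ := hxy
          rw [ZFSet.pair_inj] at e1 e2
          obtain ⟨rfl, rfl⟩ := e1
          obtain ⟨rfl, rfl⟩ := e2
          intro hcon
          exact ((t8_ix_iff ⟨a, ha⟩ ⟨b, hb⟩ ⟨k, hk⟩ ⟨m, hm⟩).1 hcon).2.2.2.2.2
            (hcmp ⟨a, ha⟩ ⟨b, hb⟩ ⟨p, hp⟩ ⟨q, hq⟩ h3 h1 hab ⟨m, hm⟩ ⟨m', hm'⟩ ⟨k, hk⟩ ⟨k', hk'⟩ h2 h4).1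
        · intro β hβ
          obtain ⟨a, p, h1, h2⟩ := hch.2.2 β hβ
          obtain ⟨ha, hp⟩ := t8_mem_Nd.1 (hch.1 h1)
          obtain ⟨m, hm, m', hm', h3⟩ := hγ1 _ hp
          refine ⟨a, m, ?_, h2⟩
          rw [ZFSet.mem_sep, t8_mem_Nd]
          exact ⟨⟨ha, hm⟩, a, ha.t8el hΩκ, m, t8_om_el hωκ hm, m', t8_om_el hωκ hm', p, t8_om_el hωκ hp, rfl, h1, h3⟩
      · refine ⟨ZFSet.sep (fun t => ∃ a ∈ κ.toZFSet, ∃ m ∈ κ.toZFSet, ∃ m' ∈ κ.toZFSet, ∃ p ∈ κ.toZFSet,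
          t = ZFSet.pair a m' ∧ ZFSet.pair a p ∈ C ∧ ZFSet.pair p (ZFSet.pair m m') ∈ γ) (Nd Ω omZ), ?_, ?_, ?_, ?_⟩
        · refine hN'.sep_mem ?_ (t8_nd_mem hN' hΩ'.mem)
          refine Df.bex (P := fun v a => ∃ m ∈ κ.toZFSet, ∃ m' ∈ κ.toZFSet, ∃ p ∈ κ.toZFSet,
            (v 0).1 = ZFSet.pair a m' ∧ ZFSet.pair a p ∈ C ∧ ZFSet.pair p (ZFSet.pair m m') ∈ γ) (PD.const hκ') ?_
          refine Df.bex (P := fun v m => ∃ m' ∈ κ.toZFSet, ∃ p ∈ κ.toZFSet,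
            (v 0).1 = ZFSet.pair (v 1).1 m' ∧ ZFSet.pair (v 1).1 p ∈ C ∧ ZFSet.pair p (ZFSet.pair m m') ∈ γ)
            (PD.const hκ') ?_
          refine Df.bex (P := fun v m' => ∃ p ∈ κ.toZFSet,
            (v 0).1 = ZFSet.pair (v 1).1 m' ∧ ZFSet.pair (v 1).1 p ∈ C ∧
              ZFSet.pair p (ZFSet.pair (v 2).1 m') ∈ γ) (PD.const hκ') ?_
          refine Df.bex (P := fun v p =>
            (v 0).1 = ZFSet.pair (v 1).1 (v 3).1 ∧ ZFSet.pair (v 1).1 p ∈ C ∧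
              ZFSet.pair p (ZFSet.pair (v 2).1 (v 3).1) ∈ γ) (PD.const hκ') ?_
          exact Dfn.and (Df.eq (PD.var _) (PD.pair (PD.var _) (PD.var _)))
            (Dfn.and (Df.mem (PD.pair (PD.var _) (PD.var _)) (PD.const hC))
            (Df.mem (PD.pair (PD.var _) (PD.pair (PD.var _) (PD.var _))) (PD.const (hNN' hgN))))
        · intro t ht
          exact (ZFSet.mem_sep.1 ht).1
        · intro x hx y hy hxy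
          rw [ZFSet.mem_sep] at hx hy
          obtain ⟨hx0, a, ha, m, hm, m', hm', p, hp, rfl, h1, h2⟩ := hx
          obtain ⟨hy0, b, hb, k, hk, k', hk', q, hq, rfl, h3, h4⟩ := hy
          obtain ⟨a1, p1, b1, q1, e1, e2, hab⟩ := hxy
          rw [ZFSet.pair_inj] at e1 e2
          obtain ⟨rfl, rfl⟩ := e1
          obtain ⟨rfl, rfl⟩ := e2
          intro hcon
          exact ((t8_ix_iff ⟨a, ha⟩ ⟨b, hb⟩ ⟨k', hk'⟩ ⟨m', hm'⟩).1 hcon).2.2.2.2.2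
            (hcmp ⟨a, ha⟩ ⟨b, hb⟩ ⟨p, hp⟩ ⟨q, hq⟩ h3 h1 hab ⟨m, hm⟩ ⟨m', hm'⟩ ⟨k, hk⟩ ⟨k', hk'⟩ h2 h4).2
        · intro β hβ
          obtain ⟨a, p, h1, h2⟩ := hch.2.2 β hβ
          obtain ⟨ha, hp⟩ := t8_mem_Nd.1 (hch.1 h1)
          obtain ⟨m, hm, m', hm', h3⟩ := hγ1 _ hp
          refine ⟨a, m', ?_, h2⟩
          rw [ZFSet.mem_sep, t8_mem_Nd]
          exact ⟨⟨ha, hm'⟩, a, ha.t8el hΩκ, m, t8_om_el hωκ hm, m', t8_om_el hωκ hm', p, t8_om_el hωκ hp, rfl, h1, h3⟩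
    · rintro ⟨⟨C, hC, hch⟩, C', hC', hch'⟩
      obtain ⟨b, hb, hbf, hb'⟩ := branch_of_chain hN' hΩ' hΩκ hκ' hX ⟨zX, hNN' hzX, hX'⟩ hC hch
      obtain ⟨c, hc, hcf, hc'⟩ := branch_of_chain hN' hΩ' hΩκ hκ' hY ⟨zY, hNN' hzY, hY'⟩ hC' hch'
      refine ⟨ZFSet.sep (fun t => ∃ a ∈ κ.toZFSet, ∃ m ∈ κ.toZFSet, ∃ m' ∈ κ.toZFSet, ∃ p ∈ κ.toZFSet,
          t = ZFSet.pair a p ∧ ZFSet.pair a m ∈ b ∧ ZFSet.pair a m' ∈ c ∧ ZFSet.pair (ZFSet.pair m m') p ∈ j)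
          (Nd Ω omZ), ?_, ?_, ?_, ?_⟩
      · refine hN'.sep_mem ?_ (t8_nd_mem hN' hΩ'.mem)
        refine Df.bex (P := fun v a => ∃ m ∈ κ.toZFSet, ∃ m' ∈ κ.toZFSet, ∃ p ∈ κ.toZFSet,
          (v 0).1 = ZFSet.pair a p ∧ ZFSet.pair a m ∈ b ∧ ZFSet.pair a m' ∈ c ∧ ZFSet.pair (ZFSet.pair m m') p ∈ j)
          (PD.const hκ') ?_
        refine Df.bex (P := fun v m => ∃ m' ∈ κ.toZFSet, ∃ p ∈ κ.toZFSet,
          (v 0).1 = ZFSet.pair (v 1).1 p ∧ ZFSet.pair (v 1).1 m ∈ b ∧ ZFSet.pair (v 1).1 m' ∈ c ∧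
            ZFSet.pair (ZFSet.pair m m') p ∈ j) (PD.const hκ') ?_
        refine Df.bex (P := fun v m' => ∃ p ∈ κ.toZFSet,
          (v 0).1 = ZFSet.pair (v 1).1 p ∧ ZFSet.pair (v 1).1 (v 2).1 ∈ b ∧ ZFSet.pair (v 1).1 m' ∈ c ∧
            ZFSet.pair (ZFSet.pair (v 2).1 m') p ∈ j) (PD.const hκ') ?_
        refine Df.bex (P := fun v p =>
          (v 0).1 = ZFSet.pair (v 1).1 p ∧ ZFSet.pair (v 1).1 (v 2).1 ∈ b ∧ ZFSet.pair (v 1).1 (v 3).1 ∈ c ∧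
            ZFSet.pair (ZFSet.pair (v 2).1 (v 3).1) p ∈ j) (PD.const hκ') ?_
        exact Dfn.and (Df.eq (PD.var _) (PD.pair (PD.var _) (PD.var _)))
            (Dfn.and (Df.mem (PD.pair (PD.var _) (PD.var _)) (PD.const hb))
            (Dfn.and (Df.mem (PD.pair (PD.var _) (PD.var _)) (PD.const hc))
            (Df.mem (PD.pair (PD.pair (PD.var _) (PD.var _)) (PD.var _)) (PD.const (hNN' hj)))))
      · intro t ht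
        exact (ZFSet.mem_sep.1 ht).1
      · intro x hx y hy hxy
        rw [ZFSet.mem_sep] at hx hy
        obtain ⟨hx0, a, ha, m, hm, m', hm', p, hp, rfl, h1, h2, h3⟩ := hx
        obtain ⟨hy0, d, hd, k, hk, k', hk', q, hq, rfl, h4, h5, h6⟩ := hy
        obtain ⟨a1, p1, b1, q1, e1, e2, hab⟩ := hxy
        rw [ZFSet.pair_inj] at e1 e2
        obtain ⟨rfl, rfl⟩ := e1
        obtain ⟨rfl, rfl⟩ := e2
        rw [t8_mem_Nd] at hx0 hy0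
        intro hcon
        exact ((t8_ix_iff ⟨a, ha⟩ ⟨d, hd⟩ ⟨q, hq⟩ ⟨p, hp⟩).1 hcon).2.2.2.2.2
          ((hZm _ _ _ _).2 ⟨⟨k, hk⟩, ⟨k', hk'⟩, ⟨m, hm⟩, ⟨m', hm'⟩, (hj2 _ _ _ h6).2.2.2,
            hb' ⟨a, ha⟩ ⟨d, hd⟩ ⟨k, hk⟩ ⟨m, hm⟩ hx0.1 hy0.1 hab h4 h1,
            hc' ⟨a, ha⟩ ⟨d, hd⟩ ⟨k', hk'⟩ ⟨m', hm'⟩ hx0.1 hy0.1 hab h5 h2, h3⟩)
      · intro β hβ
        obtain ⟨a, m0, h1, h2⟩ := hch.2.2 β hβ
        obtain ⟨ha, hm0⟩ := t8_mem_Nd.1 (hch.1 h1)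
        obtain ⟨m, hm, h3⟩ := hbf.tot a (t8_mem_LvZ.2 ha)
        obtain ⟨m', hm', h4⟩ := hcf.tot a (t8_mem_LvZ.2 ha)
        obtain ⟨p, hp, h5⟩ := hj1 _ hm _ hm'
        refine ⟨a, p, ?_, h2⟩
        rw [ZFSet.mem_sep, t8_mem_Nd]
        exact ⟨⟨ha, hp⟩, a, ha.t8el hΩκ, m, t8_om_el hωκ hm, m', t8_om_el hωκ hm', p, t8_om_el hωκ hp, rfl, h3, h4, h5⟩

end Pool.Agent.H17.CF
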