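import Pool.Agent.H17.CF.F.Bkk
import Pool.Agent.H17.CF.F.Tree
import Pool.Agent.H17.CF.D.Tup

/-!
# CF-F9: the generic trees of the rows

`En M Ω e`: `e ∈ M` enumerates for every level `a` the finite subsets of `a` by the natural numbers, bijectively:
`ap e (a, m)`. `exists_en`: each level `a ∈ LvZ Ω` is an infinite countable set of `M`, so `finS a` is countable and infinite
and there is a bijection from `ω` onto `finS a` in `M` (countable infinite sets of `M` have bijective enumerations in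
`M`: from an enumeration without repetitions, by `exists_enum` restricted to an `ω`-sequence, or by removing
repetitions recursively: `CTM.exists_omega_rec`); choose uniformly by `exists_choice` (Tk1).

`TT G e μ r` (4-ary relation on `El κ.toZFSet`): `![a, b, m, n] ∈ TT` iff `a ∈ b` are levels, `m, n ∈ ω` and for some `q ∈ G` with entries
`ent ρ a F, ent ρ b F' ∈ q` (`ρ = row μ r`): `e(a, n) = F △ ((F' △ e(b, m)) ∩ a)`.

`tt_indep`: for entries `F, F'` at `a ∈ b` in `q ∈ G` and `F₁, F₁'` in `q₁ ∈ G` the sets `F △ ((F' △ X) ∩ a)` and `F₁ △ ((F₁' △ X) ∩ a)`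
are equal: take `u ∈ G` below both, with translations `K`, `K₁`: `F △ K_ρ∩a = F₁ △ K₁ρ∩a` and `F' △ K_ρ∩b = F₁' △ K₁ρ∩b` (`fn` of `u`),
and `(K_ρ ∩ b) ∩ a = K_ρ ∩ a` since `a ⊆ b`.
`tt_tree`: `dom` clear; `tot`: `act_level` (with `c = ∅`, `H = G`) gives `q ∈ G` with entries at `a` and `b` (twice); the set
`F △ ((F' △ e(b,m)) ∩ a)` is in `finS a`, so it is `e(a, n)` for some `n`. `uni`: `tt_indep` and injectivity of `e(a, ·)`.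
`coh`: take `q ∈ G` with entries `F_a, F_b, F_d` at `a ∈ b ∈ d`; `F_a △ ((F_b △ (F_b △ ((F_d △ X) ∩ b))) ∩ a) = F_a △ ((F_d △ X) ∩ a)`.
`tt_mem`: uniformly in `(μ, r)`: there is `z ∈ M[G]` such that for all `μ < lam`, `r < 4`, `w`: `w ∈ TT G e μ r` iff
`(row μ r, tup w) ∈ z` (separation in `M[G]` with parameters `e`, and `γ` with the elements of `G`, `h.fr.mem_g`).
`act_set`: there is `z ∈ M[G]` with `row μ r ∈ z ↔ IsAct G (row μ r)` for `μ < lam`, `r < 4`.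
-/

set_option autoImplicit false
set_option linter.unusedVariables false
set_option linter.unusedSectionVars false
set_option linter.unusedSimpArgs false
set_option linter.unusedTactic false
set_option linter.unreachableTactic false

open Pool.Agent.H17.Omega Pool.Agent.H17.Omega.CTM Pool.Agent.H52.GC Pool.Agent.H7.IG

namespace Pool.Agent.H17.CF

variable {M : Set ZFSet.{0}} {κ Ω lam : Ordinal.{0}} {s : ZFSet.{0}} {G : Set ZFSet.{0}}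

/-- An infinite set that is countable in `M` has a bijective enumeration by `ω` in `M`. -/
theorem row_bij (hM : CTM M) {X : ZFSet.{0}} (hX : X ∈ M) (hc : Ctb M X) (hinf : {z | z ∈ X}.Infinite) :
    ∃ b ∈ M, Fn b omZ X ∧ (∀ x ∈ X, ∃ m ∈ omZ, ZFSet.pair m x ∈ b) ∧
      ∀ m ∈ omZ, ∀ n ∈ omZ, ∀ x, ZFSet.pair m x ∈ b → ZFSet.pair n x ∈ b → m = n := by
  classical
  obtain ⟨f, hf, hf'⟩ := hc
  have hfM : ∀ n, f n ∈ M := hM.seqZ_val hf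
  let Gd : ℕ → Prop := fun n => f n ∈ X ∧ ∀ m < n, f m ≠ f n
  let GZ : ZFSet.{0} → Prop := fun y => (∃ w ∈ X, ZFSet.pair y w ∈ seqZ f) ∧
    ∀ w ∈ X, ZFSet.pair y w ∈ seqZ f → ∀ m ∈ y, ZFSet.pair m w ∉ seqZ f
  have hGZ : ∀ n, GZ (natZ n) ↔ Gd n := by
    intro n
    constructor
    · rintro ⟨⟨w, hw, h1⟩, h2⟩
      have h3 := pair_mem_seqZ.1 h1
      refine ⟨h3 ▸ hw, fun m hm h4 => ?_⟩
      exact h2 w hw h1 (natZ m) (natZ_mem.2 hm) (pair_mem_seqZ.2 (by rw [h3, h4]))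
    · rintro ⟨h1, h2⟩
      refine ⟨⟨f n, h1, pair_mem_seqZ.2 rfl⟩, fun w _ hw m hm h3 => ?_⟩
      obtain ⟨m', hm', rfl⟩ := mem_natZ.1 hm
      exact h2 m' hm' ((pair_mem_seqZ.1 h3).symm.trans (pair_mem_seqZ.1 hw))
  have hGZd : ∀ {n : ℕ} {t : (Fin n → M) → ZFSet.{0}}, PD hM t → hM.Dfn (fun v => GZ (t v)) := by
    intro n t ht
    refine Dfn.and (Df.bex (P := fun v w => ZFSet.pair (t v) w ∈ seqZ f) (PD.const hX)
      (Df.mem (PD.pair ht.lift (PD.var _)) (PD.const hf))) ?_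
    refine Df.ball (P := fun v w => ZFSet.pair (t v) w ∈ seqZ f → ∀ m ∈ t v, ZFSet.pair m w ∉ seqZ f)
      (PD.const hX) (Dfn.imp (Df.mem (PD.pair ht.lift (PD.var _)) (PD.const hf)) ?_)
    exact Df.ball (P := fun v m => ZFSet.pair m (v (Fin.last n)).1 ∉ seqZ f) ht.lift
      (Dfn.not (Df.mem (PD.pair (PD.var _) (PD.var _)) (PD.const hf)))
  -- good indices are cofinal
  have hcof : ∀ n, ∃ k, n < k ∧ Gd k := by
    intro n
    have hfin : (f '' {m | m ≤ n}).Finite := (Set.finite_le_nat n).image f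
    obtain ⟨x, hx, hxn⟩ := (hinf.sdiff hfin).nonempty
    have hex : ∃ k, f k = x := hf' x hx
    refine ⟨Nat.find hex, ?_, ?_, fun m hm h1 => ?_⟩
    · by_contra h1
      exact hxn ⟨Nat.find hex, not_lt.1 h1, Nat.find_spec hex⟩
    · rw [Nat.find_spec hex]
      exact hx
    · exact Nat.find_min hex hm (h1.trans (Nat.find_spec hex))
  let S : M → M → Prop := fun x y => x.1 ∈ y.1 ∧ GZ y.1 ∧ ∀ z ∈ y.1, x.1 ∈ z → ¬ GZ z
  have hS : hM.Dfn (fun v : Fin 2 → M => S (v 0) (v 1)) := by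
    refine Dfn.and (Df.mem (PD.var _) (PD.var _)) (Dfn.and (hGZd (PD.var _)) ?_)
    exact Df.ball (P := fun v z => (v 0).1 ∈ z → ¬ GZ z) (PD.var (1 : Fin 2))
      (Dfn.imp (Df.mem (PD.var _) (PD.var _)) (Dfn.not (hGZd (PD.var _))))
  have hex0 : ∃ k, Gd k := by
    obtain ⟨k, -, hk⟩ := hcof 0
    exact ⟨k, hk⟩
  obtain ⟨g, g0, gD, gS, gM⟩ := hM.exists_omega_rec hS hM.omZ_mem (by
    intro x hx
    obtain ⟨n, hn⟩ := mem_omZ.1 hx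
    have hex : ∃ k, n < k ∧ Gd k := hcof n
    refine ⟨⟨natZ (Nat.find hex), hM.natZ_mem_N _⟩, natZ_mem_omZ _, ?_, ?_, ?_⟩
    · rw [hn]
      exact natZ_mem.2 (Nat.find_spec hex).1
    · exact (hGZ _).2 (Nat.find_spec hex).2
    · intro z hz hxz hG
      obtain ⟨m, hm, rfl⟩ := mem_natZ.1 hz
      rw [hn, natZ_mem] at hxz
      exact Nat.find_min hex hm ⟨hxz, (hGZ m).1 hG⟩) (by
    rintro x y y' hx hy hy' ⟨h1, h2, h3⟩ ⟨h1', h2', h3'⟩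
    obtain ⟨n, hn⟩ := mem_omZ.1 hy
    obtain ⟨n', hn'⟩ := mem_omZ.1 hy'
    apply Subtype.ext
    rw [hn, hn']
    rw [hn] at h1 h2 h3
    rw [hn'] at h1' h2' h3'
    rcases lt_trichotomy n n' with h | h | h
    · exact absurd h2 (h3' _ (natZ_mem.2 h) h1)
    · rw [h]
    · exact absurd h2' (h3 _ (natZ_mem.2 h) h1')) ⟨natZ (Nat.find hex0), hM.natZ_mem_N _⟩ (natZ_mem_omZ _)
  have hγ : ∀ k, ∃ n, (g k).1 = natZ n := fun k => mem_omZ.1 (gD k)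
  choose γ hγ using hγ
  have hγ0 : γ 0 = Nat.find hex0 := by
    have h1 := hγ 0
    rw [g0] at h1
    exact (natZ_inj.1 h1).symm
  have hstep : ∀ k, γ k < γ (k + 1) ∧ Gd (γ (k + 1)) ∧ ∀ m, γ k < m → m < γ (k + 1) → ¬ Gd m := by
    intro k
    obtain ⟨h1, h2, h3⟩ := gS k
    rw [hγ, hγ] at h1
    rw [hγ] at h2 h3
    refine ⟨natZ_mem.1 h1, (hGZ _).1 h2, fun m hm hm' hG => ?_⟩
    exact h3 (natZ m) (natZ_mem.2 hm') (by rw [hγ]; exact natZ_mem.2 hm) ((hGZ m).2 hG)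
  have hGd : ∀ k, Gd (γ k) := by
    intro k
    cases k with
    | zero => rw [hγ0]; exact Nat.find_spec hex0
    | succ k => exact (hstep k).2.1
  have hmono : StrictMono γ := strictMono_nat_of_lt_succ fun k => (hstep k).1
  have hsurj : ∀ n, Gd n → ∃ k, γ k = n := by
    intro n hn
    have h0 : γ 0 ≤ n := by rw [hγ0]; exact Nat.find_le (h := hex0) hn
    -- the last `k` with `γ k ≤ n`
    have hex : ∃ k, n < γ k := ⟨n + 1, lt_of_lt_of_le (Nat.lt_succ_self n) hmono.le_apply⟩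
    have h1 := Nat.find_spec hex
    cases hk : Nat.find hex with
    | zero =>
      rw [hk] at h1
      omega
    | succ k =>
      rw [hk] at h1
      have h2 : γ k ≤ n := not_lt.1 (Nat.find_min hex (by rw [hk]; exact Nat.lt_succ_self k))
      refine ⟨k, ?_⟩
      by_contra h3
      exact (hstep k).2.2 n (lt_of_le_of_ne h2 h3) h1 hn
  have hbM : seqZ (fun k => f (γ k)) ∈ M := by
    refine seqZ_mem_of_dfn hM (F := fun x y => ∃ w ∈ omZ, ZFSet.pair x.1 w ∈ seqZ (fun n => (g n).1) ∧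
      ZFSet.pair w y.1 ∈ seqZ f) ?_ ?_ (fun n => hfM _)
    · exact Df.bex (P := fun v w => ZFSet.pair (v 0).1 w ∈ seqZ (fun n => (g n).1) ∧
        ZFSet.pair w (v 1).1 ∈ seqZ f) (PD.const hM.omZ_mem) (Dfn.and
          (Df.mem (PD.pair (PD.var _) (PD.var _)) (PD.const gM))
          (Df.mem (PD.pair (PD.var _) (PD.var _)) (PD.const hf)))
    · intro n y
      constructor
      · rintro ⟨w, -, h1, h2⟩
        have h3 : w = (g n).1 := pair_mem_seqZ.1 h1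
        rw [h3, hγ] at h2
        exact pair_mem_seqZ.1 h2
      · intro h1
        refine ⟨(g n).1, gD n, pair_mem_seqZ.2 rfl, ?_⟩
        rw [hγ]
        exact pair_mem_seqZ.2 h1
  refine ⟨_, hbM, ⟨?_, ?_, ?_⟩, ?_, ?_⟩
  · intro z hz
    obtain ⟨n, rfl⟩ := mem_seqZ.1 hz
    exact ⟨natZ n, natZ_mem_omZ n, f (γ n), (hGd n).1, rfl⟩
  · intro x hx
    obtain ⟨n, rfl⟩ := mem_omZ.1 hx
    exact ⟨f (γ n), (hGd n).1, pair_mem_seqZ.2 rfl⟩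
  · intro x hx y _ y' _ h1 h2
    obtain ⟨n, rfl⟩ := mem_omZ.1 hx
    rw [pair_mem_seqZ.1 h1, pair_mem_seqZ.1 h2]
  · intro x hx
    have hex : ∃ k, f k = x := hf' x hx
    have hG : Gd (Nat.find hex) := by
      refine ⟨?_, fun m hm h1 => ?_⟩
      · rw [Nat.find_spec hex]
        exact hx
      · exact Nat.find_min hex hm (h1.trans (Nat.find_spec hex))
    obtain ⟨k, hk⟩ := hsurj _ hG
    refine ⟨natZ k, natZ_mem_omZ k, pair_mem_seqZ.2 ?_⟩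
    rw [hk, Nat.find_spec hex]
  · intro m hm n hn x h1 h2
    obtain ⟨m', rfl⟩ := mem_omZ.1 hm
    obtain ⟨n', rfl⟩ := mem_omZ.1 hn
    have e1 : x = f (γ m') := (pair_mem_seqZ (g := fun k => f (γ k)) (n := m')).1 h1
    have e2 : x = f (γ n') := (pair_mem_seqZ (g := fun k => f (γ k)) (n := n')).1 h2
    have h3 : f (γ m') = f (γ n') := e1.symm.trans e2
    rcases lt_trichotomy m' n' with h | h | h
    · exact absurd h3 ((hGd n').2 _ (hmono h))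
    · rw [h]
    · exact absurd h3.symm ((hGd m').2 _ (hmono h))

/-- `b` is a bijection from `ω` onto `finS a`. -/
def RowBij (a b : ZFSet.{0}) : Prop := (∀ z ∈ b, ∃ x ∈ omZ, ∃ y ∈ finS a, z = ZFSet.pair x y) ∧
  (∀ x ∈ omZ, ∃ y ∈ finS a, ZFSet.pair x y ∈ b) ∧
  (∀ x ∈ omZ, ∀ y ∈ finS a, ∀ y' ∈ finS a, ZFSet.pair x y ∈ b → ZFSet.pair x y' ∈ b → y = y') ∧
  (∀ x ∈ finS a, ∃ m ∈ omZ, ZFSet.pair m x ∈ b) ∧
  ∀ m ∈ omZ, ∀ n ∈ omZ, ∀ x ∈ finS a, ZFSet.pair m x ∈ b → ZFSet.pair n x ∈ b → m = n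

theorem Df.rowBij {hM : CTM M} {n : ℕ} {a b : (Fin n → M) → ZFSet.{0}} (ha : PD hM a) (hb : PD hM b) :
    hM.Dfn (fun v => RowBij (a v) (b v)) := by
  have hω : ∀ {k : ℕ}, PD hM (fun _ : Fin k → M => Omega.omZ) := fun {k} => PD.const hM.omZ_mem
  refine Dfn.and ?_ (Dfn.and ?_ (Dfn.and ?_ (Dfn.and ?_ ?_)))
  · refine Df.ball (P := fun v z => ∃ x ∈ Omega.omZ, ∃ y ∈ CF.finS (a v), z = ZFSet.pair x y) hb ?_
    refine Df.bex (P := fun v x => ∃ y ∈ CF.finS (a (fun i => v i.castSucc)), (v (Fin.last n)).1 = ZFSet.pair x y) hω ?_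
    refine Df.bex (P := fun v y => (v (Fin.last n).castSucc).1 = ZFSet.pair (v (Fin.last (n + 1))).1 y)
      (PD.finS ha).lift.lift ?_
    exact Df.eq (PD.var _) (PD.pair (PD.var _) (PD.var _))
  · refine Df.ball (P := fun v x => ∃ y ∈ CF.finS (a v), ZFSet.pair x y ∈ b v) hω ?_
    refine Df.bex (P := fun v y => ZFSet.pair (v (Fin.last n)).1 y ∈ b (fun i => v i.castSucc)) (PD.finS ha).lift ?_
    exact Df.mem (PD.pair (PD.var _) (PD.var _)) hb.lift.lift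
  · refine Df.ball (P := fun v x => ∀ y ∈ CF.finS (a v), ∀ y' ∈ CF.finS (a v), ZFSet.pair x y ∈ b v →
      ZFSet.pair x y' ∈ b v → y = y') hω ?_
    refine Df.ball (P := fun v y => ∀ y' ∈ CF.finS (a (fun i => v i.castSucc)),
      ZFSet.pair (v (Fin.last n)).1 y ∈ b (fun i => v i.castSucc) →
      ZFSet.pair (v (Fin.last n)).1 y' ∈ b (fun i => v i.castSucc) → y = y') (PD.finS ha).lift ?_
    refine Df.ball (P := fun v y' =>
      ZFSet.pair (v (Fin.last n).castSucc).1 (v (Fin.last (n + 1))).1 ∈ b (fun i => v i.castSucc.castSucc) →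
      ZFSet.pair (v (Fin.last n).castSucc).1 y' ∈ b (fun i => v i.castSucc.castSucc) →
      (v (Fin.last (n + 1))).1 = y') (PD.finS ha).lift.lift ?_
    exact Dfn.imp (Df.mem (PD.pair (PD.var _) (PD.var _)) hb.lift.lift.lift)
      (Dfn.imp (Df.mem (PD.pair (PD.var _) (PD.var _)) hb.lift.lift.lift) (Df.eq (PD.var _) (PD.var _)))
  · refine Df.ball (P := fun v x => ∃ m ∈ Omega.omZ, ZFSet.pair m x ∈ b v) (PD.finS ha) ?_
    refine Df.bex (P := fun v m => ZFSet.pair m (v (Fin.last n)).1 ∈ b (fun i => v i.castSucc)) hω ?_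
    exact Df.mem (PD.pair (PD.var _) (PD.var _)) hb.lift.lift
  · refine Df.ball (P := fun v m => ∀ n' ∈ Omega.omZ, ∀ x ∈ CF.finS (a v), ZFSet.pair m x ∈ b v →
      ZFSet.pair n' x ∈ b v → m = n') hω ?_
    refine Df.ball (P := fun v n' => ∀ x ∈ CF.finS (a (fun i => v i.castSucc)),
      ZFSet.pair (v (Fin.last n)).1 x ∈ b (fun i => v i.castSucc) →
      ZFSet.pair n' x ∈ b (fun i => v i.castSucc) → (v (Fin.last n)).1 = n') hω ?_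
    refine Df.ball (P := fun v x =>
      ZFSet.pair (v (Fin.last n).castSucc).1 x ∈ b (fun i => v i.castSucc.castSucc) →
      ZFSet.pair (v (Fin.last (n + 1))).1 x ∈ b (fun i => v i.castSucc.castSucc) →
      (v (Fin.last n).castSucc).1 = (v (Fin.last (n + 1))).1) (PD.finS ha).lift.lift ?_
    exact Dfn.imp (Df.mem (PD.pair (PD.var _) (PD.var _)) hb.lift.lift.lift)
      (Dfn.imp (Df.mem (PD.pair (PD.var _) (PD.var _)) hb.lift.lift.lift) (Df.eq (PD.var _) (PD.var _)))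

/-- Enumerations of the finite subsets of the levels. -/
structure En (M : Set ZFSet.{0}) (Ω : Ordinal.{0}) (e : ZFSet.{0}) : Prop where
  mem : e ∈ M
  fn : Fn e (ZFSet.prod (LvZ Ω) omZ) (finS Ω.toZFSet)
  val : ∀ a ∈ LvZ Ω, ∀ m ∈ omZ, ap e (ZFSet.pair a m) ∈ finS a
  sur : ∀ a ∈ LvZ Ω, ∀ F ∈ finS a, ∃ m ∈ omZ, ap e (ZFSet.pair a m) = F
  inj : ∀ a ∈ LvZ Ω, ∀ m ∈ omZ, ∀ n ∈ omZ, ap e (ZFSet.pair a m) = ap e (ZFSet.pair a n) → m = n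

theorem row_lev_sub {a : ZFSet.{0}} (ha : a ∈ LvZ Ω) : a ⊆ Ω.toZFSet := by
  rw [LvZ, ZFSet.mem_sep] at ha
  exact (ZFSet.isOrdinal_toZFSet Ω).isTransitive a ha.1

theorem row_finS_mono {a b : ZFSet.{0}} (h : a ⊆ b) : finS a ⊆ finS b := by
  intro z hz
  rw [mem_finS] at hz ⊢
  exact ⟨fun x hx => h (hz.1 hx), hz.2⟩

theorem exists_en (hM : CTM M) (hΩ : IsOm1 M Ω) : ∃ e, En M Ω e := by
  have hΩM : Ω.toZFSet ∈ M := hΩ.mem
  have hLM : LvZ Ω ∈ M := (PD.LvZ (hN := hM) (n := 0) hΩM).1 Fin.elim0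
  have hfin : ∀ {x : ZFSet.{0}}, x ∈ M → finS x ∈ M := fun {x} hx =>
    (PD.finS (hN := hM) (n := 0) (PD.const hx)).1 Fin.elim0
  have hFM : finS Ω.toZFSet ∈ M := hfin hΩM
  obtain ⟨B, hB, hB'⟩ := hM.exists_pow (hM.prod_mem hM.omZ_mem hFM)
  have hlev : ∀ a ∈ LvZ Ω, ∃ b ∈ M, b ∈ B ∧ RowBij a b := by
    intro a ha
    have hsub := row_lev_sub ha
    rw [LvZ, ZFSet.mem_sep] at ha
    obtain ⟨α, hα, rfl⟩ := Ordinal.mem_toZFSet_iff.1 ha.1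
    have haM : α.toZFSet ∈ M := hM.mem_of_mem hΩM ha.1
    have hc : Ctb M (finS α.toZFSet) := Ctb.fin hM (hΩ.ctb α hα) (fun y hy => mem_finS.1 hy)
    have hinf : {z | z ∈ finS α.toZFSet}.Infinite := by
      refine Set.infinite_of_injective_forall_mem (f := fun n : ℕ => ({natZ n} : ZFSet.{0})) ?_ ?_
      · intro m n h
        exact natZ_inj.1 (ZFSet.singleton_injective h)
      · intro n
        show ({natZ n} : ZFSet.{0}) ∈ finS α.toZFSet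
        rw [mem_finS]
        refine ⟨fun z hz => ?_, {natZ n}, fun z => by simp⟩
        rw [ZFSet.mem_singleton.1 hz]
        exact ha.2 (natZ_mem_omZ n)
    obtain ⟨b, hb, h1, h2, h3⟩ := row_bij hM (hfin haM) hc hinf
    refine ⟨b, hb, (hB' b).2 ⟨hb, fun z hz => ?_⟩, h1.sub, h1.tot, h1.uni, h2,
      fun m hm n hn x _ hx hx' => h3 m hm n hn x hx hx'⟩
    obtain ⟨x, hx, y, hy, rfl⟩ := h1.sub z hz
    exact ZFSet.pair_mem_prod.2 ⟨hx, row_finS_mono hsub hy⟩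
  obtain ⟨f, hf, hfn, hfF⟩ := exists_choice hM (F := fun a b : M => RowBij a.1 b.1)
    (Df.rowBij (PD.var 0) (PD.var 1)) hLM hB (fun x hx => by
      obtain ⟨b, hb, hbB, hbij⟩ := hlev x.1 hx
      exact ⟨⟨b, hb⟩, hbB, hbij⟩)
  have heM : ZFSet.sep (fun z => ∃ a ∈ LvZ Ω, ∃ m ∈ omZ, ∃ t ∈ finS Ω.toZFSet,
      z = ZFSet.pair (ZFSet.pair a m) t ∧ ∃ b ∈ B, ZFSet.pair a b ∈ f ∧ ZFSet.pair m t ∈ b)
      (ZFSet.prod (ZFSet.prod (LvZ Ω) omZ) (finS Ω.toZFSet)) ∈ M := by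
    refine (PD.sep (hN := hM) (n := 0) (P := fun _ z => ∃ a ∈ LvZ Ω, ∃ m ∈ omZ, ∃ t ∈ finS Ω.toZFSet,
      z = ZFSet.pair (ZFSet.pair a m) t ∧ ∃ b ∈ B, ZFSet.pair a b ∈ f ∧ ZFSet.pair m t ∈ b)
      (PD.const (hM.prod_mem (hM.prod_mem hLM hM.omZ_mem) hFM)) ?_).1 Fin.elim0
    refine Df.bex (P := fun v a => ∃ m ∈ omZ, ∃ t ∈ finS Ω.toZFSet,
      (v (0 : Fin 1)).1 = ZFSet.pair (ZFSet.pair a m) t ∧ ∃ b ∈ B, ZFSet.pair a b ∈ f ∧ ZFSet.pair m t ∈ b)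
      (PD.const hLM) ?_
    refine Df.bex (P := fun v m => ∃ t ∈ finS Ω.toZFSet, (v (0 : Fin 2)).1 = ZFSet.pair (ZFSet.pair (v 1).1 m) t ∧
      ∃ b ∈ B, ZFSet.pair (v 1).1 b ∈ f ∧ ZFSet.pair m t ∈ b) (PD.const hM.omZ_mem) ?_
    refine Df.bex (P := fun v t => (v (0 : Fin 3)).1 = ZFSet.pair (ZFSet.pair (v 1).1 (v 2).1) t ∧
      ∃ b ∈ B, ZFSet.pair (v 1).1 b ∈ f ∧ ZFSet.pair (v 2).1 t ∈ b) (PD.const hFM) ?_
    refine Dfn.and (Df.eq (PD.var _) (PD.pair (PD.pair (PD.var _) (PD.var _)) (PD.var _))) ?_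
    refine Df.bex (P := fun v b => ZFSet.pair (v (1 : Fin 4)).1 b ∈ f ∧ ZFSet.pair (v 2).1 (v 3).1 ∈ b)
      (PD.const hB) ?_
    exact Dfn.and (Df.mem (PD.pair (PD.var _) (PD.var _)) (PD.const hf))
      (Df.mem (PD.pair (PD.var _) (PD.var _)) (PD.var _))
  set e := ZFSet.sep (fun z => ∃ a ∈ LvZ Ω, ∃ m ∈ omZ, ∃ t ∈ finS Ω.toZFSet,
      z = ZFSet.pair (ZFSet.pair a m) t ∧ ∃ b ∈ B, ZFSet.pair a b ∈ f ∧ ZFSet.pair m t ∈ b)
      (ZFSet.prod (ZFSet.prod (LvZ Ω) omZ) (finS Ω.toZFSet)) with he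
  have key : ∀ a ∈ LvZ Ω, ∃ b, RowBij a b ∧ ∀ m ∈ omZ, ∀ t, ZFSet.pair (ZFSet.pair a m) t ∈ e ↔
      ZFSet.pair m t ∈ b := by
    intro a ha
    obtain ⟨b, hb, hab⟩ := hfn.tot a ha
    have hbij : RowBij a b := hfF ⟨a, hM.mem_of_mem hLM ha⟩ ⟨b, hM.mem_of_mem hB hb⟩ hab
    refine ⟨b, hbij, fun m hm t => ?_⟩
    rw [he, ZFSet.mem_sep]
    constructor
    · rintro ⟨-, a', ha', m', hm', t', ht', h1, b', hb', h2, h3⟩
      rw [ZFSet.pair_inj, ZFSet.pair_inj] at h1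
      obtain ⟨⟨rfl, rfl⟩, rfl⟩ := h1
      rw [hfn.uni a ha b hb b' hb' hab h2]
      exact h3
    · intro h1
      obtain ⟨x, hx, y, hy, h2⟩ := hbij.1 _ h1
      rw [ZFSet.pair_inj] at h2
      have ht : t ∈ finS Ω.toZFSet := by
        rw [h2.2]
        exact row_finS_mono (row_lev_sub ha) hy
      exact ⟨ZFSet.pair_mem_prod.2 ⟨ZFSet.pair_mem_prod.2 ⟨ha, hm⟩, ht⟩, a, ha, m, hm, t, ht, rfl, b, hb, hab, h1⟩
  have hfnE : Fn e (ZFSet.prod (LvZ Ω) omZ) (finS Ω.toZFSet) := by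
    refine ⟨fun z hz => ?_, fun x hx => ?_, fun x hx y hy y' hy' h1 h2 => ?_⟩
    · obtain ⟨h1, -⟩ := ZFSet.mem_sep.1 hz
      exact ZFSet.mem_prod.1 h1
    · obtain ⟨a, ha, m, hm, rfl⟩ := ZFSet.mem_prod.1 hx
      obtain ⟨b, hb, hk⟩ := key a ha
      obtain ⟨y, hy, hxy⟩ := hb.2.1 m hm
      exact ⟨y, row_finS_mono (row_lev_sub ha) hy, (hk m hm y).2 hxy⟩
    · obtain ⟨a, ha, m, hm, rfl⟩ := ZFSet.mem_prod.1 hx
      obtain ⟨b, hb, hk⟩ := key a ha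
      have h3 := (hk m hm y).1 h1
      have h4 := (hk m hm y').1 h2
      have hval : ∀ t, ZFSet.pair m t ∈ b → t ∈ finS a := by
        intro t ht
        obtain ⟨x, hx, y, hy, h5⟩ := hb.1 _ ht
        rw [(ZFSet.pair_inj.1 h5).2]
        exact hy
      exact hb.2.2.1 m hm y (hval y h3) y' (hval y' h4) h3 h4
  have hval : ∀ a ∈ LvZ Ω, ∀ b, RowBij a b → ∀ m t, ZFSet.pair m t ∈ b → t ∈ finS a := by
    intro a ha b hb m t ht
    obtain ⟨x, hx, y, hy, h5⟩ := hb.1 _ ht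
    rw [(ZFSet.pair_inj.1 h5).2]
    exact hy
  refine ⟨e, heM, hfnE, fun a ha m hm => ?_, fun a ha F hF => ?_, fun a ha m hm n hn h => ?_⟩
  · obtain ⟨b, hb, hk⟩ := key a ha
    exact hval a ha b hb m _ ((hk m hm _).1 (hfnE.ap_mem (ZFSet.pair_mem_prod.2 ⟨ha, hm⟩)).2)
  · obtain ⟨b, hb, hk⟩ := key a ha
    obtain ⟨m, hm, h1⟩ := hb.2.2.2.1 F hF
    exact ⟨m, hm, hfnE.ap_eq ((hk m hm F).2 h1)⟩
  · obtain ⟨b, hb, hk⟩ := key a ha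
    have h1 := (hk m hm _).1 (hfnE.ap_mem (ZFSet.pair_mem_prod.2 ⟨ha, hm⟩)).2
    have h2 := (hk n hn _).1 (hfnE.ap_mem (ZFSet.pair_mem_prod.2 ⟨ha, hn⟩)).2
    rw [← h] at h2
    exact hb.2.2.2.2 m hm n hn _ (hval a ha b hb m _ h1) h1 h2

/-- The tree of the row `(μ, r)`. -/
def TT (κ Ω : Ordinal.{0}) (G : Set ZFSet.{0}) (e μ : ZFSet.{0}) (r : ℕ) : Set (Fin 4 → El κ.toZFSet) :=
  {w | (w 0).1 ∈ LvZ Ω ∧ (w 1).1 ∈ LvZ Ω ∧ (w 0).1 ∈ (w 1).1 ∧ (w 2).1 ∈ omZ ∧ (w 3).1 ∈ omZ ∧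
    ∃ q ∈ G, ∃ F F', ent (row μ r) (w 0).1 F ∈ q ∧ ent (row μ r) (w 1).1 F' ∈ q ∧
      ap e (ZFSet.pair (w 0).1 (w 3).1) = symZ F (symZ F' (ap e (ZFSet.pair (w 1).1 (w 2).1)) ∩ (w 0).1)}

theorem row_lev_tr {a b : ZFSet.{0}} (hb : b ∈ LvZ Ω) (hab : a ∈ b) : a ⊆ b := by
  rw [LvZ, ZFSet.mem_sep] at hb
  obtain ⟨β, hβ, rfl⟩ := Ordinal.mem_toZFSet_iff.1 hb.1
  exact (ZFSet.isOrdinal_toZFSet β).isTransitive a hab

/-- Elements of `G` have a common extension in `G`, and the entries are translated. -/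
theorem row_dir (h : St M κ Ω lam s G) {q q₁ : ZFSet.{0}} (hq : q ∈ G) (hq₁ : q₁ ∈ G) :
    ∃ u ∈ G, (∃ K, ∀ ρ y z, ent ρ y z ∈ q → ent ρ y (tr K ρ y z) ∈ u) ∧
      ∃ K, ∀ ρ y z, ent ρ y z ∈ q₁ → ent ρ y (tr K ρ y z) ∈ u := by
  obtain ⟨u, hu, h1, h2⟩ := h.fr.gen.dir q hq q₁ hq₁
  obtain ⟨K, -, -, hK⟩ := (mem_Ln.1 h1).2.2
  obtain ⟨K', -, -, hK'⟩ := (mem_Ln.1 h2).2.2
  exact ⟨u, hu, ⟨K, hK⟩, ⟨K', hK'⟩⟩

theorem row_isC (h : St M κ Ω lam s G) {q : ZFSet.{0}} (hq : q ∈ G) : IsC Ω s q :=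
  (ZFSet.mem_sep.1 (h.fr.gen.sub q hq)).2

theorem row_inter {a b k : ZFSet.{0}} : k ∈ a ∩ b ↔ k ∈ a ∧ k ∈ b := ZFSet.mem_inter

theorem tt_indep (h : St M κ Ω lam s G) {μ a b X F F' F₁ F₁' q q₁ : ZFSet.{0}} {r : ℕ} (hab : a ∈ b) (hb : b ∈ LvZ Ω)
    (hq : q ∈ G) (hq₁ : q₁ ∈ G) (h1 : ent (row μ r) a F ∈ q) (h2 : ent (row μ r) b F' ∈ q)
    (h3 : ent (row μ r) a F₁ ∈ q₁) (h4 : ent (row μ r) b F₁' ∈ q₁) :
    symZ F (symZ F' X ∩ a) = symZ F₁ (symZ F₁' X ∩ a) := by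
  obtain ⟨u, hu, ⟨K, hK⟩, ⟨K', hK'⟩⟩ := row_dir h hq hq₁
  have e1 := (row_isC h hu).fn _ _ _ _ (hK _ _ _ h1) (hK' _ _ _ h3)
  have e2 := (row_isC h hu).fn _ _ _ _ (hK _ _ _ h2) (hK' _ _ _ h4)
  ext k
  have f1 : k ∈ tr K (row μ r) a F ↔ k ∈ tr K' (row μ r) a F₁ := by rw [e1]
  have f2 : k ∈ tr K (row μ r) b F' ↔ k ∈ tr K' (row μ r) b F₁' := by rw [e2]
  have hsub : k ∈ a → k ∈ b := fun hk => row_lev_tr hb hab hk
  rw [mem_tr, mem_tr] at f1 f2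
  rw [mem_symZ, mem_symZ, row_inter, row_inter, mem_symZ, mem_symZ]
  by_cases c1 : k ∈ a
  · have c2 : k ∈ b := hsub c1
    by_cases c3 : k ∈ F <;> by_cases c4 : k ∈ F' <;> by_cases c5 : k ∈ F₁ <;> by_cases c6 : k ∈ F₁' <;>
      by_cases c7 : k ∈ X <;> by_cases c8 : ZFSet.pair (row μ r) k ∈ K <;>
      by_cases c9 : ZFSet.pair (row μ r) k ∈ K' <;> simp_all
  · by_cases c3 : k ∈ F <;> by_cases c5 : k ∈ F₁ <;> simp_all

theorem mem_TT {e μ : ZFSet.{0}} {r : ℕ} {a b m n : El κ.toZFSet} : ![a, b, m, n] ∈ TT κ Ω G e μ r ↔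
    a.1 ∈ LvZ Ω ∧ b.1 ∈ LvZ Ω ∧ a.1 ∈ b.1 ∧ m.1 ∈ omZ ∧ n.1 ∈ omZ ∧
    ∃ q ∈ G, ∃ F F', ent (row μ r) a.1 F ∈ q ∧ ent (row μ r) b.1 F' ∈ q ∧
      ap e (ZFSet.pair a.1 n.1) = symZ F (symZ F' (ap e (ZFSet.pair b.1 m.1)) ∩ a.1) := Iff.rfl

theorem row_self (h : St M κ Ω lam s G) : Gd M Ω lam s G ∅ G := ⟨h.fr, fun p hp => hp⟩

theorem row_lvl {a : ZFSet.{0}} : Lvl Ω a ↔ a ∈ LvZ Ω := by
  rw [Lvl, LvZ, ZFSet.mem_sep]

theorem tt_tree (h : St M κ Ω lam s G) {e : ZFSet.{0}} (he : En M Ω e) {μ : Ordinal.{0}} (hμ : μ < lam) {r : ℕ}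
    (hr : r < 4) (ha : IsAct G (row μ.toZFSet r)) : IsTree Ω (TT κ Ω G e μ.toZFSet r) := by
  have hM := h.bk.cv.hM
  have hωκ : omZ ⊆ κ.toZFSet := by
    intro x hx
    obtain ⟨n, rfl⟩ := mem_omZ.1 hx
    rw [natZ_eq]
    exact Ordinal.toZFSet_mem_toZFSet_iff.2 ((Ordinal.natCast_lt_omega0 n).trans_le h.bk.cv.hκω)
  have hval : ∀ {q : ZFSet.{0}}, q ∈ G → ∀ {a F : ZFSet.{0}}, ent (row μ.toZFSet r) a F ∈ q → F ∈ finS a := by
    intro q hq a F hF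
    obtain ⟨μ', y, z, h1 | h1⟩ := (row_isC h hq).ty _ hF
    · obtain ⟨r', hr', h1, -, h2⟩ := h1
      obtain ⟨-, h3, h4⟩ := ent_inj.1 h1
      rw [h3, h4]
      exact h2
    · exfalso
      have h2 := (ent_inj.1 h1.1).1
      unfold row at h2
      rw [ZFSet.pair_inj, natZ_inj] at h2
      omega
  refine ⟨?_, ?_, ?_, ?_⟩
  · intro w hw
    exact ⟨row_lvl.2 hw.1, row_lvl.2 hw.2.1, hw.2.2.1, hw.2.2.2.1, hw.2.2.2.2.1⟩
  · intro a b m hla hlb hab hm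
    obtain ⟨p, hp⟩ := h.fr.gen.ne
    have hla' := row_lvl.1 hla
    have hlb' := row_lvl.1 hlb
    obtain ⟨q₁, hq₁, -, F₁, hF₁⟩ := act_level h hμ hr ha hM.empty_mem (row_self h) hla' hp
    obtain ⟨q, hq, hle, F', hF'⟩ := act_level h hμ hr ha hM.empty_mem (row_self h) hlb' hq₁
    obtain ⟨K, -, -, hK⟩ := hle
    have hF := hK _ _ _ hF₁
    have hY : symZ (tr K (row μ.toZFSet r) a.1 F₁) (symZ F' (ap e (ZFSet.pair b.1 m.1)) ∩ a.1) ∈ finS a.1 := by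
      have h1 := mem_finS.1 (hval hq hF)
      have h2 := mem_finS.1 (hval hq hF')
      have h3 := mem_finS.1 (he.val b.1 hlb' m.1 hm)
      rw [mem_finS]
      refine ⟨fun k hk => ?_, finZ_iff_finite.2 ?_⟩
      · rcases mem_symZ.1 hk with h4 | h4
        · exact h1.1 h4.1
        · exact (row_inter.1 h4.1).2
      · refine (((finZ_iff_finite.1 h1.2).union ((finZ_iff_finite.1 h2.2).union
          (finZ_iff_finite.1 h3.2)))).subset fun k hk => ?_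
        rcases mem_symZ.1 hk with h4 | h4
        · exact Or.inl h4.1
        · rcases mem_symZ.1 (row_inter.1 h4.1).1 with h5 | h5
          · exact Or.inr (Or.inl h5.1)
          · exact Or.inr (Or.inr h5.1)
    obtain ⟨n, hn, hn'⟩ := he.sur a.1 hla' _ hY
    exact ⟨⟨n, hωκ hn⟩, mem_TT.2 ⟨hla', hlb', hab, hm, hn, q, hq, _, F', hF, hF', hn'⟩⟩
  · intro a b m n n' h1 h2
    obtain ⟨h3, h4, h5, h6, h7, q, hq, F, F', h8, h9, h10⟩ := mem_TT.1 h1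
    obtain ⟨-, -, -, -, h7', q', hq', F₁, F₁', h8', h9', h10'⟩ := mem_TT.1 h2
    refine Subtype.ext (he.inj a.1 h3 n.1 h7 n'.1 h7' ?_)
    rw [h10, h10']
    exact tt_indep h h5 h4 hq hq' h8 h9 h8' h9'
  · intro a b c m n l h1 h2
    obtain ⟨lb, lc, hbc, hm, hn, q, hq, F, F', h8, h9, h10⟩ := mem_TT.1 h1
    obtain ⟨la, -, hab, -, hl, q', hq', F₁, F₁', h8', h9', h10'⟩ := mem_TT.1 h2
    have hac : a.1 ∈ c.1 := row_lev_tr lc hbc hab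
    obtain ⟨u, hu, ⟨K, hK⟩, ⟨K', hK'⟩⟩ := row_dir h hq hq'
    have eb := hK _ _ _ h8
    have ec := hK _ _ _ h9
    have ea := hK' _ _ _ h8'
    refine mem_TT.2 ⟨la, lc, hac, hm, hl, u, hu, _, _, ea, ec, ?_⟩
    rw [h10', tt_indep h hab lb hq' hu h8' h9' ea eb, h10, tt_indep h hbc lc hq hu h8 h9 eb ec]
    congr 1
    ext k
    have hsub : k ∈ a.1 → k ∈ b.1 := fun hk => row_lev_tr lb hab hk
    simp only [row_inter, mem_symZ]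
    by_cases c1 : k ∈ a.1
    · have c2 := hsub c1
      simp only [c1, c2, and_true]
      generalize (k ∈ tr K (row μ.toZFSet r) b.1 F) = P1
      generalize (k ∈ tr K (row μ.toZFSet r) c.1 F') = P2
      generalize (k ∈ ap e (ZFSet.pair c.1 m.1)) = P3
      by_cases d1 : P1 <;> by_cases d2 : P2 <;> by_cases d3 : P3 <;> simp [d1, d2, d3]
    · simp only [c1, and_false]

theorem tt_mem (h : St M κ Ω lam s G) {e : ZFSet.{0}} (he : En M Ω e) :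
    ∃ z ∈ ExtZ M G, ∀ (μ : Ordinal.{0}) (r : ℕ), μ < lam → r < 4 → ∀ w : Fin 4 → El κ.toZFSet,
      w ∈ TT κ Ω G e μ.toZFSet r ↔
        ZFSet.pair (ZFSet.pair μ.toZFSet (natZ r)) (tup (fun i => (w i).1)) ∈ z := by
  have hM := h.bk.cv.hM
  have hN : CTM (ExtZ M G) := h.fr.ctm
  have hMN : M ⊆ ExtZ M G := h.fr.sub
  obtain ⟨γ, hγN, hγ⟩ := h.fr.mem_g
  have hΩN : Ω.toZFSet ∈ ExtZ M G := hMN h.bk.cv.hΩ.mem
  have hLN : LvZ Ω ∈ ExtZ M G := (PD.LvZ (hN := hN) (n := 0) hΩN).1 Fin.elim0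
  have hFN : finS Ω.toZFSet ∈ ExtZ M G := (PD.finS (hN := hN) (n := 0) (PD.const hΩN)).1 Fin.elim0
  have hlN : lam.toZFSet ∈ ExtZ M G := hMN h.bk.cv.hlamN
  obtain ⟨T, hT, hT'⟩ := D.exists_tups hN (hMN h.bk.cv.hκN) 4
  let C : (Fin 5 → ExtZ M G) → Prop := fun w => (w 0).1 ∈ LvZ Ω ∧ (w 1).1 ∈ LvZ Ω ∧ (w 0).1 ∈ (w 1).1 ∧
    (w 2).1 ∈ omZ ∧ (w 3).1 ∈ omZ ∧ ∃ q ∈ γ, ∃ F, ent (w 4).1 (w 0).1 F ∈ q ∧ ∃ F', ent (w 4).1 (w 1).1 F' ∈ q ∧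
      ∃ u ∈ finS Ω.toZFSet, ZFSet.pair (ZFSet.pair (w 0).1 (w 3).1) u ∈ e ∧
        ∃ v ∈ finS Ω.toZFSet, ZFSet.pair (ZFSet.pair (w 1).1 (w 2).1) v ∈ e ∧ u = symZ F (symZ F' v ∩ (w 0).1)
  have hC : hN.Dfn C := by
    refine Dfn.and (Df.mem (PD.var _) (PD.const hLN)) (Dfn.and (Df.mem (PD.var _) (PD.const hLN))
      (Dfn.and (Df.mem (PD.var _) (PD.var _)) (Dfn.and (Df.mem (PD.var _) (PD.const hN.omZ_mem))
        (Dfn.and (Df.mem (PD.var _) (PD.const hN.omZ_mem)) ?_))))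
    refine Df.bex (P := fun w q => ∃ F, ent (w 4).1 (w 0).1 F ∈ q ∧ ∃ F', ent (w 4).1 (w 1).1 F' ∈ q ∧
      ∃ u ∈ finS Ω.toZFSet, ZFSet.pair (ZFSet.pair (w 0).1 (w 3).1) u ∈ e ∧
        ∃ v ∈ finS Ω.toZFSet, ZFSet.pair (ZFSet.pair (w 1).1 (w 2).1) v ∈ e ∧ u = symZ F (symZ F' v ∩ (w 0).1))
      (PD.const hγN) ?_
    refine Df.exM (P := fun (w : Fin 6 → ExtZ M G) F => ent (w 4).1 (w 0).1 F ∈ (w 5).1 ∧
      ∃ F', ent (w 4).1 (w 1).1 F' ∈ (w 5).1 ∧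
      ∃ u ∈ finS Ω.toZFSet, ZFSet.pair (ZFSet.pair (w 0).1 (w 3).1) u ∈ e ∧
        ∃ v ∈ finS Ω.toZFSet, ZFSet.pair (ZFSet.pair (w 1).1 (w 2).1) v ∈ e ∧ u = symZ F (symZ F' v ∩ (w 0).1)) ?_ ?_
    · rintro v F ⟨h1, -⟩
      exact (dx_ent (v 5).2 hN h1).2.2
    refine Dfn.and (Df.mem (PD.ent (PD.var _) (PD.var _) (PD.var _)) (PD.var _)) ?_
    refine Df.exM (P := fun (w : Fin 7 → ExtZ M G) F' => ent (w 4).1 (w 1).1 F' ∈ (w 5).1 ∧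
      ∃ u ∈ finS Ω.toZFSet, ZFSet.pair (ZFSet.pair (w 0).1 (w 3).1) u ∈ e ∧
        ∃ v ∈ finS Ω.toZFSet, ZFSet.pair (ZFSet.pair (w 1).1 (w 2).1) v ∈ e ∧
          u = symZ (w 6).1 (symZ F' v ∩ (w 0).1)) ?_ ?_
    · rintro v F ⟨h1, -⟩
      exact (dx_ent (v 5).2 hN h1).2.2
    refine Dfn.and (Df.mem (PD.ent (PD.var _) (PD.var _) (PD.var _)) (PD.var _)) ?_
    refine Df.bex (P := fun (w : Fin 8 → ExtZ M G) u => ZFSet.pair (ZFSet.pair (w 0).1 (w 3).1) u ∈ e ∧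
        ∃ v ∈ finS Ω.toZFSet, ZFSet.pair (ZFSet.pair (w 1).1 (w 2).1) v ∈ e ∧
          u = symZ (w 6).1 (symZ (w 7).1 v ∩ (w 0).1)) (PD.const hFN) ?_
    refine Dfn.and (Df.mem (PD.pair (PD.pair (PD.var _) (PD.var _)) (PD.var _)) (PD.const (hMN he.mem))) ?_
    refine Df.bex (P := fun (w : Fin 9 → ExtZ M G) v => ZFSet.pair (ZFSet.pair (w 1).1 (w 2).1) v ∈ e ∧
          (w 8).1 = symZ (w 6).1 (symZ (w 7).1 v ∩ (w 0).1)) (PD.const hFN) ?_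
    refine Dfn.and (Df.mem (PD.pair (PD.pair (PD.var _) (PD.var _)) (PD.var _)) (PD.const (hMN he.mem))) ?_
    have hsym : ∀ {n : ℕ} {x y : (Fin n → ExtZ M G) → ZFSet.{0}}, PD hN x → PD hN y →
        PD hN (fun v => symZ (x v) (y v)) := fun hx hy => PD.union (PD.sdiff hx hy) (PD.sdiff hy hx)
    exact Df.eq (PD.var _) (hsym (PD.var _) (PD.inter (hsym (PD.var _) (PD.var _)) (PD.var _)))
  have h1 : hN.Dfn (fun v : Fin 1 → ExtZ M G => ∃ w : Fin 5 → ExtZ M G,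
      (v 0).1 = ZFSet.pair (w 4).1 (tup (fun i : Fin 4 => (w i.castSucc).1)) ∧ C w) := by
    have h2 : hN.Dfn (fun v : Fin (1 + 5) → ExtZ M G => (v (Fin.castAdd 5 0)).1 =
        ZFSet.pair (v (Fin.natAdd 1 4)).1 (tup (fun i : Fin 4 => (v (Fin.natAdd 1 i.castSucc)).1)) ∧
          C (fun i => v (Fin.natAdd 1 i))) :=
      (Df.eq (PD.var _) (PD.pair (PD.var _) (D.PD_tup fun i => PD.var _))).and (reidxC hC _)
    refine (exFinC 5 h2).congr fun v => ?_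
    refine exists_congr fun w => ?_
    simp only [Fin.append_left, Fin.append_right]
  obtain ⟨z, hz, hz'⟩ := hN.exists_sep (P := fun x => ∃ w : Fin 5 → ExtZ M G,
      x.1 = ZFSet.pair (w 4).1 (tup (fun i : Fin 4 => (w i.castSucc).1)) ∧ C w) h1
      (hN.prod_mem (hN.prod_mem hlN (hN.natZ_mem_N 4)) hT)
  refine ⟨z, hz, fun μ r hμ hr w => ?_⟩
  have hρ : ZFSet.pair μ.toZFSet (natZ r) ∈ ZFSet.prod lam.toZFSet (natZ 4) :=
    ZFSet.pair_mem_prod.2 ⟨Ordinal.toZFSet_mem_toZFSet_iff.2 hμ, natZ_mem.2 hr⟩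
  have hρN : ZFSet.pair μ.toZFSet (natZ r) ∈ ExtZ M G :=
    hN.mem_of_mem (hN.prod_mem hlN (hN.natZ_mem_N 4)) hρ
  have hwN : ∀ i, (w i).1 ∈ ExtZ M G := fun i => hN.mem_of_mem (hMN h.bk.cv.hκN) (w i).2
  have hCiff : ∀ w' : Fin 5 → ExtZ M G, (w' 4).1 = ZFSet.pair μ.toZFSet (natZ r) →
      (∀ i : Fin 4, (w' i.castSucc).1 = (w i).1) → (C w' ↔ w ∈ TT κ Ω G e μ.toZFSet r) := by
    intro w' e4 ew
    have e0 : (w' 0).1 = (w 0).1 := ew 0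
    have e1 : (w' 1).1 = (w 1).1 := ew 1
    have e2 : (w' 2).1 = (w 2).1 := ew 2
    have e3 : (w' 3).1 = (w 3).1 := ew 3
    show ((w' 0).1 ∈ LvZ Ω ∧ (w' 1).1 ∈ LvZ Ω ∧ (w' 0).1 ∈ (w' 1).1 ∧
      (w' 2).1 ∈ omZ ∧ (w' 3).1 ∈ omZ ∧ ∃ q ∈ γ, ∃ F, ent (w' 4).1 (w' 0).1 F ∈ q ∧ ∃ F',
        ent (w' 4).1 (w' 1).1 F' ∈ q ∧
      ∃ u ∈ finS Ω.toZFSet, ZFSet.pair (ZFSet.pair (w' 0).1 (w' 3).1) u ∈ e ∧
        ∃ v ∈ finS Ω.toZFSet, ZFSet.pair (ZFSet.pair (w' 1).1 (w' 2).1) v ∈ e ∧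
          u = symZ F (symZ F' v ∩ (w' 0).1)) ↔ _
    rw [e0, e1, e2, e3, e4]
    refine and_congr_right fun l0 => and_congr_right fun l1 => and_congr_right fun _ =>
      and_congr_right fun m2 => and_congr_right fun m3 => ?_
    constructor
    · rintro ⟨q, hq, F, hF, F', hF', u, -, hu, v, -, hv, huv⟩
      refine ⟨q, (hγ q).1 hq, F, F', hF, hF', ?_⟩
      rw [he.fn.ap_eq hu, he.fn.ap_eq hv, huv]
    · rintro ⟨q, hq, F, F', hF, hF', huv⟩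
      have p1 := he.fn.ap_mem (ZFSet.pair_mem_prod.2 ⟨l0, m3⟩)
      have p2 := he.fn.ap_mem (ZFSet.pair_mem_prod.2 ⟨l1, m2⟩)
      exact ⟨q, (hγ q).2 hq, F, hF, F', hF', _, p1.1, p1.2, _, p2.1, p2.2, huv⟩
  rw [hz']
  constructor
  · intro hw
    refine ⟨ZFSet.pair_mem_prod.2 ⟨hρ, (hT' _).2 ⟨fun i => (w i).1, fun i => (w i).2, rfl⟩⟩,
      hN.pair_mem hρN (D.tup_mem hN hwN), Fin.snoc (α := fun _ => ExtZ M G) (fun i : Fin 4 => ⟨(w i).1, hwN i⟩)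
        ⟨_, hρN⟩, ?_, ?_⟩
    · have e4 : (Fin.snoc (α := fun _ => ExtZ M G) (fun i : Fin 4 => (⟨(w i).1, hwN i⟩ : ExtZ M G))
          ⟨ZFSet.pair μ.toZFSet (natZ r), hρN⟩ (4 : Fin 5)) = ⟨ZFSet.pair μ.toZFSet (natZ r), hρN⟩ :=
        Fin.snoc_last (α := fun _ => ExtZ M G) _ _
      simp only [Fin.snoc_castSucc]
      rw [e4]
    · refine (hCiff _ ?_ ?_).2 hw
      · have e4 : (Fin.snoc (α := fun _ => ExtZ M G) (fun i : Fin 4 => (⟨(w i).1, hwN i⟩ : ExtZ M G))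
            ⟨ZFSet.pair μ.toZFSet (natZ r), hρN⟩ (4 : Fin 5)) = ⟨ZFSet.pair μ.toZFSet (natZ r), hρN⟩ :=
          Fin.snoc_last (α := fun _ => ExtZ M G) _ _
        rw [e4]
      · intro i
        rw [Fin.snoc_castSucc]
  · rintro ⟨-, _, w', h3, h4⟩
    rw [ZFSet.pair_inj] at h3
    have h5 := D.tup_inj.1 h3.2
    exact (hCiff w' h3.1.symm fun i => (congrFun h5 i).symm).1 h4

theorem tt_inN (h : St M κ Ω lam s G) {e : ZFSet.{0}} (he : En M Ω e) {μ : Ordinal.{0}} (hμ : μ < lam) {r : ℕ}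
    (hr : r < 4) : InN (ExtZ M G) (TT κ Ω G e μ.toZFSet r) := by
  have hN : CTM (ExtZ M G) := h.fr.ctm
  have hMN : M ⊆ ExtZ M G := h.fr.sub
  obtain ⟨z, hz, hz'⟩ := tt_mem h he
  obtain ⟨T, hT, hT'⟩ := D.exists_tups hN (hMN h.bk.cv.hκN) 4
  have hρN : ZFSet.pair μ.toZFSet (natZ r) ∈ ExtZ M G := hN.pair_mem
    (hN.mem_of_mem (hMN h.bk.cv.hlamN) (Ordinal.toZFSet_mem_toZFSet_iff.2 hμ)) (hN.natZ_mem_N r)
  refine ⟨ZFSet.sep (fun t => ZFSet.pair (ZFSet.pair μ.toZFSet (natZ r)) t ∈ z) T, ?_, fun w => ?_⟩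
  · exact (PD.sep (hN := hN) (n := 0) (P := fun _ t => ZFSet.pair (ZFSet.pair μ.toZFSet (natZ r)) t ∈ z)
      (PD.const hT) (Df.mem (PD.pair (PD.const hρN) (PD.var _)) (PD.const hz))).1 Fin.elim0
  · rw [hz' μ r hμ hr w, ZFSet.mem_sep]
    exact ⟨fun h1 => ⟨(hT' _).2 ⟨fun i => (w i).1, fun i => (w i).2, rfl⟩, h1⟩, fun h1 => h1.2⟩

theorem act_set (h : St M κ Ω lam s G) : ∃ z ∈ ExtZ M G, ∀ (μ : Ordinal.{0}) (r : ℕ),
    (μ < lam ∧ r < 4 ∧ IsAct G (row μ.toZFSet r)) ↔ ZFSet.pair μ.toZFSet (natZ r) ∈ z := by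
  have hN : CTM (ExtZ M G) := h.fr.ctm
  have hMN : M ⊆ ExtZ M G := h.fr.sub
  obtain ⟨γ, hγN, hγ⟩ := h.fr.mem_g
  have hlN : lam.toZFSet ∈ ExtZ M G := hMN h.bk.cv.hlamN
  refine ⟨ZFSet.sep (fun x => ∃ q ∈ γ, ∃ ρ y t, ent ρ y t ∈ q ∧ ρ = x) (ZFSet.prod lam.toZFSet (natZ 4)), ?_,
    fun μ r => ?_⟩
  · refine (PD.sep (hN := hN) (n := 0) (P := fun _ x => ∃ q ∈ γ, ∃ ρ y t, ent ρ y t ∈ q ∧ ρ = x)
      (PD.const (hN.prod_mem hlN (hN.natZ_mem_N 4))) ?_).1 Fin.elim0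
    refine Df.bex (P := fun v q => ∃ ρ y t, ent ρ y t ∈ q ∧ ρ = (v (0 : Fin 1)).1) (PD.const hγN) ?_
    refine Df.exEnt (P := fun v ρ _ _ => ρ = (v (0 : Fin 2)).1) (PD.var _) ?_
    exact Df.eq (PD.var _) (PD.var _)
  · rw [ZFSet.mem_sep, ZFSet.pair_mem_prod, Ordinal.toZFSet_mem_toZFSet_iff, natZ_mem]
    constructor
    · rintro ⟨h1, h2, q, hq, y, t, h3⟩
      exact ⟨⟨h1, h2⟩, q, (hγ q).2 hq, _, y, t, h3, rfl⟩
    · rintro ⟨⟨h1, h2⟩, q, hq, _, y, t, h3, rfl⟩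
      exact ⟨h1, h2, q, (hγ q).1 hq, y, t, h3⟩

end Pool.Agent.H17.CF
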